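import Pool.Agent.Helper416_Stair.Defs

/-!
# Cremona moves preserve the form, the degree, the index and the cone `Nef`
-/

noncomputable section

open scoped BigOperators

namespace Pool.Agent.Helper416_Stair

variable {ι : Type*} [DecidableEq ι] {R : Type*} [CommRing R]

lemma sum_ind3 (S : Finset ι) {i j k : ι} (hi : i ∈ S) (hj : j ∈ S) (hk : k ∈ S)
    (hij : i ≠ j) (hik : i ≠ k) (hjk : j ≠ k) (f : ι → R) (c : R) :
    ∑ l ∈ S, f l * (if l = i ∨ l = j ∨ l = k then c else 0) = (f i + f j + f k) * c := by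
  have h1 : ∀ l ∈ S, f l * (if l = i ∨ l = j ∨ l = k then c else 0)
      = (if l = i then f i * c else 0) + (if l = j then f j * c else 0)
        + (if l = k then f k * c else 0) := by
    intro l _
    by_cases h1 : l = i
    · subst h1; simp [hij, hik]
    · by_cases h2 : l = j
      · subst h2; simp [h1, hjk]
      · by_cases h3 : l = k
        · subst h3; simp [h1, h2]
        · simp [h1, h2, h3]
  rw [Finset.sum_congr rfl h1, Finset.sum_add_distrib, Finset.sum_add_distrib]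
  simp only [Finset.sum_ite_eq', hi, hj, hk, if_true]
  ring

lemma sum_ind3' (S : Finset ι) {i j k : ι} (hi : i ∈ S) (hj : j ∈ S) (hk : k ∈ S)
    (hij : i ≠ j) (hik : i ≠ k) (hjk : j ≠ k) (c : R) :
    ∑ l ∈ S, (if l = i ∨ l = j ∨ l = k then c else 0) = 3 * c := by
  have := sum_ind3 S hi hj hk hij hik hjk (fun _ => (1 : R)) c
  simp only [one_mul] at this
  rw [this]; ring

theorem Bf_crem (S : Finset ι) {i j k : ι} (hi : i ∈ S) (hj : j ∈ S) (hk : k ∈ S)
    (hij : i ≠ j) (hik : i ≠ k) (hjk : j ≠ k) (v w : R × (ι → R)) :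
    Bf S (crem i j k v) (crem i j k w) = Bf S v w := by
  unfold Bf crem
  simp only
  set dv := v.1 - v.2 i - v.2 j - v.2 k with hdv
  set dw := w.1 - w.2 i - w.2 j - w.2 k with hdw
  have h1 : ∀ l ∈ S, (v.2 l + if l = i ∨ l = j ∨ l = k then dv else 0) *
      (w.2 l + if l = i ∨ l = j ∨ l = k then dw else 0)
      = v.2 l * w.2 l + v.2 l * (if l = i ∨ l = j ∨ l = k then dw else 0)
        + w.2 l * (if l = i ∨ l = j ∨ l = k then dv else 0)
        + (if l = i ∨ l = j ∨ l = k then dv * dw else 0) := by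
    intro l _
    split_ifs <;> ring
  rw [Finset.sum_congr rfl h1, Finset.sum_add_distrib, Finset.sum_add_distrib,
    Finset.sum_add_distrib, sum_ind3 S hi hj hk hij hik hjk, sum_ind3 S hi hj hk hij hik hjk,
    sum_ind3' S hi hj hk hij hik hjk]
  rw [hdv, hdw]
  ring

theorem Kd_crem (S : Finset ι) {i j k : ι} (hi : i ∈ S) (hj : j ∈ S) (hk : k ∈ S)
    (hij : i ≠ j) (hik : i ≠ k) (hjk : j ≠ k) (v : R × (ι → R)) :
    Kd S (crem i j k v) = Kd S v := by
  unfold Kd crem
  simp only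
  rw [Finset.sum_add_distrib, sum_ind3' S hi hj hk hij hik hjk]
  ring

theorem idx_crem (S : Finset ι) {i j k : ι} (hi : i ∈ S) (hj : j ∈ S) (hk : k ∈ S)
    (hij : i ≠ j) (hik : i ≠ k) (hjk : j ≠ k) (v : R × (ι → R)) :
    idx S (crem i j k v) = idx S v := by
  unfold idx
  rw [Bf_crem S hi hj hk hij hik hjk, Kd_crem S hi hj hk hij hik hjk]

theorem crem_crem {i j k : ι} (hij : i ≠ j) (hik : i ≠ k) (hjk : j ≠ k) (v : R × (ι → R)) :
    crem i j k (crem i j k v) = v := by
  unfold crem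
  ext l
  · simp [hij, hik, hjk, hij.symm, hik.symm, hjk.symm]; ring
  · simp only [true_or, or_true, if_true]
    split_ifs <;> ring

/-- the index as a sum -/
lemma idx_eq (S : Finset ι) (C : R × (ι → R)) :
    idx S C = C.1 ^ 2 + 3 * C.1 - ∑ i ∈ S, (C.2 i ^ 2 + C.2 i) := by
  unfold idx Bf Kd
  rw [Finset.sum_add_distrib]
  have : ∑ i ∈ S, C.2 i * C.2 i = ∑ i ∈ S, C.2 i ^ 2 := Finset.sum_congr rfl (fun _ _ => by ring)
  rw [this]; ring

omit [DecidableEq ι] in
lemma int_sq_add_nonneg (m : ℤ) : 0 ≤ m ^ 2 + m := by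
  rcases le_or_gt 0 m with h | h
  · positivity
  · nlinarith

theorem crem_deg_nonneg (S : Finset ι) {i j k : ι} (hi : i ∈ S) (hj : j ∈ S) (hk : k ∈ S)
    (hij : i ≠ j) (hik : i ≠ k) (hjk : j ≠ k) (C : ℤ × (ι → ℤ)) (hd : 0 ≤ C.1)
    (hI : 0 ≤ idx S C) : 0 ≤ (crem i j k C).1 := by
  have hI' := hI
  rw [← idx_crem S hi hj hk hij hik hjk, idx_eq] at hI'
  rw [idx_eq] at hI
  have hs : ∀ D : ℤ × (ι → ℤ), 0 ≤ ∑ i ∈ S, (D.2 i ^ 2 + D.2 i) :=
    fun D => Finset.sum_nonneg (fun i _ => int_sq_add_nonneg _)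
  by_contra hneg
  push Not at hneg
  have h1 : (crem i j k C).1 ≤ -3 := by
    by_contra h2
    push Not at h2
    have h3 : (crem i j k C).1 = -1 ∨ (crem i j k C).1 = -2 := by omega
    have := hs (crem i j k C)
    rcases h3 with h3 | h3 <;> rw [h3] at hI' <;> linarith
  have h2 : (crem i j k C).1 = 2 * C.1 - (C.2 i + C.2 j + C.2 k) := by
    unfold crem; simp only; ring
  have h3 : 2 * C.1 + 3 ≤ C.2 i + C.2 j + C.2 k := by linarith
  have h4 : (C.2 i ^ 2 + C.2 i) + (C.2 j ^ 2 + C.2 j) + (C.2 k ^ 2 + C.2 k)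
      ≤ ∑ l ∈ S, (C.2 l ^ 2 + C.2 l) := by
    have hsub : ({i, j, k} : Finset ι) ⊆ S := by
      intro l hl; simp at hl; rcases hl with rfl | rfl | rfl <;> assumption
    have := Finset.sum_le_sum_of_subset_of_nonneg (f := fun l => C.2 l ^ 2 + C.2 l) hsub
      (fun l _ _ => int_sq_add_nonneg _)
    rw [Finset.sum_insert (by simp [hij, hik]), Finset.sum_insert (by simp [hjk]),
      Finset.sum_singleton] at this
    linarith
  nlinarith [sq_nonneg (C.2 i - C.2 j), sq_nonneg (C.2 i - C.2 k), sq_nonneg (C.2 j - C.2 k),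
    sq_nonneg (C.2 i + C.2 j + C.2 k - (2 * C.1 + 3))]

/-- pairing only depends on the values on the index set -/
lemma Bf_congr (S : Finset ι) {v w v' w' : R × (ι → R)} (h1 : v.1 = v'.1) (h2 : w.1 = w'.1)
    (h3 : ∀ i ∈ S, v.2 i = v'.2 i) (h4 : ∀ i ∈ S, w.2 i = w'.2 i) : Bf S v w = Bf S v' w' := by
  unfold Bf
  rw [h1, h2, Finset.sum_congr rfl (fun i hi => by rw [h3 i hi, h4 i hi])]

/-- restriction of a class to an index set -/
def restr (S : Finset ι) (C : R × (ι → R)) : R × (ι → R) := (C.1, fun i => if i ∈ S then C.2 i else 0)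

lemma Bf_restr_of_subset {S T : Finset ι} (h : S ⊆ T) (v C : R × (ι → R)) :
    Bf T v (restr S C) = Bf S v C := by
  unfold Bf restr
  simp only
  congr 1
  rw [← Finset.sum_subset h]
  · exact Finset.sum_congr rfl (fun i hi => by simp [hi])
  · intro i _ hi; simp [hi]

lemma idx_restr_of_subset {S T : Finset ι} (h : S ⊆ T) (C : R × (ι → R)) :
    idx T (restr S C) = idx S C := by
  rw [idx_eq, idx_eq]
  unfold restr
  simp only
  congr 1
  rw [← Finset.sum_subset h]
  · exact Finset.sum_congr rfl (fun i hi => by simp [hi])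
  · intro i _ hi; simp [hi]

lemma toR_restr (S : Finset ι) (C : ℤ × (ι → ℤ)) : toR (restr S C) = restr S (toR C) := by
  unfold toR restr
  ext l
  · rfl
  · simp only; split_ifs <;> simp

lemma toR_crem (i j k : ι) (C : ℤ × (ι → ℤ)) : toR (crem i j k C) = crem i j k (toR C) := by
  unfold toR crem
  ext l
  · simp
  · simp only; split_ifs <;> simp

/-- `Nef` is invariant under Cremona moves -/
theorem nef_crem {i j k : ι} (hij : i ≠ j) (hik : i ≠ k) (hjk : j ≠ k) (v : ℝ × (ι → ℝ))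
    (h : Nef v) : Nef (crem i j k v) := by
  intro S C hd hI
  set T : Finset ι := S ∪ {i, j, k} with hT
  have hST : S ⊆ T := Finset.subset_union_left
  have hi : i ∈ T := by simp [hT]
  have hj : j ∈ T := by simp [hT]
  have hk : k ∈ T := by simp [hT]
  have h1 : Bf S (crem i j k v) (toR C) = Bf T v (toR (crem i j k (restr S C))) := by
    rw [toR_crem, ← Bf_crem T hi hj hk hij hik hjk v, crem_crem hij hik hjk, toR_restr,
      Bf_restr_of_subset hST]
  rw [h1]
  have hI' : 0 ≤ idx T (restr S C) := by rw [idx_restr_of_subset hST]; exact hI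
  apply h
  · exact crem_deg_nonneg T hi hj hk hij hik hjk _ hd hI'
  · rw [idx_crem T hi hj hk hij hik hjk]; exact hI'

end Pool.Agent.Helper416_Stair
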