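import Pool.Agent.Helper416_Stair.A1

/-!
# Reduced vectors are nef
-/

noncomputable section

open scoped BigOperators

namespace Pool.Agent.Helper416_Stair

variable {ι : Type*} [DecidableEq ι]

/-- the three largest entries of a function on a finite set with at least three elements -/
lemma exists_top3 (S : Finset ι) (hS : 3 ≤ S.card) (m : ι → ℤ) :
    ∃ i ∈ S, ∃ j ∈ S, ∃ k ∈ S, i ≠ j ∧ i ≠ k ∧ j ≠ k ∧ m j ≤ m i ∧ m k ≤ m j ∧
      ∀ l ∈ S, l ≠ i → l ≠ j → m l ≤ m k := by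
  have h1 : S.Nonempty := Finset.card_pos.mp (by omega)
  obtain ⟨i, hi, hi'⟩ := S.exists_max_image m h1
  have h2 : (S.erase i).Nonempty := Finset.card_pos.mp (by rw [Finset.card_erase_of_mem hi]; omega)
  obtain ⟨j, hj, hj'⟩ := (S.erase i).exists_max_image m h2
  have h3 : ((S.erase i).erase j).Nonempty :=
    Finset.card_pos.mp (by rw [Finset.card_erase_of_mem hj, Finset.card_erase_of_mem hi]; omega)
  obtain ⟨k, hk, hk'⟩ := ((S.erase i).erase j).exists_max_image m h3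
  have hj2 := Finset.mem_erase.mp hj
  have hk2 := Finset.mem_erase.mp hk
  have hk3 := Finset.mem_erase.mp hk2.2
  refine ⟨i, hi, j, hj2.2, k, hk3.2, hj2.1.symm, hk3.1.symm, hk2.1.symm, hi' _ hj2.2,
    hj' _ hk2.2, ?_⟩
  intro l hl h4 h5
  exact hk' l (Finset.mem_erase.mpr ⟨h5, Finset.mem_erase.mpr ⟨h4, hl⟩⟩)

/-- a class of nonnegative index satisfying the triple inequalities has nonnegative square -/
lemma sq_le_of_triples (S : Finset ι) (hS : 3 ≤ S.card) (d : ℤ) (m : ι → ℤ)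
    (hm : ∀ i ∈ S, 0 ≤ m i)
    (h3 : ∀ i ∈ S, ∀ j ∈ S, ∀ k ∈ S, i ≠ j → i ≠ k → j ≠ k → m i + m j + m k ≤ d)
    (hI : ∑ i ∈ S, (m i ^ 2 + m i) ≤ d ^ 2 + 3 * d) : ∑ i ∈ S, m i ^ 2 ≤ d ^ 2 := by
  rw [Finset.sum_add_distrib] at hI
  by_cases hcase : 3 * d ≤ ∑ i ∈ S, m i
  · linarith
  push Not at hcase
  obtain ⟨i, hi, j, hj, k, hk, hij, hik, hjk, h1, h2, hl⟩ := exists_top3 S hS m
  have hsum : ∑ l ∈ S, m l ^ 2 ≤ m i ^ 2 + m j ^ 2 + m k * (∑ l ∈ S, m l - m i - m j) := by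
    have e1 : ∑ l ∈ S, m l ^ 2 = m i ^ 2 + (m j ^ 2 + ∑ l ∈ (S.erase i).erase j, m l ^ 2) := by
      rw [← Finset.add_sum_erase _ _ hi,
        ← Finset.add_sum_erase (S.erase i) _ (Finset.mem_erase.mpr ⟨hij.symm, hj⟩)]
    have e2 : ∑ l ∈ S, m l = m i + (m j + ∑ l ∈ (S.erase i).erase j, m l) := by
      rw [← Finset.add_sum_erase _ _ hi,
        ← Finset.add_sum_erase (S.erase i) _ (Finset.mem_erase.mpr ⟨hij.symm, hj⟩)]
    have e3 : ∑ l ∈ (S.erase i).erase j, m l ^ 2 ≤ ∑ l ∈ (S.erase i).erase j, m k * m l := by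
      apply Finset.sum_le_sum
      intro l hl'
      have h4 := Finset.mem_erase.mp hl'
      have h5 := Finset.mem_erase.mp h4.2
      have := hl l h5.2 h5.1 h4.1
      have := hm l h5.2
      nlinarith
    rw [e1, e2, ← Finset.mul_sum] at *
    linarith
  have hd := h3 i hi j hj k hk hij hik hjk
  have := hm i hi
  have := hm j hj
  have hk0 := hm k hk
  have h6 : m k * (∑ l ∈ S, m l - m i - m j) ≤ m k * (3 * d - m i - m j) := by
    apply mul_le_mul_of_nonneg_left _ hk0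
    linarith
  nlinarith [mul_nonneg (sub_nonneg.mpr hd) (by linarith : 0 ≤ d + (m i + m j + m k) - 3 * m k),
    mul_nonneg (sub_nonneg.mpr h1) (by linarith : (0:ℤ) ≤ m j), mul_nonneg (sub_nonneg.mpr h2) hk0,
    mul_nonneg (sub_nonneg.mpr (h2.trans h1)) hk0]

/-- positive part of the multiplicities on `S`, zero outside -/
def posPart (S : Finset ι) (C : ℤ × (ι → ℤ)) : ℤ × (ι → ℤ) :=
  (C.1, fun i => if i ∈ S then max (C.2 i) 0 else 0)

lemma idx_posPart (S T : Finset ι) (hST : S ⊆ T) (C : ℤ × (ι → ℤ)) :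
    idx S C ≤ idx T (posPart S C) := by
  rw [idx_eq, idx_eq]
  have : ∑ i ∈ T, ((posPart S C).2 i ^ 2 + (posPart S C).2 i) ≤ ∑ i ∈ S, (C.2 i ^ 2 + C.2 i) := by
    rw [← Finset.sum_subset hST]
    · apply Finset.sum_le_sum
      intro i hi
      simp only [posPart, hi, if_true]
      rcases le_total (C.2 i) 0 with h | h
      · rw [max_eq_right h]; simpa using int_sq_add_nonneg (C.2 i)
      · rw [max_eq_left h]
    · intro i _ hi; simp [posPart, hi]
  have h1 : (posPart S C).1 = C.1 := rfl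
  rw [h1]; linarith

lemma Bf_posPart (S T : Finset ι) (hST : S ⊆ T) (v : ℝ × (ι → ℝ)) (hv : ∀ i, 0 ≤ v.2 i)
    (C : ℤ × (ι → ℤ)) : Bf T v (toR (posPart S C)) ≤ Bf S v (toR C) := by
  unfold Bf
  have : ∑ i ∈ S, v.2 i * (toR C).2 i ≤ ∑ i ∈ T, v.2 i * (toR (posPart S C)).2 i := by
    rw [← Finset.sum_subset hST (f := fun i => v.2 i * (toR (posPart S C)).2 i)]
    · apply Finset.sum_le_sum
      intro i hi
      apply mul_le_mul_of_nonneg_left _ (hv i)
      simp only [toR, posPart, hi, if_true]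
      exact_mod_cast le_max_left _ _
    · intro i _ hi; simp [posPart, toR, hi]
  have h1 : (toR (posPart S C)).1 = (toR C).1 := rfl
  rw [h1]; linarith

/-- pairing after a Cremona move on the class only -/
lemma Bf_crem_right {R : Type*} [CommRing R] (S : Finset ι) {i j k : ι} (hi : i ∈ S) (hj : j ∈ S)
    (hk : k ∈ S) (hij : i ≠ j) (hik : i ≠ k) (hjk : j ≠ k) (v C : R × (ι → R)) :
    Bf S v (crem i j k C) = Bf S v C
      + (C.1 - C.2 i - C.2 j - C.2 k) * (v.1 - v.2 i - v.2 j - v.2 k) := by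
  unfold Bf crem
  simp only
  have h1 : ∀ l ∈ S, v.2 l * (C.2 l + if l = i ∨ l = j ∨ l = k then C.1 - C.2 i - C.2 j - C.2 k
      else 0) = v.2 l * C.2 l + v.2 l * (if l = i ∨ l = j ∨ l = k then
        C.1 - C.2 i - C.2 j - C.2 k else 0) := by
    intro l _; ring
  rw [Finset.sum_congr rfl h1, Finset.sum_add_distrib, sum_ind3 S hi hj hk hij hik hjk]
  ring

/-- light cone inequality -/
lemma Bf_nonneg_of_sq (S : Finset ι) (v C : ℝ × (ι → ℝ)) (hv : 0 ≤ v.1) (hC : 0 ≤ C.1)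
    (h1 : ∑ i ∈ S, v.2 i ^ 2 ≤ v.1 ^ 2) (h2 : ∑ i ∈ S, C.2 i ^ 2 ≤ C.1 ^ 2) : 0 ≤ Bf S v C := by
  unfold Bf
  have h3 := Finset.sum_mul_sq_le_sq_mul_sq S v.2 C.2
  have h4 : (∑ i ∈ S, v.2 i * C.2 i) ^ 2 ≤ (v.1 * C.1) ^ 2 := by
    calc (∑ i ∈ S, v.2 i * C.2 i) ^ 2 ≤ (∑ i ∈ S, v.2 i ^ 2) * (∑ i ∈ S, C.2 i ^ 2) := h3
      _ ≤ v.1 ^ 2 * C.1 ^ 2 := by
        apply mul_le_mul h1 h2 (Finset.sum_nonneg (fun i _ => sq_nonneg _)) (sq_nonneg _)
      _ = (v.1 * C.1) ^ 2 := by ring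
  have h5 := abs_le_of_sq_le_sq' h4 (mul_nonneg hv hC)
  linarith [h5.2]

theorem nef_of_reduced [Infinite ι] (v : ℝ × (ι → ℝ)) (hr : 0 ≤ v.1) (ha : ∀ i, 0 ≤ v.2 i)
    (hred : ∀ i j k, i ≠ j → i ≠ k → j ≠ k → v.2 i + v.2 j + v.2 k ≤ v.1)
    (hsq : ∀ S : Finset ι, ∑ i ∈ S, v.2 i ^ 2 ≤ v.1 ^ 2) : Nef v := by
  -- main claim by strong induction on the degree
  have main : ∀ n : ℕ, ∀ (S : Finset ι) (C : ℤ × (ι → ℤ)), C.1 = n → 3 ≤ S.card →
      (∀ i ∈ S, 0 ≤ C.2 i) → 0 ≤ idx S C → 0 ≤ Bf S v (toR C) := by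
    intro n
    induction n using Nat.strong_induction_on with
    | _ n ih =>
      intro S C hn hcard hm hI
      by_cases hex : ∃ i ∈ S, ∃ j ∈ S, ∃ k ∈ S, i ≠ j ∧ i ≠ k ∧ j ≠ k ∧
          C.1 < C.2 i + C.2 j + C.2 k
      · obtain ⟨i, hi, j, hj, k, hk, hij, hik, hjk, hlt⟩ := hex
        have hd0 : 0 ≤ C.1 := by rw [hn]; positivity
        have hdeg := crem_deg_nonneg S hi hj hk hij hik hjk C hd0 hI
        have hdeg2 : (crem i j k C).1 < C.1 := by
          unfold crem; simp only; linarith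
        set C' := crem i j k C with hC'
        have hI' : 0 ≤ idx S C' := by rw [hC', idx_crem S hi hj hk hij hik hjk]; exact hI
        set C'' := posPart S C' with hC''
        have hI'' : 0 ≤ idx S C'' := le_trans hI' (idx_posPart S S (Finset.Subset.refl _) C')
        obtain ⟨n', hn'⟩ := Int.eq_ofNat_of_zero_le hdeg
        have hn'' : n' < n := by
          have : (n' : ℤ) < n := by rw [← hn', ← hn]; exact hdeg2
          exact_mod_cast this
        have h1 := ih n' hn'' S C'' hn' hcard (by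
          intro l hl; simp [hC'', posPart, hl]) hI''
        have h2 := Bf_posPart S S (Finset.Subset.refl _) v ha C'
        have h3 : Bf S v (toR C') = Bf S v (toR C)
            + ((toR C).1 - (toR C).2 i - (toR C).2 j - (toR C).2 k)
              * (v.1 - v.2 i - v.2 j - v.2 k) := by
          rw [hC', toR_crem, Bf_crem_right S hi hj hk hij hik hjk]
        have h4 : (toR C).1 - (toR C).2 i - (toR C).2 j - (toR C).2 k ≤ 0 := by
          simp only [toR]
          have : ((C.1 : ℤ) : ℝ) < ((C.2 i + C.2 j + C.2 k : ℤ) : ℝ) := by exact_mod_cast hlt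
          push_cast at this
          linarith
        have h5 : 0 ≤ v.1 - v.2 i - v.2 j - v.2 k := by
          have := hred i j k hij hik hjk; linarith
        have h6 := mul_nonpos_of_nonpos_of_nonneg h4 h5
        linarith
      · push Not at hex
        have hI2 : ∑ i ∈ S, (C.2 i ^ 2 + C.2 i) ≤ C.1 ^ 2 + 3 * C.1 := by
          rw [idx_eq] at hI; linarith
        have hsq2 := sq_le_of_triples S hcard C.1 C.2 hm
          (fun i hi j hj k hk h1 h2 h3 => hex i hi j hj k hk h1 h2 h3) hI2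
        apply Bf_nonneg_of_sq S v (toR C) hr
        · simp only [toR]
          have : (0 : ℤ) ≤ C.1 := by rw [hn]; positivity
          exact_mod_cast this
        · exact hsq S
        · simp only [toR]
          exact_mod_cast hsq2
  intro S C hd hI
  obtain ⟨T, hT, hcard⟩ := Infinite.exists_superset_card_eq S (S.card + 3) (by omega)
  obtain ⟨n, hn⟩ := Int.eq_ofNat_of_zero_le hd
  have h1 := main n T (posPart S C) hn (by omega) (by
    intro i _; simp only [posPart]; split_ifs <;> simp)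
    (le_trans hI (idx_posPart S T hT C))
  exact le_trans h1 (Bf_posPart S T hT v ha C)

end Pool.Agent.Helper416_Stair
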