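import Pool.Agent.Helper416_Stair.A2

/-!
# The thin lemma
-/

noncomputable section

open scoped BigOperators

namespace Pool.Agent.Helper416_Stair

variable {ι : Type*} [DecidableEq ι]

lemma crem_fst {R : Type*} [CommRing R] (i j k : ι) (v : R × (ι → R)) :
    (crem i j k v).1 = v.1 + (v.1 - v.2 i - v.2 j - v.2 k) := rfl

lemma crem_snd_of_ne {R : Type*} [CommRing R] {i j k l : ι} (h1 : l ≠ i) (h2 : l ≠ j) (h3 : l ≠ k)
    (v : R × (ι → R)) : (crem i j k v).2 l = v.2 l := by
  simp [crem, h1, h2, h3]

lemma crem_snd_of_eq {R : Type*} [CommRing R] {i j k l : ι} (h : l = i ∨ l = j ∨ l = k)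
    (v : R × (ι → R)) : (crem i j k v).2 l = v.2 l + (v.1 - v.2 i - v.2 j - v.2 k) := by
  simp [crem, h]

/-- the square condition is Cremona invariant -/
lemma sq_crem {i j k : ι} (hij : i ≠ j) (hik : i ≠ k) (hjk : j ≠ k) (v : ℝ × (ι → ℝ))
    (hsq : ∀ S : Finset ι, ∑ i ∈ S, v.2 i ^ 2 ≤ v.1 ^ 2) (S : Finset ι) :
    ∑ l ∈ S, (crem i j k v).2 l ^ 2 ≤ (crem i j k v).1 ^ 2 := by
  set T : Finset ι := S ∪ {i, j, k} with hT
  have hST : S ⊆ T := Finset.subset_union_left
  have hi : i ∈ T := by simp [hT]
  have hj : j ∈ T := by simp [hT]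
  have hk : k ∈ T := by simp [hT]
  have h1 := Bf_crem T hi hj hk hij hik hjk v v
  unfold Bf at h1
  have h2 : ∑ l ∈ T, (crem i j k v).2 l * (crem i j k v).2 l = ∑ l ∈ T, (crem i j k v).2 l ^ 2 :=
    Finset.sum_congr rfl (fun _ _ => by ring)
  have h3 : ∑ l ∈ T, v.2 l * v.2 l = ∑ l ∈ T, v.2 l ^ 2 :=
    Finset.sum_congr rfl (fun _ _ => by ring)
  rw [h2, h3] at h1
  have h4 := hsq T
  have h5 : ∑ l ∈ S, (crem i j k v).2 l ^ 2 ≤ ∑ l ∈ T, (crem i j k v).2 l ^ 2 :=
    Finset.sum_le_sum_of_subset_of_nonneg hST (fun _ _ _ => sq_nonneg _)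
  nlinarith

/-- the situation of the thin lemma with pairwise inequalities is reduced -/
lemma nef_of_pairs [Infinite ι] (v : ℝ × (ι → ℝ)) (i₁ : ι) (f : ℝ) (hf : 0 ≤ f)
    (h1 : v.2 i₁ = v.1 - f) (h0 : ∀ i, i ≠ i₁ → 0 ≤ v.2 i ∧ v.2 i ≤ f)
    (hsq : ∀ S : Finset ι, ∑ i ∈ S, v.2 i ^ 2 ≤ v.1 ^ 2)
    (hpair : ∀ i j, i ≠ i₁ → j ≠ i₁ → i ≠ j → v.2 i + v.2 j ≤ f) (hbig : 2 * f ≤ v.1) :
    Nef v := by
  apply nef_of_reduced v (by linarith)
  · intro i
    by_cases hi : i = i₁
    · rw [hi, h1]; linarith
    · exact (h0 i hi).1
  · intro i j k hij hik hjk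
    by_cases hi : i = i₁
    · have := hpair j k (by rw [← hi]; exact hij.symm) (by rw [← hi]; exact hik.symm) hjk
      rw [hi, h1]; linarith
    · by_cases hj : j = i₁
      · have := hpair i k hi (by rw [← hj]; exact hjk.symm) hik
        rw [hj, h1]; linarith
      · by_cases hk : k = i₁
        · have := hpair i j hi hj hij
          rw [hk, h1]; linarith
        · have := hpair i j hi hj hij
          have := (h0 k hk).2
          linarith
  · exact hsq

theorem nef_of_thin [Infinite ι] (v : ℝ × (ι → ℝ)) (i₁ : ι) (f : ℝ) (hf : 0 ≤ f)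
    (h1 : v.2 i₁ = v.1 - f) (h0 : ∀ i, i ≠ i₁ → 0 ≤ v.2 i ∧ v.2 i ≤ f)
    (hfin : ∀ η > 0, {i | i ≠ i₁ ∧ η ≤ v.2 i}.Finite)
    (hsq : ∀ S : Finset ι, ∑ i ∈ S, v.2 i ^ 2 ≤ v.1 ^ 2)
    (hbig : ∀ S : Finset ι, i₁ ∉ S → 2 * f ≤ v.1 - ∑ i ∈ S, max (v.2 i - f / 2) 0) :
    Nef v := by
  -- reformulate: `H` is a finite set containing all `i ≠ i₁` with `v_i > f/2`
  have main : ∀ n : ℕ, ∀ (H : Finset ι) (v : ℝ × (ι → ℝ)), H.card = n → i₁ ∉ H →
      v.2 i₁ = v.1 - f → (∀ i, i ≠ i₁ → 0 ≤ v.2 i ∧ v.2 i ≤ f) →
      (∀ η > 0, {i | i ≠ i₁ ∧ η ≤ v.2 i}.Finite) →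
      (∀ S : Finset ι, ∑ i ∈ S, v.2 i ^ 2 ≤ v.1 ^ 2) →
      (∀ i, i ≠ i₁ → i ∉ H → v.2 i ≤ f / 2) → (∀ i ∈ H, f / 2 ≤ v.2 i) →
      2 * f ≤ v.1 - ∑ i ∈ H, (v.2 i - f / 2) → Nef v := by
    intro n
    induction n using Nat.strong_induction_on with
    | _ n ih =>
      intro H v hn hH h1 h0 hfin hsq hsmall hlarge hbig
      have hsumnn : 0 ≤ ∑ i ∈ H, (v.2 i - f / 2) :=
        Finset.sum_nonneg (fun i hi => by have := hlarge i hi; linarith)
      have hr2 : 2 * f ≤ v.1 := by linarith
      by_cases hc : 2 ≤ H.card
      · -- two large entries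
        obtain ⟨i, hi, j, hj, hij⟩ := Finset.one_lt_card.mp (by omega : 1 < H.card)
        have hi1 : i₁ ≠ i := fun h => hH (h ▸ hi)
        have hj1 : i₁ ≠ j := fun h => hH (h ▸ hj)
        have hδ : v.1 - v.2 i₁ - v.2 i - v.2 j = f - v.2 i - v.2 j := by rw [h1]; ring
        have hNef : Nef (crem i₁ i j v) := by
          have hH' : ((H.erase i).erase j).card < n := by
            rw [Finset.card_erase_of_mem (Finset.mem_erase.mpr ⟨hij.symm, hj⟩),
              Finset.card_erase_of_mem hi]; omega
          apply ih _ hH' ((H.erase i).erase j) (crem i₁ i j v) rfl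
          · simp [hH]
          · rw [crem_snd_of_eq (Or.inl rfl), crem_fst, h1]; ring
          · intro l hl
            by_cases h2 : l = i
            · rw [crem_snd_of_eq (by right; left; exact h2), hδ, h2]
              have := h0 j hj1.symm; have := hlarge i hi; have := hlarge j hj
              constructor <;> linarith
            · by_cases h3 : l = j
              · rw [crem_snd_of_eq (by right; right; exact h3), hδ, h3]
                have := h0 i hi1.symm; have := hlarge i hi; have := hlarge j hj
                constructor <;> linarith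
              · rw [crem_snd_of_ne hl h2 h3]; exact h0 l hl
          · intro η hη
            apply ((hfin η hη).union (Set.toFinite {i, j})).subset
            intro l hl
            by_cases h2 : l = i
            · right; simp [h2]
            · by_cases h3 : l = j
              · right; simp [h3]
              · left
                have hl' := hl.2
                rw [crem_snd_of_ne hl.1 h2 h3] at hl'
                exact ⟨hl.1, hl'⟩
          · exact sq_crem hi1 hj1 hij v hsq
          · intro l hl hlH
            by_cases h2 : l = i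
            · rw [crem_snd_of_eq (by right; left; exact h2), hδ, h2]
              have := hlarge j hj
              linarith
            · by_cases h3 : l = j
              · rw [crem_snd_of_eq (by right; right; exact h3), hδ, h3]
                have := hlarge i hi
                linarith
              · rw [crem_snd_of_ne hl h2 h3]
                apply hsmall l hl
                intro h4
                exact hlH (Finset.mem_erase.mpr ⟨h3, Finset.mem_erase.mpr ⟨h2, h4⟩⟩)
          · intro l hl
            have h3 := Finset.mem_erase.mp hl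
            have h2 := Finset.mem_erase.mp h3.2
            rw [crem_snd_of_ne (fun h : l = i₁ => hH (by rw [← h]; exact h2.2)) h2.1 h3.1]
            exact hlarge l h2.2
          · have e1 : ∑ l ∈ (H.erase i).erase j, ((crem i₁ i j v).2 l - f / 2)
                = ∑ l ∈ (H.erase i).erase j, (v.2 l - f / 2) := by
              apply Finset.sum_congr rfl
              intro l hl
              have h3 := Finset.mem_erase.mp hl
              have h2 := Finset.mem_erase.mp h3.2
              rw [crem_snd_of_ne (fun h : l = i₁ => hH (by rw [← h]; exact h2.2)) h2.1 h3.1]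
            have e2 : ∑ l ∈ H, (v.2 l - f / 2) = (v.2 i - f / 2) + ((v.2 j - f / 2)
                + ∑ l ∈ (H.erase i).erase j, (v.2 l - f / 2)) := by
              rw [← Finset.add_sum_erase _ _ hi,
                ← Finset.add_sum_erase (H.erase i) _ (Finset.mem_erase.mpr ⟨hij.symm, hj⟩)]
            rw [e1, crem_fst, hδ]
            linarith
        have := nef_crem hi1 hj1 hij _ hNef
        rwa [crem_crem hi1 hj1 hij] at this
      · -- at most one large entry
        by_cases hc1 : ∃ i, i ∈ H ∧ ∃ j, j ≠ i₁ ∧ j ≠ i ∧ f < v.2 i + v.2 j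
        · obtain ⟨i, hi, j₀, hj₀, hj₀i, hlt⟩ := hc1
          have hHi : ∀ l ∈ H, l = i := by
            intro l hl
            exact Finset.card_le_one.mp (by omega) l hl i hi
          have hi1 : i₁ ≠ i := fun h => hH (h ▸ hi)
          have hif := (h0 i hi1.symm).2
          have hpos : 0 < v.2 j₀ := by linarith
          -- choose `j` with maximal entry
          have hfin' : ({l | l ≠ i₁ ∧ l ≠ i ∧ v.2 j₀ ≤ v.2 l}).Finite :=
            (hfin _ hpos).subset (fun l hl => ⟨hl.1, hl.2.2⟩)
          obtain ⟨j, hjm, hjmax⟩ := hfin'.exists_maximalFor v.2 _ ⟨j₀, hj₀, hj₀i, le_refl _⟩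
          have hj1 : j ≠ i₁ := hjm.1
          have hji : j ≠ i := hjm.2.1
          have hjj : v.2 j₀ ≤ v.2 j := hjm.2.2
          have hjmax' : ∀ l, l ≠ i₁ → l ≠ i → v.2 l ≤ v.2 j := by
            intro l hl1 hl2
            rcases le_or_gt (v.2 j₀) (v.2 l) with h | h
            · rcases le_total (v.2 l) (v.2 j) with h' | h'
              · exact h'
              · exact hjmax ⟨hl1, hl2, h⟩ h'
            · linarith
          have hjH : j ∉ H := fun h => hji (hHi j h)
          have hjs := hsmall j hj1 hjH
          have hδ : v.1 - v.2 i₁ - v.2 i - v.2 j = f - v.2 i - v.2 j := by rw [h1]; ring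
          have hsumH : ∑ l ∈ H, (v.2 l - f / 2) = v.2 i - f / 2 := by
            have : H = {i} := by
              ext l; constructor
              · intro h; simp [hHi l h]
              · intro h; simp at h; rw [h]; exact hi
            rw [this, Finset.sum_singleton]
          rw [hsumH] at hbig
          have hli := hlarge i hi
          have hNef : Nef (crem i₁ i j v) := by
            apply nef_of_pairs (crem i₁ i j v) i₁ f hf
            · rw [crem_snd_of_eq (Or.inl rfl), crem_fst, h1]; ring
            · intro l hl
              by_cases h2 : l = i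
              · rw [crem_snd_of_eq (by right; left; exact h2), hδ, h2]
                have := h0 j hj1
                constructor <;> linarith
              · by_cases h3 : l = j
                · rw [crem_snd_of_eq (by right; right; exact h3), hδ, h3]
                  constructor <;> linarith
                · rw [crem_snd_of_ne hl h2 h3]; exact h0 l hl
            · exact sq_crem hi1 hj1.symm hji.symm v hsq
            · -- pairs
              have key : ∀ l, l ≠ i₁ → l ≠ i → (crem i₁ i j v).2 l ≤ v.2 j := by
                intro l hl h2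
                by_cases h3 : l = j
                · rw [crem_snd_of_eq (by right; right; exact h3), hδ, h3]; linarith
                · rw [crem_snd_of_ne hl h2 h3]; exact hjmax' l hl h2
              have keyi : (crem i₁ i j v).2 i = f - v.2 j := by
                rw [crem_snd_of_eq (by right; left; rfl), hδ]; ring
              intro l l' hl hl' hll
              by_cases h2 : l = i
              · have := key l' hl' (fun h => hll (h2.trans h.symm))
                rw [h2, keyi]; linarith
              · by_cases h2' : l' = i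
                · have := key l hl h2
                  rw [h2', keyi]; linarith
                · have := key l hl h2
                  have := key l' hl' h2'
                  linarith
            · rw [crem_fst, hδ]; linarith
          have := nef_crem hi1 hj1.symm hji.symm _ hNef
          rwa [crem_crem hi1 hj1.symm hji.symm] at this
        · push Not at hc1
          apply nef_of_pairs v i₁ f hf h1 h0 hsq _ hr2
          intro l l' hl hl' hll
          by_cases h2 : l ∈ H
          · exact hc1 l h2 l' hl' hll.symm
          · by_cases h3 : l' ∈ H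
            · have := hc1 l' h3 l hl hll
              linarith
            · have := hsmall l hl h2
              have := hsmall l' hl' h3
              linarith
  -- apply the claim
  by_cases hf0 : f = 0
  · apply nef_of_pairs v i₁ f hf h1 h0 hsq
    · intro i j hi hj _
      have := (h0 i hi).2; have := (h0 j hj).2; rw [hf0] at *; linarith
    · have := hbig ∅ (by simp)
      simpa using this
  have hfpos : 0 < f / 2 := by positivity
  set H : Finset ι := (hfin (f / 2) hfpos).toFinset with hHdef
  have hmem : ∀ i, i ∈ H ↔ i ≠ i₁ ∧ f / 2 ≤ v.2 i := by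
    intro i; rw [hHdef, Set.Finite.mem_toFinset]; rfl
  have hH1 : i₁ ∉ H := by rw [hmem]; tauto
  apply main H.card H v rfl hH1 h1 h0 hfin hsq
  · intro i hi hiH
    by_contra h
    push Not at h
    exact hiH ((hmem i).mpr ⟨hi, h.le⟩)
  · intro i hi; exact ((hmem i).mp hi).2
  · have := hbig H hH1
    have e : ∑ i ∈ H, max (v.2 i - f / 2) 0 = ∑ i ∈ H, (v.2 i - f / 2) := by
      apply Finset.sum_congr rfl
      intro i hi
      apply max_eq_left
      have := ((hmem i).mp hi).2
      linarith
    rw [e] at this
    exact this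

end Pool.Agent.Helper416_Stair
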