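import Pool.Agent.Helper416_Stair.A1

/-!
# Cremona reduction of an isotropic nef class
-/

noncomputable section

open scoped BigOperators Pointwise

namespace Pool.Agent.Helper416_Stair



variable {ι : Type*} [DecidableEq ι] {R : Type*} [CommRing R]

















/-
JOB A4 (helper416, MP_f690a7_gt).  Cremona reduction of an isotropic nef class of degree 2.

Plain proof.  `F = (d; F_i)` integral, zero off `S`, `F·F = 0`, `Kd F = 2`, nef.  Nefness against `(0; -e_i)` (index 0) and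
`(1; 0)` (index 4) gives `F_i ≥ 0`, `d ≥ 0`.  Strong induction on `d`.
If there are distinct `i, j, k ∈ S` with `F_i, F_j, F_k > 0` and `d < F_i + F_j + F_k`: `crem i j k F` has the same properties
(zero off `S`, form, degree, nef) and first coordinate `2d - F_i - F_j - F_k < d`; append the move to the word.
Otherwise take the largest entries `x ≥ y ≥ z` of `F` on `S` (0 if `S` is too small).  If `z > 0` then `d ≥ x + y + z` and
`d² = ∑ F_i² ≤ x² + y² + z (∑ F_i - x - y) = x² + y² + z (3d - 2 - x - y) ≤ d² - 2z`, a contradiction (use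
`d² - x² - y² - z(3d - x - y) = (d-(x+y+z))(d+x+y+z-3z) + 2(xy - z²) ≥ 0`).  If `z = 0`: `x² + y² = d²`, `x + y = 3d - 2`, so
`(3d-2)² ≤ 2 d²`, `d = 1`, `x + y = 1`, i.e. `F = (1; e_{i₁})`.  (`d = 0` is impossible: then `F = 0` on `S`, `Kd = 0`.)
-/

/-- successive Cremona moves, the head of the list last -/
def act {R : Type*} [CommRing R] (l : List (ι × ι × ι)) (v : R × (ι → R)) : R × (ι → R) :=
  l.foldr (fun t v => crem t.1 t.2.1 t.2.2 v) v

/-- all triples consist of three distinct elements of `S` -/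
def GoodWord (S : Finset ι) (l : List (ι × ι × ι)) : Prop :=
  ∀ t ∈ l, t.1 ∈ S ∧ t.2.1 ∈ S ∧ t.2.2 ∈ S ∧ t.1 ≠ t.2.1 ∧ t.1 ≠ t.2.2 ∧ t.2.1 ≠ t.2.2

theorem aux_A4_nonneg (F : ℤ × (ι → ℤ)) (hN : Nef (toR F)) (i : ι) : 0 ≤ F.2 i := by
  have h := hN {i} (0, fun j => if j = i then -1 else 0) (by simp) (by simp [idx, Bf, Kd])
  simp [Bf, toR] at h
  exact_mod_cast h

theorem aux_A4_deg (F : ℤ × (ι → ℤ)) (hN : Nef (toR F)) : 0 ≤ F.1 := by
  have h := hN ∅ (1, fun j => 0) (by simp) (by simp [idx, Bf, Kd])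
  simp [Bf, toR] at h
  exact_mod_cast h

theorem aux_A4_base (S : Finset ι) (d : ℤ) (f : ι → ℤ) (hd : 0 ≤ d) (hf : ∀ i, 0 ≤ f i)
    (h0 : d * d - ∑ i ∈ S, f i * f i = 0) (hK : 3 * d - ∑ i ∈ S, f i = 2)
    (hno : ∀ i ∈ S, ∀ j ∈ S, ∀ k ∈ S, i ≠ j → i ≠ k → j ≠ k → f i + f j + f k ≤ d) :
    d = 1 ∧ ∃ i₁ ∈ S, f i₁ = 1 ∧ ∀ i ∈ S, i ≠ i₁ → f i = 0 := by
  classical
  set P := S.filter (fun i => 0 < f i) with hP
  have hPS : P ⊆ S := Finset.filter_subset _ _
  have hPz : ∀ i ∈ S, i ∉ P → f i = 0 := by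
    intro i hi hiP
    have h1 : ¬ (0 < f i) := by
      intro h
      exact hiP (Finset.mem_filter.mpr ⟨hi, h⟩)
    have := hf i
    omega
  have hPp : ∀ i ∈ P, 0 < f i := fun i hi => (Finset.mem_filter.mp hi).2
  have hs1 : ∑ i ∈ P, f i = ∑ i ∈ S, f i :=
    Finset.sum_subset hPS (fun i hi hiP => hPz i hi hiP)
  have hs2 : ∑ i ∈ P, f i * f i = ∑ i ∈ S, f i * f i :=
    Finset.sum_subset hPS (fun i hi hiP => by rw [hPz i hi hiP]; ring)
  rw [← hs2] at h0
  rw [← hs1] at hK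
  have hcard : P.card ≤ 2 := by
    by_contra hc
    push Not at hc
    obtain ⟨i₁, hi₁, hm₁⟩ := Finset.exists_max_image P f (Finset.card_pos.mp (by omega))
    have hc1 : (P.erase i₁).card = P.card - 1 := Finset.card_erase_of_mem hi₁
    obtain ⟨i₂, hi₂, hm₂⟩ := Finset.exists_max_image (P.erase i₁) f (Finset.card_pos.mp (by omega))
    have hc2 : ((P.erase i₁).erase i₂).card = (P.erase i₁).card - 1 :=
      Finset.card_erase_of_mem hi₂
    obtain ⟨i₃, hi₃, hm₃⟩ :=
      Finset.exists_max_image ((P.erase i₁).erase i₂) f (Finset.card_pos.mp (by omega))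
    have h21 : i₂ ≠ i₁ := (Finset.mem_erase.mp hi₂).1
    have hi₂P : i₂ ∈ P := (Finset.mem_erase.mp hi₂).2
    have h32 : i₃ ≠ i₂ := (Finset.mem_erase.mp hi₃).1
    have hi₃' : i₃ ∈ P.erase i₁ := (Finset.mem_erase.mp hi₃).2
    have h31 : i₃ ≠ i₁ := (Finset.mem_erase.mp hi₃').1
    have hi₃P : i₃ ∈ P := (Finset.mem_erase.mp hi₃').2
    have hxy : f i₂ ≤ f i₁ := hm₁ i₂ hi₂P
    have hyz : f i₃ ≤ f i₂ := hm₂ i₃ hi₃'
    have hz : 0 < f i₃ := hPp i₃ hi₃P
    have hd3 := hno i₁ (hPS hi₁) i₂ (hPS hi₂P) i₃ (hPS hi₃P) h21.symm h31.symm h32.symm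
    have e1 : f i₁ * f i₁ + ∑ i ∈ P.erase i₁, f i * f i = ∑ i ∈ P, f i * f i :=
      Finset.add_sum_erase P (fun i => f i * f i) hi₁
    have e2 : f i₂ * f i₂ + ∑ i ∈ (P.erase i₁).erase i₂, f i * f i =
        ∑ i ∈ P.erase i₁, f i * f i :=
      Finset.add_sum_erase (P.erase i₁) (fun i => f i * f i) hi₂
    have e3 : f i₁ + ∑ i ∈ P.erase i₁, f i = ∑ i ∈ P, f i :=
      Finset.add_sum_erase P f hi₁
    have e4 : f i₂ + ∑ i ∈ (P.erase i₁).erase i₂, f i = ∑ i ∈ P.erase i₁, f i :=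
      Finset.add_sum_erase (P.erase i₁) f hi₂
    have e5 : ∑ i ∈ (P.erase i₁).erase i₂, f i * f i ≤
        f i₃ * ∑ i ∈ (P.erase i₁).erase i₂, f i := by
      rw [Finset.mul_sum]
      apply Finset.sum_le_sum
      intro i hi
      exact mul_le_mul_of_nonneg_right (hm₃ i hi) (hf i)
    set x := f i₁
    set y := f i₂
    set z := f i₃
    set A := ∑ i ∈ (P.erase i₁).erase i₂, f i
    set B := ∑ i ∈ (P.erase i₁).erase i₂, f i * f i
    have hA : A = 3 * d - 2 - x - y := by linarith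
    have hB : d * d = x * x + y * y + B := by linarith
    rw [hA] at e5
    have h7 : 0 ≤ (d - (x + y + z)) * (d + x + y + z - 3 * z) :=
      mul_nonneg (by linarith) (by linarith)
    have h8 : z * z ≤ x * y := mul_le_mul (by linarith) hyz hz.le (by linarith)
    nlinarith
  have hcs : (∑ i ∈ P, f i) ^ 2 ≤ P.card * ∑ i ∈ P, f i ^ 2 := sq_sum_le_card_mul_sum_sq
  have hsq : ∑ i ∈ P, f i ^ 2 = d * d := by
    have : ∑ i ∈ P, f i ^ 2 = ∑ i ∈ P, f i * f i := Finset.sum_congr rfl (fun i _ => by ring)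
    rw [this]; linarith
  have hsum : ∑ i ∈ P, f i = 3 * d - 2 := by linarith
  rw [hsq, hsum] at hcs
  have hcard' : (P.card : ℤ) ≤ 2 := by exact_mod_cast hcard
  have h9 : (3 * d - 2) ^ 2 ≤ 2 * (d * d) := by
    have : 0 ≤ d * d := mul_self_nonneg d
    nlinarith
  have hd1 : d = 1 := by
    have h10 : d < 2 := by nlinarith
    have h11 : 0 < d := by
      by_contra h
      have : d = 0 := by omega
      rw [this] at h9
      norm_num at h9
    omega
  refine ⟨hd1, ?_⟩
  rw [hd1] at hsum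
  have hPc : P.card = 1 := by
    have h12 : (P.card : ℤ) ≤ ∑ i ∈ P, f i := by
      have : ∑ i ∈ P, (1 : ℤ) ≤ ∑ i ∈ P, f i := Finset.sum_le_sum (fun i hi => hPp i hi)
      simpa using this
    have h13 : P.card ≠ 0 := by
      intro h
      rw [Finset.card_eq_zero] at h
      rw [h] at hsum
      simp at hsum
    have h14 : (P.card : ℤ) ≤ 1 := by linarith
    have h15 : P.card ≤ 1 := by exact_mod_cast h14
    omega
  obtain ⟨i₁, hi₁⟩ := Finset.card_eq_one.mp hPc
  have hmem : i₁ ∈ P := by rw [hi₁]; exact Finset.mem_singleton_self _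
  refine ⟨i₁, hPS hmem, ?_, ?_⟩
  · rw [hi₁, Finset.sum_singleton] at hsum
    linarith
  · intro i hi hne
    apply hPz i hi
    rw [hi₁, Finset.mem_singleton]
    exact hne

theorem aux_A4_ind (S : Finset ι) : ∀ (n : ℕ) (F : ℤ × (ι → ℤ)), F.1.toNat = n →
    (∀ i ∉ S, F.2 i = 0) → Bf S F F = 0 → Kd S F = 2 → Nef (toR F) →
    ∃ l : List (ι × ι × ι), GoodWord S l ∧
      ∃ i₁ ∈ S, act l F = (1, fun i => if i = i₁ then 1 else 0) := by
  intro n
  induction n using Nat.strong_induction_on with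
  | _ n ih =>
    intro F hn hS h0 hK hN
    by_cases hc : ∃ i ∈ S, ∃ j ∈ S, ∃ k ∈ S, i ≠ j ∧ i ≠ k ∧ j ≠ k ∧
        F.1 < F.2 i + F.2 j + F.2 k
    · obtain ⟨i, hi, j, hj, k, hk, hij, hik, hjk, hlt⟩ := hc
      have hN' : Nef (toR (crem i j k F)) := by
        rw [toR_crem]
        exact nef_crem hij hik hjk _ hN
      have hd' : 0 ≤ (crem i j k F).1 := aux_A4_deg _ hN'
      have hd0 : 0 ≤ F.1 := aux_A4_deg _ hN
      have hlt' : (crem i j k F).1 < F.1 := by
        show F.1 + (F.1 - F.2 i - F.2 j - F.2 k) < F.1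
        linarith
      have hm : (crem i j k F).1.toNat < n := by omega
      obtain ⟨l, hl, i₁, hi₁, hact⟩ := ih _ hm (crem i j k F) rfl
        (by
          intro m hm
          have h1 : m ≠ i := fun h => hm (h ▸ hi)
          have h2 : m ≠ j := fun h => hm (h ▸ hj)
          have h3 : m ≠ k := fun h => hm (h ▸ hk)
          simp [crem, h1, h2, h3, hS m hm])
        (by rw [Bf_crem S hi hj hk hij hik hjk]; exact h0)
        (by rw [Kd_crem S hi hj hk hij hik hjk]; exact hK) hN'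
      refine ⟨l ++ [(i, j, k)], ?_, i₁, hi₁, ?_⟩
      · intro t ht
        rcases List.mem_append.mp ht with h | h
        · exact hl t h
        · rw [List.mem_singleton] at h
          subst h
          exact ⟨hi, hj, hk, hij, hik, hjk⟩
      · unfold act at hact ⊢
        rw [List.foldr_append]
        exact hact
    · push Not at hc
      obtain ⟨hd1, i₁, hi₁, hf1, hfz⟩ := aux_A4_base S F.1 F.2 (aux_A4_deg F hN)
        (aux_A4_nonneg F hN) h0 hK (fun i hi j hj k hk hij hik hjk =>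
          hc i hi j hj k hk hij hik hjk)
      refine ⟨[], by intro t ht; simp at ht, i₁, hi₁, ?_⟩
      unfold act
      rw [List.foldr_nil]
      apply Prod.ext
      · exact hd1
      · funext i
        show F.2 i = if i = i₁ then 1 else 0
        by_cases h : i = i₁
        · rw [if_pos h, h, hf1]
        · rw [if_neg h]
          by_cases hiS : i ∈ S
          · exact hfz i hiS h
          · exact hS i hiS

/-- TARGET -/
theorem exists_word (S : Finset ι) (F : ℤ × (ι → ℤ)) (hS : ∀ i ∉ S, F.2 i = 0)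
    (h0 : Bf S F F = 0) (hK : Kd S F = 2) (hN : Nef (toR F)) :
    ∃ l : List (ι × ι × ι), GoodWord S l ∧
      ∃ i₁ ∈ S, act l F = (1, fun i => if i = i₁ then 1 else 0) := by
  exact aux_A4_ind S F.1.toNat F rfl hS h0 hK hN


end Pool.Agent.Helper416_Stair
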