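import Pool.Agent.Helper416_Stair.A1

/-!
# Nef isotropic classes of positive degree are rational
-/

noncomputable section

open scoped BigOperators Pointwise

namespace Pool.Agent.Helper416_Stair



variable {ι : Type*} [DecidableEq ι] {R : Type*} [CommRing R]

















/-
JOB A5 (helper416, MP_f690a7_gt).  A nef isotropic vector of positive degree is a multiple of an integral class.

Plain proof.  `v = (r; a)`, `κ = 3r - ∑ a_i > 0`.  Let `Λ` be the additive subgroup of `ℝ` generated by `r` and the `a_i`; its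
elements are the numbers `Bf S v (toR C)`, `C` integral, `S` finite.
Claim: no `lam ∈ Λ` has `-κ/2 < lam < 0`.  Suppose `lam = Bf S₀ v (toR C₀)` is such.  For real `T > 0` let
`C_T = (round (T r); round (T a_i))`; `round (T a_i) = 0` unless `T a_i ≥ 1/2`, which is true for finitely many `i` only;
let `S` be a finite set containing these `i` and `S₀`.  Let `ρ = T v - C_T`, `|ρ_i| ≤ min(1/2, T a_i)`.
`x_T := Bf S v (toR C_T) = T (v·v)_S - (v·ρ)_S` where `(v·v)_S = r² - ∑_S a² = ∑_{∉S} a²` and `T (v·v)_S ≤ ∑_{∉ S} a_i` (`T a_i < 1/2`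
there), so `|x_T| ≤ r + 2 ∑ a_i` is bounded.  Choose the integer `j` with `x := x_T + j lam ∈ [lam, 0)`; `j` is bounded.
`C = C_T + j C₀` (with `C₀` put to 0 off `S₀`), so `v·C = x < 0`.  With `P = T v - C` on `S`:
`(C·C)_S = 2 T x - T² (v·v)_S + (P·P)_S`, `Kd_S C = T Kd_S v - Kd_S P ≥ T κ - Kd_S P`, hence
`idx S C ≥ T (κ + 2x) - T² ∑_{∉S} a² - ∑_S P_i² - 3|P_0| - ∑_S |P_i| ≥ T (κ - 2|lam|) - o(T) > 0` for large `T`, because
`(1/T) ∑_i min(1/2, T a_i) → 0` as `T → ∞` (dominated convergence for series: terms `≤ a_i`, each tends to 0), which bounds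
`(1/T)` times: `∑_S |ρ_i|`, `∑_S ρ_i²`, `T² ∑_{∉S} a_i²` (`(T a_i)² ≤ T a_i = min(1/2, T a_i)` there), while `j C₀` is bounded.  Also
`C.1 ≥ 0` for large `T`.  So `Nef v` gives `x ≥ 0`, a contradiction.
Hence also no element of `Λ` lies in `(0, κ/2)`, so `Λ = ℤ g` with `g ≥ κ/2 > 0` (`AddSubgroup.cyclic_of_isolated_zero` or
`AddSubgroup.dense_or_cyclic`; `r ∈ Λ` is nonzero), and `v = g F` with `F` integral.  `a` summable gives `F_i = 0` for all but
finitely many `i`; `F·F = 0`, and `Kd F = κ / g ∈ (0, 2]`.  `F·F + Kd F = F_0² + 3F_0 - ∑ (F_i² + F_i)` is even, so `Kd F = 2`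
and `g = κ/2`.
-/

omit [DecidableEq ι] in
/-- the truncated weights have small sum -/
lemma A5_minsum (a : ι → ℝ) (ha : ∀ i, 0 ≤ a i) (hs : Summable a) :
    Filter.Tendsto (fun T : ℝ => ∑' i, min (1 / (2 * T)) (a i)) Filter.atTop (nhds 0) := by
  have h := tendsto_tsum_of_dominated_convergence (𝓕 := (Filter.atTop : Filter ℝ))
    (f := fun (T : ℝ) i => min (1 / (2 * T)) (a i)) (g := fun _ => (0 : ℝ)) (bound := a) hs
    (fun i => by
      have h1 : Filter.Tendsto (fun T : ℝ => 1 / (2 * T)) Filter.atTop (nhds 0) := by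
        have := (tendsto_inv_atTop_zero (𝕜 := ℝ)).const_mul (1 / 2)
        simp only [mul_zero] at this
        refine this.congr fun T => ?_
        rw [one_div, one_div, mul_inv]
      have h2 := h1.min (tendsto_const_nhds (x := a i))
      rwa [min_eq_left (ha i)] at h2)
    (by
      filter_upwards [Filter.eventually_gt_atTop (0 : ℝ)] with T hT
      intro i
      have h0 : 0 ≤ min (1 / (2 * T)) (a i) := le_min (by positivity) (ha i)
      rw [Real.norm_of_nonneg h0]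
      exact min_le_right _ _)
  simpa using h

omit [DecidableEq ι] in
lemma A5_Bf_add (S : Finset ι) (v w : ℝ × (ι → ℝ)) (u : ℝ × (ι → ℝ)) (c : ℝ) :
    Bf S v (w.1 + c * u.1, fun i => w.2 i + c * u.2 i) = Bf S v w + c * Bf S v u := by
  unfold Bf
  simp only [mul_add, Finset.sum_add_distrib, mul_sub, Finset.mul_sum]
  have : ∑ i ∈ S, v.2 i * (c * u.2 i) = ∑ i ∈ S, c * (v.2 i * u.2 i) :=
    Finset.sum_congr rfl fun i _ => by ring
  rw [this]; ring

omit [DecidableEq ι] in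
lemma A5_idx_toR (S : Finset ι) (C : ℤ × (ι → ℤ)) :
    ((idx S C : ℤ) : ℝ) = idx S (toR C) := by
  unfold idx Bf Kd toR
  push_cast
  ring

omit [DecidableEq ι] in
lemma A5_Bf_toR (S : Finset ι) (C : ℤ × (ι → ℤ)) :
    ((Bf S C C : ℤ) : ℝ) = Bf S (toR C) (toR C) := by
  unfold Bf toR
  push_cast
  ring

omit [DecidableEq ι] in
lemma A5_Kd_toR (S : Finset ι) (C : ℤ × (ι → ℤ)) :
    ((Kd S C : ℤ) : ℝ) = Kd S (toR C) := by
  unfold Kd toR
  push_cast
  ring

omit [DecidableEq ι] in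
/-- the index of `C` in terms of `T v` and `P = T v - C` -/
lemma A5_ident (S : Finset ι) (v C : ℝ × (ι → ℝ)) (T : ℝ) :
    idx S C = 2 * T * Bf S v C - T ^ 2 * (v.1 ^ 2 - ∑ i ∈ S, v.2 i ^ 2) + (T * v.1 - C.1) ^ 2
      - ∑ i ∈ S, (T * v.2 i - C.2 i) ^ 2 + T * (3 * v.1 - ∑ i ∈ S, v.2 i)
      - 3 * (T * v.1 - C.1) + ∑ i ∈ S, (T * v.2 i - C.2 i) := by
  unfold idx Bf Kd
  have h1 : ∑ i ∈ S, (T * v.2 i - C.2 i) ^ 2
      = T ^ 2 * ∑ i ∈ S, v.2 i ^ 2 - 2 * T * ∑ i ∈ S, v.2 i * C.2 i + ∑ i ∈ S, C.2 i * C.2 i := by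
    rw [Finset.mul_sum, Finset.mul_sum, ← Finset.sum_sub_distrib, ← Finset.sum_add_distrib]
    exact Finset.sum_congr rfl fun i _ => by ring
  have h2 : ∑ i ∈ S, (T * v.2 i - C.2 i) = T * ∑ i ∈ S, v.2 i - ∑ i ∈ S, C.2 i := by
    rw [Finset.mul_sum, ← Finset.sum_sub_distrib]
  rw [h1, h2]
  ring

lemma A5_mul_le (p q : ℝ) (hp : 0 ≤ p) (hq : q ≤ 1) : p * q ≤ p := by nlinarith

lemma A5_sq_le (p q : ℝ) (h0 : 0 ≤ p) (h1 : p ≤ 1) (h2 : p ≤ q) : p ^ 2 ≤ q := by nlinarith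

lemma A5_small (p T : ℝ) (h0 : 0 ≤ p) (hT : 0 < T) (h5 : T * p < 1 / 2) : p ^ 2 * T ≤ p := by
  have : p ^ 2 * T = p * (T * p) := by ring
  rw [this]
  exact A5_mul_le p _ h0 (by linarith)

lemma A5_sq_sub (x y : ℝ) : (x - y) ^ 2 ≤ 2 * x ^ 2 + 2 * y ^ 2 := by
  nlinarith [sq_nonneg (x + y)]

/-- no element of the value group lies in `(-κ/2, 0)` -/
lemma A5_gap (v : ℝ × (ι → ℝ)) (hr : 0 < v.1) (ha : ∀ i, 0 ≤ v.2 i)
    (hs : Summable v.2) (hsq : ∑' i, v.2 i ^ 2 = v.1 ^ 2)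
    (hN : Nef v) (S₀ : Finset ι) (C₀ : ℤ × (ι → ℤ)) (h0 : ∀ i ∉ S₀, C₀.2 i = 0)
    (h1 : -((3 * v.1 - ∑' i, v.2 i) / 2) < Bf S₀ v (toR C₀))
    (h2 : Bf S₀ v (toR C₀) < 0) : False := by
  classical
  set lam := Bf S₀ v (toR C₀) with hlam
  set A := ∑' i, v.2 i with hA
  have hA0 : 0 ≤ A := tsum_nonneg ha
  set μ : ℝ := -lam with hμ
  have hμ0 : 0 < μ := by linarith
  set κ' : ℝ := 3 * v.1 - A + 2 * lam with hκ'
  have hκ'0 : 0 < κ' := by rw [hκ']; linarith
  set M : ℝ := v.1 + 2 * A with hM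
  have hM0 : 0 < M := by positivity
  set J : ℝ := M / μ + 1 with hJ
  have hJ0 : 0 < J := by positivity
  set K0 : ℝ := |(C₀.1 : ℝ)| with hK0
  set K1 : ℝ := ∑ i ∈ S₀, |(C₀.2 i : ℝ)| with hK1
  set K2 : ℝ := ∑ i ∈ S₀, (C₀.2 i : ℝ) ^ 2 with hK2
  have hK0n : 0 ≤ K0 := abs_nonneg _
  have hK1n : 0 ≤ K1 := Finset.sum_nonneg fun _ _ => abs_nonneg _
  have hK2n : 0 ≤ K2 := Finset.sum_nonneg fun _ _ => sq_nonneg _
  set c : ℝ := 2 * J ^ 2 * K2 + J * K1 + 3 * (1 / 2 + J * K0) with hc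
  have hev1 : ∀ᶠ T : ℝ in Filter.atTop, ∑' i, min (1 / (2 * T)) (v.2 i) < κ' / 8 :=
    (A5_minsum v.2 ha hs).eventually (gt_mem_nhds (by positivity))
  have hev2 : ∀ᶠ T : ℝ in Filter.atTop, 2 * c / κ' < T := Filter.eventually_gt_atTop _
  have hev3 : ∀ᶠ T : ℝ in Filter.atTop, (1 / 2 + J * K0) / v.1 < T := Filter.eventually_gt_atTop _
  obtain ⟨T, ⟨hT1, hT2⟩, hT3, hT0⟩ :=
    ((hev1.and hev2).and (hev3.and (Filter.eventually_gt_atTop (0 : ℝ)))).exists
  set b : ℝ := ∑' i, min (1 / (2 * T)) (v.2 i) with hb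
  set β : ι → ℝ := fun i => min (1 / (2 * T)) (v.2 i) with hβ
  have hβ0 : ∀ i, 0 ≤ β i := fun i => le_min (by positivity) (ha i)
  have hβa : ∀ i, β i ≤ v.2 i := fun i => min_le_right _ _
  have hβs : Summable β := Summable.of_nonneg_of_le hβ0 hβa hs
  have hb0 : 0 ≤ b := tsum_nonneg hβ0
  have hbA : b ≤ A := hβs.tsum_le_tsum hβa hs
  have hTβ : ∀ i, T * β i = min (1 / 2) (T * v.2 i) := by
    intro i
    simp only [hβ]
    rw [mul_min_of_nonneg _ _ hT0.le]
    congr 1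
    field_simp
  -- the finite set
  have hfin : {i | 1 / 2 ≤ T * v.2 i}.Finite := by
    have ht : Filter.Tendsto v.2 Filter.cofinite (nhds 0) := hs.tendsto_cofinite_zero
    have := ht.eventually (gt_mem_nhds (show (0 : ℝ) < 1 / (2 * T) by positivity))
    rw [Filter.eventually_cofinite] at this
    refine this.subset fun i hi => ?_
    simp only [Set.mem_ofPred_eq, not_lt] at hi ⊢
    rw [div_le_iff₀ (by positivity)]
    linarith
  set S : Finset ι := S₀ ∪ hfin.toFinset with hS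
  have hS0 : S₀ ⊆ S := Finset.subset_union_left
  have hsm : ∀ i ∉ S, T * v.2 i < 1 / 2 := by
    intro i hi
    by_contra hcon
    exact hi (Finset.mem_union_right _ (by simpa using hcon))
  set CT : ℤ × (ι → ℤ) := (round (T * v.1), fun i => round (T * v.2 i)) with hCT
  have hρ0 : |T * v.1 - (CT.1 : ℝ)| ≤ 1 / 2 := abs_sub_round _
  have hρ : ∀ i, |T * v.2 i - (CT.2 i : ℝ)| ≤ T * β i := by
    intro i
    rw [hTβ]
    refine le_min (abs_sub_round _) ?_
    have hTv : 0 ≤ T * v.2 i := mul_nonneg hT0.le (ha i)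
    by_cases h : T * v.2 i < 1 / 2
    · have : round (T * v.2 i) = 0 := by
        rw [round_eq_zero_iff]
        exact ⟨by linarith, h⟩
      simp only [hCT, this, Int.cast_zero, sub_zero, abs_of_nonneg hTv, le_refl]
    · exact (abs_sub_round _).trans (not_lt.mp h)
  have hρ2 : ∀ i, (T * v.2 i - (CT.2 i : ℝ)) ^ 2 ≤ T * β i := by
    intro i
    have hh := hρ i
    have h12 : |T * v.2 i - (CT.2 i : ℝ)| ≤ 1 := (abs_sub_round _).trans (by norm_num)
    have h00 := abs_nonneg (T * v.2 i - (CT.2 i : ℝ))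
    rw [← sq_abs]
    exact A5_sq_le _ _ h00 h12 hh
  have hSβ : ∑ i ∈ S, T * β i ≤ T * b := by
    rw [← Finset.mul_sum]
    exact mul_le_mul_of_nonneg_left (hβs.sum_le_tsum S fun i _ => hβ0 i) hT0.le
  -- squares
  have hs2 : Summable (fun i => v.2 i ^ 2) := by
    by_contra hcon
    rw [tsum_eq_zero_of_not_summable hcon] at hsq
    have : 0 < v.1 ^ 2 := by positivity
    linarith
  set τ : ℝ := v.1 ^ 2 - ∑ i ∈ S, v.2 i ^ 2 with hτ
  have hτ0 : 0 ≤ τ := by
    have := hs2.sum_le_tsum S fun i _ => sq_nonneg _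
    rw [hτ]; linarith
  have hτ1 : T * τ ≤ b := by
    have hsum2 : Summable (fun i => β i / T) := hβs.div_const T
    have hind : Summable (fun i => if i ∈ S then v.2 i ^ 2 else 0) :=
      summable_of_ne_finset_zero (s := S) fun i hi => by simp [hi]
    have h3 : ∑' i, v.2 i ^ 2 ≤ ∑' i, ((if i ∈ S then v.2 i ^ 2 else 0) + β i / T) := by
      refine hs2.tsum_le_tsum (fun i => ?_) (hind.add hsum2)
      by_cases hi : i ∈ S
      · simp only [hi, if_true]
        have := div_nonneg (hβ0 i) hT0.le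
        linarith
      · simp only [hi, if_false, zero_add]
        rw [le_div_iff₀ hT0]
        have h5 := hsm i hi
        have h6 : β i = v.2 i := by
          have := hTβ i
          rw [min_eq_right h5.le] at this
          exact mul_left_cancel₀ hT0.ne' this
        rw [h6]
        exact A5_small _ _ (ha i) hT0 h5
    have h4 : ∑' i, (if i ∈ S then v.2 i ^ 2 else 0) = ∑ i ∈ S, v.2 i ^ 2 := by
      rw [tsum_eq_sum (s := S) (f := fun i => if i ∈ S then v.2 i ^ 2 else 0)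
        (fun i hi => by simp [hi])]
      exact Finset.sum_congr rfl fun i hi => by simp [hi]
    rw [hind.tsum_add hsum2, h4, tsum_div_const, hsq] at h3
    have h5 : τ ≤ b / T := by
      have hbb : ∑' i, β i = b := rfl
      rw [hbb] at h3
      rw [hτ]; linarith
    rw [le_div_iff₀ hT0] at h5
    linarith
  have hSa : ∑ i ∈ S, v.2 i ≤ A := hs.sum_le_tsum S fun i _ => ha i
  set xT : ℝ := Bf S v (toR CT) with hxT
  have hxTb : |xT| ≤ M := by
    have e1 : xT = T * τ - (v.1 * (T * v.1 - (CT.1 : ℝ))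
        - ∑ i ∈ S, v.2 i * (T * v.2 i - (CT.2 i : ℝ))) := by
      rw [hxT, hτ]
      unfold Bf toR
      have e2 : ∑ i ∈ S, v.2 i * (T * v.2 i - (CT.2 i : ℝ))
          = T * ∑ i ∈ S, v.2 i ^ 2 - ∑ i ∈ S, v.2 i * (CT.2 i : ℝ) := by
        rw [Finset.mul_sum, ← Finset.sum_sub_distrib]
        exact Finset.sum_congr rfl fun i _ => by ring
      rw [e2]; ring
    have e3 : |v.1 * (T * v.1 - (CT.1 : ℝ))| ≤ v.1 := by
      rw [abs_mul, abs_of_pos hr]
      exact A5_mul_le _ _ hr.le (hρ0.trans (by norm_num))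
    have e4 : |∑ i ∈ S, v.2 i * (T * v.2 i - (CT.2 i : ℝ))| ≤ A := by
      refine (Finset.abs_sum_le_sum_abs _ _).trans ((Finset.sum_le_sum fun i _ => ?_).trans hSa)
      rw [abs_mul, abs_of_nonneg (ha i)]
      exact A5_mul_le _ _ (ha i) ((abs_sub_round _).trans (by norm_num))
    have e5 : 0 ≤ T * τ := mul_nonneg hT0.le hτ0
    rw [abs_le] at e3 e4 ⊢
    constructor <;> rw [e1, hM] <;> linarith
  set j : ℤ := ⌊xT / μ⌋ + 1 with hj
  have hj1 : (j : ℝ) ≤ xT / μ + 1 := by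
    rw [hj]; push_cast; linarith [Int.floor_le (xT / μ)]
  have hj2 : xT / μ < (j : ℝ) := by
    rw [hj]; push_cast; exact Int.lt_floor_add_one _
  have hxμ : xT = (xT / μ) * μ := by field_simp
  have hjJ : |(j : ℝ)| ≤ J := by
    have h3 : |xT / μ| ≤ M / μ := by
      rw [abs_div, abs_of_pos hμ0]
      exact div_le_div_of_nonneg_right hxTb hμ0.le
    rw [abs_le] at h3 ⊢
    rw [hJ]
    constructor <;> linarith
  set x : ℝ := xT + j * lam with hx
  have hxy : x = μ * (xT / μ - j) := by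
    have : lam = -μ := by rw [hμ]; ring
    rw [hx, this, mul_sub, mul_div_cancel₀ _ hμ0.ne']; ring
  have hx1 : lam ≤ x := by
    have : lam = μ * (-1) := by rw [hμ]; ring
    rw [hxy, this]
    exact mul_le_mul_of_nonneg_left (by linarith) hμ0.le
  have hx2 : x < 0 := by
    rw [hxy]
    exact mul_neg_of_pos_of_neg hμ0 (by linarith)
  set C : ℤ × (ι → ℤ) := (CT.1 + j * C₀.1, fun i => CT.2 i + j * C₀.2 i) with hC
  have hBC : Bf S v (toR C) = x := by
    have e1 : toR C = ((toR CT).1 + (j : ℝ) * (toR C₀).1,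
        fun i => (toR CT).2 i + (j : ℝ) * (toR C₀).2 i) := by
      unfold toR
      simp only [hC]
      push_cast
      rfl
    have e2 : Bf S v (toR C₀) = lam := by
      rw [hlam]
      unfold Bf toR
      simp only
      congr 1
      refine (Finset.sum_subset hS0 fun i _ hi => ?_).symm
      rw [h0 i hi]; simp
    rw [e1, A5_Bf_add, e2]
  -- bounds on P
  have hP0 : |T * v.1 - (C.1 : ℝ)| ≤ 1 / 2 + J * K0 := by
    have e : T * v.1 - (C.1 : ℝ) = (T * v.1 - (CT.1 : ℝ)) - (j : ℝ) * (C₀.1 : ℝ) := by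
      simp only [hC]; push_cast; ring
    rw [e]
    refine (abs_sub _ _).trans ?_
    rw [abs_mul]
    have : |(j : ℝ)| * |(C₀.1 : ℝ)| ≤ J * K0 := mul_le_mul_of_nonneg_right hjJ (abs_nonneg _)
    linarith
  have hPe : ∀ i, T * v.2 i - (C.2 i : ℝ)
      = (T * v.2 i - (CT.2 i : ℝ)) - (j : ℝ) * (C₀.2 i : ℝ) := by
    intro i
    simp only [hC]; push_cast; ring
  have hsumS1 : ∑ i ∈ S, |(C₀.2 i : ℝ)| = K1 := by
    rw [hK1]
    refine (Finset.sum_subset hS0 fun i _ hi => ?_).symm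
    rw [h0 i hi]; simp
  have hsumS2 : ∑ i ∈ S, (C₀.2 i : ℝ) ^ 2 = K2 := by
    rw [hK2]
    refine (Finset.sum_subset hS0 fun i _ hi => ?_).symm
    rw [h0 i hi]; simp
  have hP1 : ∑ i ∈ S, |T * v.2 i - (C.2 i : ℝ)| ≤ T * b + J * K1 := by
    calc ∑ i ∈ S, |T * v.2 i - (C.2 i : ℝ)|
        ≤ ∑ i ∈ S, (T * β i + J * |(C₀.2 i : ℝ)|) := by
          refine Finset.sum_le_sum fun i _ => ?_
          rw [hPe i]
          refine (abs_sub _ _).trans ?_
          rw [abs_mul]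
          have : |(j : ℝ)| * |(C₀.2 i : ℝ)| ≤ J * |(C₀.2 i : ℝ)| :=
            mul_le_mul_of_nonneg_right hjJ (abs_nonneg _)
          linarith [hρ i]
      _ = ∑ i ∈ S, T * β i + J * K1 := by
          rw [Finset.sum_add_distrib, ← Finset.mul_sum S (fun i => |(C₀.2 i : ℝ)|) J, hsumS1]
      _ ≤ T * b + J * K1 := by linarith
  have hP2 : ∑ i ∈ S, (T * v.2 i - (C.2 i : ℝ)) ^ 2 ≤ 2 * (T * b) + 2 * J ^ 2 * K2 := by
    calc ∑ i ∈ S, (T * v.2 i - (C.2 i : ℝ)) ^ 2
        ≤ ∑ i ∈ S, (2 * (T * β i) + 2 * J ^ 2 * (C₀.2 i : ℝ) ^ 2) := by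
          refine Finset.sum_le_sum fun i _ => ?_
          rw [hPe i]
          have e1 := hρ2 i
          have e2 : ((j : ℝ) * (C₀.2 i : ℝ)) ^ 2 ≤ J ^ 2 * (C₀.2 i : ℝ) ^ 2 := by
            rw [mul_pow]
            refine mul_le_mul_of_nonneg_right ?_ (sq_nonneg _)
            rw [← sq_abs]
            exact pow_le_pow_left₀ (abs_nonneg _) hjJ 2
          have e3 := A5_sq_sub (T * v.2 i - (CT.2 i : ℝ)) ((j : ℝ) * (C₀.2 i : ℝ))
          linarith
      _ = 2 * ∑ i ∈ S, T * β i + 2 * J ^ 2 * K2 := by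
          rw [Finset.sum_add_distrib, ← Finset.mul_sum S (fun i => (C₀.2 i : ℝ) ^ 2) (2 * J ^ 2),
            hsumS2, ← Finset.mul_sum]
      _ ≤ 2 * (T * b) + 2 * J ^ 2 * K2 := by linarith
  have hidx : 0 < idx S (toR C) := by
    rw [A5_ident S v (toR C) T, hBC, ← hτ]
    have e1 : (toR C).1 = (C.1 : ℝ) := rfl
    have e2 : ∀ i, (toR C).2 i = (C.2 i : ℝ) := fun i => rfl
    simp only [e1, e2]
    have e3 : T ^ 2 * τ ≤ T * b := by
      rw [pow_two, mul_assoc]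
      exact mul_le_mul_of_nonneg_left hτ1 hT0.le
    have e4 : -(∑ i ∈ S, |T * v.2 i - (C.2 i : ℝ)|) ≤ ∑ i ∈ S, (T * v.2 i - (C.2 i : ℝ)) := by
      have := Finset.abs_sum_le_sum_abs (fun i => T * v.2 i - (C.2 i : ℝ)) S
      rw [abs_le] at this
      exact this.1
    have e5 : T * v.1 - (C.1 : ℝ) ≤ 1 / 2 + J * K0 := (le_abs_self _).trans hP0
    have e6 : 2 * T * lam ≤ 2 * T * x := mul_le_mul_of_nonneg_left hx1 (by linarith)
    have e7 : T * (3 * v.1 - A) ≤ T * (3 * v.1 - ∑ i ∈ S, v.2 i) :=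
      mul_le_mul_of_nonneg_left (by linarith) hT0.le
    have e8 : T * b ≤ T * (κ' / 8) := mul_le_mul_of_nonneg_left hT1.le hT0.le
    have e9 : 2 * c < T * κ' := by
      rw [div_lt_iff₀ hκ'0] at hT2
      exact hT2
    have e10 : T * κ' = 2 * T * lam + T * (3 * v.1 - A) := by rw [hκ']; ring
    have e11 := sq_nonneg (T * v.1 - (C.1 : ℝ))
    rw [hc] at e9
    linarith
  have hC1 : 0 ≤ C.1 := by
    have e5 : T * v.1 - (C.1 : ℝ) ≤ 1 / 2 + J * K0 := (le_abs_self _).trans hP0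
    rw [div_lt_iff₀ hr] at hT3
    have : (0 : ℝ) < (C.1 : ℝ) := by linarith
    exact_mod_cast this.le
  have hI : 0 ≤ idx S C := by
    have e := A5_idx_toR S C
    rw [← e] at hidx
    exact_mod_cast hidx.le
  have := hN S C hC1 hI
  rw [hBC] at this
  linarith

lemma A5_even (S : Finset ι) (F : ℤ × (ι → ℤ)) : Even (idx S F) := by
  rw [idx_eq]
  have h1 : Even (F.1 ^ 2 + 3 * F.1) := by
    have : F.1 ^ 2 + 3 * F.1 = F.1 * (F.1 + 1) + 2 * F.1 := by ring
    rw [this]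
    exact (Int.even_mul_succ_self _).add (even_two_mul _)
  have h2 : Even (∑ i ∈ S, (F.2 i ^ 2 + F.2 i)) := by
    refine Finset.sum_induction _ _ (fun a b ha hb => ha.add hb) (by simp) fun i _ => ?_
    have : F.2 i ^ 2 + F.2 i = F.2 i * (F.2 i + 1) := by ring
    rw [this]
    exact Int.even_mul_succ_self _
  exact h1.sub h2

/-- TARGET -/
theorem rational_of_nef (v : ℝ × (ι → ℝ)) (hr : 0 < v.1) (ha : ∀ i, 0 ≤ v.2 i)
    (hs : Summable v.2) (hsq : ∑' i, v.2 i ^ 2 = v.1 ^ 2) (hκ : 0 < 3 * v.1 - ∑' i, v.2 i)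
    (hN : Nef v) :
    ∃ (S : Finset ι) (F : ℤ × (ι → ℤ)), (∀ i ∉ S, F.2 i = 0) ∧ Bf S F F = 0 ∧ Kd S F = 2 ∧
      v = ((3 * v.1 - ∑' i, v.2 i) / 2) • toR F := by
  classical
  set κ : ℝ := 3 * v.1 - ∑' i, v.2 i with hκd
  set Λ : AddSubgroup ℝ := AddSubgroup.closure (insert v.1 (Set.range v.2)) with hΛ
  -- every element is a value
  have hval : ∀ x ∈ Λ, ∃ (S₀ : Finset ι) (C₀ : ℤ × (ι → ℤ)), (∀ i ∉ S₀, C₀.2 i = 0) ∧
      Bf S₀ v (toR C₀) = x := by
    intro x hx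
    refine AddSubgroup.closure_induction (p := fun x _ => ∃ (S₀ : Finset ι) (C₀ : ℤ × (ι → ℤ)),
      (∀ i ∉ S₀, C₀.2 i = 0) ∧ Bf S₀ v (toR C₀) = x) ?_ ?_ ?_ ?_ hx
    · intro y hy
      rcases hy with rfl | ⟨i, rfl⟩
      · exact ⟨∅, (1, fun _ => 0), fun _ _ => rfl, by simp [Bf, toR]⟩
      · refine ⟨{i}, (0, fun l => if l = i then -1 else 0), fun l hl => ?_, by simp [Bf, toR]⟩
        simp only [Finset.mem_singleton] at hl
        simp [hl]
    · exact ⟨∅, (0, fun _ => 0), fun _ _ => rfl, by simp [Bf, toR]⟩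
    · rintro y z - - ⟨S₁, C₁, h1, e1⟩ ⟨S₂, C₂, h2, e2⟩
      refine ⟨S₁ ∪ S₂, (C₁.1 + C₂.1, fun i => C₁.2 i + C₂.2 i), fun i hi => ?_, ?_⟩
      · simp only [Finset.mem_union, not_or] at hi
        simp [h1 i hi.1, h2 i hi.2]
      · rw [← e1, ← e2]
        unfold Bf toR
        simp only
        have s1 : ∑ i ∈ S₁, v.2 i * (C₁.2 i : ℝ) = ∑ i ∈ S₁ ∪ S₂, v.2 i * (C₁.2 i : ℝ) :=
          Finset.sum_subset Finset.subset_union_left fun i _ hi => by rw [h1 i hi]; simp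
        have s2 : ∑ i ∈ S₂, v.2 i * (C₂.2 i : ℝ) = ∑ i ∈ S₁ ∪ S₂, v.2 i * (C₂.2 i : ℝ) :=
          Finset.sum_subset Finset.subset_union_right fun i _ hi => by rw [h2 i hi]; simp
        rw [s1, s2]
        push_cast
        simp only [mul_add, Finset.sum_add_distrib]
        ring
    · rintro y - ⟨S₁, C₁, h1, e1⟩
      refine ⟨S₁, (-C₁.1, fun i => -C₁.2 i), fun i hi => by simp [h1 i hi], ?_⟩
      rw [← e1]
      unfold Bf toR
      simp only
      push_cast
      simp only [mul_neg, Finset.sum_neg_distrib]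
      ring
  have hgap : ∀ x ∈ Λ, 0 < x → κ / 2 ≤ x := by
    intro x hx hx0
    by_contra hcon
    obtain ⟨S₀, C₀, hz, e⟩ := hval (-x) (neg_mem hx)
    refine A5_gap v hr ha hs hsq hN S₀ C₀ hz ?_ ?_
    · rw [e, ← hκd]; linarith
    · rw [e]; linarith
  obtain ⟨g0, hg0⟩ := AddSubgroup.cyclic_of_isolated_zero (H := Λ) (a := κ / 2) (by linarith) (by
    rw [Set.disjoint_left]
    intro x hx hx2
    have := hgap x hx hx2.1
    exact absurd hx2.2 (not_lt.mpr this))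
  have hr' : v.1 ∈ Λ := AddSubgroup.subset_closure (Set.mem_insert _ _)
  have ha' : ∀ i, v.2 i ∈ Λ := fun i =>
    AddSubgroup.subset_closure (Set.mem_insert_of_mem _ ⟨i, rfl⟩)
  have hg00 : g0 ≠ 0 := by
    rintro rfl
    rw [hg0, AddSubgroup.mem_closure_singleton] at hr'
    obtain ⟨n, hn⟩ := hr'
    simp at hn
    linarith
  set g : ℝ := |g0| with hg
  have hgp : 0 < g := abs_pos.mpr hg00
  have hgΛ : g ∈ Λ := by
    have h0 : g0 ∈ Λ := by rw [hg0]; exact AddSubgroup.mem_closure_singleton_self g0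
    rcases abs_choice g0 with h | h
    · rw [hg, h]; exact h0
    · rw [hg, h]; exact neg_mem h0
  have hmul : ∀ x ∈ Λ, ∃ n : ℤ, x = g * n := by
    intro x hx
    rw [hg0, AddSubgroup.mem_closure_singleton] at hx
    obtain ⟨n, hn⟩ := hx
    rw [zsmul_eq_mul] at hn
    rcases abs_choice g0 with h | h
    · exact ⟨n, by rw [hg, h, ← hn]; ring⟩
    · exact ⟨-n, by rw [hg, h, ← hn]; push_cast; ring⟩
  have hgκ : κ / 2 ≤ g := hgap g hgΛ hgp
  obtain ⟨n0, hn0⟩ := hmul v.1 hr'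
  choose n hn using fun i => hmul (v.2 i) (ha' i)
  have hfin : {i | g ≤ v.2 i}.Finite := by
    have ht : Filter.Tendsto v.2 Filter.cofinite (nhds 0) := hs.tendsto_cofinite_zero
    have := ht.eventually (gt_mem_nhds hgp)
    rw [Filter.eventually_cofinite] at this
    refine this.subset fun i hi => ?_
    simpa using hi
  set S : Finset ι := hfin.toFinset with hS
  have hnz : ∀ i ∉ S, n i = 0 := by
    intro i hi
    have h1 : v.2 i < g := by
      by_contra hcon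
      exact hi (by rw [hS, Set.Finite.mem_toFinset]; exact not_lt.mp hcon)
    have h2 := ha i
    rw [hn i] at h1 h2
    have h3 : (n i : ℝ) < 1 := by
      by_contra hcon
      nlinarith [not_lt.mp hcon]
    have h4 : (0 : ℝ) ≤ n i := by
      by_contra hcon
      nlinarith [not_le.mp hcon]
    have h5 : n i < 1 := by exact_mod_cast h3
    have h6 : 0 ≤ n i := by exact_mod_cast h4
    omega
  have hvz : ∀ i ∉ S, v.2 i = 0 := fun i hi => by rw [hn i, hnz i hi]; simp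
  set F : ℤ × (ι → ℤ) := (n0, n) with hF
  have hBF : Bf S F F = 0 := by
    have h1 : ∑' i, v.2 i ^ 2 = ∑ i ∈ S, v.2 i ^ 2 := tsum_eq_sum fun i hi => by rw [hvz i hi]; simp
    rw [hsq] at h1
    have h2 : g ^ 2 * ((Bf S F F : ℤ) : ℝ) = 0 := by
      rw [A5_Bf_toR]
      unfold Bf toR
      simp only [hF]
      rw [mul_sub, Finset.mul_sum]
      have h3 : ∑ i ∈ S, g ^ 2 * ((n i : ℝ) * (n i : ℝ)) = ∑ i ∈ S, v.2 i ^ 2 :=
        Finset.sum_congr rfl fun i _ => by rw [hn i]; ring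
      rw [h3, ← h1, hn0]; ring
    have h4 : ((Bf S F F : ℤ) : ℝ) = 0 := by
      rcases mul_eq_zero.mp h2 with h | h
      · exact absurd h (by positivity)
      · exact h
    exact_mod_cast h4
  have hKF : g * ((Kd S F : ℤ) : ℝ) = κ := by
    have h1 : ∑' i, v.2 i = ∑ i ∈ S, v.2 i := tsum_eq_sum fun i hi => hvz i hi
    rw [A5_Kd_toR, hκd, h1]
    unfold Kd toR
    simp only [hF]
    rw [mul_sub, Finset.mul_sum, hn0]
    have h3 : ∑ i ∈ S, g * (n i : ℝ) = ∑ i ∈ S, v.2 i :=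
        Finset.sum_congr rfl fun i _ => (hn i).symm
    rw [h3]; ring
  have hKpos : 0 < Kd S F := by
    have : (0 : ℝ) < ((Kd S F : ℤ) : ℝ) := by
      by_contra hcon
      nlinarith [not_lt.mp hcon]
    exact_mod_cast this
  have hKle : Kd S F ≤ 2 := by
    have : ((Kd S F : ℤ) : ℝ) ≤ 2 := by
      by_contra hcon
      nlinarith [not_le.mp hcon]
    exact_mod_cast this
  have hKe : Even (Kd S F) := by
    have h := A5_even S F
    unfold idx at h
    rwa [hBF, zero_add] at h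
  have hK2 : Kd S F = 2 := by
    obtain ⟨m, hm⟩ := hKe
    omega
  refine ⟨S, F, hnz, hBF, hK2, ?_⟩
  have hgk : g = κ / 2 := by
    rw [hK2] at hKF
    push_cast at hKF
    linarith
  rw [← hgk]
  ext i
  · simp [toR, hF, hn0]
  · simp [toR, hF, hn i]


end Pool.Agent.Helper416_Stair
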