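import Pool.Agent.Helper416_Stair.A4

/-!
# Properties of the action of a word of Cremona moves
-/

noncomputable section

open scoped BigOperators Pointwise

namespace Pool.Agent.Helper416_Stair

variable {ι : Type*} [DecidableEq ι] {R : Type*} [CommRing R]

lemma crem_add (i j k : ι) (v w : R × (ι → R)) :
    crem i j k (v + w) = crem i j k v + crem i j k w := by
  ext l
  · simp [crem]; ring
  · simp only [crem, Prod.fst_add, Prod.snd_add, Pi.add_apply]; split_ifs <;> ring

lemma crem_smul (i j k : ι) (c : R) (v : R × (ι → R)) :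
    crem i j k (c • v) = c • crem i j k v := by
  ext l
  · simp [crem]; ring
  · simp only [crem, Prod.smul_fst, Prod.smul_snd, Pi.smul_apply, smul_eq_mul]; split_ifs <;> ring

lemma act_add (l : List (ι × ι × ι)) (v w : R × (ι → R)) : act l (v + w) = act l v + act l w := by
  induction l with
  | nil => rfl
  | cons t l ih =>
    have : ∀ u : R × (ι → R), act (t :: l) u = crem t.1 t.2.1 t.2.2 (act l u) := fun _ => rfl
    rw [this, this, this, ih, crem_add]

lemma act_smul (l : List (ι × ι × ι)) (c : R) (v : R × (ι → R)) : act l (c • v) = c • act l v := by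
  induction l with
  | nil => rfl
  | cons t l ih =>
    have : ∀ u : R × (ι → R), act (t :: l) u = crem t.1 t.2.1 t.2.2 (act l u) := fun _ => rfl
    rw [this, this, ih, crem_smul]

lemma act_toR (l : List (ι × ι × ι)) (C : ℤ × (ι → ℤ)) : act l (toR C) = toR (act l C) := by
  induction l with
  | nil => rfl
  | cons t l ih =>
    have h1 : act (t :: l) (toR C) = crem t.1 t.2.1 t.2.2 (act l (toR C)) := rfl
    have h2 : act (t :: l) C = crem t.1 t.2.1 t.2.2 (act l C) := rfl
    rw [h1, h2, ih, toR_crem]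

lemma Bf_act (S : Finset ι) (l : List (ι × ι × ι)) (hl : GoodWord S l) (v w : R × (ι → R)) :
    Bf S (act l v) (act l w) = Bf S v w := by
  induction l with
  | nil => rfl
  | cons t l ih =>
    have : ∀ u : R × (ι → R), act (t :: l) u = crem t.1 t.2.1 t.2.2 (act l u) := fun _ => rfl
    obtain ⟨h1, h2, h3, h4, h5, h6⟩ := hl t (by simp)
    rw [this, this, Bf_crem S h1 h2 h3 h4 h5 h6, ih (fun t ht => hl t (by simp [ht]))]

lemma Kd_act (S : Finset ι) (l : List (ι × ι × ι)) (hl : GoodWord S l) (v : R × (ι → R)) :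
    Kd S (act l v) = Kd S v := by
  induction l with
  | nil => rfl
  | cons t l ih =>
    have : ∀ u : R × (ι → R), act (t :: l) u = crem t.1 t.2.1 t.2.2 (act l u) := fun _ => rfl
    obtain ⟨h1, h2, h3, h4, h5, h6⟩ := hl t (by simp)
    rw [this, Kd_crem S h1 h2 h3 h4 h5 h6, ih (fun t ht => hl t (by simp [ht]))]

lemma act_snd_of_notMem (S : Finset ι) (l : List (ι × ι × ι)) (hl : GoodWord S l)
    (v : R × (ι → R)) {j : ι} (hj : j ∉ S) : (act l v).2 j = v.2 j := by
  induction l with
  | nil => rfl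
  | cons t l ih =>
    have : ∀ u : R × (ι → R), act (t :: l) u = crem t.1 t.2.1 t.2.2 (act l u) := fun _ => rfl
    obtain ⟨h1, h2, h3, h4, h5, h6⟩ := hl t (by simp)
    rw [this]
    have e : (crem t.1 t.2.1 t.2.2 (act l v)).2 j = (act l v).2 j := by
      have n1 : j ≠ t.1 := fun h => hj (h ▸ h1)
      have n2 : j ≠ t.2.1 := fun h => hj (h ▸ h2)
      have n3 : j ≠ t.2.2 := fun h => hj (h ▸ h3)
      simp [crem, n1, n2, n3]
    rw [e, ih (fun t ht => hl t (by simp [ht]))]

lemma nef_act (S : Finset ι) (l : List (ι × ι × ι)) (hl : GoodWord S l) (v : ℝ × (ι → ℝ)) :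
    Nef (act l v) ↔ Nef v := by
  induction l with
  | nil => rfl
  | cons t l ih =>
    have : ∀ u : ℝ × (ι → ℝ), act (t :: l) u = crem t.1 t.2.1 t.2.2 (act l u) := fun _ => rfl
    obtain ⟨h1, h2, h3, h4, h5, h6⟩ := hl t (by simp)
    rw [← ih (fun t ht => hl t (by simp [ht])), this]
    constructor
    · intro h
      have := nef_crem h4 h5 h6 _ h
      rwa [crem_crem h4 h5 h6] at this
    · exact nef_crem h4 h5 h6 _

lemma nef_add (v w : ℝ × (ι → ℝ)) (hv : Nef v) (hw : Nef w) : Nef (v + w) := by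
  intro S C h1 h2
  have e : Bf S (v + w) (toR C) = Bf S v (toR C) + Bf S w (toR C) := by
    simp only [Bf, Prod.fst_add, Prod.snd_add, Pi.add_apply, add_mul, Finset.sum_add_distrib]
    ring
  rw [e]; exact add_nonneg (hv S C h1 h2) (hw S C h1 h2)

lemma nef_smul (c : ℝ) (hc : 0 ≤ c) (v : ℝ × (ι → ℝ)) (hv : Nef v) : Nef (c • v) := by
  intro S C h1 h2
  have e : Bf S (c • v) (toR C) = c * Bf S v (toR C) := by
    simp only [Bf, Prod.smul_fst, Prod.smul_snd, Pi.smul_apply, smul_eq_mul, mul_sub, Finset.mul_sum,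
      mul_assoc]
  rw [e]; exact mul_nonneg hc (hv S C h1 h2)

lemma Bf_add_left (S : Finset ι) (v v' w : R × (ι → R)) :
    Bf S (v + v') w = Bf S v w + Bf S v' w := by
  simp only [Bf, Prod.fst_add, Prod.snd_add, Pi.add_apply, add_mul, Finset.sum_add_distrib]; ring

lemma Bf_smul_left (S : Finset ι) (c : R) (v w : R × (ι → R)) :
    Bf S (c • v) w = c * Bf S v w := by
  simp only [Bf, Prod.smul_fst, Prod.smul_snd, Pi.smul_apply, smul_eq_mul, mul_sub, Finset.mul_sum,
    mul_assoc]

lemma Bf_comm (S : Finset ι) (v w : R × (ι → R)) : Bf S v w = Bf S w v := by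
  simp only [Bf, mul_comm]

lemma Bf_toR (S : Finset ι) (C D : ℤ × (ι → ℤ)) : Bf S (toR C) (toR D) = ((Bf S C D : ℤ) : ℝ) := by
  simp [Bf, toR]

lemma Kd_toR (S : Finset ι) (C : ℤ × (ι → ℤ)) : Kd S (toR C) = ((Kd S C : ℤ) : ℝ) := by
  simp [Kd, toR]

/-- pairing with the standard isotropic class -/
lemma Bf_std (S : Finset ι) (i₁ : ι) (hi₁ : i₁ ∈ S) (v : R × (ι → R)) :
    Bf S v ((1, fun i => if i = i₁ then 1 else 0) : R × (ι → R)) = v.1 - v.2 i₁ := by
  simp [Bf, hi₁]

/-- entries of a nef vector are nonnegative -/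
lemma nef_entry_nonneg (v : ℝ × (ι → ℝ)) (hv : Nef v) (i : ι) : 0 ≤ v.2 i := by
  have h := hv {i} (0, fun j => if j = i then -1 else 0) (by simp) (by simp [idx, Bf, Kd])
  simp [Bf, toR] at h
  exact h

/-- two entries of a nef vector have sum at most the degree -/
lemma nef_two (v : ℝ × (ι → ℝ)) (hv : Nef v) {i j : ι} (hij : i ≠ j) : v.2 i + v.2 j ≤ v.1 := by
  have h := hv {i, j} (1, fun l => 1) (by simp) (by
    rw [idx_eq]; simp [Finset.sum_pair hij])
  simp [Bf, toR, Finset.sum_pair hij] at h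
  linarith

end Pool.Agent.Helper416_Stair
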