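import Pool.Agent.Helper416_Stair.Defs

/-!
# ECH capacities of an ellipsoid from its weights
-/

noncomputable section

open scoped BigOperators Pointwise

namespace Pool.Agent.Helper416_Stair



/-
JOB E12 (helper416, MP_f690a7_gt).  ECH capacities of an ellipsoid from its weights.

Plain proof.  Sets `{(m,n) : m x + n y ≤ L}` are finite for `x, y > 0`, and `ellCap x y k ≤ L ↔ k+1 ≤ latCount x y L`
(`L ≥ 0`; the infimum is attained), equivalently `L ≤ ellCap x y k ↔ #{m x + n y < L} ≤ k`.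
One step, `x < y`:  (i) `x d + ellCap x (y-x) j ≤ ellCap x y k` if `d(d+1)/2 + j ≤ k`.  Substitute `s = m + n`:
`m x + n y = s x + n (y-x)`, `0 ≤ n ≤ s`.  The points with `s x + n (y-x) < x d + L'` (`L' = ellCap x (y-x) j`) have either
`s < d` (at most `d(d+1)/2` of them) or `s ≥ d`, and then `(s-d) x + n (y-x) < L'` (at most `j`).
(ii) for every `k` there are `d, j` with `d(d+1)/2 + j ≤ k` and `ellCap x y k ≤ x d + ellCap x (y-x) j`: put `L = ellCap x y k`,
`d = ⌈L / y⌉` (so `y (d-1) < L ≤ y d`), `j = k - d(d+1)/2`.  All points `0 ≤ n ≤ s < d` have `s x + n (y-x) ≤ s y < L`, and all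
`(s,n)`, `s ≥ d`, `n ≥ 0` with `s x + n(y-x) < L` have `n ≤ s` (else `≥ s x + (s+1)(y-x) ≥ s y ≥ L`).  So
`#{s ≥ d, s x + n (y-x) < L} + d(d+1)/2 ≤ #{m x + n y < L} ≤ k`, i.e. `L - d x ≤ ellCap x (y-x) j` (if `L - d x ≤ 0` trivial).
`x = y`: `ellCap x x k = x d` for the largest `d` with `d(d+1) ≤ 2k`.  `x > y` is symmetric.  `stepE` is exactly this step;
`wt x y 0 = min x y`, `wt x y (i+1) = wt x' y' i` with `(x',y') = stepE (x,y)` (`Function.iterate_succ_apply`); once one
side is 0 all later weights are 0.  Now induct on `M` for all `x, y > 0`; base case of the second statement: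
`ellCap x y k ≤ k min x y` (the points `(i,0)` or `(0,i)`, `i ≤ k`).  The sum formulas: each step lowers `x + y` by the
weight and `x y` by the square of the weight.
-/


/-- fewer than `k + 1` points of value below `L` -/
def PP (x y L : ℝ) (k : ℕ) : Prop :=
  {p : ℕ × ℕ | (p.1 : ℝ) * x + (p.2 : ℝ) * y < L}.encard ≤ (k : ℕ∞)

/-- the triangle `m + n < d` -/
def Tri (d : ℕ) : Finset (ℕ × ℕ) := (Finset.range d).biUnion (fun s => Finset.HasAntidiagonal.antidiagonal s)

theorem mem_Tri (d : ℕ) (p : ℕ × ℕ) : p ∈ Tri d ↔ p.1 + p.2 < d := by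
  simp [Tri]

theorem card_Tri (d : ℕ) : 2 * (Tri d).card = d ^ 2 + d := by
  have h1 : (Tri d).card = ∑ s ∈ Finset.range d, (s + 1) := by
    unfold Tri
    rw [Finset.card_biUnion]
    · simp
    · intro a _ b _ hab
      rw [Function.onFun, Finset.disjoint_left]
      intro p hp hq
      simp only [Finset.HasAntidiagonal.mem_antidiagonal] at hp hq
      omega
  rw [h1]
  induction d with
  | zero => simp
  | succ d ih =>
    rw [Finset.sum_range_succ, mul_add]
    have : (Tri d).card = ∑ s ∈ Finset.range d, (s + 1) := by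
      unfold Tri
      rw [Finset.card_biUnion]
      · simp
      · intro a _ b _ hab
        rw [Function.onFun, Finset.disjoint_left]
        intro p hp hq
        simp only [Finset.HasAntidiagonal.mem_antidiagonal] at hp hq
        omega
    rw [ih this]
    ring

theorem PP_swap {x y L : ℝ} {k : ℕ} (h : PP x y L k) : PP y x L k := by
  unfold PP at *
  refine le_trans (Set.encard_le_encard_of_injOn (f := Prod.swap) ?_ ?_) h
  · intro p hp
    simp only [Set.mem_ofPred_eq, Prod.fst_swap, Prod.snd_swap] at hp ⊢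
    linarith
  · exact Prod.swap_injective.injOn

theorem PP_mono {x y L L' : ℝ} {k k' : ℕ} (hL : L' ≤ L) (hk : k ≤ k') (h : PP x y L k) :
    PP x y L' k' := by
  unfold PP at *
  refine le_trans (Set.encard_le_encard ?_) (le_trans h (by exact_mod_cast hk))
  intro p hp
  exact lt_of_lt_of_le hp hL

theorem step1 {x y L' : ℝ} {d j k : ℕ} (h : d ^ 2 + d + 2 * j ≤ 2 * k)
    (hP : PP x (y - x) L' j) : PP x y (d * x + L') k := by
  unfold PP at *
  set S := {p : ℕ × ℕ | (p.1 : ℝ) * x + (p.2 : ℝ) * y < d * x + L'} with hS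
  have h1 : S.encard ≤ ((Tri d : Finset (ℕ × ℕ)) : Set (ℕ × ℕ)).encard
      + (S \ ((Tri d : Finset (ℕ × ℕ)) : Set (ℕ × ℕ))).encard := by
    refine le_trans (Set.encard_le_encard ?_) (Set.encard_union_le _ _)
    intro p hp
    by_cases hq : p ∈ Tri d
    · left; exact hq
    · right; exact ⟨hp, hq⟩
  have h2 : (S \ ((Tri d : Finset (ℕ × ℕ)) : Set (ℕ × ℕ))).encard ≤ (j : ℕ∞) := by
    refine le_trans (Set.encard_le_encard_of_injOn (f := fun p : ℕ × ℕ => (p.1 + p.2 - d, p.2))
      ?_ ?_) hP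
    · intro p hp
      have hp2 : ¬ (p.1 + p.2 < d) := fun hh => hp.2 ((mem_Tri d p).2 hh)
      have hp1 : (p.1 : ℝ) * x + (p.2 : ℝ) * y < d * x + L' := hp.1
      have hd : d ≤ p.1 + p.2 := by omega
      simp only [Set.mem_ofPred_eq]
      rw [Nat.cast_sub hd, Nat.cast_add]
      linarith
    · intro p hp q hq hpq
      have hp2 : ¬ (p.1 + p.2 < d) := fun hh => hp.2 ((mem_Tri d p).2 hh)
      have hq2 : ¬ (q.1 + q.2 < d) := fun hh => hq.2 ((mem_Tri d q).2 hh)
      simp only [Prod.mk.injEq] at hpq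
      ext <;> omega
  rw [Set.encard_coe_eq_coe_finsetCard] at h1
  have h3 := card_Tri d
  calc S.encard ≤ ((Tri d).card : ℕ∞) + (j : ℕ∞) := le_trans h1 (by gcongr)
    _ = (((Tri d).card + j : ℕ) : ℕ∞) := by push_cast; rfl
    _ ≤ (k : ℕ∞) := by
      have : (Tri d).card + j ≤ k := by omega
      exact_mod_cast this

theorem step2 {x y L : ℝ} (_hx : 0 ≤ x) (hxy : x ≤ y) (hy : 0 < y) {k : ℕ} (hP : PP x y L k) :
    ∃ d j : ℕ, d ^ 2 + d + 2 * j ≤ 2 * k ∧ PP x (y - x) (L - d * x) j := by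
  unfold PP at *
  set S := {p : ℕ × ℕ | (p.1 : ℝ) * x + (p.2 : ℝ) * y < L} with hS
  set d := ⌈L / y⌉₊ with hd
  have hd1 : L ≤ d * y := by
    have := Nat.le_ceil (L / y)
    rw [div_le_iff₀ hy] at this
    exact this
  have hd2 : ∀ s : ℕ, s < d → (s : ℝ) * y < L := by
    intro s hs
    rw [hd, Nat.lt_ceil, lt_div_iff₀ hy] at hs
    exact hs
  set U := {p : ℕ × ℕ | (p.1 : ℝ) * x + (p.2 : ℝ) * (y - x) < L - d * x} with hU
  have hUn : ∀ p ∈ U, p.2 ≤ p.1 + d := by
    intro p hp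
    by_contra hcon
    have h1 : p.1 + d + 1 ≤ p.2 := by omega
    have h2 : (p.1 : ℝ) + d + 1 ≤ p.2 := by exact_mod_cast h1
    have h3 : (p.1 : ℝ) * x + (p.2 : ℝ) * (y - x) < L - d * x := hp
    have h4 : ((p.1 : ℝ) + d + 1) * (y - x) ≤ (p.2 : ℝ) * (y - x) :=
      mul_le_mul_of_nonneg_right h2 (by linarith)
    have h5 : (0 : ℝ) ≤ (p.1 : ℝ) * y := by positivity
    nlinarith
  have hsub : ((Tri d : Finset (ℕ × ℕ)) : Set (ℕ × ℕ)) ∪
      (fun p : ℕ × ℕ => (p.1 + d - p.2, p.2)) '' U ⊆ S := by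
    rintro p (hp | ⟨q, hq, rfl⟩)
    · have hp' : p.1 + p.2 < d := (mem_Tri d p).1 hp
      have h1 := hd2 _ hp'
      push_cast at h1
      have h2 : (p.1 : ℝ) * x ≤ (p.1 : ℝ) * y := mul_le_mul_of_nonneg_left hxy (by positivity)
      simp only [hS, Set.mem_ofPred_eq]
      linarith
    · have h1 := hUn q hq
      have h2 : (q.1 : ℝ) * x + (q.2 : ℝ) * (y - x) < L - d * x := hq
      simp only [hS, Set.mem_ofPred_eq]
      rw [Nat.cast_sub h1, Nat.cast_add]
      linarith
  have hdisj : Disjoint ((Tri d : Finset (ℕ × ℕ)) : Set (ℕ × ℕ))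
      ((fun p : ℕ × ℕ => (p.1 + d - p.2, p.2)) '' U) := by
    rw [Set.disjoint_left]
    rintro p hp ⟨q, hq, rfl⟩
    have h1 := hUn q hq
    have hp' : (q.1 + d - q.2) + q.2 < d := (mem_Tri d _).1 hp
    omega
  have hinj : Set.InjOn (fun p : ℕ × ℕ => (p.1 + d - p.2, p.2)) U := by
    intro p hp q hq hpq
    have h1 := hUn q hq
    have h2 := hUn p hp
    simp only [Prod.mk.injEq] at hpq
    ext <;> omega
  have hcard : ((Tri d).card : ℕ∞) + U.encard ≤ (k : ℕ∞) := by
    have h1 := Set.encard_le_encard hsub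
    rw [Set.encard_union_eq hdisj, hinj.encard_image, Set.encard_coe_eq_coe_finsetCard] at h1
    exact le_trans h1 hP
  have hUtop : U.encard ≠ ⊤ := by
    intro h
    rw [h] at hcard
    simp at hcard
  obtain ⟨u, hu⟩ := ENat.ne_top_iff_exists.mp hUtop
  rw [← hu] at hcard
  have hcard' : (Tri d).card + u ≤ k := by exact_mod_cast hcard
  have h3 := card_Tri d
  refine ⟨d, u, by omega, ?_⟩
  rw [← hu]

theorem PP_base {x y L : ℝ} (hx : 0 ≤ x) {k : ℕ} (hP : PP x y L k) :
    L ≤ k * x := by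
  by_contra hcon
  push Not at hcon
  unfold PP at hP
  have h1 : ((fun i : ℕ => ((i, 0) : ℕ × ℕ)) '' ((Finset.range (k + 1) : Finset ℕ) : Set ℕ)).encard
      ≤ (k : ℕ∞) := by
    refine le_trans (Set.encard_le_encard ?_) hP
    rintro p ⟨i, hi, rfl⟩
    simp only [Finset.coe_range, Set.mem_Iio] at hi
    have h2 : (i : ℝ) ≤ k := by exact_mod_cast (by omega : i ≤ k)
    have h3 : (i : ℝ) * x ≤ k * x := mul_le_mul_of_nonneg_right h2 hx
    simp only [Set.mem_ofPred_eq, Nat.cast_zero, zero_mul, add_zero]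
    linarith
  rw [Set.InjOn.encard_image, Set.encard_coe_eq_coe_finsetCard, Finset.card_range] at h1
  · have : k + 1 ≤ k := by exact_mod_cast h1
    omega
  · intro a _ b _ hab
    simpa using hab

theorem PP_base' {x y L : ℝ} (hx : 0 ≤ x) (hy : 0 ≤ y) {k : ℕ} (hP : PP x y L k) :
    L ≤ k * min x y := by
  rcases le_total x y with h | h
  · rw [min_eq_left h]; exact PP_base hx hP
  · rw [min_eq_right h]; exact PP_base hy (PP_swap hP)

theorem stE_zero (x y : ℝ) : stE x y 0 = (x, y) := rfl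

theorem stE_succ (x y : ℝ) (n : ℕ) :
    stE x y (n + 1) = stE (stepE (x, y)).1 (stepE (x, y)).2 n := by
  unfold stE
  rw [Function.iterate_succ_apply]

theorem stE_succ' (x y : ℝ) (n : ℕ) : stE x y (n + 1) = stepE (stE x y n) := by
  unfold stE
  rw [Function.iterate_succ_apply']

theorem wt_zero (x y : ℝ) : wt x y 0 = min x y := rfl

theorem wt_succ (x y : ℝ) (n : ℕ) :
    wt x y (n + 1) = wt (stepE (x, y)).1 (stepE (x, y)).2 n := by
  unfold wt
  rw [stE_succ]

theorem stepE_nonneg {s : ℝ × ℝ} (h1 : 0 ≤ s.1) (h2 : 0 ≤ s.2) :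
    0 ≤ (stepE s).1 ∧ 0 ≤ (stepE s).2 := by
  unfold stepE
  split_ifs with h
  · exact ⟨h1, by simpa using h⟩
  · push Not at h
    exact ⟨by simpa using h.le, h2⟩

theorem stE_nonneg {x y : ℝ} (hx : 0 ≤ x) (hy : 0 ≤ y) (n : ℕ) :
    0 ≤ (stE x y n).1 ∧ 0 ≤ (stE x y n).2 := by
  induction n with
  | zero => exact ⟨hx, hy⟩
  | succ n ih =>
    rw [stE_succ']
    exact stepE_nonneg ih.1 ih.2

theorem wt_nonneg {x y : ℝ} (hx : 0 ≤ x) (hy : 0 ≤ y) (n : ℕ) : 0 ≤ wt x y n := by
  have := stE_nonneg hx hy n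
  exact le_min this.1 this.2

theorem lowerP (M : ℕ) : ∀ (x y : ℝ) (k : ℕ) (n : ℕ → ℕ), 0 ≤ x → 0 ≤ y →
    ∑ i ∈ Finset.range M, (n i ^ 2 + n i) ≤ 2 * k →
    PP x y (∑ i ∈ Finset.range M, (n i : ℝ) * wt x y i) k := by
  induction M with
  | zero =>
    intro x y k n hx hy _
    unfold PP
    have : {p : ℕ × ℕ | (p.1 : ℝ) * x + (p.2 : ℝ) * y <
        ∑ i ∈ Finset.range 0, (n i : ℝ) * wt x y i} = ∅ := by
      ext p
      simp only [Finset.range_zero, Finset.sum_empty, Set.mem_ofPred_eq, Set.mem_empty_iff_false,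
        iff_false, not_lt]
      positivity
    rw [this]
    simp
  | succ M ih =>
    intro x y k n hx hy hk
    rw [Finset.sum_range_succ'] at hk
    rw [Finset.sum_range_succ', wt_zero, add_comm]
    simp_rw [wt_succ]
    have hev : ∃ j, ∑ i ∈ Finset.range M, (n (i + 1) ^ 2 + n (i + 1)) = 2 * j := by
      have : Even (∑ i ∈ Finset.range M, (n (i + 1) ^ 2 + n (i + 1))) := by
        refine Finset.even_sum _ (fun i _ => ?_)
        rw [sq]
        have := Nat.even_mul_succ_self (n (i + 1))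
        rwa [mul_add, mul_one] at this
      obtain ⟨j, hj⟩ := this
      exact ⟨j, by omega⟩
    obtain ⟨j, hj⟩ := hev
    have hst := stepE_nonneg (s := (x, y)) hx hy
    have h1 := ih (stepE (x, y)).1 (stepE (x, y)).2 j (fun i => n (i + 1)) hst.1 hst.2 hj.le
    rcases le_or_gt x y with h | h
    · rw [min_eq_left h]
      have e : stepE (x, y) = (x, y - x) := by simp [stepE, h]
      rw [e] at h1 ⊢
      exact step1 (by omega) h1
    · rw [min_eq_right h.le]
      have e : stepE (x, y) = (x - y, y) := by simp [stepE, h]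
      rw [e] at h1 ⊢
      exact PP_swap (step1 (by omega) (PP_swap h1))

theorem upperP (M : ℕ) : ∀ (x y : ℝ) (k : ℕ) (L : ℝ), 0 ≤ x → 0 ≤ y → PP x y L k →
    ∃ n : ℕ → ℕ, ∑ i ∈ Finset.range M, (n i ^ 2 + n i) ≤ 2 * k ∧
      L ≤ ∑ i ∈ Finset.range M, (n i : ℝ) * wt x y i + k * wt x y M := by
  induction M with
  | zero =>
    intro x y k L hx hy hP
    refine ⟨fun _ => 0, by simp, ?_⟩
    simp only [Finset.range_zero, Finset.sum_empty, zero_add]
    exact PP_base' hx hy hP
  | succ M ih =>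
    intro x y k L hx hy hP
    have key : ∃ d j : ℕ, d ^ 2 + d + 2 * j ≤ 2 * k ∧
        PP (stepE (x, y)).1 (stepE (x, y)).2 (L - d * min x y) j := by
      rcases le_or_gt x y with h | h
      · rcases hy.lt_or_eq with hy0 | hy0
        · obtain ⟨d, j, h1, h2⟩ := step2 hx h hy0 hP
          refine ⟨d, j, h1, ?_⟩
          have e : stepE (x, y) = (x, y - x) := by simp [stepE, h]
          rw [e, min_eq_left h]
          exact h2
        · have hx0 : x = 0 := by linarith
          subst hx0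
          subst hy0
          refine ⟨0, k, by omega, ?_⟩
          have e : stepE ((0 : ℝ), (0 : ℝ)) = (0, 0) := by simp [stepE]
          rw [e]
          simpa using hP
      · obtain ⟨d, j, h1, h2⟩ := step2 hy h.le (lt_of_le_of_lt hy h) (PP_swap hP)
        refine ⟨d, j, h1, ?_⟩
        have e : stepE (x, y) = (x - y, y) := by simp [stepE, h]
        rw [e, min_eq_right h.le]
        exact PP_swap h2
    obtain ⟨d, j, h1, h2⟩ := key
    have hst := stepE_nonneg (s := (x, y)) hx hy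
    obtain ⟨n', hn1, hn2⟩ := ih _ _ j _ hst.1 hst.2 h2
    refine ⟨fun i => if i = 0 then d else n' (i - 1), ?_, ?_⟩
    · rw [Finset.sum_range_succ']
      simp only [Nat.add_eq_zero_iff, one_ne_zero, and_false, if_false, Nat.add_sub_cancel, if_true]
      omega
    · rw [Finset.sum_range_succ', wt_zero, wt_succ]
      simp_rw [wt_succ]
      have hw := wt_nonneg hst.1 hst.2 M
      have hjk : (j : ℝ) ≤ k := by
        have : j ≤ k := by nlinarith
        exact_mod_cast this
      have h3 : (j : ℝ) * wt (stepE (x, y)).1 (stepE (x, y)).2 M ≤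
          k * wt (stepE (x, y)).1 (stepE (x, y)).2 M := mul_le_mul_of_nonneg_right hjk hw
      simp only [Nat.add_eq_zero_iff, one_ne_zero, and_false, if_false, Nat.add_sub_cancel, if_true]
      linarith

theorem finite_lt {x y : ℝ} (hx : 0 < x) (hy : 0 < y) (L : ℝ) :
    {p : ℕ × ℕ | (p.1 : ℝ) * x + (p.2 : ℝ) * y ≤ L}.Finite := by
  refine Set.Finite.subset (((Set.finite_Iic ⌊L / x⌋₊).prod (Set.finite_Iic ⌊L / y⌋₊))) ?_
  intro p hp
  simp only [Set.mem_ofPred_eq] at hp
  have h1 : (0 : ℝ) ≤ (p.1 : ℝ) * x := by positivity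
  have h2 : (0 : ℝ) ≤ (p.2 : ℝ) * y := by positivity
  constructor
  · simp only [Set.mem_Iic]
    apply Nat.le_floor
    rw [le_div_iff₀ hx]
    linarith
  · simp only [Set.mem_Iic]
    apply Nat.le_floor
    rw [le_div_iff₀ hy]
    linarith

theorem le_ellCap_iff {x y : ℝ} (hx : 0 < x) (hy : 0 < y) (L : ℝ) (k : ℕ) :
    L ≤ ellCap x y k ↔ PP x y L k := by
  have hbdd : BddBelow {L : ℝ | 0 ≤ L ∧ k + 1 ≤ latCount x y L} := ⟨0, fun a ha => ha.1⟩
  have hne : {L : ℝ | 0 ≤ L ∧ k + 1 ≤ latCount x y L}.Nonempty := by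
    refine ⟨k * x, by positivity, ?_⟩
    unfold latCount
    have h1 : (((Finset.range (k + 1)).image (fun i : ℕ => ((i, 0) : ℕ × ℕ)) :
        Finset (ℕ × ℕ)) : Set (ℕ × ℕ)) ⊆
        {p : ℕ × ℕ | (p.1 : ℝ) * x + (p.2 : ℝ) * y ≤ k * x} := by
      intro p hp
      simp only [Finset.coe_image, Finset.coe_range, Set.mem_image, Set.mem_Iio] at hp
      obtain ⟨i, hi, rfl⟩ := hp
      have h2 : (i : ℝ) ≤ k := by exact_mod_cast (by omega : i ≤ k)
      have h3 : (i : ℝ) * x ≤ k * x := mul_le_mul_of_nonneg_right h2 hx.le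
      simp only [Set.mem_ofPred_eq, Nat.cast_zero, zero_mul, add_zero]
      exact h3
    have h4 := Set.ncard_le_ncard h1 (finite_lt hx hy _)
    rw [Set.ncard_coe_finset, Finset.card_image_of_injective, Finset.card_range] at h4
    · exact h4
    · intro a b hab
      simpa using hab
  constructor
  · intro hL
    unfold PP
    by_contra hcon
    push Not at hcon
    have hfin : {p : ℕ × ℕ | (p.1 : ℝ) * x + (p.2 : ℝ) * y < L}.Finite :=
      (finite_lt hx hy L).subset (fun p (hp : (p.1 : ℝ) * x + (p.2 : ℝ) * y < L) => (show (p.1 : ℝ) * x + (p.2 : ℝ) * y ≤ L from le_of_lt hp))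
    rw [hfin.encard_eq_coe_toFinset_card] at hcon
    have hcon' : k < hfin.toFinset.card := by exact_mod_cast hcon
    have hnon : hfin.toFinset.Nonempty := by
      rw [← Finset.card_pos]; omega
    obtain ⟨q, hq, hmax⟩ := Finset.exists_max_image hfin.toFinset
      (fun p : ℕ × ℕ => (p.1 : ℝ) * x + (p.2 : ℝ) * y) hnon
    have hq' : (q.1 : ℝ) * x + (q.2 : ℝ) * y < L := by simpa using hq
    have hmem : (q.1 : ℝ) * x + (q.2 : ℝ) * y ∈ {L : ℝ | 0 ≤ L ∧ k + 1 ≤ latCount x y L} := by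
      refine ⟨by positivity, ?_⟩
      unfold latCount
      have h1 : (hfin.toFinset : Set (ℕ × ℕ)) ⊆
          {p : ℕ × ℕ | (p.1 : ℝ) * x + (p.2 : ℝ) * y ≤ (q.1 : ℝ) * x + (q.2 : ℝ) * y} := by
        intro p hp
        exact hmax p hp
      have h4 := Set.ncard_le_ncard h1 (finite_lt hx hy _)
      rw [Set.ncard_coe_finset] at h4
      omega
    have := csInf_le hbdd hmem
    unfold ellCap at hL
    linarith
  · intro hP
    unfold ellCap
    refine le_csInf hne ?_
    rintro L'' ⟨_, hL''⟩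
    by_contra hcon
    push Not at hcon
    have h1 : {p : ℕ × ℕ | (p.1 : ℝ) * x + (p.2 : ℝ) * y ≤ L''} ⊆
        {p : ℕ × ℕ | (p.1 : ℝ) * x + (p.2 : ℝ) * y < L} := by
      intro p hp
      exact lt_of_le_of_lt hp hcon
    have h2 := le_trans (Set.encard_le_encard h1) hP
    unfold latCount at hL''
    rw [← (finite_lt hx hy L'').cast_ncard_eq] at h2
    have h3 : {p : ℕ × ℕ | (p.1 : ℝ) * x + (p.2 : ℝ) * y ≤ L''}.ncard ≤ k := by
      exact_mod_cast h2
    omega

/-- TARGET -/
theorem ellE (x y : ℝ) (hx : 0 < x) (hy : 0 < y) :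
    (∀ (k M : ℕ) (n : ℕ → ℕ), ∑ i ∈ Finset.range M, (n i ^ 2 + n i) ≤ 2 * k →
      ∑ i ∈ Finset.range M, (n i : ℝ) * wt x y i ≤ ellCap x y k) ∧
    (∀ k M : ℕ, ∃ n : ℕ → ℕ, ∑ i ∈ Finset.range M, (n i ^ 2 + n i) ≤ 2 * k ∧
      ellCap x y k ≤ ∑ i ∈ Finset.range M, (n i : ℝ) * wt x y i + k * wt x y M) ∧
    (∀ M : ℕ, 0 ≤ (stE x y M).1 ∧ 0 ≤ (stE x y M).2 ∧
      ∑ i ∈ Finset.range M, wt x y i = x + y - ((stE x y M).1 + (stE x y M).2) ∧
      ∑ i ∈ Finset.range M, wt x y i ^ 2 = x * y - (stE x y M).1 * (stE x y M).2) := by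
  refine ⟨?_, ?_, ?_⟩
  · intro k M n h
    rw [le_ellCap_iff hx hy]
    exact lowerP M x y k n hx.le hy.le h
  · intro k M
    exact upperP M x y k _ hx.le hy.le ((le_ellCap_iff hx hy _ k).1 le_rfl)
  · intro M
    refine ⟨(stE_nonneg hx.le hy.le M).1, (stE_nonneg hx.le hy.le M).2, ?_, ?_⟩
    · induction M with
      | zero => simp [stE_zero]
      | succ M ih =>
        rw [Finset.sum_range_succ, ih, stE_succ']
        unfold wt stepE
        split_ifs with h
        · rw [min_eq_left h]; ring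
        · push Not at h
          rw [min_eq_right h.le]; ring
    · induction M with
      | zero => simp [stE_zero]
      | succ M ih =>
        rw [Finset.sum_range_succ, ih, stE_succ']
        unfold wt stepE
        split_ifs with h
        · rw [min_eq_left h]; ring
        · push Not at h
          rw [min_eq_right h.le]; ring


end Pool.Agent.Helper416_Stair
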