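import Pool.Agent.Helper416_Stair.A1
import Pool.Agent.Helper416_Stair.E12

/-!
# Capacities and the Nef condition
-/

noncomputable section

open scoped BigOperators Pointwise

namespace Pool.Agent.Helper416_Stair



variable {ι : Type*} [DecidableEq ι] {R : Type*} [CommRing R]

















/-
JOB BRIDGE (helper416, MP_f690a7_gt).  Capacity inequalities and the cone `Nef` on the index set `U ⊕ ℕ`.

Plain proof.  `(b; β)` with `b > 0`, `β ≥ 0`, `Nef (b, β)`.  The set defining `capW b β k` is nonempty (`C = (k; 0)`, `S = ∅`, index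
`k² + 3k ≥ 2k`) and bounded below by 0 (nefness, since `idx ≥ 2k ≥ 0`).
(1) If `ellCap 1 z k ≤ l capW b β k` for all `k`, then the vector is nef: let `S ⊆ U ⊕ ℕ`, `C` with `C.1 ≥ 0`, `idx S C ≥ 0`.  Let `n_i`
be the positive part of `C.2 (inr i)` for `inr i ∈ S` and `0` else, `2k = ∑ (n_i² + n_i)` (even).  The `U`-part `C_U` of `C` on
`S_U = {u : inl u ∈ S}` has `idx ≥ 2k` (`m²+m ≥ 0` for integers and `= n² + n` or larger), so
`∑_{inr i ∈ S} C_i wt_i ≤ ∑ n_i wt_i ≤ ellCap 1 z k ≤ l capW k ≤ l (b;β)·C_U`, by the first part of `ellE` (weights are `≥ 0`).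
(2) If `l capW b β k < ellCap 1 z k`: there are `S_U, C_U` with `C_U.1 ≥ 0`, `idx ≥ 2k` and `l (b;β)·C_U < ellCap 1 z k`; replace `C_U.2`
by its positive part on `S_U` and 0 off it (index does not drop, pairing does not grow).  By the second part of `ellE`
and `wt 1 z M → 0` (partial sums of the weights are bounded by `1 + z`, third part) there is `M` and `n` with
`∑_{i<M} (n_i²+n_i) ≤ 2k` and `l (b;β)·C_U < ∑_{i<M} n_i wt_i`.  Put the two parts together:
`S = S_U ⊔ {i < M}`, `idx S C = idx C_U - ∑(n²+n) ≥ 0`, and `C.1² + 3 C.1 ≥ idx C_U ≥ 2k`.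
(3) The converse of (1): if nef and some `k` violated, (2) gives a class of negative pairing.
-/



/-- the vector of the embedding problem `E(1, z) → l X` -/
def vec {U : Type*} (b : ℝ) (β : U → ℝ) (l z : ℝ) : ℝ × (U ⊕ ℕ → ℝ) :=
  (l * b, Sum.elim (fun u => l * β u) (wt 1 z))


omit [DecidableEq ι] in
theorem aux70_pos (m : ℤ) : (max m 0) ^ 2 + max m 0 ≤ m ^ 2 + m := by
  rcases le_or_gt 0 m with h | h
  · rw [max_eq_left h]
  · rw [max_eq_right h.le]
    have h1 : m + 1 ≤ 0 := by omega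
    nlinarith [mul_nonneg_of_nonpos_of_nonpos h.le h1]

theorem aux70_wt_nonneg (z : ℝ) (hz : 0 < z) (i : ℕ) : 0 ≤ wt 1 z i := by
  obtain ⟨_, _, h⟩ := ellE 1 z one_pos hz
  exact le_min (h i).1 (h i).2.1

theorem aux70_small (z : ℝ) (hz : 0 < z) (k : ℕ) (δ : ℝ) (hδ : 0 < δ) :
    ∃ M : ℕ, (k : ℝ) * wt 1 z M < δ := by
  obtain ⟨_, _, h⟩ := ellE 1 z one_pos hz
  have hs : Summable (wt 1 z) := by
    apply summable_of_sum_range_le (c := 1 + z) (aux70_wt_nonneg z hz)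
    intro n
    have := h n
    linarith [this.1, this.2.1, this.2.2.1]
  have ht := (hs.tendsto_atTop_zero).const_mul (k : ℝ)
  rw [mul_zero] at ht
  exact (ht.eventually (gt_mem_nhds hδ)).exists

theorem aux70_mem_nonempty {U : Type*} (b : ℝ) (β : U → ℝ) (k : ℕ) :
    {L : ℝ | ∃ (S : Finset U) (C : ℤ × (U → ℤ)), 0 ≤ C.1 ∧ 2 * (k : ℤ) ≤ idx S C ∧
    L = Bf S (b, β) (toR C)}.Nonempty := by
  refine ⟨_, ∅, ((k : ℤ), fun _ => 0), ?_, ?_, rfl⟩
  · positivity
  · simp only [idx, Bf, Kd, Finset.sum_empty, sub_zero]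
    nlinarith [sq_nonneg (k : ℤ), Int.natCast_nonneg k]

theorem aux70_bdd {U : Type*} (b : ℝ) (β : U → ℝ) (hN : Nef (b, β)) (k : ℕ) :
    BddBelow {L : ℝ | ∃ (S : Finset U) (C : ℤ × (U → ℤ)), 0 ≤ C.1 ∧ 2 * (k : ℤ) ≤ idx S C ∧
    L = Bf S (b, β) (toR C)} := by
  refine ⟨0, ?_⟩
  rintro L ⟨S, C, h1, h2, rfl⟩
  exact hN S C h1 (le_trans (by positivity) h2)

/-- the second part -/
theorem aux70_second {U : Type*} [DecidableEq U] (b : ℝ) (β : U → ℝ) (hβ : ∀ u, 0 ≤ β u)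
    (z : ℝ) (hz : 0 < z) (l : ℝ) (hl : 0 < l) (k : ℕ)
    (hk : l * capW b β k < ellCap 1 z k) :
      ∃ (S : Finset (U ⊕ ℕ)) (C : ℤ × (U ⊕ ℕ → ℤ)), 0 ≤ C.1 ∧ (∀ i, 0 ≤ C.2 i) ∧
        (∀ i ∉ S, C.2 i = 0) ∧ 0 ≤ idx S C ∧ Bf S (vec b β l z) (toR C) < 0 ∧
        2 * (k : ℤ) ≤ C.1 ^ 2 + 3 * C.1 := by
  have h0 : capW b β k < ellCap 1 z k / l := by
    rw [lt_div_iff₀ hl]
    linarith [mul_comm l (capW b β k)]
  obtain ⟨L, ⟨T, D, hD1, hD2, rfl⟩, hL⟩ := exists_lt_of_csInf_lt (aux70_mem_nonempty b β k) h0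
  rw [lt_div_iff₀ hl] at hL
  -- positive part
  set m : U → ℤ := fun u => if u ∈ T then max (D.2 u) 0 else 0 with hm
  have hm0 : ∀ u, 0 ≤ m u := by
    intro u
    simp only [hm]
    split_ifs
    · exact le_max_right _ _
    · exact le_rfl
  have hidx : 2 * (k : ℤ) ≤ idx T ((D.1, m) : ℤ × (U → ℤ)) := by
    refine hD2.trans ?_
    rw [idx_eq, idx_eq]
    have : ∑ i ∈ T, (m i ^ 2 + m i) ≤ ∑ i ∈ T, (D.2 i ^ 2 + D.2 i) := by
      apply Finset.sum_le_sum
      intro i hi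
      simp only [hm, if_pos hi]
      exact aux70_pos _
    simp only
    linarith
  have hBf : ∑ i ∈ T, β i * (D.2 i : ℝ) ≤ ∑ i ∈ T, β i * (m i : ℝ) := by
    apply Finset.sum_le_sum
    intro i hi
    apply mul_le_mul_of_nonneg_left _ (hβ i)
    simp only [hm, if_pos hi]
    exact_mod_cast le_max_left _ _
  have hL' : l * (b * (D.1 : ℝ) - ∑ i ∈ T, β i * (m i : ℝ)) < ellCap 1 z k := by
    refine lt_of_le_of_lt ?_ hL
    simp only [Bf, toR]
    nlinarith
  obtain ⟨M, hM⟩ := aux70_small z hz k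
    (ellCap 1 z k - l * (b * (D.1 : ℝ) - ∑ i ∈ T, β i * (m i : ℝ))) (by linarith)
  obtain ⟨_, hE2, _⟩ := ellE 1 z one_pos hz
  obtain ⟨n, hn1, hn2⟩ := hE2 k M
  refine ⟨T.disjSum (Finset.range M), (D.1, Sum.elim m (fun i => if i < M then (n i : ℤ) else 0)),
    hD1, ?_, ?_, ?_, ?_, ?_⟩
  · rintro (u | i)
    · exact hm0 u
    · simp only [Sum.elim_inr]
      split_ifs <;> positivity
  · rintro (u | i) hi
    · simp only [Finset.inl_mem_disjSum] at hi
      simp only [Sum.elim_inl, hm, if_neg hi]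
    · simp only [Finset.inr_mem_disjSum, Finset.mem_range] at hi
      simp only [Sum.elim_inr, if_neg hi]
  · rw [idx_eq] at hidx ⊢
    rw [Finset.sum_disjSum]
    simp only [Sum.elim_inl, Sum.elim_inr]
    have e1 : ∑ i ∈ Finset.range M, ((if i < M then (n i : ℤ) else 0) ^ 2 + if i < M then (n i : ℤ) else 0)
        = ((∑ i ∈ Finset.range M, (n i ^ 2 + n i) : ℕ) : ℤ) := by
      push_cast
      apply Finset.sum_congr rfl
      intro i hi
      rw [Finset.mem_range] at hi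
      simp only [if_pos hi]
    rw [e1]
    have e2 : ((∑ i ∈ Finset.range M, (n i ^ 2 + n i) : ℕ) : ℤ) ≤ 2 * (k : ℤ) := by
      exact_mod_cast hn1
    simp only at hidx
    linarith
  · simp only [Bf, vec, toR]
    rw [Finset.sum_disjSum]
    simp only [Sum.elim_inl, Sum.elim_inr]
    have e1 : ∑ i ∈ Finset.range M, wt 1 z i * (((if i < M then (n i : ℤ) else 0 : ℤ)) : ℝ)
        = ∑ i ∈ Finset.range M, (n i : ℝ) * wt 1 z i := by
      apply Finset.sum_congr rfl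
      intro i hi
      rw [Finset.mem_range] at hi
      simp only [if_pos hi]
      push_cast
      ring
    rw [e1]
    have e2 : ∑ i ∈ T, l * β i * (m i : ℝ) = l * ∑ i ∈ T, β i * (m i : ℝ) := by
      rw [Finset.mul_sum]
      apply Finset.sum_congr rfl
      intro i _
      ring
    rw [e2]
    nlinarith
  · rw [idx_eq] at hidx
    simp only at hidx
    have : 0 ≤ ∑ i ∈ T, (m i ^ 2 + m i) := by
      apply Finset.sum_nonneg
      intro i _
      have := hm0 i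
      positivity
    simp only
    linarith

/-- the first implication -/
theorem aux70_first {U : Type*} [DecidableEq U] (b : ℝ) (β : U → ℝ)
    (hN : Nef (b, β)) (z : ℝ) (hz : 0 < z) (l : ℝ) (hl : 0 < l)
    (h : ∀ k, ellCap 1 z k ≤ l * capW b β k) : Nef (vec b β l z) := by
  intro S C hC1 hC2
  obtain ⟨hE1, _, _⟩ := ellE 1 z one_pos hz
  obtain ⟨M, hM⟩ : ∃ M, S.toRight ⊆ Finset.range M := by
    refine ⟨S.toRight.sup id + 1, ?_⟩
    intro i hi
    rw [Finset.mem_range]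
    exact Nat.lt_succ_of_le (Finset.le_sup (f := id) hi)
  set n : ℕ → ℕ := fun i => if i ∈ S.toRight then (C.2 (Sum.inr i)).toNat else 0 with hn
  have heven : ∃ k : ℕ, ∑ i ∈ Finset.range M, (n i ^ 2 + n i) = 2 * k := by
    have : Even (∑ i ∈ Finset.range M, (n i ^ 2 + n i)) := by
      apply Finset.even_sum
      intro i _
      have : n i ^ 2 + n i = n i * (n i + 1) := by ring
      rw [this]
      exact Nat.even_mul_succ_self _
    obtain ⟨k, hk⟩ := this
    exact ⟨k, by omega⟩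
  obtain ⟨k, hk⟩ := heven
  have hS : S = S.toLeft.disjSum S.toRight := Finset.toLeft_disjSum_toRight.symm
  have hsum_n : ∀ g : ℕ → ℕ → ℝ, (∀ i, g i 0 = 0) →
      ∑ i ∈ Finset.range M, g i (n i) = ∑ i ∈ S.toRight, g i (C.2 (Sum.inr i)).toNat := by
    intro g hg
    rw [← Finset.sum_subset hM]
    · apply Finset.sum_congr rfl
      intro i hi
      simp only [hn, if_pos hi]
    · intro i _ hi
      simp only [hn, if_neg hi, hg]
  have hidxU : 2 * (k : ℤ) ≤ idx S.toLeft ((C.1, fun u => C.2 (Sum.inl u)) : ℤ × (U → ℤ)) := by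
    rw [idx_eq] at hC2 ⊢
    rw [hS, Finset.sum_disjSum] at hC2
    have e1 : (2 * (k : ℤ)) ≤ ∑ i ∈ S.toRight, (C.2 (Sum.inr i) ^ 2 + C.2 (Sum.inr i)) := by
      have e2 : ((2 * k : ℕ) : ℤ) = ∑ i ∈ S.toRight, ((((C.2 (Sum.inr i)).toNat : ℕ) : ℤ) ^ 2
          + (((C.2 (Sum.inr i)).toNat : ℕ) : ℤ)) := by
        rw [← hk]
        push_cast
        rw [← Finset.sum_subset hM]
        · apply Finset.sum_congr rfl
          intro i hi
          simp only [hn, if_pos hi]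
        · intro i _ hi
          simp only [hn, if_neg hi]
          norm_num
      have e3 : (2 * (k : ℤ)) = ((2 * k : ℕ) : ℤ) := by push_cast; ring
      rw [e3, e2]
      apply Finset.sum_le_sum
      intro i _
      rw [Int.toNat_eq_max]
      exact aux70_pos _
    simp only at hC2 ⊢
    linarith
  have hcap : capW b β k ≤ Bf S.toLeft (b, β) (toR ((C.1, fun u => C.2 (Sum.inl u)) : ℤ × (U → ℤ))) :=
    csInf_le (aux70_bdd b β hN k) ⟨S.toLeft, (C.1, fun u => C.2 (Sum.inl u)), hC1, hidxU, rfl⟩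
  have h1 := hE1 k M n hk.le
  have h2 := h k
  have h3 := mul_le_mul_of_nonneg_left hcap hl.le
  have h4 : ∑ i ∈ S.toRight, wt 1 z i * (C.2 (Sum.inr i) : ℝ)
      ≤ ∑ i ∈ Finset.range M, (n i : ℝ) * wt 1 z i := by
    rw [hsum_n (fun i c => (c : ℝ) * wt 1 z i) (by intro i; simp)]
    apply Finset.sum_le_sum
    intro i _
    rw [mul_comm]
    apply mul_le_mul_of_nonneg_right _ (aux70_wt_nonneg z hz i)
    exact_mod_cast Int.self_le_toNat _
  have h5 : Bf S (vec b β l z) (toR C)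
      = l * Bf S.toLeft (b, β) (toR ((C.1, fun u => C.2 (Sum.inl u)) : ℤ × (U → ℤ)))
        - ∑ i ∈ S.toRight, wt 1 z i * (C.2 (Sum.inr i) : ℝ) := by
    conv_lhs => rw [hS]
    simp only [Bf, vec, toR]
    rw [Finset.sum_disjSum]
    simp only [Sum.elim_inl, Sum.elim_inr]
    rw [mul_sub, Finset.mul_sum]
    have : ∑ i ∈ S.toLeft, l * β i * (C.2 (Sum.inl i) : ℝ) = ∑ i ∈ S.toLeft, l * (β i * (C.2 (Sum.inl i) : ℝ)) := by
      apply Finset.sum_congr rfl
      intro i _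
      ring
    rw [this]
    ring
  rw [h5]
  linarith

/-- TARGET -/
theorem bridge {U : Type*} [DecidableEq U] (b : ℝ) (β : U → ℝ) (hb : 0 < b) (hβ : ∀ u, 0 ≤ β u)
    (hN : Nef (b, β)) (z : ℝ) (hz : 0 < z) (l : ℝ) (hl : 0 < l) :
    ((∀ k, ellCap 1 z k ≤ l * capW b β k) ↔ Nef (vec b β l z)) ∧
    (∀ k : ℕ, l * capW b β k < ellCap 1 z k →
      ∃ (S : Finset (U ⊕ ℕ)) (C : ℤ × (U ⊕ ℕ → ℤ)), 0 ≤ C.1 ∧ (∀ i, 0 ≤ C.2 i) ∧
        (∀ i ∉ S, C.2 i = 0) ∧ 0 ≤ idx S C ∧ Bf S (vec b β l z) (toR C) < 0 ∧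
        2 * (k : ℤ) ≤ C.1 ^ 2 + 3 * C.1) := by
  refine ⟨⟨aux70_first b β hN z hz l hl, ?_⟩, fun k hk => aux70_second b β hβ z hz l hl k hk⟩
  intro hnef k
  by_contra hcon
  rw [not_le] at hcon
  obtain ⟨S, C, h1, _, _, h4, h5, _⟩ := aux70_second b β hβ z hz l hl k hcon
  exact absurd (hnef S C h1 h4) (not_le.2 h5)


end Pool.Agent.Helper416_Stair
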