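import Pool.Agent.Helper416_Stair.Defs

/-!
# Elementary facts on the capacities of ellipsoids
-/

noncomputable section

open scoped BigOperators Pointwise

namespace Pool.Agent.Helper416_Stair



/-
JOB E0 (helper416, MP_f690a7_gt).  Elementary facts on the capacities of ellipsoids.

Plain proof.  For `x, y > 0` the sets `{(m,n) : m x + n y ≤ L}` are finite and `latCount x y` is nondecreasing and right
continuous in `L` (a finite set of values below `L + 1`), which gives (a).  (b): `(0,0)` is the only point of value 0.  For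
`z ≥ 1` the second smallest value is 1.  The points `(i,0)`, `i ≤ k` give `ellCap 1 z k ≤ k`.  (c) `m + n z ≤ L` follows from
`m + n z' ≤ L` if `z ≤ z'`; and `m + n z ≤ L` implies `m + n z' ≤ (z'/z) L`.  (d) only the finitely many functions
`m + n z`, `m, n ≤ k` matter for `ellCap 1 z k` near `z₀` (if `z > 0` the first `k+1` values are among those with `m ≤ k`, and
`n ≤ k`: the point `(m,n)` dominates `(m', n')` for `m' ≤ m, n' ≤ n`, so a point among the `k+1` smallest can be taken with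
`m + n ≤ k`); on a small one-sided interval these finitely many affine functions are totally ordered in a fixed way
(any two of them agree identically or at one point), so the `k+1`-st smallest is one fixed affine function there.
(e): with `L = √(2 k z)` the unit squares `[m,m+1]×[n,n+1]` at the points with `m + n z ≤ L` cover the triangle with legs
`L`, `L/z` of area `k`, even with positive area to spare if `k > 0`, so there are at least `k + 1` such points.  (Purely
algebraic alternative: `#{m + n z ≤ L} = ∑_{n ≤ L/z} (⌊L - n z⌋ + 1) ≥ ∑_{n=0}^{N} (L - n z)`, strictly bigger, with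
`N = ⌊L/z⌋`, and `∑_{n=0}^{N} (L - n z) = (N+1)(L - N z / 2) ≥ L²/(2z)`.)
-/


/-- the set of lattice points of value at most `L` is finite -/
theorem eb_fin {x y : ℝ} (hx : 0 < x) (hy : 0 < y) (L : ℝ) :
    {p : ℕ × ℕ | (p.1 : ℝ) * x + (p.2 : ℝ) * y ≤ L}.Finite := by
  refine ((Set.finite_Iic ⌊L / x⌋₊).prod (Set.finite_Iic ⌊L / y⌋₊)).subset ?_
  rintro ⟨m, n⟩ h
  simp only [Set.mem_ofPred_eq] at h
  have h1 : 0 ≤ (m : ℝ) * x := by positivity
  have h2 : 0 ≤ (n : ℝ) * y := by positivity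
  simp only [Set.mem_prod, Set.mem_Iic]
  constructor
  · apply Nat.le_floor
    rw [le_div_iff₀ hx]; linarith
  · apply Nat.le_floor
    rw [le_div_iff₀ hy]; linarith

theorem eb_fin' {x y : ℝ} (hx : 0 < x) (hy : 0 < y) (L : ℝ) :
    {p : ℕ × ℕ | (p.1 : ℝ) * x + (p.2 : ℝ) * y < L}.Finite :=
  (eb_fin hx hy L).subset (fun p h => by
    have h' : (p.1 : ℝ) * x + (p.2 : ℝ) * y < L := h
    exact h'.le)

theorem eb_mono {x y : ℝ} (hx : 0 < x) (hy : 0 < y) {L L' : ℝ} (h : L ≤ L') :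
    latCount x y L ≤ latCount x y L' :=
  Set.ncard_le_ncard (fun _ hp => le_trans hp h) (eb_fin hx hy L')

/-- any finite set of points of value at most `L` gives a lower bound of the count -/
theorem eb_count_ge {x y : ℝ} (hx : 0 < x) (hy : 0 < y) {L : ℝ} (F : Finset (ℕ × ℕ))
    (h : ∀ p ∈ F, (p.1 : ℝ) * x + (p.2 : ℝ) * y ≤ L) : F.card ≤ latCount x y L := by
  rw [← Set.ncard_coe_finset]
  exact Set.ncard_le_ncard (fun p hp => h p (by simpa using hp)) (eb_fin hx hy L)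

theorem eb_nonneg (x y : ℝ) (k : ℕ) : 0 ≤ ellCap x y k :=
  Real.sInf_nonneg (fun _ h => h.1)

/-- the set defining the capacity contains `k x` -/
theorem eb_mem_k {x y : ℝ} (hx : 0 < x) (hy : 0 < y) (k : ℕ) :
    k + 1 ≤ latCount x y (k * x) := by
  have := eb_count_ge hx hy (L := k * x) ((Finset.range (k + 1)).map
    ⟨fun i => ((i, 0) : ℕ × ℕ), fun a b h => (Prod.ext_iff.1 h).1⟩) (by
      intro p hp
      simp only [Finset.mem_map, Finset.mem_range, Function.Embedding.coeFn_mk] at hp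
      obtain ⟨i, hi, rfl⟩ := hp
      have : (i : ℝ) ≤ k := by exact_mod_cast Nat.lt_succ_iff.1 hi
      simp only [Nat.cast_zero, zero_mul, add_zero]
      exact mul_le_mul_of_nonneg_right this hx.le)
  simpa using this

theorem eb_bdd (x y : ℝ) (k : ℕ) : BddBelow {L : ℝ | 0 ≤ L ∧ k + 1 ≤ latCount x y L} :=
  ⟨0, fun _ h => h.1⟩

theorem eb_nonempty {x y : ℝ} (hx : 0 < x) (hy : 0 < y) (k : ℕ) :
    {L : ℝ | 0 ≤ L ∧ k + 1 ≤ latCount x y L}.Nonempty :=
  ⟨k * x, by positivity, eb_mem_k hx hy k⟩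

theorem eb_le {x y : ℝ} {L : ℝ} (hL : 0 ≤ L) {k : ℕ} (h : k + 1 ≤ latCount x y L) :
    ellCap x y k ≤ L := csInf_le (eb_bdd x y k) ⟨hL, h⟩

theorem eb_b {x y : ℝ} (hx : 0 < x) (hy : 0 < y) (L : ℝ) (k : ℕ) :
    (L ≤ ellCap x y k ↔ (L ≤ 0 ∨ Set.ncard {p : ℕ × ℕ | (p.1 : ℝ) * x + (p.2 : ℝ) * y < L} ≤ k)) := by
  constructor
  · intro h
    by_contra hc
    push Not at hc
    obtain ⟨h0, h1⟩ := hc
    -- the largest value below `L`
    have hfin := eb_fin' hx hy L
    have hne : ({p : ℕ × ℕ | (p.1 : ℝ) * x + (p.2 : ℝ) * y < L}).Nonempty :=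
      ⟨(0, 0), by simpa using h0⟩
    obtain ⟨p, hp, hmax⟩ := hfin.exists_maximalFor (fun p : ℕ × ℕ => (p.1 : ℝ) * x + (p.2 : ℝ) * y)
      _ hne
    have hp' : (p.1 : ℝ) * x + (p.2 : ℝ) * y < L := hp
    have hcount : k + 1 ≤ latCount x y ((p.1 : ℝ) * x + (p.2 : ℝ) * y) := by
      refine le_trans (Nat.succ_le_of_lt h1) ?_
      refine Set.ncard_le_ncard ?_ (eb_fin hx hy _)
      intro q hq
      have := hmax hq
      simp only [Set.mem_ofPred_eq]
      by_contra hcon
      push Not at hcon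
      exact absurd (this hcon.le) (not_le.2 hcon)
    have := eb_le (by positivity) hcount
    linarith
  · rintro (h | h)
    · exact h.trans (eb_nonneg x y k)
    · refine le_csInf (eb_nonempty hx hy k) ?_
      rintro L' ⟨h0, h1⟩
      by_contra hcon
      push Not at hcon
      have : latCount x y L' ≤ Set.ncard {p : ℕ × ℕ | (p.1 : ℝ) * x + (p.2 : ℝ) * y < L} :=
        Set.ncard_le_ncard (fun p hp => lt_of_le_of_lt hp hcon) (eb_fin' hx hy L)
      omega

theorem eb_a {x y : ℝ} (hx : 0 < x) (hy : 0 < y) {L : ℝ} (hL : 0 ≤ L) (k : ℕ) :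
    (ellCap x y k ≤ L ↔ k + 1 ≤ latCount x y L) := by
  constructor
  · intro h
    by_contra hc
    push Not at hc
    -- the smallest value above `L` is at most the capacity
    have hfin : {p : ℕ × ℕ | L < (p.1 : ℝ) * x + (p.2 : ℝ) * y ∧
        (p.1 : ℝ) * x + (p.2 : ℝ) * y ≤ L + 1}.Finite :=
      (eb_fin hx hy (L + 1)).subset (fun _ h => h.2)
    have : ∃ L' > L, ∀ p : ℕ × ℕ, (p.1 : ℝ) * x + (p.2 : ℝ) * y < L' →
        (p.1 : ℝ) * x + (p.2 : ℝ) * y ≤ L := by
      rcases Set.eq_empty_or_nonempty {p : ℕ × ℕ | L < (p.1 : ℝ) * x + (p.2 : ℝ) * y ∧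
        (p.1 : ℝ) * x + (p.2 : ℝ) * y ≤ L + 1} with he | hne
      · refine ⟨L + 1, by linarith, fun p hp => ?_⟩
        by_contra hcon
        push Not at hcon
        have : p ∈ ({p : ℕ × ℕ | L < (p.1 : ℝ) * x + (p.2 : ℝ) * y ∧
          (p.1 : ℝ) * x + (p.2 : ℝ) * y ≤ L + 1}) := ⟨hcon, hp.le⟩
        rw [he] at this
        exact this
      · obtain ⟨p, hp, hmin⟩ := hfin.exists_minimalFor
          (fun p : ℕ × ℕ => (p.1 : ℝ) * x + (p.2 : ℝ) * y) _ hne
        refine ⟨_, hp.1, fun q hq => ?_⟩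
        by_contra hcon
        push Not at hcon
        have h2 : q ∈ ({p : ℕ × ℕ | L < (p.1 : ℝ) * x + (p.2 : ℝ) * y ∧
          (p.1 : ℝ) * x + (p.2 : ℝ) * y ≤ L + 1}) := ⟨hcon, hq.le.trans hp.2⟩
        have := hmin h2 hq.le
        exact absurd hq (not_lt.2 this)
    obtain ⟨L', hL', h'⟩ := this
    have : L' ≤ ellCap x y k := by
      rw [eb_b hx hy]
      right
      refine le_trans (Set.ncard_le_ncard (fun p hp => h' p hp) (eb_fin hx hy L)) ?_
      exact Nat.lt_succ_iff.1 hc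
    linarith
  · exact eb_le hL

/-- the capacity is determined by the points with both coordinates at most `k` -/
theorem eb_box {z : ℝ} (hz : 0 < z) {L : ℝ} (hL : 0 ≤ L) (k : ℕ) :
    (ellCap 1 z k ≤ L ↔ k + 1 ≤
      ((Finset.range (k + 1) ×ˢ Finset.range (k + 1)).filter
        (fun p : ℕ × ℕ => (p.1 : ℝ) + (p.2 : ℝ) * z ≤ L)).card) := by
  rw [eb_a one_pos hz hL]
  constructor
  · intro h
    by_cases hsub : ∀ p : ℕ × ℕ, (p.1 : ℝ) + (p.2 : ℝ) * z ≤ L → p.1 ≤ k ∧ p.2 ≤ k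
    · refine h.trans ?_
      rw [latCount, ← Set.ncard_coe_finset]
      refine Set.ncard_le_ncard ?_ (Finset.finite_toSet _)
      intro p hp
      simp only [Set.mem_ofPred_eq, mul_one] at hp
      have := hsub p hp
      simp only [Finset.coe_filter, Finset.mem_product, Finset.mem_range, Set.mem_ofPred_eq]
      exact ⟨⟨by omega, by omega⟩, hp⟩
    · push Not at hsub
      obtain ⟨p, hp, hpk⟩ := hsub
      by_cases h1 : p.1 ≤ k
      · have h2 := hpk h1
        -- the points `(0, i)`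
        have hle : ((Finset.range (k + 1)).map
            ⟨fun i => ((0, i) : ℕ × ℕ), fun a b h => (Prod.ext_iff.1 h).2⟩).card ≤
            ((Finset.range (k + 1) ×ˢ Finset.range (k + 1)).filter
            (fun p : ℕ × ℕ => (p.1 : ℝ) + (p.2 : ℝ) * z ≤ L)).card := by
          apply Finset.card_le_card
          intro q hq
          simp only [Finset.mem_map, Finset.mem_range, Function.Embedding.coeFn_mk] at hq
          obtain ⟨i, hi, rfl⟩ := hq
          simp only [Finset.mem_filter, Finset.mem_product, Finset.mem_range, Nat.cast_zero,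
            zero_add]
          refine ⟨⟨by omega, hi⟩, ?_⟩
          have h3 : (i : ℝ) ≤ p.2 := by exact_mod_cast (by omega : i ≤ p.2)
          have h4 : (0 : ℝ) ≤ p.1 := by positivity
          have := mul_le_mul_of_nonneg_right h3 hz.le
          linarith
        simpa using hle
      · have h2 : k < p.1 := not_le.1 h1
        have hle : ((Finset.range (k + 1)).map
            ⟨fun i => ((i, 0) : ℕ × ℕ), fun a b h => (Prod.ext_iff.1 h).1⟩).card ≤
            ((Finset.range (k + 1) ×ˢ Finset.range (k + 1)).filter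
            (fun p : ℕ × ℕ => (p.1 : ℝ) + (p.2 : ℝ) * z ≤ L)).card := by
          apply Finset.card_le_card
          intro q hq
          simp only [Finset.mem_map, Finset.mem_range, Function.Embedding.coeFn_mk] at hq
          obtain ⟨i, hi, rfl⟩ := hq
          simp only [Finset.mem_filter, Finset.mem_product, Finset.mem_range, Nat.cast_zero,
            zero_mul, add_zero]
          refine ⟨⟨hi, by omega⟩, ?_⟩
          have h3 : (i : ℝ) ≤ p.1 := by exact_mod_cast (by omega : i ≤ p.1)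
          have h4 : (0 : ℝ) ≤ (p.2 : ℝ) * z := by positivity
          linarith
        simpa using hle
  · intro h
    refine h.trans (eb_count_ge one_pos hz _ ?_)
    intro p hp
    simpa using (Finset.mem_filter.1 hp).2

/-- the capacity is the value at a point with both coordinates at most `k` -/
theorem eb_attained {z : ℝ} (hz : 0 < z) (k : ℕ) :
    ∃ p ∈ (Finset.range (k + 1) ×ˢ Finset.range (k + 1) : Finset (ℕ × ℕ)),
      ellCap 1 z k = (p.1 : ℝ) + (p.2 : ℝ) * z := by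
  have h0 := eb_nonneg 1 z k
  have h1 := (eb_box hz h0 k).1 le_rfl
  have hne : ((Finset.range (k + 1) ×ˢ Finset.range (k + 1)).filter
        (fun p : ℕ × ℕ => (p.1 : ℝ) + (p.2 : ℝ) * z ≤ ellCap 1 z k)).Nonempty := by
    rw [← Finset.card_pos]; omega
  obtain ⟨p, hp, hmax⟩ := Finset.exists_max_image _
    (fun p : ℕ × ℕ => (p.1 : ℝ) + (p.2 : ℝ) * z) hne
  refine ⟨p, (Finset.mem_filter.1 hp).1, le_antisymm ?_ (Finset.mem_filter.1 hp).2⟩
  rw [eb_box hz (by positivity)]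
  refine h1.trans (Finset.card_le_card ?_)
  intro q hq
  exact Finset.mem_filter.2 ⟨(Finset.mem_filter.1 hq).1, hmax q hq⟩

/-- piecewise linearity on one side -/
theorem eb_lin {z₀ : ℝ} (hz₀ : 0 < z₀) {s : ℝ} (_hs : s = 1 ∨ s = -1) (k : ℕ) :
    ∃ δ > 0, ∃ A B : ℝ,
      ∀ ε : ℝ, 0 < ε → ε < δ → ellCap 1 (z₀ + s * ε) k = A + B * ε := by
  classical
  set f : ℕ × ℕ → ℝ → ℝ := fun p ε => (p.1 : ℝ) + (p.2 : ℝ) * (z₀ + s * ε) with hf
  set G : Finset (ℕ × ℕ) := Finset.range (k + 1) ×ˢ Finset.range (k + 1) with hG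
  -- each comparison is eventually constant
  have key : ∀ a b : ℝ, (∀ᶠ ε in nhdsWithin (0 : ℝ) (Set.Ioi 0), 0 ≤ a + b * ε) ∨
      (∀ᶠ ε in nhdsWithin (0 : ℝ) (Set.Ioi 0), ¬ (0 ≤ a + b * ε)) := by
    intro a b
    have hcont : Filter.Tendsto (fun ε : ℝ => a + b * ε) (nhdsWithin (0 : ℝ) (Set.Ioi 0))
        (nhds a) := by
      have : Filter.Tendsto (fun ε : ℝ => a + b * ε) (nhds 0) (nhds (a + b * 0)) := by
        apply Continuous.tendsto; fun_prop
      rw [mul_zero, add_zero] at this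
      exact this.mono_left nhdsWithin_le_nhds
    rcases lt_trichotomy a 0 with ha | ha | ha
    · right
      filter_upwards [hcont.eventually_lt_const ha] with ε hε
      exact not_le.2 hε
    · subst ha
      rcases le_or_gt 0 b with hb | hb
      · left
        filter_upwards [self_mem_nhdsWithin] with ε (hε : 0 < ε)
        have := mul_nonneg hb hε.le
        linarith
      · right
        filter_upwards [self_mem_nhdsWithin] with ε (hε : 0 < ε)
        have := mul_neg_of_neg_of_pos hb hε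
        linarith
    · left
      filter_upwards [hcont.eventually_const_lt ha] with ε hε
      exact hε.le
  have key2 : ∀ p q : ℕ × ℕ, ∃ R : Prop, ∀ᶠ ε in nhdsWithin (0 : ℝ) (Set.Ioi 0),
      (f p ε ≤ f q ε ↔ R) := by
    intro p q
    have hform : ∀ ε : ℝ, (f p ε ≤ f q ε ↔
        0 ≤ (((q.1 : ℝ) + q.2 * z₀) - ((p.1 : ℝ) + p.2 * z₀)) +
          (((q.2 : ℝ) - p.2) * s) * ε) := by
      intro ε
      simp only [hf]
      constructor <;> intro h <;> nlinarith
    rcases key (((q.1 : ℝ) + q.2 * z₀) - ((p.1 : ℝ) + p.2 * z₀)) (((q.2 : ℝ) - p.2) * s) with h | h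
    · refine ⟨True, ?_⟩
      filter_upwards [h] with ε hε
      rw [hform]
      exact iff_of_true hε trivial
    · refine ⟨False, ?_⟩
      filter_upwards [h] with ε hε
      rw [hform]
      exact iff_of_false hε id
  choose R hR using key2
  have hall : ∀ᶠ ε in nhdsWithin (0 : ℝ) (Set.Ioi 0), ∀ p ∈ G, ∀ q ∈ G,
      (f p ε ≤ f q ε ↔ R p q) := by
    rw [Filter.eventually_all_finset]
    intro p _
    rw [Filter.eventually_all_finset]
    intro q _
    exact hR p q
  have hpos : ∀ᶠ ε in nhdsWithin (0 : ℝ) (Set.Ioi 0), 0 < z₀ + s * ε := by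
    have : Filter.Tendsto (fun ε : ℝ => z₀ + s * ε) (nhds 0) (nhds (z₀ + s * 0)) := by
      apply Continuous.tendsto; fun_prop
    rw [mul_zero, add_zero] at this
    exact (this.mono_left nhdsWithin_le_nhds).eventually_const_lt hz₀
  obtain ⟨δ, hδ, hsub⟩ := (mem_nhdsGT_iff_exists_Ioo_subset).1 (hall.and hpos)
  have hδ' : (0 : ℝ) < δ := hδ
  have hprop : ∀ ε : ℝ, 0 < ε → ε < δ → (∀ p ∈ G, ∀ q ∈ G,
      (f p ε ≤ f q ε ↔ R p q)) ∧ 0 < z₀ + s * ε := fun ε h1 h2 => hsub ⟨h1, h2⟩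
  obtain ⟨hR1, hz1⟩ := hprop (δ / 2) (by linarith) (by linarith)
  obtain ⟨p, hpG, hp⟩ := eb_attained hz1 k
  refine ⟨δ, hδ', (p.1 : ℝ) + p.2 * z₀, (p.2 : ℝ) * s, ?_⟩
  intro ε h1 h2
  obtain ⟨hRε, hzε⟩ := hprop ε h1 h2
  have hval : (p.1 : ℝ) + p.2 * z₀ + (p.2 : ℝ) * s * ε = f p ε := by
    simp only [hf]; ring
  rw [hval]
  -- transfer of a comparison with the capacity
  have htrans : ∀ q ∈ G, ∀ e e' : ℝ, (0 < e ∧ e < δ) → (0 < e' ∧ e' < δ) →
      ellCap 1 (z₀ + s * e) k ≤ f q e → ellCap 1 (z₀ + s * e') k ≤ f q e' := by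
    intro q hq e e' he he' hle
    obtain ⟨hRe, hze⟩ := hprop e he.1 he.2
    obtain ⟨hRe', hze'⟩ := hprop e' he'.1 he'.2
    have hn : ∀ t : ℝ, 0 < z₀ + s * t → 0 ≤ f q t := by
      intro t ht
      simp only [hf]
      positivity
    rw [eb_box hze (hn e hze)] at hle
    rw [eb_box hze' (hn e' hze')]
    refine hle.trans (Finset.card_le_card ?_)
    intro r hr
    rw [Finset.mem_filter] at hr ⊢
    refine ⟨hr.1, ?_⟩
    have h3 : f r e ≤ f q e := hr.2
    have h4 : f r e' ≤ f q e' := (hRe' r hr.1 q hq).2 ((hRe r hr.1 q hq).1 h3)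
    exact h4
  have hin : 0 < δ / 2 ∧ δ / 2 < δ := ⟨by linarith, by linarith⟩
  apply le_antisymm
  · exact htrans p hpG (δ / 2) ε hin ⟨h1, h2⟩ (le_of_eq hp)
  · obtain ⟨q, hqG, hq⟩ := eb_attained hzε k
    have h5 : ellCap 1 (z₀ + s * (δ / 2)) k ≤ f q (δ / 2) :=
      htrans q hqG ε (δ / 2) ⟨h1, h2⟩ hin (le_of_eq hq)
    have h6 : f p (δ / 2) ≤ f q (δ / 2) := by
      have : f p (δ / 2) = ellCap 1 (z₀ + s * (δ / 2)) k := hp.symm
      rw [this]; exact h5
    have h7 : f p ε ≤ f q ε := (hRε p hpG q hqG).2 ((hR1 p hpG q hqG).1 h6)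
    have : ellCap 1 (z₀ + s * ε) k = f q ε := hq
    rw [this]; exact h7

theorem eb_sum (L z : ℝ) (N : ℕ) :
    ∑ n ∈ Finset.range (N + 1), (L - n * z) = ((N : ℝ) + 1) * (L - N * z / 2) := by
  induction N with
  | zero => simp
  | succ N ih => rw [Finset.sum_range_succ, ih]; push_cast; ring

/-- volume bound -/
theorem eb_sqrt {z : ℝ} (hz : 0 < z) (k : ℕ) : ellCap 1 z k ≤ √(2 * k * z) := by
  set L : ℝ := √(2 * k * z) with hLdef
  have hL0 : 0 ≤ L := Real.sqrt_nonneg _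
  have hL2 : L * L = 2 * k * z := Real.mul_self_sqrt (by positivity)
  rw [eb_a one_pos hz hL0]
  set N : ℕ := ⌊L / z⌋₊ with hN
  have hN1 : (N : ℝ) * z ≤ L := by
    have := Nat.floor_le (div_nonneg hL0 hz.le)
    rw [← hN] at this
    rwa [le_div_iff₀ hz] at this
  have hN2 : L < ((N : ℝ) + 1) * z := by
    have := Nat.lt_floor_add_one (L / z)
    rw [← hN] at this
    rwa [div_lt_iff₀ hz] at this
  -- the points
  let S : Finset (Σ _ : ℕ, ℕ) := (Finset.range (N + 1)).sigma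
    (fun n => Finset.range (⌊L - n * z⌋₊ + 1))
  have hScard : (S.card : ℝ) = ∑ n ∈ Finset.range (N + 1), ((⌊L - n * z⌋₊ : ℝ) + 1) := by
    simp only [S, Finset.card_sigma, Finset.card_range]
    push_cast
    rfl
  have hinj : Function.Injective (fun a : (Σ _ : ℕ, ℕ) => ((a.2, a.1) : ℕ × ℕ)) := by
    rintro ⟨a, b⟩ ⟨c, d⟩ h
    simp only [Prod.mk.injEq] at h
    obtain ⟨rfl, rfl⟩ := h
    rfl
  have hcount : S.card ≤ latCount 1 z L := by
    rw [← Finset.card_map ⟨_, hinj⟩]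
    apply eb_count_ge one_pos hz
    intro p hp
    rw [Finset.mem_map] at hp
    obtain ⟨⟨n, m⟩, ha, rfl⟩ := hp
    simp only [S, Finset.mem_sigma, Finset.mem_range] at ha
    simp only [Function.Embedding.coeFn_mk, mul_one]
    obtain ⟨hn, hm⟩ := ha
    have hn' : (n : ℝ) ≤ N := by exact_mod_cast Nat.lt_succ_iff.1 hn
    have h1 : 0 ≤ L - n * z := by
      have := mul_le_mul_of_nonneg_right hn' hz.le
      linarith
    have h2 : (m : ℝ) ≤ ⌊L - n * z⌋₊ := by exact_mod_cast Nat.lt_succ_iff.1 hm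
    have h3 := Nat.floor_le h1
    linarith
  have hsum : (k : ℝ) < ∑ n ∈ Finset.range (N + 1), ((⌊L - n * z⌋₊ : ℝ) + 1) := by
    have h1 : ∑ n ∈ Finset.range (N + 1), (L - n * z) <
        ∑ n ∈ Finset.range (N + 1), ((⌊L - n * z⌋₊ : ℝ) + 1) := by
      apply Finset.sum_lt_sum_of_nonempty ⟨0, by simp⟩
      intro n _
      exact Nat.lt_floor_add_one _
    have h2 : ∑ n ∈ Finset.range (N + 1), (L - n * z) = ((N : ℝ) + 1) * (L - N * z / 2) :=
      eb_sum L z N
    have h3 : (k : ℝ) ≤ ((N : ℝ) + 1) * (L - N * z / 2) := by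
      have hNn : (0 : ℝ) ≤ N := by positivity
      have h4 : 2 * k * z ≤ 2 * z * (((N : ℝ) + 1) * (L - N * z / 2)) := by
        rw [← hL2]
        nlinarith [mul_nonneg (sub_nonneg.2 hN1) (sub_nonneg.2 hN2.le), mul_nonneg hNn hz.le,
          mul_nonneg (mul_nonneg hNn hz.le) hz.le]
      have h5 : (2 * z) * k ≤ (2 * z) * (((N : ℝ) + 1) * (L - N * z / 2)) := by linarith
      exact le_of_mul_le_mul_left h5 (by positivity)
    linarith
  have : (k : ℝ) < (S.card : ℝ) := by rw [hScard]; exact hsum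
  have : k < S.card := by exact_mod_cast this
  omega

/-- TARGET -/
theorem ellBasic :
    (∀ x y : ℝ, 0 < x → 0 < y → ∀ L : ℝ, 0 ≤ L → ∀ k : ℕ,
      (ellCap x y k ≤ L ↔ k + 1 ≤ latCount x y L)) ∧
    (∀ x y : ℝ, 0 < x → 0 < y → ∀ L : ℝ, ∀ k : ℕ,
      (L ≤ ellCap x y k ↔ (L ≤ 0 ∨ Set.ncard {p : ℕ × ℕ | (p.1 : ℝ) * x + (p.2 : ℝ) * y < L} ≤ k))) ∧
    (∀ z : ℝ, 0 < z → ellCap 1 z 0 = 0) ∧
    (∀ z : ℝ, 1 ≤ z → ∀ k : ℕ, 1 ≤ k → 1 ≤ ellCap 1 z k) ∧
    (∀ z : ℝ, 0 < z → ∀ k : ℕ, 0 ≤ ellCap 1 z k ∧ ellCap 1 z k ≤ k) ∧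
    (∀ z z' : ℝ, 0 < z → z ≤ z' → ∀ k : ℕ,
      ellCap 1 z k ≤ ellCap 1 z' k ∧ ellCap 1 z' k ≤ (z' / z) * ellCap 1 z k) ∧
    (∀ z₀ : ℝ, 0 < z₀ → ∀ s : ℝ, s = 1 ∨ s = -1 → ∀ k : ℕ, ∃ δ > 0, ∃ A B : ℝ,
      ∀ ε : ℝ, 0 < ε → ε < δ → ellCap 1 (z₀ + s * ε) k = A + B * ε) ∧
    (∀ z : ℝ, 0 < z → ∀ k : ℕ, ellCap 1 z k ≤ √(2 * k * z)) := by
  refine ⟨fun x y hx hy L hL k => eb_a hx hy hL k, fun x y hx hy L k => eb_b hx hy L k,
    ?_, ?_, ?_, ?_, fun z₀ hz₀ s hs k => eb_lin hz₀ hs k, fun z hz k => eb_sqrt hz k⟩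
  · intro z hz
    refine le_antisymm ?_ (eb_nonneg 1 z 0)
    have := eb_mem_k one_pos hz 0
    rw [Nat.cast_zero, zero_mul] at this
    exact eb_le le_rfl this
  · intro z hz k hk
    rw [eb_b one_pos (by linarith)]
    right
    have hsub : {p : ℕ × ℕ | (p.1 : ℝ) * 1 + (p.2 : ℝ) * z < 1} ⊆ {((0, 0) : ℕ × ℕ)} := by
      rintro ⟨m, n⟩ h
      simp only [Set.mem_ofPred_eq, mul_one] at h
      have hm : m = 0 := by
        by_contra hm
        have h1 : (1 : ℝ) ≤ m := by exact_mod_cast Nat.one_le_iff_ne_zero.2 hm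
        have h2 : 0 ≤ (n : ℝ) * z := by positivity
        linarith
      have hn : n = 0 := by
        by_contra hn
        have h1 : (1 : ℝ) ≤ n := by exact_mod_cast Nat.one_le_iff_ne_zero.2 hn
        have h2 : (0 : ℝ) ≤ m := by positivity
        nlinarith
      simp [hm, hn]
    calc Set.ncard {p : ℕ × ℕ | (p.1 : ℝ) * 1 + (p.2 : ℝ) * z < 1}
        ≤ Set.ncard {((0, 0) : ℕ × ℕ)} := Set.ncard_le_ncard hsub
      _ = 1 := Set.ncard_singleton _
      _ ≤ k := hk
  · intro z hz k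
    refine ⟨eb_nonneg 1 z k, eb_le (by positivity) ?_⟩
    have := eb_mem_k one_pos hz k
    rwa [mul_one] at this
  · intro z z' hz hzz' k
    have hz' : 0 < z' := lt_of_lt_of_le hz hzz'
    constructor
    · rw [eb_a one_pos hz (eb_nonneg _ _ _)]
      refine ((eb_a one_pos hz' (eb_nonneg _ _ _) k).1 le_rfl).trans ?_
      refine Set.ncard_le_ncard ?_ (eb_fin one_pos hz _)
      intro p hp
      simp only [Set.mem_ofPred_eq] at hp ⊢
      have : (p.2 : ℝ) * z ≤ p.2 * z' := mul_le_mul_of_nonneg_left hzz' (by positivity)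
      linarith
    · rw [eb_a one_pos hz' (mul_nonneg (by positivity) (eb_nonneg _ _ _))]
      refine ((eb_a one_pos hz (eb_nonneg _ _ _) k).1 le_rfl).trans ?_
      refine Set.ncard_le_ncard ?_ (eb_fin one_pos hz' _)
      intro p hp
      simp only [Set.mem_ofPred_eq] at hp ⊢
      have h1 : (1 : ℝ) ≤ z' / z := by rw [le_div_iff₀ hz]; linarith
      have h2 : z' / z * z = z' := by field_simp
      have h3 : (p.1 : ℝ) * 1 ≤ z' / z * (p.1 * 1) := by
        have : (0 : ℝ) ≤ (p.1 : ℝ) * 1 := by positivity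
        nlinarith
      calc (p.1 : ℝ) * 1 + p.2 * z' = (p.1 : ℝ) * 1 + z' / z * (p.2 * z) := by
              rw [← h2]; field_simp
        _ ≤ z' / z * (p.1 * 1) + z' / z * (p.2 * z) := by linarith
        _ = z' / z * (p.1 * 1 + p.2 * z) := by ring
        _ ≤ _ := mul_le_mul_of_nonneg_left hp (by positivity)


end Pool.Agent.Helper416_Stair
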