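import Pool.Agent.Helper416_Stair.Key
import Pool.Agent.Helper416_Stair.E12

/-!
# Single forms of the three inequalities
-/

noncomputable section

open scoped BigOperators Pointwise

namespace Pool.Agent.Helper416_Stair

theorem key_ineq {ι : Type*} [DecidableEq ι] (v : ℝ × (ι → ℝ)) (hv : 0 < v.1)
    (hv0 : ∀ i, 0 ≤ v.2 i) (hs : Summable (fun i => v.2 i ^ 2))
    (hsq : ∑' i, v.2 i ^ 2 ≤ v.1 ^ 2) (S : Finset ι) (C : ℤ × (ι → ℤ)) (hC : 0 ≤ C.1)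
    (hI : 0 ≤ idx S C) (hneg : Bf S v (toR C) < 0) :
    ∑ i ∈ S, (((C.2 i : ℝ) - (C.1 / v.1) * v.2 i) ^ 2 + C.2 i)
        + (C.1 / v.1) ^ 2 * (∑' i, v.2 i ^ 2 - ∑ i ∈ S, v.2 i ^ 2) < 3 * C.1 :=
  key_ineqs.1 v hv hv0 hs hsq S C hC hI hneg

theorem ellE3 (x y : ℝ) (hx : 0 < x) (hy : 0 < y) (M : ℕ) :
    0 ≤ (stE x y M).1 ∧ 0 ≤ (stE x y M).2 ∧
      ∑ i ∈ Finset.range M, wt x y i = x + y - ((stE x y M).1 + (stE x y M).2) ∧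
      ∑ i ∈ Finset.range M, wt x y i ^ 2 = x * y - (stE x y M).1 * (stE x y M).2 :=
  (ellE x y hx hy).2.2 M

theorem capW_growth {ι : Type*} [DecidableEq ι] (b : ℝ) (β : ι → ℝ) (hb : 0 < b)
    (hβ : ∀ u, 0 ≤ β u) (hs : Summable (fun u => β u ^ 2)) (hvol : ∑' u, β u ^ 2 < b ^ 2) (k : ℕ) :
    √(2 * k * (b ^ 2 - ∑' u, β u ^ 2)) - 3 / 2 * b ≤ capW b β k :=
  key_ineqs.2.1 b β hb hβ hs hvol k

theorem vol_ineq {ι : Type*} [DecidableEq ι] (v : ℝ × (ι → ℝ)) (h1 : 0 ≤ v.1)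
    (h2 : ∀ i, 0 ≤ v.2 i) (hN : Nef v) (S : Finset ι) : ∑ i ∈ S, v.2 i ^ 2 ≤ v.1 ^ 2 :=
  key_ineqs.2.2 v h1 h2 hN S

end Pool.Agent.Helper416_Stair
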