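import Pool.Agent.Helper416_Stair.Bridge
import Pool.Agent.Helper416_Stair.Glue
import Pool.Agent.Helper416_Stair.E0

/-!
# The embedding function on a one-sided neighbourhood
-/

noncomputable section

open scoped BigOperators Pointwise

namespace Pool.Agent.Helper416_Stair





/-
JOB NICE (helper416, MP_f690a7_gt).  If only finitely many capacities matter, the function is affine or the volume
bound on a punctured one-sided neighbourhood.

`Vol = b² - ∑' β² > 0`, `V(z) = √(z / Vol)`, `cap k = capW b β k`, `c z = cfun cap z = inf {l > 0 : ∀ k, ellCap 1 z k ≤ l cap k}`.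
Plain proof.  `cap 0 = 0` and `ellCap 1 z 0 = 0`.  For `z ≥ 1` let `A_z = {l > 0 : ∀ k, ellCap 1 z k ≤ l cap k}`.  It is nonempty
(`ellCap 1 z k ≤ √(2 k z)`, and `cap k ≥ √(2 k Vol) - 3b/2` (given below) together with `cap k ≥ c > 0` for `k ≥ 1` bound all the
ratios), and `V(z) ≤ l` for every `l ∈ A_z` (`hV`), so `V(z) ≤ c z`, `c z > 0`.  Put `M(z) = max_{1≤k≤K} ellCap 1 z k / cap k` (0 if `K = 0`).
Then `c z = max (M z) (V z)` for `z = z₀ + s ε`, `0 < ε < δ`: `≥` clear.  `≤`: let `η` be as in `hK`; `m := max (M z) (V z)`.  If `η ≤ V z`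
then `m ∈ A_z`.  If `η < c z`: every `l ≥ max m η`, `l > 0` is in `A_z`, so `c z ≤ max m η`, hence `c z ≤ m`.
By the affine-germ part of `ellBasic` the finitely many functions `ε ↦ ellCap 1 (z₀+sε) k / cap k`, `1 ≤ k ≤ K`, are affine on
`(0, δ₁)`; among finitely many affine functions one is `≥` all others on some `(0, δ₂)`; and an affine function
`φ ≥ 0` compares with `V(z₀+sε) = √((z₀+sε)/Vol)` in a fixed way on some `(0, δ₃)` because the polynomial
`φ(ε)² - (z₀+sε)/Vol` has a constant sign (`≥ 0` or `≤ 0`) there.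
-/



/-- on a punctured one-sided neighbourhood of `z₀` the function `c` is affine or equal to `√(z / Vol)` -/
def NiceSide (c : ℝ → ℝ) (Vol z₀ s : ℝ) : Prop :=
  ∃ δ > 0, (∃ A B : ℝ, ∀ ε : ℝ, 0 < ε → ε < δ → c (z₀ + s * ε) = A + B * ε) ∨
    (∀ ε : ℝ, 0 < ε → ε < δ → c (z₀ + s * ε) = √((z₀ + s * ε) / Vol))

open Filter Topology in
lemma NC_pos (a b c : ℝ) (ha : 0 < a) :
    ∀ᶠ ε in 𝓝[>] (0 : ℝ), 0 < a + b * ε + c * ε ^ 2 := by
  have h : Tendsto (fun ε : ℝ => a + b * ε + c * ε ^ 2) (𝓝[>] (0 : ℝ)) (𝓝 a) :=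
    (Continuous.tendsto' (by fun_prop) 0 a (by simp)).mono_left nhdsWithin_le_nhds
  exact h.eventually (lt_mem_nhds ha)

open Filter Topology in
lemma NC_quad (a b c : ℝ) : (∀ᶠ ε in 𝓝[>] (0 : ℝ), 0 ≤ a + b * ε + c * ε ^ 2) ∨
    (∀ᶠ ε in 𝓝[>] (0 : ℝ), a + b * ε + c * ε ^ 2 ≤ 0) := by
  have hp : ∀ᶠ ε in 𝓝[>] (0 : ℝ), 0 < ε := eventually_mem_nhdsWithin
  rcases lt_trichotomy 0 a with ha | ha | ha
  · left
    filter_upwards [NC_pos a b c ha] with ε h using h.le
  · subst ha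
    rcases lt_trichotomy 0 b with hb | hb | hb
    · left
      filter_upwards [NC_pos b c 0 hb, hp] with ε h h0
      have : 0 + b * ε + c * ε ^ 2 = ε * (b + c * ε + 0 * ε ^ 2) := by ring
      rw [this]; positivity
    · subst hb
      rcases le_total 0 c with hc | hc
      · left
        exact Eventually.of_forall fun ε => by
          have : 0 + 0 * ε + c * ε ^ 2 = c * ε ^ 2 := by ring
          rw [this]; positivity
      · right
        exact Eventually.of_forall fun ε => by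
          have : 0 + 0 * ε + c * ε ^ 2 = c * ε ^ 2 := by ring
          rw [this]
          exact mul_nonpos_of_nonpos_of_nonneg hc (sq_nonneg _)
    · right
      filter_upwards [NC_pos (-b) (-c) 0 (by linarith), hp] with ε h h0
      have : 0 + b * ε + c * ε ^ 2 = -(ε * (-b + -c * ε + 0 * ε ^ 2)) := by ring
      rw [this]
      have := mul_pos h0 h
      linarith
  · right
    filter_upwards [NC_pos (-a) (-b) (-c) (by linarith)] with ε h
    linarith

open Filter Topology in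
lemma NC_max (F : ℕ → ℝ → ℝ) (hF : ∀ k, ∃ A B : ℝ, ∀ᶠ ε in 𝓝[>] (0 : ℝ), F k ε = A + B * ε)
    (K : ℕ) : ∃ A B : ℝ, ∀ᶠ ε in 𝓝[>] (0 : ℝ), (∀ k ≤ K, F k ε ≤ A + B * ε) ∧
      ∃ k ≤ K, F k ε = A + B * ε := by
  induction K with
  | zero =>
    obtain ⟨A, B, h⟩ := hF 0
    refine ⟨A, B, ?_⟩
    filter_upwards [h] with ε h
    refine ⟨fun k hk => ?_, 0, le_refl _, h⟩
    rw [Nat.le_zero.mp hk]
    exact h.le
  | succ K ih =>
    obtain ⟨A, B, h⟩ := ih
    obtain ⟨A', B', h'⟩ := hF (K + 1)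
    rcases NC_quad (A' - A) (B' - B) 0 with hc | hc
    · refine ⟨A', B', ?_⟩
      filter_upwards [h, h', hc] with ε h h' hc
      refine ⟨fun k hk => ?_, K + 1, le_refl _, h'⟩
      rcases Nat.lt_or_ge k (K + 1) with hk' | hk'
      · have := h.1 k (by omega)
        linarith
      · have : k = K + 1 := by omega
        rw [this]
        exact h'.le
    · refine ⟨A, B, ?_⟩
      filter_upwards [h, h', hc] with ε h h' hc
      obtain ⟨h1, k0, hk0, h2⟩ := h
      refine ⟨fun k hk => ?_, k0, by omega, h2⟩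
      rcases Nat.lt_or_ge k (K + 1) with hk' | hk'
      · exact h1 k (by omega)
      · have : k = K + 1 := by omega
        rw [this, h']
        linarith

/-- TARGET -/
theorem nice {U : Type*} [DecidableEq U] (b : ℝ) (β : U → ℝ) (hb : 0 < b)
    (hβ : ∀ u, 0 ≤ β u) (hsum : Summable β) (hvol : ∑' u, β u ^ 2 < b ^ 2) (hN : Nef (b, β))
    (hpos : ∃ c > 0, ∀ k : ℕ, 1 ≤ k → c ≤ capW b β k)
    (hV : ∀ z l : ℝ, 1 ≤ z → 0 < l → (∀ k, ellCap 1 z k ≤ l * capW b β k) →
      √(z / (b ^ 2 - ∑' u, β u ^ 2)) ≤ l)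
    (z₀ s : ℝ) (hs : s = 1 ∨ s = -1) (hz₀ : 1 ≤ z₀) (K : ℕ) (δ : ℝ) (hδ : 0 < δ)
    (hz : ∀ ε : ℝ, 0 < ε → ε < δ → 1 ≤ z₀ + s * ε)
    (hK : ∀ ε : ℝ, 0 < ε → ε < δ → ∃ η : ℝ,
      (η ≤ √((z₀ + s * ε) / (b ^ 2 - ∑' u, β u ^ 2)) ∨ η < cfun (capW b β) (z₀ + s * ε)) ∧
      ∀ k : ℕ, K < k → ellCap 1 (z₀ + s * ε) k ≤ η * capW b β k) :
    NiceSide (cfun (capW b β)) (b ^ 2 - ∑' u, β u ^ 2) z₀ s := by
  open Filter Topology in
  obtain ⟨-, -, e0, -, enn, -, egerm, esqrt⟩ := ellBasic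
  obtain ⟨c, hc, hcap⟩ := hpos
  set Vol : ℝ := b ^ 2 - ∑' u, β u ^ 2 with hVol
  have hVol0 : 0 < Vol := by rw [hVol]; linarith
  set cap : ℕ → ℝ := capW b β with hcapd
  -- capacities are nonnegative
  have hcap0 : ∀ k, 0 ≤ cap k := by
    intro k
    rw [hcapd]
    refine Real.sInf_nonneg ?_
    rintro L ⟨S, C, hC1, hC2, rfl⟩
    exact hN S C hC1 (le_trans (by positivity) hC2)
  -- summability of squares
  have hs2 : Summable (fun u => β u ^ 2) := by
    have h1 : ∀ᶠ u in Filter.cofinite, β u < 1 :=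
      hsum.tendsto_cofinite_zero.eventually (gt_mem_nhds one_pos)
    refine Summable.of_norm_bounded_eventually hsum ?_
    filter_upwards [h1] with u hu
    rw [Real.norm_of_nonneg (sq_nonneg _)]
    have := hβ u
    nlinarith
  have hgrow : ∀ k : ℕ, √(2 * k * Vol) - 3 / 2 * b ≤ cap k := fun k =>
    capW_growth b β hb hβ hs2 hvol k
  -- the admissible set
  set A : ℝ → Set ℝ := fun z => {l : ℝ | 0 < l ∧ ∀ k, ellCap 1 z k ≤ l * cap k} with hA
  have hcf : ∀ z, cfun cap z = sInf (A z) := fun z => rfl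
  have hAbdd : ∀ z, BddBelow (A z) := fun z => ⟨0, fun l hl => hl.1.le⟩
  have hAne : ∀ z, 1 ≤ z → (A z).Nonempty := by
    intro z hz1
    refine ⟨√(z / Vol) * (2 + 3 * b / c), ?_, fun k => ?_⟩
    · have : 0 < √(z / Vol) := Real.sqrt_pos.mpr (div_pos (by linarith) hVol0)
      positivity
    · rcases Nat.eq_zero_or_pos k with rfl | hk
      · rw [e0 z (by linarith)]
        have := hcap0 0
        positivity
      · have h1 := esqrt z (by linarith) k
        have h2 : √(2 * k * z) = √(z / Vol) * √(2 * k * Vol) := by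
          rw [← Real.sqrt_mul (div_nonneg (by linarith) hVol0.le)]
          congr 1
          field_simp
        have h3 := hcap k hk
        have h4 := hgrow k
        have h5 : √(2 * k * Vol) ≤ (2 + 3 * b / c) * cap k := by
          rcases le_total (3 * b) (√(2 * k * Vol)) with h6 | h6
          · have h7 : √(2 * k * Vol) ≤ 2 * cap k := by linarith
            have h8 : 0 ≤ 3 * b / c * cap k := mul_nonneg (by positivity) (hcap0 k)
            linarith
          · have h7 : 3 * b ≤ 3 * b / c * cap k := by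
              rw [div_mul_eq_mul_div, le_div_iff₀ hc]
              exact mul_le_mul_of_nonneg_left h3 (by positivity)
            have h8 := hcap0 k
            linarith
        calc ellCap 1 z k ≤ √(z / Vol) * √(2 * k * Vol) := by rw [← h2]; exact h1
          _ ≤ √(z / Vol) * ((2 + 3 * b / c) * cap k) :=
              mul_le_mul_of_nonneg_left h5 (Real.sqrt_nonneg _)
          _ = √(z / Vol) * (2 + 3 * b / c) * cap k := by ring
  -- the formula for `cfun`
  set F : ℕ → ℝ → ℝ := fun k ε => ellCap 1 (z₀ + s * ε) k / cap k with hF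
  have hmain : ∀ ε, 0 < ε → ε < δ → ∀ m0 : ℝ, (∀ k ≤ K, F k ε ≤ m0) → (∃ k ≤ K, F k ε = m0) →
      cfun cap (z₀ + s * ε) = max m0 (√((z₀ + s * ε) / Vol)) := by
    intro ε h0 hε m0 hm1 hm2
    set z : ℝ := z₀ + s * ε with hzd
    have hz1 : 1 ≤ z := hz ε h0 hε
    have hVz : 0 < √(z / Vol) := Real.sqrt_pos.mpr (div_pos (by linarith) hVol0)
    apply le_antisymm
    · obtain ⟨η, hη, hηk⟩ := hK ε h0 hε
      set m : ℝ := max m0 (√(z / Vol)) with hm
      have hmpos : 0 < m := lt_of_lt_of_le hVz (le_max_right _ _)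
      have hadm : ∀ l, m ≤ l → η ≤ l → l ∈ A z := by
        intro l hl1 hl2
        refine ⟨by linarith, fun k => ?_⟩
        rcases Nat.eq_zero_or_pos k with rfl | hk
        · rw [e0 z (by linarith)]
          exact mul_nonneg (by linarith) (hcap0 0)
        · rcases Nat.lt_or_ge K k with hkK | hkK
          · exact (hηk k hkK).trans (mul_le_mul_of_nonneg_right hl2 (hcap0 k))
          · have h1 := hm1 k hkK
            have h2 : 0 < cap k := lt_of_lt_of_le hc (hcap k hk)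
            simp only [hF] at h1
            rw [div_le_iff₀ h2] at h1
            refine h1.trans (mul_le_mul_of_nonneg_right ?_ h2.le)
            exact (le_max_left _ _).trans hl1
      rcases hη with hη | hη
      · rw [hcf]
        exact csInf_le (hAbdd z) (hadm m le_rfl (hη.trans (le_max_right _ _)))
      · by_contra hcon
        rw [not_le] at hcon
        have h1 : cfun cap z ≤ max m η := by
          rw [hcf]
          exact csInf_le (hAbdd z) (hadm _ (le_max_left _ _) (le_max_right _ _))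
        exact absurd h1 (not_le.mpr (max_lt hcon hη))
    · rw [hcf]
      refine le_csInf (hAne z hz1) fun l hl => max_le ?_ (hV z l hz1 hl.1 hl.2)
      obtain ⟨k, -, hk⟩ := hm2
      rw [← hk]
      simp only [hF]
      rcases Nat.eq_zero_or_pos k with rfl | hk
      · rw [e0 z (by linarith), zero_div]
        exact hl.1.le
      · have h2 : 0 < cap k := lt_of_lt_of_le hc (hcap k hk)
        rw [div_le_iff₀ h2]
        exact hl.2 k
  -- germs
  have hFg : ∀ k, ∃ A B : ℝ, ∀ᶠ ε in nhdsWithin (0 : ℝ) (Set.Ioi 0), F k ε = A + B * ε := by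
    intro k
    obtain ⟨δ', hδ', A', B', h⟩ := egerm z₀ (by linarith) s hs k
    refine ⟨A' / cap k, B' / cap k, ?_⟩
    filter_upwards [Ioo_mem_nhdsGT hδ'] with ε hε
    simp only [hF]
    rw [h ε hε.1 hε.2]
    ring
  obtain ⟨A0, B0, hAB⟩ := NC_max F hFg K
  have hin : ∀ᶠ ε in nhdsWithin (0 : ℝ) (Set.Ioi 0), ε ∈ Set.Ioo 0 δ := Ioo_mem_nhdsGT hδ
  have hext : ∀ p : ℝ → Prop, (∀ᶠ ε in nhdsWithin (0 : ℝ) (Set.Ioi 0), p ε) →
      ∃ δ' > 0, ∀ ε, 0 < ε → ε < δ' → p ε := by
    intro p hp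
    obtain ⟨u, hu, hsub⟩ := (mem_nhdsGT_iff_exists_Ioo_subset).1 hp
    exact ⟨u, hu, fun ε h1 h2 => hsub ⟨h1, h2⟩⟩
  rcases NC_quad (A0 ^ 2 - z₀ / Vol) (2 * A0 * B0 - s / Vol) (B0 ^ 2) with hq | hq
  · obtain ⟨δ', hδ', h⟩ := hext (fun ε => cfun cap (z₀ + s * ε) = A0 + B0 * ε) (by
      filter_upwards [hAB, hin, hq] with ε h1 h2 h3
      rw [hmain ε h2.1 h2.2 _ h1.1 h1.2]
      apply max_eq_left
      obtain ⟨k, -, hk⟩ := h1.2
      have hz1 := hz ε h2.1 h2.2
      have h4 : 0 ≤ A0 + B0 * ε := by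
        rw [← hk]
        exact div_nonneg (enn _ (by linarith) k).1 (hcap0 k)
      rw [Real.sqrt_le_iff]
      refine ⟨h4, ?_⟩
      have : A0 ^ 2 - z₀ / Vol + (2 * A0 * B0 - s / Vol) * ε + B0 ^ 2 * ε ^ 2 =
          (A0 + B0 * ε) ^ 2 - (z₀ + s * ε) / Vol := by ring
      linarith)
    exact ⟨δ', hδ', Or.inl ⟨A0, B0, h⟩⟩
  · obtain ⟨δ', hδ', h⟩ := hext (fun ε => cfun cap (z₀ + s * ε) = √((z₀ + s * ε) / Vol)) (by
      filter_upwards [hAB, hin, hq] with ε h1 h2 h3
      rw [hmain ε h2.1 h2.2 _ h1.1 h1.2]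
      apply max_eq_right
      apply Real.le_sqrt_of_sq_le
      have : A0 ^ 2 - z₀ / Vol + (2 * A0 * B0 - s / Vol) * ε + B0 ^ 2 * ε ^ 2 =
          (A0 + B0 * ε) ^ 2 - (z₀ + s * ε) / Vol := by ring
      linarith)
    exact ⟨δ', hδ', Or.inr h⟩


end Pool.Agent.Helper416_Stair
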