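import Pool.Agent.Helper416_Stair.Defs

/-!
# Weights for irrational `z`
-/

noncomputable section

open scoped BigOperators Pointwise

namespace Pool.Agent.Helper416_Stair



/-
JOB E3 (helper416, MP_f690a7_gt).  Weights of `E(1, z)` for irrational `z`.

Plain proof.  `stE 1 z i = (A + B z, C + D z)` with integers depending only on the previous comparisons; for irrational `z`
both entries stay positive and never equal (an integral combination `A + B z` with `(A,B) ≠ 0` is nonzero; the matrix of
`(1, z) ↦ stE 1 z i` is unimodular), so for `y` near `z` the same comparisons occur and `stE 1 y i` is the same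
integral affine function of `y`; this gives continuity of `wt 1 · i` at `z`.  Sums: the partial sums of the weights are
`1 + z - (x_i + y_i)` and those of the squares are `z - x_i y_i`.  They are bounded, so the weights `min(x_i, y_i)` tend to 0.
Also the larger side tends to 0: `x_i + y_i` is nonincreasing; if its limit is `l > 0` then for large `i` the smaller
side is `< l/4`, so the larger is `> l/2`; the smaller side `w` stays constant and positive while the larger decreases by `w`
at each step, as long as the larger side stays the larger one; it cannot drop below `l/2` and stays larger, so it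
decreases by the constant `w > 0` infinitely often, a contradiction.
-/

theorem e3_stepE_lt {a b : ℝ} (h : a ≤ b) : stepE (a, b) = (a, b - a) := by
  simp [stepE, h]

theorem e3_stepE_gt {a b : ℝ} (h : b < a) : stepE (a, b) = (a - b, b) := by
  simp [stepE, not_le.mpr h]

theorem e3_stE_zero (x y : ℝ) : stE x y 0 = (x, y) := rfl

theorem e3_stE_succ (x y : ℝ) (n : ℕ) : stE x y (n + 1) = stepE (stE x y n) := by
  simp [stE, Function.iterate_succ_apply']

theorem e3_irr_lin {z : ℝ} (hirr : Irrational z) {a b : ℤ} (h : (a : ℝ) + b * z = 0) :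
    a = 0 ∧ b = 0 := by
  by_cases hb : b = 0
  · subst hb
    simp at h
    exact ⟨by exact_mod_cast h, rfl⟩
  · exfalso
    apply hirr
    refine ⟨(-a : ℚ) / b, ?_⟩
    have hb' : (b : ℝ) ≠ 0 := by exact_mod_cast hb
    push_cast
    field_simp
    linarith

theorem e3_stE_inv (z : ℝ) (hz : 1 ≤ z) (hirr : Irrational z) (n : ℕ) :
    0 < (stE 1 z n).1 ∧ 0 < (stE 1 z n).2 ∧
      ∃ p q r s : ℤ, p * s - q * r = 1 ∧ (stE 1 z n).1 = p + q * z ∧ (stE 1 z n).2 = r + s * z := by
  induction n with
  | zero =>
    rw [e3_stE_zero]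
    refine ⟨by norm_num, by simpa using by linarith, 1, 0, 0, 1, by norm_num, by simp, by simp⟩
  | succ n ih =>
    obtain ⟨h1, h2, p, q, r, s, hd, hx, hy⟩ := ih
    rw [e3_stE_succ]
    have hne : (stE 1 z n).1 ≠ (stE 1 z n).2 := by
      intro he
      rw [hx, hy] at he
      have h0 : ((p - r : ℤ) : ℝ) + ((q - s : ℤ) : ℝ) * z = 0 := by
        push_cast
        linarith
      obtain ⟨e1, e2⟩ := e3_irr_lin hirr h0
      have e1' : p = r := by omega
      have e2' : q = s := by omega
      subst e1' e2'
      have : p * q - q * p = 0 := by ring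
      omega
    rcases lt_or_gt_of_ne hne with h | h
    · have hs : stepE (stE 1 z n) = ((stE 1 z n).1, (stE 1 z n).2 - (stE 1 z n).1) :=
        e3_stepE_lt (a := (stE 1 z n).1) (b := (stE 1 z n).2) h.le
      rw [hs]
      refine ⟨h1, by simpa using h, p, q, r - p, s - q, ?_, hx, ?_⟩
      · linear_combination hd
      · simp only
        rw [hx, hy]
        push_cast
        ring
    · have hs : stepE (stE 1 z n) = ((stE 1 z n).1 - (stE 1 z n).2, (stE 1 z n).2) :=
        e3_stepE_gt (a := (stE 1 z n).1) (b := (stE 1 z n).2) h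
      rw [hs]
      refine ⟨by simpa using h, h2, p - r, q - s, r, s, ?_, ?_, hy⟩
      · linear_combination hd
      · simp only
        rw [hx, hy]
        push_cast
        ring

theorem e3_stE_ne (z : ℝ) (hz : 1 ≤ z) (hirr : Irrational z) (n : ℕ) :
    (stE 1 z n).1 ≠ (stE 1 z n).2 := by
  obtain ⟨h1, h2, p, q, r, s, hd, hx, hy⟩ := e3_stE_inv z hz hirr n
  intro he
  rw [hx, hy] at he
  have h0 : ((p - r : ℤ) : ℝ) + ((q - s : ℤ) : ℝ) * z = 0 := by
    push_cast
    linarith
  obtain ⟨e1, e2⟩ := e3_irr_lin hirr h0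
  have e1' : p = r := by omega
  have e2' : q = s := by omega
  subst e1' e2'
  have : p * q - q * p = 0 := by ring
  omega

theorem e3_stepE_cont {v : ℝ × ℝ} (h : v.1 ≠ v.2) : ContinuousAt stepE v := by
  rcases lt_or_gt_of_ne h with h | h
  · have hev : (fun s : ℝ × ℝ => (s.1, s.2 - s.1)) =ᶠ[nhds v] stepE := by
      have : ∀ᶠ s : ℝ × ℝ in nhds v, s.1 < s.2 :=
        (isOpen_lt continuous_fst continuous_snd).mem_nhds h
      filter_upwards [this] with s hs
      simp [stepE, hs.le]
    refine ContinuousAt.congr ?_ hev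
    fun_prop
  · have hev : (fun s : ℝ × ℝ => (s.1 - s.2, s.2)) =ᶠ[nhds v] stepE := by
      have : ∀ᶠ s : ℝ × ℝ in nhds v, s.2 < s.1 :=
        (isOpen_lt continuous_snd continuous_fst).mem_nhds h
      filter_upwards [this] with s hs
      simp [stepE, not_le.mpr hs]
    refine ContinuousAt.congr ?_ hev
    fun_prop

theorem e3_stE_cont (z : ℝ) (hz : 1 ≤ z) (hirr : Irrational z) (n : ℕ) :
    ContinuousAt (fun y => stE 1 y n) z := by
  induction n with
  | zero =>
    simp only [e3_stE_zero]
    fun_prop
  | succ n ih =>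
    simp only [e3_stE_succ]
    exact ContinuousAt.comp (f := fun y => stE 1 y n) (g := stepE) (e3_stepE_cont (e3_stE_ne z hz hirr n)) ih

theorem e3_stE_sum_step (x y : ℝ) (n : ℕ) :
    (stE x y (n + 1)).1 + (stE x y (n + 1)).2 = (stE x y n).1 + (stE x y n).2 - wt x y n := by
  rw [e3_stE_succ, wt]
  rcases le_or_gt (stE x y n).1 (stE x y n).2 with h | h
  · have hs : stepE (stE x y n) = ((stE x y n).1, (stE x y n).2 - (stE x y n).1) :=
      e3_stepE_lt (a := (stE x y n).1) (b := (stE x y n).2) h
    rw [hs, min_eq_left h]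
    ring
  · have hs : stepE (stE x y n) = ((stE x y n).1 - (stE x y n).2, (stE x y n).2) :=
      e3_stepE_gt (a := (stE x y n).1) (b := (stE x y n).2) h
    rw [hs, min_eq_right h.le]
    ring

theorem e3_stE_mul_step (x y : ℝ) (n : ℕ) :
    (stE x y (n + 1)).1 * (stE x y (n + 1)).2 = (stE x y n).1 * (stE x y n).2 - wt x y n ^ 2 := by
  rw [e3_stE_succ, wt]
  rcases le_or_gt (stE x y n).1 (stE x y n).2 with h | h
  · have hs : stepE (stE x y n) = ((stE x y n).1, (stE x y n).2 - (stE x y n).1) :=
      e3_stepE_lt (a := (stE x y n).1) (b := (stE x y n).2) h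
    rw [hs, min_eq_left h]
    ring
  · have hs : stepE (stE x y n) = ((stE x y n).1 - (stE x y n).2, (stE x y n).2) :=
      e3_stepE_gt (a := (stE x y n).1) (b := (stE x y n).2) h
    rw [hs, min_eq_right h.le]
    ring

theorem e3_wt_partial_sum (x y : ℝ) (n : ℕ) :
    ∑ i ∈ Finset.range n, wt x y i = x + y - ((stE x y n).1 + (stE x y n).2) := by
  induction n with
  | zero => simp [e3_stE_zero]
  | succ n ih =>
    rw [Finset.sum_range_succ, ih, e3_stE_sum_step]
    ring

theorem e3_wt_partial_sq (x y : ℝ) (n : ℕ) :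
    ∑ i ∈ Finset.range n, wt x y i ^ 2 = x * y - (stE x y n).1 * (stE x y n).2 := by
  induction n with
  | zero => simp [e3_stE_zero]
  | succ n ih =>
    rw [Finset.sum_range_succ, ih, e3_stE_mul_step]
    ring

theorem e3_stE_tendsto (z : ℝ) (hz : 1 ≤ z) (hirr : Irrational z) :
    Filter.Tendsto (fun n => (stE 1 z n).1 + (stE 1 z n).2) Filter.atTop (nhds 0) := by
  have hpos : ∀ n, 0 < wt 1 z n := fun n => by
    obtain ⟨h1, h2, -⟩ := e3_stE_inv z hz hirr n
    exact lt_min h1 h2
  have hanti : Antitone (fun n => (stE 1 z n).1 + (stE 1 z n).2) := by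
    apply antitone_nat_of_succ_le
    intro n
    have := e3_stE_sum_step 1 z n
    have := hpos n
    linarith
  have hbdd : BddBelow (Set.range (fun n => (stE 1 z n).1 + (stE 1 z n).2)) := by
    refine ⟨0, ?_⟩
    rintro _ ⟨n, rfl⟩
    obtain ⟨h1, h2, -⟩ := e3_stE_inv z hz hirr n
    simp only
    linarith
  have hlim := tendsto_atTop_ciInf hanti hbdd
  set l := ⨅ n, ((stE 1 z n).1 + (stE 1 z n).2) with hl
  have hle : ∀ n, l ≤ (stE 1 z n).1 + (stE 1 z n).2 := fun n => ciInf_le hbdd n
  have hl0 : 0 ≤ l := by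
    apply le_ciInf
    intro n
    obtain ⟨h1, h2, -⟩ := e3_stE_inv z hz hirr n
    linarith
  rcases hl0.eq_or_lt with h0 | h0
  · rw [← h0] at hlim
    exact hlim
  · exfalso
    have hw : Filter.Tendsto (fun n => wt 1 z n) Filter.atTop (nhds 0) := by
      have h2 := hlim.sub ((Filter.tendsto_add_atTop_iff_nat 1).mpr hlim)
      rw [sub_self] at h2
      refine h2.congr ?_
      intro n
      have := e3_stE_sum_step 1 z n
      linarith
    have hev : ∀ᶠ n in Filter.atTop, wt 1 z n < l / 4 := hw.eventually_lt_const (by linarith)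
    obtain ⟨N, hN⟩ := Filter.eventually_atTop.mp hev
    have hconst : ∀ n, N ≤ n → wt 1 z (n + 1) = wt 1 z n := by
      intro n hn
      have a1 := hN n hn
      have a2 := hN (n + 1) (by omega)
      have b1 := hle n
      have b2 := hle (n + 1)
      have c1 := e3_stE_sum_step 1 z n
      rw [e3_stE_succ] at b2 c1
      unfold wt at a1 a2 ⊢
      rw [e3_stE_succ] at a2 ⊢
      rcases le_or_gt (stE 1 z n).1 (stE 1 z n).2 with h | h
      · have hs : stepE (stE 1 z n) = ((stE 1 z n).1, (stE 1 z n).2 - (stE 1 z n).1) :=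
          e3_stepE_lt (a := (stE 1 z n).1) (b := (stE 1 z n).2) h
        rw [hs] at a2 b2 ⊢
        simp only at a2 b2 ⊢
        rw [min_eq_left h] at a1 ⊢
        apply min_eq_left
        linarith
      · have hs : stepE (stE 1 z n) = ((stE 1 z n).1 - (stE 1 z n).2, (stE 1 z n).2) :=
          e3_stepE_gt (a := (stE 1 z n).1) (b := (stE 1 z n).2) h
        rw [hs] at a2 b2 ⊢
        simp only at a2 b2 ⊢
        rw [min_eq_right h.le] at a1 ⊢
        apply min_eq_right
        linarith
    have hall : ∀ k, wt 1 z (N + k) = wt 1 z N := by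
      intro k
      induction k with
      | zero => rfl
      | succ k ih =>
        rw [← ih, ← hconst (N + k) (by omega)]
        rfl
    have hN0 := hpos N
    have hev2 : ∀ᶠ n in Filter.atTop, wt 1 z n < wt 1 z N := hw.eventually_lt_const hN0
    obtain ⟨M, hM⟩ := Filter.eventually_atTop.mp hev2
    have := hM (N + M) (by omega)
    rw [hall] at this
    exact lt_irrefl _ this

/-- TARGET -/
theorem wtIrr (z : ℝ) (hz : 1 ≤ z) (hirr : Irrational z) :
    (∀ i, 0 < wt 1 z i) ∧ HasSum (wt 1 z) (1 + z) ∧ HasSum (fun i => wt 1 z i ^ 2) z ∧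
    (∀ i, ContinuousAt (fun y => wt 1 y i) z) := by
  have hpos : ∀ n, 0 < wt 1 z n := fun n => by
    obtain ⟨h1, h2, -⟩ := e3_stE_inv z hz hirr n
    exact lt_min h1 h2
  have hT := e3_stE_tendsto z hz hirr
  refine ⟨hpos, ?_, ?_, ?_⟩
  · rw [hasSum_iff_tendsto_nat_of_nonneg (fun i => (hpos i).le)]
    have h1 : Filter.Tendsto (fun n => 1 + z - ((stE 1 z n).1 + (stE 1 z n).2)) Filter.atTop
        (nhds (1 + z - 0)) := tendsto_const_nhds.sub hT
    rw [sub_zero] at h1
    refine h1.congr ?_
    intro n
    rw [e3_wt_partial_sum]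
  · rw [hasSum_iff_tendsto_nat_of_nonneg (fun i => sq_nonneg _)]
    have hprod : Filter.Tendsto (fun n => (stE 1 z n).1 * (stE 1 z n).2) Filter.atTop (nhds 0) := by
      have hsq : Filter.Tendsto (fun n => ((stE 1 z n).1 + (stE 1 z n).2) ^ 2) Filter.atTop (nhds 0) := by
        have := hT.pow 2
        simpa using this
      refine squeeze_zero (fun n => ?_) (fun n => ?_) hsq
      · obtain ⟨h1, h2, -⟩ := e3_stE_inv z hz hirr n
        positivity
      · obtain ⟨h1, h2, -⟩ := e3_stE_inv z hz hirr n
        nlinarith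
    have h1 : Filter.Tendsto (fun n => 1 * z - (stE 1 z n).1 * (stE 1 z n).2) Filter.atTop
        (nhds (1 * z - 0)) := tendsto_const_nhds.sub hprod
    rw [sub_zero, one_mul] at h1
    refine h1.congr ?_
    intro n
    rw [e3_wt_partial_sq, one_mul]
  · intro i
    have h := e3_stE_cont z hz hirr i
    unfold wt
    exact (h.fst).min (h.snd)


end Pool.Agent.Helper416_Stair
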