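import Pool.Agent.Helper416_Stair.Bridge
import Pool.Agent.Helper416_Stair.Glue
import Pool.Agent.Helper416_Stair.E3

/-!
# No large obstruction near an irrational number
-/

noncomputable section

open scoped BigOperators Pointwise

namespace Pool.Agent.Helper416_Stair











/-
JOB OB-IRR (helper416, MP_f690a7_gt).  No obstruction of large degree near an irrational point below the critical perimeter.

`Vol = b² - ∑' β²`, `Per = 3b - ∑' β`, `V(z) = √(z / Vol)`.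
Plain proof.  For `z` near `z₀` suppose `V capW b β k < ellCap 1 z k`, `V = V(z)`.  `bridge` (2) gives `S, C` with
`Bf S v (toR C) < 0`, `v = vec b β V z`.  Let `T = C.1 / (V b)`; `C.1 > 0` (if `C.1 = 0` then `idx ≥ 0`, `C.2 ≥ 0` force `C.2 = 0` on `S`).
`∑' v_i² = V² ∑' β² + ∑' wt² ≤ V² ∑' β² + z = (V b)²` (`∑ wt² ≤ z` by ellE3).  The key inequality reads
`∑_S [(C_i - T v_i)² + C_i] + T² ∑_{∉S} v_i² < 3 T V b`.
For an integer `m ≥ 0` and real `x ≥ 0`: `(m - x)² + m ≥ x - min (1/4) x`, and `x² ≥ x - min (1/4) x`; all these terms are `≥ 0`.  So for every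
`m₀`, summing over `inl u` and over `inr i`, `i < m₀`, only:
`T (V Per - ∑_{i<m₀} wt 1 z i) + ∑'_u min (1/4) (T V β_u) + m₀/4 > 0`.
Choose `m₀`, `η > 0` with `V(z₀) Per - ∑_{i<m₀} wt 1 z₀ i < -2η` (the sum of all weights is `1 + z₀`), then `δ` with
`V(z) Per - ∑_{i<m₀} wt 1 z i < -η` and `V(z) ≤ V₁ := V(z₀) + 1`, `z > 0` for `|z - z₀| < δ` (continuity).  As
`(1/T) ∑'_u min (1/4) (T V₁ β_u) → 0` for `T → ∞` (dominated convergence), there is `T₀` with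
`∑'_u min (1/4) (T V₁ β_u) + m₀/4 ≤ η T` for `T ≥ T₀`.  Hence `T < T₀`, `C.1 < T₀ V₁ b`, and `2k ≤ C.1² + 3 C.1` bounds `k`.
-/



/-- lower bound for the left side of the key inequality by finitely many linear terms -/
theorem obs_irr_lower {ι : Type*} [DecidableEq ι] (w : ι → ℝ) (hs : Summable (fun i => w i ^ 2))
    (T : ℝ) (c : ι → ℝ) (hc : ∀ i, 0 ≤ c i) (S G : Finset ι) :
    ∑ i ∈ G, (T * w i - 1 / 4) ≤
      ∑ i ∈ S, ((c i - T * w i) ^ 2 + c i) + T ^ 2 * (∑' i, w i ^ 2 - ∑ i ∈ S, w i ^ 2) := by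
  have h1 : ∑ i ∈ S ∪ G, w i ^ 2 ≤ ∑' i, w i ^ 2 :=
    hs.sum_le_tsum _ (fun i _ => sq_nonneg _)
  have h2 : ∑ i ∈ S ∪ G, w i ^ 2 = ∑ i ∈ S, w i ^ 2 + ∑ i ∈ G \ S, w i ^ 2 := by
    rw [← Finset.sum_sdiff (Finset.subset_union_left (s₁ := S) (s₂ := G)), add_comm,
      Finset.union_sdiff_left]
  have h3 : T ^ 2 * (∑' i, w i ^ 2 - ∑ i ∈ S, w i ^ 2) ≥ ∑ i ∈ G \ S, (T * w i) ^ 2 := by
    have h4 : ∑ i ∈ G \ S, (T * w i) ^ 2 = T ^ 2 * ∑ i ∈ G \ S, w i ^ 2 := by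
      rw [Finset.mul_sum]
      exact Finset.sum_congr rfl (fun i _ => by ring)
    rw [h4]
    exact mul_le_mul_of_nonneg_left (by linarith) (sq_nonneg _)
  have h5 : ∑ i ∈ S, max (T * w i - 1 / 4) 0 ≤ ∑ i ∈ S, ((c i - T * w i) ^ 2 + c i) := by
    refine Finset.sum_le_sum (fun i _ => max_le ?_ ?_)
    · nlinarith [sq_nonneg (c i - T * w i + 1 / 2)]
    · have := hc i
      positivity
  have h6 : ∑ i ∈ G \ S, max (T * w i - 1 / 4) 0 ≤ ∑ i ∈ G \ S, (T * w i) ^ 2 := by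
    refine Finset.sum_le_sum (fun i _ => max_le ?_ (sq_nonneg _))
    nlinarith [sq_nonneg (T * w i - 1 / 2)]
  have h7 : ∑ i ∈ G, max (T * w i - 1 / 4) 0 ≤
      ∑ i ∈ S, max (T * w i - 1 / 4) 0 + ∑ i ∈ G \ S, max (T * w i - 1 / 4) 0 := by
    have h8 : ∑ i ∈ S ∪ G, max (T * w i - 1 / 4) 0 =
        ∑ i ∈ S, max (T * w i - 1 / 4) 0 + ∑ i ∈ G \ S, max (T * w i - 1 / 4) 0 := by
      rw [← Finset.sum_sdiff (Finset.subset_union_left (s₁ := S) (s₂ := G)), add_comm,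
        Finset.union_sdiff_left]
    rw [← h8]
    exact Finset.sum_le_sum_of_subset_of_nonneg Finset.subset_union_right
      (fun i _ _ => le_max_right _ _)
  have h9 : ∑ i ∈ G, (T * w i - 1 / 4) ≤ ∑ i ∈ G, max (T * w i - 1 / 4) 0 :=
    Finset.sum_le_sum (fun i _ => le_max_left _ _)
  linarith

/-- TARGET -/
theorem obs_irr {U : Type*} [DecidableEq U] (b : ℝ) (β : U → ℝ) (hb : 0 < b)
    (hβ : ∀ u, 0 ≤ β u) (hs : Summable β) (hvol : ∑' u, β u ^ 2 < b ^ 2) (hN : Nef (b, β))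
    (z₀ : ℝ) (hz₀ : 1 ≤ z₀) (hirr : Irrational z₀)
    (hκ : √(z₀ / (b ^ 2 - ∑' u, β u ^ 2)) * (3 * b - ∑' u, β u) < 1 + z₀) :
    ∃ (K : ℕ) (δ : ℝ), 0 < δ ∧ ∀ z : ℝ, |z - z₀| < δ → ∀ k : ℕ, K < k →
      ellCap 1 z k ≤ √(z / (b ^ 2 - ∑' u, β u ^ 2)) * capW b β k := by
  have hDpos : 0 < b ^ 2 - ∑' u, β u ^ 2 := by linarith
  set D := b ^ 2 - ∑' u, β u ^ 2 with hD
  obtain ⟨hwpos, hwsum, hwsq, hwcont⟩ := wtIrr z₀ hz₀ hirr
  obtain ⟨mid, hm1, hm2⟩ := exists_between hκ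
  have hF : Filter.Tendsto (fun F : Finset U => √(z₀ / D) * (3 * b - ∑ u ∈ F, β u)) Filter.atTop
      (nhds (√(z₀ / D) * (3 * b - ∑' u, β u))) :=
    (tendsto_const_nhds.sub hs.hasSum).const_mul _
  obtain ⟨F, hFm⟩ := (hF.eventually (gt_mem_nhds hm1)).exists
  obtain ⟨m, hmm⟩ := (hwsum.tendsto_sum_nat.eventually (lt_mem_nhds hm2)).exists
  set Φ : ℝ → ℝ := fun z => √(z / D) * (3 * b - ∑ u ∈ F, β u) - ∑ i ∈ Finset.range m, wt 1 z i
    with hΦ
  have hΦ0 : Φ z₀ < 0 := by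
    simp only [hΦ]
    linarith
  have hVc : ContinuousAt (fun z : ℝ => √(z / D)) z₀ :=
    (continuousAt_id.div_const D).sqrt
  have hΦc : ContinuousAt Φ z₀ := by
    refine (hVc.mul continuousAt_const).sub ?_
    exact tendsto_finsetSum _ (fun i _ => hwcont i)
  set η := -Φ z₀ / 2 with hη
  have hη0 : 0 < η := by rw [hη]; linarith
  have hev1 : ∀ᶠ z in nhds z₀, Φ z < -η :=
    hΦc.eventually (gt_mem_nhds (by rw [hη]; linarith))
  have hev2 : ∀ᶠ z in nhds z₀, √(z / D) < √(z₀ / D) + 1 :=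
    hVc.eventually (gt_mem_nhds (by linarith))
  have hev3 : ∀ᶠ z in nhds z₀, 0 < z := lt_mem_nhds (by linarith)
  obtain ⟨δ, hδ, hδ'⟩ := Metric.eventually_nhds_iff.1 (hev1.and (hev2.and hev3))
  set T₀ : ℝ := ((F.card : ℝ) + m) / (4 * η) with hT₀
  have hT₀0 : 0 ≤ T₀ := by positivity
  set B : ℝ := T₀ * ((√(z₀ / D) + 1) * b) with hB
  have hB0 : 0 ≤ B := by positivity
  refine ⟨⌈B ^ 2 + 3 * B⌉₊, δ, hδ, ?_⟩
  intro z hz k hk
  by_contra hcon
  push Not at hcon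
  obtain ⟨hz1, hz2, hz3⟩ := hδ' (show dist z z₀ < δ by rwa [Real.dist_eq])
  set V := √(z / D) with hV
  have hV0 : 0 < V := Real.sqrt_pos.2 (div_pos hz3 hDpos)
  have hVsq : V ^ 2 * D = z := by
    rw [hV, Real.sq_sqrt (div_pos hz3 hDpos).le]
    field_simp
  obtain ⟨S, C, hC0, hCn, hCS, hidx, hBneg, hkC⟩ :=
    (bridge b β hb hβ hN z hz3 V hV0).2 k hcon
  set v := vec b β V z with hv
  have hv1 : v.1 = V * b := rfl
  have hvpos : 0 < v.1 := by rw [hv1]; positivity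
  have hvl : ∀ u, v.2 (Sum.inl u) = V * β u := fun u => rfl
  have hvr : ∀ i, v.2 (Sum.inr i) = wt 1 z i := fun i => rfl
  have hwn : ∀ i, 0 ≤ wt 1 z i := by
    intro i
    obtain ⟨h1, h2, _⟩ := ellE3 1 z one_pos hz3 i
    exact le_min h1 h2
  have hvn : ∀ i, 0 ≤ v.2 i := by
    rintro (u | i)
    · rw [hvl]; exact mul_nonneg hV0.le (hβ u)
    · rw [hvr]; exact hwn i
  have hβsq : Summable (fun u => β u ^ 2) := by
    refine Summable.of_nonneg_of_le (fun u => sq_nonneg _) (fun u => ?_)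
      (hs.mul_left (∑' u, β u))
    rw [sq]
    exact mul_le_mul_of_nonneg_right (hs.le_tsum u (fun j _ => hβ j)) (hβ u)
  have hwrange : ∀ n, ∑ i ∈ Finset.range n, wt 1 z i ^ 2 ≤ z := by
    intro n
    obtain ⟨h1, h2, _, h3⟩ := ellE3 1 z one_pos hz3 n
    rw [h3]
    nlinarith
  have hwsm : Summable (fun i => wt 1 z i ^ 2) :=
    summable_of_sum_range_le (fun n => sq_nonneg _) hwrange
  have hwle : ∑' i, wt 1 z i ^ 2 ≤ z :=
    Real.tsum_le_of_sum_range_le (fun n => sq_nonneg _) hwrange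
  have hsl : HasSum ((fun i => v.2 i ^ 2) ∘ Sum.inl) (V ^ 2 * ∑' u, β u ^ 2) := by
    have : (fun i => v.2 i ^ 2) ∘ Sum.inl = fun u => V ^ 2 * β u ^ 2 := by
      funext u
      simp only [Function.comp, hvl]
      ring
    rw [this]
    exact hβsq.hasSum.mul_left _
  have hsr : HasSum ((fun i => v.2 i ^ 2) ∘ Sum.inr) (∑' i, wt 1 z i ^ 2) := by
    have : (fun i => v.2 i ^ 2) ∘ Sum.inr = fun i => wt 1 z i ^ 2 := by
      funext i
      simp only [Function.comp, hvr]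
    rw [this]
    exact hwsm.hasSum
  have hsum := hsl.sum hsr
  have hsq : ∑' i, v.2 i ^ 2 ≤ v.1 ^ 2 := by
    rw [hsum.tsum_eq, hv1]
    have : (V * b) ^ 2 = V ^ 2 * ∑' u, β u ^ 2 + V ^ 2 * D := by rw [hD]; ring
    rw [this, hVsq]
    linarith
  have hkey := key_ineq v hvpos hvn hsum.summable hsq S C hC0 hidx hBneg
  set T := (C.1 : ℝ) / v.1 with hT
  have hC0' : (0 : ℝ) ≤ (C.1 : ℝ) := by exact_mod_cast hC0
  have hT0 : 0 ≤ T := div_nonneg hC0' hvpos.le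
  have hCT : (C.1 : ℝ) = T * (V * b) := by
    rw [hT, hv1]
    field_simp
  have hlow := obs_irr_lower v.2 hsum.summable T (fun i => (C.2 i : ℝ))
    (fun i => by exact_mod_cast hCn i) S (F.disjSum (Finset.range m))
  rw [Finset.sum_disjSum] at hlow
  simp only [hvl, hvr] at hlow
  rw [Finset.sum_sub_distrib, Finset.sum_sub_distrib, Finset.sum_const, Finset.sum_const,
    Finset.card_range, nsmul_eq_mul, nsmul_eq_mul] at hlow
  have e1 : ∑ u ∈ F, T * (V * β u) = T * (V * ∑ u ∈ F, β u) := by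
    rw [Finset.mul_sum, Finset.mul_sum]
  have e2 : ∑ i ∈ Finset.range m, T * wt 1 z i = T * ∑ i ∈ Finset.range m, wt 1 z i := by
    rw [Finset.mul_sum]
  rw [e1, e2] at hlow
  have h1 : T * η < ((F.card : ℝ) + m) / 4 := by
    have h2 : T * Φ z ≤ T * (-η) := mul_le_mul_of_nonneg_left hz1.le hT0
    have h3 : T * Φ z = T * (V * (3 * b)) - T * (V * ∑ u ∈ F, β u) -
        T * ∑ i ∈ Finset.range m, wt 1 z i := by
      simp only [hΦ]
      ring
    have h4 : 3 * (C.1 : ℝ) = T * (V * (3 * b)) := by rw [hCT]; ring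
    linarith
  have h2 : T ≤ T₀ := by
    rw [hT₀, le_div_iff₀ (by positivity)]
    linarith
  have h3 : (C.1 : ℝ) ≤ B := by
    rw [hCT, hB]
    exact mul_le_mul h2 (mul_le_mul_of_nonneg_right hz2.le hb.le) (mul_pos hV0 hb).le hT₀0
  have h4 : 2 * (k : ℝ) ≤ (C.1 : ℝ) ^ 2 + 3 * C.1 := by exact_mod_cast hkC
  have h5 : (C.1 : ℝ) ^ 2 ≤ B ^ 2 := pow_le_pow_left₀ hC0' h3 2
  have h6 : B ^ 2 + 3 * B < k := by
    exact lt_of_le_of_lt (Nat.le_ceil _) (by exact_mod_cast hk)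
  have h7 : (0 : ℝ) ≤ k := by positivity
  linarith


end Pool.Agent.Helper416_Stair
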