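import Pool.Agent.Helper416_Stair.Defs

/-!
# Weights of `E(1, z)` near a rational number
-/

noncomputable section

open scoped BigOperators Pointwise

namespace Pool.Agent.Helper416_Stair



/-
JOB E4 (helper416, MP_f690a7_gt).  The weight sequence of `E(1, z)` for `z` near a rational number.

Plain proof.  General lemma, by induction on `a + b` (a, b ≥ 1 coprime naturals): start the Euclid steps from
`((a + α e)/q, (b + β e)/q)` with integers `α, β`, `D = a β - b α ≠ 0`, `e > 0` small.  As long as `a ≠ b` the comparison of the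
two sides is that of `a, b`; the state keeps this form and `D` is invariant.  At `a = b = 1` we have `β - α = D`: the
smaller side is the last big weight, `(1 + γ' e)/q`, and after it the state is `{|D| e / q, (1 + γ' e)/q}`.  Let there be
`m` steps in total, with weights `(u_i + υ_i e)/q`, `u_i ≥ 1`, `u_{m-1} = 1`, `υ_{m-1} = γ'`.  Comparing coefficients of
`e⁰, e¹, e²` in the identities (sum of squares of the weights) = (product before) - (product after) and (sum of the
weights) = (sum before) - (sum after):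
  `∑ u_i² = a b`, `2 ∑ u_i υ_i = a β + b α - |D|`, `∑ υ_i² = α β - |D| γ'`, `∑ u_i = a + b - 1`.
(At `e = 0` the same `m` steps are made from `(a/q, b/q)` and end in a state with a zero side.)
Class vector: integers `c_i` with `∑ c_i u_i = 0`, `∑ c_i υ_i = -|D|`, `∑ c_i = ∑ c_i² - 2`, `c_{m-1} = 1`.  It exists if
`D < 0` and `b ≠ 1`, or `D > 0` and `a ≠ 1`; in the remaining case `D < 0, b = 1` all `u_i = 1`, `m = a`, and the first side is
never the smaller one, so that `∑ υ_i = α - |D|` (same for `D > 0, a = 1` with `β`).  Induction: a step prepends a zero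
to the class vector of the rest, except when the rest is in the remaining case and the first step was of the other type: `a < b`,
`D < 0`, `b - a = 1`: then `c = (-1, 1, ..., 1)` (first weight `(a + α e)/q`, then `a` weights equal to `1` plus
perturbation with `∑ υ = α - |D|`).
Apply this with `a = q, b = p, α = 0, β = s`, `e = q ε`, so `D = q s`; `γ = -γ'`.  (`q = 1 = p` only with `s = 1`.)
`0 ≤ γ ≤ q`: from `∑ υ² = q γ ≥ 0` we get `γ ≥ 0`; and `γ ≤ q`: e.g. carry along in the induction that the state is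
`(A₁ + B₁ z, A₂ + B₂ z)` with `|B_i| ≤` ..., or: the last two sides before the end are positive for all small `e` and...
(any argument; if `γ ≤ q` is inconvenient you may drop it from the statement and tell me).
After the `m` steps the state is `(q ε, 1/q - γ ε)` in some order; its weights are `≤ q ε`, the first is `q ε` (for small `ε`),
and all partial sums are `≤ q ε + 1/q - γ ε`.
-/


theorem nr_wt_zero (x y : ℝ) : wt x y 0 = min x y := rfl

theorem nr_st_zero (x y : ℝ) : stE x y 0 = (x, y) := rfl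

theorem nr_st_succ_le (x y : ℝ) (h : x ≤ y) (n : ℕ) : stE x y (n + 1) = stE x (y - x) n := by
  unfold stE
  rw [Function.iterate_succ_apply]
  congr 1
  simp [stepE, h]

theorem nr_st_succ_gt (x y : ℝ) (h : y < x) (n : ℕ) : stE x y (n + 1) = stE (x - y) y n := by
  unfold stE
  rw [Function.iterate_succ_apply]
  congr 1
  simp [stepE, not_le.mpr h]

theorem nr_wt_succ_le (x y : ℝ) (h : x ≤ y) (n : ℕ) : wt x y (n + 1) = wt x (y - x) n := by
  unfold wt
  rw [nr_st_succ_le x y h]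

theorem nr_wt_succ_gt (x y : ℝ) (h : y < x) (n : ℕ) : wt x y (n + 1) = wt (x - y) y n := by
  unfold wt
  rw [nr_st_succ_gt x y h]

theorem nr_wt_right_zero (x : ℝ) (h : 0 < x) (n : ℕ) : wt x 0 n = 0 := by
  induction n with
  | zero => rw [nr_wt_zero]; exact min_eq_right h.le
  | succ n ih => rw [nr_wt_succ_gt x 0 h, sub_zero, ih]

theorem nr_st_add (x y : ℝ) (m j : ℕ) : stE x y (m + j) = stE (stE x y m).1 (stE x y m).2 j := by
  unfold stE
  rw [add_comm m j, Function.iterate_add_apply]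

theorem nr_wt_add (x y : ℝ) (m j : ℕ) : wt x y (m + j) = wt (stE x y m).1 (stE x y m).2 j := by
  unfold wt
  rw [nr_st_add]

theorem nr_tail (n : ℕ) : ∀ (x y : ℝ), 0 ≤ x → 0 ≤ y →
    0 ≤ (stE x y n).1 ∧ 0 ≤ (stE x y n).2 ∧ 0 ≤ wt x y n ∧ wt x y n ≤ min x y ∧
    ∑ i ∈ Finset.range n, wt x y i = x + y - (stE x y n).1 - (stE x y n).2 := by
  induction n with
  | zero =>
    intro x y hx hy
    refine ⟨hx, hy, ?_, le_rfl, ?_⟩
    · rw [nr_wt_zero]; exact le_min hx hy
    · simp [nr_st_zero]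
  | succ n ih =>
    intro x y hx hy
    rcases le_or_gt x y with h | h
    · obtain ⟨h1, h2, h3, h4, h5⟩ := ih x (y - x) hx (by linarith)
      rw [nr_st_succ_le x y h, nr_wt_succ_le x y h]
      refine ⟨h1, h2, h3, ?_, ?_⟩
      · rw [min_eq_left h]
        exact h4.trans (min_le_left _ _)
      · rw [Finset.sum_range_succ']
        have e : ∑ i ∈ Finset.range n, wt x y (i + 1) = ∑ i ∈ Finset.range n, wt x (y - x) i :=
          Finset.sum_congr rfl fun i _ => nr_wt_succ_le x y h i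
        rw [e, h5, nr_wt_zero, min_eq_left h]
        ring
    · obtain ⟨h1, h2, h3, h4, h5⟩ := ih (x - y) y (by linarith) hy
      rw [nr_st_succ_gt x y h, nr_wt_succ_gt x y h]
      refine ⟨h1, h2, h3, ?_, ?_⟩
      · rw [min_eq_right h.le]
        exact h4.trans (min_le_right _ _)
      · rw [Finset.sum_range_succ']
        have e : ∑ i ∈ Finset.range n, wt x y (i + 1) = ∑ i ∈ Finset.range n, wt (x - y) y i :=
          Finset.sum_congr rfl fun i _ => nr_wt_succ_gt x y h i
        rw [e, h5, nr_wt_zero, min_eq_right h.le]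
        ring

/-- put a term in front of a sequence -/
def nrc (x : ℤ) (f : ℕ → ℤ) : ℕ → ℤ
  | 0 => x
  | i + 1 => f i

/-- The data of the Euclid steps from `((a + α e)/Q, (b + β e)/Q)`, with `k + 1` big weights. -/
structure NRd (Q : ℝ) (a b : ℕ) (α β : ℤ) (k : ℕ) (u v : ℕ → ℤ) (g : ℤ) (e₀ : ℝ) : Prop where
  he : 0 < e₀
  u_pos : ∀ i, i ≤ k → 1 ≤ u i
  u_last : u k = 1
  v_last : v k = g
  w0 : ∀ i, i ≤ k → wt ((a : ℝ) / Q) ((b : ℝ) / Q) i = (u i : ℝ) / Q
  w1 : ∀ i, k < i → wt ((a : ℝ) / Q) ((b : ℝ) / Q) i = 0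
  s1 : ∑ i ∈ Finset.range (k + 1), u i ^ 2 = a * b
  s2 : 2 * ∑ i ∈ Finset.range (k + 1), u i * v i = a * β + b * α - |a * β - b * α|
  s3 : ∑ i ∈ Finset.range (k + 1), v i ^ 2 = α * β - |a * β - b * α| * g
  s4 : ∑ i ∈ Finset.range (k + 1), u i = a + b - 1
  g1 : α ≤ 0 → 0 ≤ β → g ≤ 0 ∧ -g ≤ |a * β - b * α|
  g2 : 0 ≤ α → β ≤ 0 → g ≤ 0 ∧ -g ≤ |a * β - b * α|
  w2 : ∀ e : ℝ, 0 < e → e < e₀ →
    ∀ i, i ≤ k → wt (((a : ℝ) + α * e) / Q) (((b : ℝ) + β * e) / Q) i = ((u i : ℝ) + v i * e) / Q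
  w3 : ∀ e : ℝ, 0 < e → e < e₀ →
    stE (((a : ℝ) + α * e) / Q) (((b : ℝ) + β * e) / Q) (k + 1) =
      (((|a * β - b * α| : ℤ) : ℝ) * e / Q, (1 + g * e) / Q) ∨
    stE (((a : ℝ) + α * e) / Q) (((b : ℝ) + β * e) / Q) (k + 1) =
      ((1 + g * e) / Q, ((|a * β - b * α| : ℤ) : ℝ) * e / Q)
  cv : (a * β - b * α < 0 ∧ b ≠ 1) ∨ (0 < a * β - b * α ∧ a ≠ 1) → ∃ c : ℕ → ℤ,
    (∑ i ∈ Finset.range (k + 1), c i * u i = 0) ∧
    (∑ i ∈ Finset.range (k + 1), c i * v i = -|a * β - b * α|) ∧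
    (∑ i ∈ Finset.range (k + 1), c i = ∑ i ∈ Finset.range (k + 1), c i ^ 2 - 2) ∧ c k = 1
  r1 : a * β - b * α < 0 → b = 1 → (∀ i, i ≤ k → u i = 1) ∧ k + 1 = a ∧
    ∑ i ∈ Finset.range (k + 1), v i = α - |a * β - b * α|
  r2 : 0 < a * β - b * α → a = 1 → (∀ i, i ≤ k → u i = 1) ∧ k + 1 = b ∧
    ∑ i ∈ Finset.range (k + 1), v i = β - |a * β - b * α|

theorem nrd_base (Q : ℝ) (hQ : 0 < Q) (α β : ℤ) (hD : (1 : ℤ) * β - 1 * α ≠ 0) :
    NRd Q 1 1 α β 0 (fun _ => 1) (fun _ => min α β) (min α β) 1 := by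
  have hab : ((1 : ℕ) : ℤ) * β - ((1 : ℕ) : ℤ) * α = β - α := by push_cast; ring
  have hQ1 : (0 : ℝ) < 1 / Q := by positivity
  refine ⟨one_pos, fun i _ => le_rfl, rfl, rfl, ?_, ?_, ?_, ?_, ?_, ?_, ?_, ?_, ?_, ?_, ?_, ?_, ?_⟩
  · intro i hi
    obtain rfl : i = 0 := by omega
    rw [nr_wt_zero]
    simp
  · intro i hi
    obtain ⟨j, rfl⟩ : ∃ j, i = j + 1 := ⟨i - 1, by omega⟩
    rw [nr_wt_succ_le _ _ le_rfl]
    simp only [Nat.cast_one, sub_self]
    exact nr_wt_right_zero _ hQ1 _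
  · simp
  · rw [hab]
    rcases le_total α β with h | h
    · rw [abs_of_nonneg (by omega)]; simp [h]; ring
    · rw [abs_of_nonpos (by omega)]; simp [h]; ring
  · rw [hab]
    rcases le_total α β with h | h
    · rw [abs_of_nonneg (by omega)]; simp [h]; ring
    · rw [abs_of_nonpos (by omega)]; simp [h]; ring
  · simp
  · rw [hab]
    intro h1 h2
    rw [abs_of_nonneg (by omega), min_eq_left (by omega)]
    omega
  · rw [hab]
    intro h1 h2
    rw [abs_of_nonpos (by omega), min_eq_right (by omega)]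
    omega
  · intro e he _ i hi
    obtain rfl : i = 0 := by omega
    rw [nr_wt_zero]
    rcases le_total α β with h | h
    · rw [min_eq_left h, min_eq_left]
      · push_cast; ring
      · apply div_le_div_of_nonneg_right _ hQ.le
        have : (α : ℝ) ≤ β := by exact_mod_cast h
        push_cast
        nlinarith
    · rw [min_eq_right h, min_eq_right]
      · push_cast; ring
      · apply div_le_div_of_nonneg_right _ hQ.le
        have : (β : ℝ) ≤ α := by exact_mod_cast h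
        push_cast
        nlinarith
  · intro e he _
    rw [hab]
    rcases lt_or_gt_of_ne (show α ≠ β from fun h => hD (by rw [h]; ring)) with h | h
    · right
      rw [nr_st_succ_le, nr_st_zero, min_eq_left h.le, abs_of_nonneg (by omega)]
      · ext
        · push_cast; ring
        · push_cast; ring
      · apply div_le_div_of_nonneg_right _ hQ.le
        have : (α : ℝ) ≤ β := by exact_mod_cast h.le
        push_cast
        nlinarith
    · left
      rw [nr_st_succ_gt, nr_st_zero, min_eq_right h.le, abs_of_nonpos (by omega)]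
      · ext
        · push_cast; ring
        · push_cast; ring
      · apply div_lt_div_of_pos_right _ hQ
        have : (β : ℝ) < α := by exact_mod_cast h
        push_cast
        nlinarith
  · rintro (⟨_, h⟩ | ⟨_, h⟩) <;> exact absurd rfl h
  · rw [hab]
    intro h _
    refine ⟨fun i _ => rfl, rfl, ?_⟩
    rw [abs_of_neg h, min_eq_right (by omega)]
    simp
  · rw [hab]
    intro h _
    refine ⟨fun i _ => rfl, rfl, ?_⟩
    rw [abs_of_pos h, min_eq_left (by omega)]
    simp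

theorem nr_small (α β : ℤ) (x y : ℕ) (hxy : x < y) (e : ℝ) (he : 0 < e)
    (he' : e < 1 / (|(α : ℝ)| + |(β : ℝ)| + 1)) : (x : ℝ) + α * e < y + β * e := by
  have h0 : (0 : ℝ) < |(α : ℝ)| + |(β : ℝ)| + 1 := by positivity
  rw [lt_div_iff₀ h0] at he'
  have h1 : (x : ℝ) + 1 ≤ y := by exact_mod_cast hxy
  have h2 : (α : ℝ) * e ≤ |(α : ℝ)| * e := mul_le_mul_of_nonneg_right (le_abs_self _) he.le
  have h3 : -((β : ℝ) * e) ≤ |(β : ℝ)| * e := by
    have := mul_le_mul_of_nonneg_right (neg_abs_le (β : ℝ)) he.le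
    linarith
  nlinarith

theorem nrd_step1 (Q : ℝ) (hQ : 0 < Q) (a d : ℕ) (ha : 0 < a) (hd : 0 < d) (α β : ℤ)
    (hD : (a : ℤ) * β - ((a + d : ℕ) : ℤ) * α ≠ 0) (k : ℕ) (u v : ℕ → ℤ) (g : ℤ) (e₀ : ℝ)
    (H : NRd Q a d α (β - α) k u v g e₀) :
    NRd Q a (a + d) α β (k + 1) (nrc a u) (nrc α v) g
      (min e₀ (1 / (|(α : ℝ)| + |(β : ℝ)| + 1))) := by
  have hDD : (a : ℤ) * (β - α) - (d : ℤ) * α = (a : ℤ) * β - ((a + d : ℕ) : ℤ) * α := by
    push_cast; ring
  obtain ⟨he, u_pos, u_last, v_last, w0, w1, s1, s2, s3, s4, g1, g2, w2, w3, cv, r1, r2⟩ := H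
  rw [hDD] at s2 s3 g1 g2 w3 cv r1 r2
  have hle : (a : ℝ) / Q ≤ ((a + d : ℕ) : ℝ) / Q := by
    apply div_le_div_of_nonneg_right _ hQ.le
    push_cast
    have : (0 : ℝ) ≤ d := Nat.cast_nonneg _
    linarith
  have hsub : ((a + d : ℕ) : ℝ) / Q - (a : ℝ) / Q = (d : ℝ) / Q := by push_cast; ring
  have hpl : ∀ e : ℝ, 0 < e → e < 1 / (|(α : ℝ)| + |(β : ℝ)| + 1) →
      ((a : ℝ) + α * e) / Q ≤ (((a + d : ℕ) : ℝ) + β * e) / Q := by
    intro e h1 h2
    apply div_le_div_of_nonneg_right _ hQ.le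
    exact (nr_small α β a (a + d) (by omega) e h1 h2).le
  have hps : ∀ e : ℝ, (((a + d : ℕ) : ℝ) + β * e) / Q - ((a : ℝ) + α * e) / Q =
      ((d : ℝ) + ((β - α : ℤ) : ℝ) * e) / Q := by
    intro e; push_cast; ring
  refine ⟨lt_min he (by positivity), ?_, u_last, v_last, ?_, ?_, ?_, ?_, ?_, ?_, ?_, ?_, ?_, ?_,
    ?_, ?_, ?_⟩
  · intro i hi
    cases i with
    | zero => show (1 : ℤ) ≤ a; omega
    | succ i => exact u_pos i (by omega)
  · intro i hi
    cases i with
    | zero =>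
      rw [nr_wt_zero, min_eq_left hle]
      simp [nrc]
    | succ i =>
      rw [nr_wt_succ_le _ _ hle, hsub]
      exact w0 i (by omega)
  · intro i hi
    cases i with
    | zero => omega
    | succ i =>
      rw [nr_wt_succ_le _ _ hle, hsub]
      exact w1 i (by omega)
  · rw [Finset.sum_range_succ']
    simp only [nrc]
    rw [s1]; push_cast; ring
  · rw [Finset.sum_range_succ']
    simp only [nrc]
    rw [mul_add, s2]; push_cast; ring
  · rw [Finset.sum_range_succ']
    simp only [nrc]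
    rw [s3]; push_cast; ring
  · rw [Finset.sum_range_succ']
    simp only [nrc]
    rw [s4]; push_cast; ring
  · intro h1 h2
    exact g1 h1 (by omega)
  · intro h1 h2
    exact g2 h1 (by omega)
  · intro e h1 h2 i hi
    have hA := hpl e h1 (lt_of_lt_of_le h2 (min_le_right _ _))
    cases i with
    | zero =>
      rw [nr_wt_zero, min_eq_left hA]
      simp [nrc]
    | succ i =>
      rw [nr_wt_succ_le _ _ hA, hps]
      exact w2 e h1 (lt_of_lt_of_le h2 (min_le_left _ _)) i (by omega)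
  · intro e h1 h2
    have hA := hpl e h1 (lt_of_lt_of_le h2 (min_le_right _ _))
    rw [nr_st_succ_le _ _ hA, hps]
    exact w3 e h1 (lt_of_lt_of_le h2 (min_le_left _ _))
  · rintro (⟨h1, h2⟩ | ⟨h1, h2⟩)
    · by_cases hd1 : d = 1
      · obtain ⟨r11, r12, r13⟩ := r1 h1 hd1
        refine ⟨nrc (-1) (fun _ => 1), ?_, ?_, ?_, rfl⟩
        · rw [Finset.sum_range_succ']
          simp only [nrc]
          have : ∑ i ∈ Finset.range (k + 1), 1 * u i = (k + 1 : ℕ) := by
            rw [Finset.sum_congr rfl (g := fun _ => (1 : ℤ))]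
            · simp
            · intro i hi
              rw [r11 i (by simpa [Nat.lt_succ_iff] using hi), one_mul]
          rw [this, r12]; ring
        · rw [Finset.sum_range_succ']
          simp only [nrc, one_mul]
          rw [r13]; ring
        · rw [Finset.sum_range_succ' _ (k + 1), Finset.sum_range_succ' _ (k + 1)]
          simp only [nrc]
          simp
          ring
      · obtain ⟨c, c1, c2, c3, c4⟩ := cv (Or.inl ⟨h1, hd1⟩)
        refine ⟨nrc 0 c, ?_, ?_, ?_, c4⟩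
        · rw [Finset.sum_range_succ']; simp only [nrc]; rw [c1]; ring
        · rw [Finset.sum_range_succ']; simp only [nrc]; rw [c2]; ring
        · rw [Finset.sum_range_succ' _ (k + 1), Finset.sum_range_succ' _ (k + 1)]; simp only [nrc]; rw [c3]; ring
    · obtain ⟨c, c1, c2, c3, c4⟩ := cv (Or.inr ⟨h1, h2⟩)
      refine ⟨nrc 0 c, ?_, ?_, ?_, c4⟩
      · rw [Finset.sum_range_succ']; simp only [nrc]; rw [c1]; ring
      · rw [Finset.sum_range_succ']; simp only [nrc]; rw [c2]; ring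
      · rw [Finset.sum_range_succ' _ (k + 1), Finset.sum_range_succ' _ (k + 1)]; simp only [nrc]; rw [c3]; ring
  · intro _ h
    omega
  · intro h h1
    obtain ⟨r21, r22, r23⟩ := r2 h h1
    refine ⟨?_, ?_, ?_⟩
    · intro i hi
      cases i with
      | zero => show (a : ℤ) = 1; omega
      | succ i => exact r21 i (by omega)
    · omega
    · rw [Finset.sum_range_succ']
      simp only [nrc]
      rw [r23]; ring

theorem nrd_step2 (Q : ℝ) (hQ : 0 < Q) (b d : ℕ) (hb : 0 < b) (hd : 0 < d) (α β : ℤ)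
    (hD : ((b + d : ℕ) : ℤ) * β - (b : ℤ) * α ≠ 0) (k : ℕ) (u v : ℕ → ℤ) (g : ℤ) (e₀ : ℝ)
    (H : NRd Q d b (α - β) β k u v g e₀) :
    NRd Q (b + d) b α β (k + 1) (nrc b u) (nrc β v) g
      (min e₀ (1 / (|(β : ℝ)| + |(α : ℝ)| + 1))) := by
  have hDD : (d : ℤ) * β - (b : ℤ) * (α - β) = ((b + d : ℕ) : ℤ) * β - (b : ℤ) * α := by
    push_cast; ring
  obtain ⟨he, u_pos, u_last, v_last, w0, w1, s1, s2, s3, s4, g1, g2, w2, w3, cv, r1, r2⟩ := H
  rw [hDD] at s2 s3 g1 g2 w3 cv r1 r2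
  have hle : (b : ℝ) / Q < ((b + d : ℕ) : ℝ) / Q := by
    apply div_lt_div_of_pos_right _ hQ
    push_cast
    have : (0 : ℝ) < d := Nat.cast_pos.mpr hd
    linarith
  have hsub : ((b + d : ℕ) : ℝ) / Q - (b : ℝ) / Q = (d : ℝ) / Q := by push_cast; ring
  have hpl : ∀ e : ℝ, 0 < e → e < 1 / (|(β : ℝ)| + |(α : ℝ)| + 1) →
      ((b : ℝ) + β * e) / Q < (((b + d : ℕ) : ℝ) + α * e) / Q := by
    intro e h1 h2
    apply div_lt_div_of_pos_right _ hQ
    exact nr_small β α b (b + d) (by omega) e h1 h2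
  have hps : ∀ e : ℝ, (((b + d : ℕ) : ℝ) + α * e) / Q - ((b : ℝ) + β * e) / Q =
      ((d : ℝ) + ((α - β : ℤ) : ℝ) * e) / Q := by
    intro e; push_cast; ring
  refine ⟨lt_min he (by positivity), ?_, u_last, v_last, ?_, ?_, ?_, ?_, ?_, ?_, ?_, ?_, ?_, ?_,
    ?_, ?_, ?_⟩
  · intro i hi
    cases i with
    | zero => show (1 : ℤ) ≤ b; omega
    | succ i => exact u_pos i (by omega)
  · intro i hi
    cases i with
    | zero =>
      rw [nr_wt_zero, min_eq_right hle.le]
      simp [nrc]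
    | succ i =>
      rw [nr_wt_succ_gt _ _ hle, hsub]
      exact w0 i (by omega)
  · intro i hi
    cases i with
    | zero => omega
    | succ i =>
      rw [nr_wt_succ_gt _ _ hle, hsub]
      exact w1 i (by omega)
  · rw [Finset.sum_range_succ']
    simp only [nrc]
    rw [s1]; push_cast; ring
  · rw [Finset.sum_range_succ']
    simp only [nrc]
    rw [mul_add, s2]; push_cast; ring
  · rw [Finset.sum_range_succ']
    simp only [nrc]
    rw [s3]; push_cast; ring
  · rw [Finset.sum_range_succ']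
    simp only [nrc]
    rw [s4]; push_cast; ring
  · intro h1 h2
    exact g1 (by omega) h2
  · intro h1 h2
    exact g2 (by omega) h2
  · intro e h1 h2 i hi
    have hA := hpl e h1 (lt_of_lt_of_le h2 (min_le_right _ _))
    cases i with
    | zero =>
      rw [nr_wt_zero, min_eq_right hA.le]
      simp [nrc]
    | succ i =>
      rw [nr_wt_succ_gt _ _ hA, hps]
      exact w2 e h1 (lt_of_lt_of_le h2 (min_le_left _ _)) i (by omega)
  · intro e h1 h2
    have hA := hpl e h1 (lt_of_lt_of_le h2 (min_le_right _ _))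
    rw [nr_st_succ_gt _ _ hA, hps]
    exact w3 e h1 (lt_of_lt_of_le h2 (min_le_left _ _))
  · rintro (⟨h1, h2⟩ | ⟨h1, h2⟩)
    · obtain ⟨c, c1, c2, c3, c4⟩ := cv (Or.inl ⟨h1, h2⟩)
      refine ⟨nrc 0 c, ?_, ?_, ?_, c4⟩
      · rw [Finset.sum_range_succ']; simp only [nrc]; rw [c1]; ring
      · rw [Finset.sum_range_succ']; simp only [nrc]; rw [c2]; ring
      · rw [Finset.sum_range_succ' _ (k + 1), Finset.sum_range_succ' _ (k + 1)]; simp only [nrc]; rw [c3]; ring
    · by_cases hd1 : d = 1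
      · obtain ⟨r11, r12, r13⟩ := r2 h1 hd1
        refine ⟨nrc (-1) (fun _ => 1), ?_, ?_, ?_, rfl⟩
        · rw [Finset.sum_range_succ']
          simp only [nrc]
          have : ∑ i ∈ Finset.range (k + 1), 1 * u i = (k + 1 : ℕ) := by
            rw [Finset.sum_congr rfl (g := fun _ => (1 : ℤ))]
            · simp
            · intro i hi
              rw [r11 i (by simpa [Nat.lt_succ_iff] using hi), one_mul]
          rw [this, r12]; ring
        · rw [Finset.sum_range_succ']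
          simp only [nrc, one_mul]
          rw [r13]; ring
        · rw [Finset.sum_range_succ' _ (k + 1), Finset.sum_range_succ' _ (k + 1)]
          simp only [nrc]
          simp
          ring
      · obtain ⟨c, c1, c2, c3, c4⟩ := cv (Or.inr ⟨h1, hd1⟩)
        refine ⟨nrc 0 c, ?_, ?_, ?_, c4⟩
        · rw [Finset.sum_range_succ']; simp only [nrc]; rw [c1]; ring
        · rw [Finset.sum_range_succ']; simp only [nrc]; rw [c2]; ring
        · rw [Finset.sum_range_succ' _ (k + 1), Finset.sum_range_succ' _ (k + 1)]; simp only [nrc]; rw [c3]; ring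
  · intro h h1
    obtain ⟨r21, r22, r23⟩ := r1 h h1
    refine ⟨?_, ?_, ?_⟩
    · intro i hi
      cases i with
      | zero => show (b : ℤ) = 1; omega
      | succ i => exact r21 i (by omega)
    · omega
    · rw [Finset.sum_range_succ']
      simp only [nrc]
      rw [r23]; ring
  · intro _ h
    omega

theorem nrd_exists (Q : ℝ) (hQ : 0 < Q) (N : ℕ) : ∀ (a b : ℕ), a + b ≤ N → 0 < a → 0 < b →
    Nat.Coprime a b → ∀ (α β : ℤ), (a : ℤ) * β - (b : ℤ) * α ≠ 0 →
    ∃ (k : ℕ) (u v : ℕ → ℤ) (g : ℤ) (e₀ : ℝ), NRd Q a b α β k u v g e₀ := by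
  induction N with
  | zero => intro a b h ha; omega
  | succ N ih =>
    intro a b h ha hb hc α β hD
    rcases lt_trichotomy a b with hab | hab | hab
    · obtain ⟨d, rfl⟩ : ∃ d, b = a + d := ⟨b - a, by omega⟩
      have hc' : Nat.Coprime a d := by simpa using hc
      obtain ⟨k, u, v, g, e₀, H⟩ := ih a d (by omega) ha (by omega) hc' α (β - α) (by
        intro h0; apply hD; rw [← h0]; push_cast; ring)
      exact ⟨_, _, _, _, _, nrd_step1 Q hQ a d ha (by omega) α β hD k u v g e₀ H⟩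
    · subst hab
      obtain rfl : a = 1 := by simpa using hc
      exact ⟨_, _, _, _, _, nrd_base Q hQ α β (by simpa using hD)⟩
    · obtain ⟨d, rfl⟩ : ∃ d, a = b + d := ⟨a - b, by omega⟩
      have hc' : Nat.Coprime d b := by
        rw [Nat.coprime_comm] at hc ⊢
        simpa using hc
      obtain ⟨k, u, v, g, e₀, H⟩ := ih d b (by omega) (by omega) hb hc' (α - β) β (by
        intro h0; apply hD; rw [← h0]; push_cast; ring)
      exact ⟨_, _, _, _, _, nrd_step2 Q hQ b d hb (by omega) α β hD k u v g e₀ H⟩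

/-- TARGET -/
theorem nearRat (p q : ℕ) (hq : 0 < q) (hqp : q ≤ p) (hcop : Nat.Coprime p q) (s : ℤ)
    (hs : s = 1 ∨ (s = -1 ∧ 1 < p)) :
    ∃ (m : ℕ) (ω : ℕ → ℤ) (γ : ℤ) (ε₀ : ℝ), 0 < m ∧ 0 < ε₀ ∧ 0 ≤ γ ∧ γ ≤ q ∧
      (∀ i, m ≤ i → wt 1 ((p : ℝ) / q) i = 0) ∧ (∀ i, i < m → 0 < wt 1 ((p : ℝ) / q) i) ∧
      wt 1 ((p : ℝ) / q) (m - 1) = 1 / q ∧
      (∑ i ∈ Finset.range m, wt 1 ((p : ℝ) / q) i ^ 2 = (p : ℝ) / q) ∧
      (∑ i ∈ Finset.range m, wt 1 ((p : ℝ) / q) i = 1 + (p : ℝ) / q - 1 / q) ∧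
      (∑ i ∈ Finset.range m, wt 1 ((p : ℝ) / q) i * ω i = ((s : ℝ) - 1) / 2) ∧
      (∑ i ∈ Finset.range m, ω i ^ 2 = q * γ) ∧ ω (m - 1) = -γ ∧
      (∀ ε : ℝ, 0 < ε → ε < ε₀ →
        (∀ i, i < m → wt 1 ((p : ℝ) / q + s * ε) i = wt 1 ((p : ℝ) / q) i + ε * ω i) ∧
        wt 1 ((p : ℝ) / q + s * ε) m = q * ε ∧
        (∀ i, m ≤ i → 0 ≤ wt 1 ((p : ℝ) / q + s * ε) i ∧ wt 1 ((p : ℝ) / q + s * ε) i ≤ q * ε) ∧
        (∀ M, m ≤ M → ∑ i ∈ Finset.Ico m M, wt 1 ((p : ℝ) / q + s * ε) i
          ≤ 1 / q - γ * ε + q * ε)) ∧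
      ((s = -1 ∨ 1 < q) → ∃ c : ℕ → ℤ,
        (∑ i ∈ Finset.range m, (c i : ℝ) * wt 1 ((p : ℝ) / q) i = 0) ∧
        (∑ i ∈ Finset.range m, c i * ω i = -q) ∧
        (∑ i ∈ Finset.range m, c i = ∑ i ∈ Finset.range m, c i ^ 2 - 2) ∧ c (m - 1) = 1) := by
  have hqR : (0 : ℝ) < q := Nat.cast_pos.mpr hq
  have hs0 : s ≠ 0 := by rcases hs with h | ⟨h, _⟩ <;> rw [h] <;> norm_num
  have hsabs : |s| = 1 := by rcases hs with h | ⟨h, _⟩ <;> rw [h] <;> norm_num
  have hDeq : (q : ℤ) * s - (p : ℤ) * 0 = q * s := by ring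
  have hDabs : |(q : ℤ) * s - (p : ℤ) * 0| = q := by
    rw [hDeq, abs_mul, hsabs, mul_one, abs_of_nonneg (Int.natCast_nonneg q)]
  obtain ⟨k, u, v, g, e₀, H⟩ := nrd_exists q hqR (q + p) q p le_rfl hq (by omega) hcop.symm 0 s
    (by rw [hDeq]; exact mul_ne_zero (by omega) hs0)
  obtain ⟨he, u_pos, u_last, v_last, w0, w1, s1, s2, s3, s4, g1, g2, w2, w3, cv, r1, r2⟩ := H
  rw [hDabs] at s2 s3 g1 g2 w3 cv
  have hq1 : (q : ℝ) / q = 1 := div_self hqR.ne'
  rw [hq1] at w0 w1
  have hg : g ≤ 0 ∧ -g ≤ q := by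
    rcases hs with h | ⟨h, _⟩
    · exact g1 le_rfl (by omega)
    · exact g2 le_rfl (by omega)
  have hgR : -(g : ℝ) ≤ q := by exact_mod_cast hg.2
  have hgR0 : (g : ℝ) ≤ 0 := by exact_mod_cast hg.1
  have hst : ∀ ε : ℝ, ((q : ℝ) + ((0 : ℤ) : ℝ) * (q * ε)) / q = 1 ∧
      ((p : ℝ) + (s : ℝ) * (q * ε)) / q = (p : ℝ) / q + s * ε := by
    intro ε
    constructor
    · field_simp; simp
    · field_simp
  have hw0 : ∀ i, i < k + 1 → wt 1 ((p : ℝ) / q) i = (u i : ℝ) / q := fun i hi => w0 i (by omega)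
  refine ⟨k + 1, v, -g, min (e₀ / q) (1 / (2 * q ^ 2)), by omega, ?_, by omega, by omega, ?_, ?_,
    ?_, ?_, ?_, ?_, ?_, ?_, ?_, ?_⟩
  · exact lt_min (by positivity) (by positivity)
  · intro i hi
    exact w1 i (by omega)
  · intro i hi
    rw [hw0 i hi]
    have : (1 : ℤ) ≤ u i := u_pos i (by omega)
    have : (1 : ℝ) ≤ u i := by exact_mod_cast this
    positivity
  · rw [Nat.add_sub_cancel, hw0 k (by omega), u_last]
    simp
  · rw [Finset.sum_congr rfl (g := fun i => ((u i ^ 2 : ℤ) : ℝ) / q ^ 2)]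
    · rw [← Finset.sum_div, ← Int.cast_sum, s1]
      push_cast
      field_simp
    · intro i hi
      rw [hw0 i (by simpa using hi)]
      push_cast
      ring
  · rw [Finset.sum_congr rfl (g := fun i => (u i : ℝ) / q)]
    · rw [← Finset.sum_div, ← Int.cast_sum, s4]
      push_cast
      field_simp
    · intro i hi
      exact hw0 i (by simpa using hi)
  · rw [Finset.sum_congr rfl (g := fun i => ((u i * v i : ℤ) : ℝ) / q)]
    · rw [← Finset.sum_div, ← Int.cast_sum]
      have h2 : (2 : ℝ) * ((∑ i ∈ Finset.range (k + 1), u i * v i : ℤ) : ℝ) = q * s - q := by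
        have := congrArg (fun z : ℤ => (z : ℝ)) s2
        push_cast at this ⊢
        rw [this]; ring
      have h3 : ((∑ i ∈ Finset.range (k + 1), u i * v i : ℤ) : ℝ) = (q * s - q) / 2 := by
        linarith
      rw [h3]
      field_simp
    · intro i hi
      rw [hw0 i (by simpa using hi)]
      push_cast
      ring
  · rw [s3]; ring
  · rw [Nat.add_sub_cancel, v_last]; ring
  · intro ε h1 h2
    have he1 : (q : ℝ) * ε < e₀ := by
      have := lt_of_lt_of_le h2 (min_le_left _ _)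
      rw [lt_div_iff₀ hqR] at this
      linarith
    have he0 : (0 : ℝ) < q * ε := by positivity
    have he2 : 2 * (q : ℝ) ^ 2 * ε < 1 := by
      have := lt_of_lt_of_le h2 (min_le_right _ _)
      rw [lt_div_iff₀ (by positivity)] at this
      linarith
    have W2 := w2 _ he0 he1
    have W3 := w3 _ he0 he1
    rw [(hst ε).1, (hst ε).2] at W2 W3
    have hsim : ((q : ℤ) : ℝ) * (q * ε) / q = q * ε := by push_cast; field_simp
    have hsim2 : (1 + (g : ℝ) * (q * ε)) / q = 1 / q + g * ε := by field_simp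
    rw [hsim, hsim2] at W3
    have hq2 : (q : ℝ) * ε ≤ 1 / q + g * ε := by
      have h3 : (q : ℝ) * ε + q * ε ≤ 1 / q := by
        rw [le_div_iff₀ hqR]; nlinarith
      nlinarith
    have hnn : (0 : ℝ) ≤ 1 / q + g * ε := he0.le.trans hq2
    have hmin : min (stE 1 ((p : ℝ) / q + s * ε) (k + 1)).1
        (stE 1 ((p : ℝ) / q + s * ε) (k + 1)).2 = q * ε := by
      rcases W3 with h | h
      · rw [h]; exact min_eq_left hq2
      · rw [h]; exact min_eq_right hq2
    have hpos : 0 ≤ (stE 1 ((p : ℝ) / q + s * ε) (k + 1)).1 ∧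
        0 ≤ (stE 1 ((p : ℝ) / q + s * ε) (k + 1)).2 := by
      rcases W3 with h | h
      · rw [h]; exact ⟨he0.le, hnn⟩
      · rw [h]; exact ⟨hnn, he0.le⟩
    have hsm : (stE 1 ((p : ℝ) / q + s * ε) (k + 1)).1 +
        (stE 1 ((p : ℝ) / q + s * ε) (k + 1)).2 = q * ε + (1 / q + g * ε) := by
      rcases W3 with h | h
      · rw [h]
      · rw [h]; ring
    refine ⟨?_, hmin, ?_, ?_⟩
    · intro i hi
      rw [W2 i (by omega), hw0 i hi]
      field_simp
    · intro i hi
      obtain ⟨j, rfl⟩ : ∃ j, i = k + 1 + j := ⟨i - (k + 1), by omega⟩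
      rw [nr_wt_add]
      obtain ⟨-, -, t3, t4, -⟩ := nr_tail j _ _ hpos.1 hpos.2
      exact ⟨t3, t4.trans hmin.le⟩
    · intro M hM
      rw [Finset.sum_Ico_eq_sum_range]
      obtain ⟨t1, t2, -, -, t5⟩ := nr_tail (M - (k + 1)) _ _ hpos.1 hpos.2
      have e : ∑ i ∈ Finset.range (M - (k + 1)), wt 1 ((p : ℝ) / q + s * ε) (k + 1 + i) =
          ∑ i ∈ Finset.range (M - (k + 1)), wt (stE 1 ((p : ℝ) / q + s * ε) (k + 1)).1
            (stE 1 ((p : ℝ) / q + s * ε) (k + 1)).2 i :=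
        Finset.sum_congr rfl fun i _ => nr_wt_add _ _ _ _
      rw [e, t5]
      push_cast
      linarith
  · intro h
    obtain ⟨c, c1, c2, c3, c4⟩ := cv (by
      rw [hDeq]
      rcases hs with h' | ⟨h', hp⟩
      · right
        have : 1 < q := by
          rcases h with h'' | h''
          · omega
          · exact h''
        subst h'
        constructor <;> omega
      · left
        subst h'
        constructor <;> omega)
    refine ⟨c, ?_, c2, c3, ?_⟩
    · rw [Finset.sum_congr rfl (g := fun i => ((c i * u i : ℤ) : ℝ) / q)]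
      · rw [← Finset.sum_div, ← Int.cast_sum, c1]
        simp
      · intro i hi
        rw [hw0 i (by simpa using hi)]
        push_cast
        ring
    · rw [Nat.add_sub_cancel]; exact c4


end Pool.Agent.Helper416_Stair
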