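import Pool.Agent.Helper416_Stair.Bridge
import Pool.Agent.Helper416_Stair.Glue
import Pool.Agent.Helper416_Stair.E4

/-!
# No large obstruction near a rational number
-/

noncomputable section

open scoped BigOperators Pointwise

namespace Pool.Agent.Helper416_Stair











/-
JOB OB-RAT (helper416, MP_f690a7_gt).  No obstruction of large degree near a rational point with small perimeter.

`Vol = b² - ∑' β²`, `Per = 3b - ∑' β`, `z₀ = p/q`, `V₀ = √(z₀ / Vol)`, `z = z₀ + s ε`, `V = √(z / Vol)`, `v = vec b β V z`,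
`v₀ = vec b β V₀ z₀`.  Take `m, ω, γ, ε₀` from `nearRat`; write `w₀ = wt 1 z₀`, `w = wt 1 z`.

Plain proof.  Suppose `k > K` (K large, to be chosen) and `V capW k < ellCap 1 z k` with `0 < ε < δ`.  `bridge` (2) gives `S, C`
with `Bf S v (toR C) < 0`, `C.2 ≥ 0`, `C.2 = 0` off `S`; enlarge `S` so that it contains all `inr i`, `i < m`.  `T := C.1/(V b)` is large
because `2k ≤ C.1² + 3C.1`.  `∑' v_i² ≤ (V b)²` as `∑ wt² ≤ z`.  The key inequality:
(K)  `∑_S [(C_i - T v_i)² + C_i] + T² ∑_{∉S} v_i² < 3 T V b`.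
(i) In particular `∑_S P_i² < 3 T V b` with `P_i = C_i - T v_i`, and `T ∑_{u, inl u ∉ S} V² β_u² < 3 V b`.
(ii) For an integer `m ≥ 0`, `x ≥ 0`: `(m - x)² + m ≥ x - min (1/4) x`, `x² ≥ x - min (1/4) x`; apply this to the indices `inl u` and
`inr i`, `i < m`; for `inr i ∈ S`, `i ≥ m`, keep `≥ C_i`.  So `∑_{inr i ∈ S, i ≥ m} C_i ≤ E`,
`E := T (V Per - ∑_{i<m} w_i) + ∑'_u min (1/4) (T V β_u) + m/4`, and `V Per - ∑_{i<m} w_i ≤ c₁ ε` because
`V₀ Per ≤ 1 + z₀ - 1/q = ∑_{i<m} w₀_i`, `w_i = w₀_i + ε ω_i`, `|V - V₀| ≤ c ε`.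
(iii) Let `S_J` be `S` without the `inr i`, `i ≥ m`.  `idx S_J C ≥ idx S C ≥ 0`, so `Bf S_J v₀ (toR C) ≥ 0`.
(iv) `Bf S v (toR C) = Bf S_J v₀ (toR C) + Bf S_J (v - v₀) (toR C) - ∑_{inr i ∈ S, i ≥ m} w_i C_i`.  The last sum is `≤ q ε E`.
With `C = T v + P`, `P.1 = 0`:
`Bf S_J (v - v₀) (toR C) = T [(V - V₀) V (b² - ∑_{inl u ∈ S} β_u²) - ε ∑_{i<m} ω_i w_i] - ∑_{S_J} (v - v₀)_i P_i`.
`∑_{i<m} ω_i w_i = (s-1)/2 + ε q γ`.  `(V - V₀) V Vol = z - √(z z₀) = √z (√z - √z₀)` is `≥ ε/2` for `s = 1` and `≥ -ε/2` for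
`s = -1`; and `(V - V₀) V ∑_{inl u ∉ S} β_u²` is `≥ 0` for `s = 1`, and for `s = -1` its product with `T` is `≥ -3 b |V - V₀| ≥ -c₃ ε`
by (i).  So the bracket times `T` is `≥ T ε (1/2 - c₂ ε) - c₃ ε`.  By Cauchy-Schwarz and (i) the last sum is at most
`c₄ ε √(3 T V b)`.
Altogether `Bf S v (toR C) ≥ ε { T (1/2 - c₂ ε) - c₃ - c₄ √(3 T V₁ b) - q (c₁ ε T + ∑'_u min (1/4) (T V₁ β_u) + m/4) }`
which is `> 0` for `T ≥ T₀` and `ε < δ`, because `(1/T) ∑'_u min (1/4) (T V₁ β_u) → 0` (dominated convergence).  Contradiction.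
-/



theorem or_minle (m x : ℝ) (hm : 0 ≤ m) : x - min (1 / 4) x ≤ (m - x) ^ 2 + m := by
  rcases le_total (1 / 4) x with h | h
  · rw [min_eq_left h]; nlinarith [sq_nonneg (x - m - 1 / 2)]
  · rw [min_eq_right h]; nlinarith [sq_nonneg (m - x)]

theorem or_min_summable {U : Type*} (β : U → ℝ) (hβ : ∀ u, 0 ≤ β u) (hsum : Summable β)
    (x : ℝ) (hx : 0 ≤ x) : Summable (fun u => min (1 / 4) (x * β u)) :=
  Summable.of_nonneg_of_le (fun u => le_min (by norm_num) (mul_nonneg hx (hβ u)))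
    (fun u => min_le_right _ _) (hsum.mul_left x)

theorem or_tannery {U : Type*} (β : U → ℝ) (hβ : ∀ u, 0 ≤ β u) (hsum : Summable β) (η : ℝ)
    (hη : 0 < η) :
    ∃ X : ℝ, 0 < X ∧ ∀ x, X ≤ x → ∑' u, min (1 / 4) (x * β u) ≤ η * x := by
  obtain ⟨F, hF⟩ : ∃ F : Finset U, ∑' u, β u - η / 2 < ∑ u ∈ F, β u :=
    (hsum.hasSum.eventually (lt_mem_nhds (show ∑' u, β u - η / 2 < ∑' u, β u by linarith))).exists
  refine ⟨F.card / (2 * η) + 1, by positivity, fun x hx => ?_⟩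
  have hx0 : 0 < x := by
    have : (0 : ℝ) ≤ F.card / (2 * η) := by positivity
    linarith
  have hs1 : Summable (fun u => x * β u) := hsum.mul_left x
  have hs2 : Summable (fun u => min (1 / 4) (x * β u)) := or_min_summable β hβ hsum x hx0.le
  have h3 : ∑ u ∈ F, (x * β u - min (1 / 4) (x * β u)) ≤ ∑' u, (x * β u - min (1 / 4) (x * β u)) :=
    (hs1.sub hs2).sum_le_tsum F (fun u _ => sub_nonneg.2 (min_le_right _ _))
  rw [hs1.tsum_sub hs2, tsum_mul_left, Finset.sum_sub_distrib, ← Finset.mul_sum] at h3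
  have h4 : ∑ u ∈ F, min (1 / 4) (x * β u) ≤ F.card * (1 / 4 : ℝ) := by
    rw [← nsmul_eq_mul]
    exact Finset.sum_le_card_nsmul _ _ _ fun u _ => min_le_left _ _
  have h5 : (F.card : ℝ) * (1 / 4) ≤ η / 2 * x := by
    have : (F.card : ℝ) / (2 * η) ≤ x := by linarith
    rw [div_le_iff₀ (by positivity)] at this
    nlinarith
  have h6 : x * ∑' u, β u - x * ∑ u ∈ F, β u ≤ η / 2 * x := by
    nlinarith
  linarith

theorem or_ext {U : Type*} [DecidableEq U] (S : Finset (U ⊕ ℕ)) (m : ℕ) :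
    ∃ (A : Finset U) (M : ℕ), m ≤ M ∧ S ⊆ A.disjSum (Finset.range M) := by
  classical
  refine ⟨S.toLeft, max m (S.toRight.sup id + 1), le_max_left _ _, ?_⟩
  intro x hx
  rcases x with u | i
  · rw [Finset.inl_mem_disjSum]
    exact Finset.mem_toLeft.2 hx
  · rw [Finset.inr_mem_disjSum, Finset.mem_range]
    have : i ≤ S.toRight.sup id := Finset.le_sup (f := id) (Finset.mem_toRight.2 hx)
    exact lt_of_lt_of_le (Nat.lt_succ_of_le this) (le_max_right _ _)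

theorem or_Bf_mono {ι R : Type*} [CommRing R] (S S' : Finset ι) (hS : S ⊆ S') (v w : R × (ι → R))
    (hw : ∀ i, i ∉ S → w.2 i = 0) : Bf S' v w = Bf S v w := by
  simp only [Bf]
  rw [Finset.sum_subset hS]
  intro i _ hi
  rw [hw i hi, mul_zero]

theorem or_idx_mono {ι R : Type*} [CommRing R] (S S' : Finset ι) (hS : S ⊆ S') (w : R × (ι → R))
    (hw : ∀ i, i ∉ S → w.2 i = 0) : idx S' w = idx S w := by
  simp only [idx, Kd]
  rw [or_Bf_mono S S' hS w w hw, Finset.sum_subset hS]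
  intro i _ hi
  exact hw i hi

theorem or_cs {ι : Type*} (A : Finset ι) (f g : ι → ℝ) (x y : ℝ) (hx : 0 ≤ x) (hy : 0 ≤ y)
    (hf : ∑ i ∈ A, f i ^ 2 ≤ x) (hg : ∑ i ∈ A, g i ^ 2 ≤ y) :
    |∑ i ∈ A, f i * g i| ≤ √x * √y := by
  rw [← Real.sqrt_mul hx]
  apply Real.abs_le_sqrt
  refine (Finset.sum_mul_sq_le_sq_mul_sq A f g).trans ?_
  exact mul_le_mul hf hg (Finset.sum_nonneg fun i _ => sq_nonneg _) hx

/-- the purely numerical end of the argument -/
theorem or_final (T a₁ a₂ : ℝ) (ha₁ : 0 ≤ a₁) (hT : 16 * a₁ + 256 * a₂ ^ 2 + 1 ≤ T)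
    (h : T / 8 < a₁ + a₂ * √T) : False := by
  have hT0 : 0 ≤ T := by nlinarith [sq_nonneg a₂]
  have h1 : (√T) ^ 2 = T := Real.sq_sqrt hT0
  have h2 : 0 ≤ √T := Real.sqrt_nonneg T
  have h3 : 16 * a₂ ≤ √T := by
    apply Real.le_sqrt_of_sq_le
    nlinarith
  nlinarith

theorem or_wt_nonneg (z : ℝ) (hz : 0 < z) (i : ℕ) : 0 ≤ wt 1 z i := by
  have h := ellE3 1 z one_pos hz i
  exact le_min h.1 h.2.1

theorem or_wt_sq_sum (z : ℝ) (hz : 0 < z) (M : ℕ) : ∑ i ∈ Finset.range M, wt 1 z i ^ 2 ≤ z := by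
  have h := ellE3 1 z one_pos hz M
  rw [h.2.2.2]
  have := mul_nonneg h.1 h.2.1
  linarith

theorem or_assemble (ε T V V₀ Vol b ρ s x y g N R cc q X0 Wn : ℝ) (hε : 0 < ε) (hT : 0 ≤ T)
    (hb : 0 ≤ b) (hcc : 0 ≤ cc)
    (hBf : X0 + (V - V₀) * (T * V * (Vol + ρ) - x) - ε * (y + T * ((s - 1) / 2) + T * ε * g) - Wn < 0)
    (h0 : 0 ≤ X0) (hWn : Wn ≤ q * ε * N) (hmain : s * ε / 2 ≤ (V - V₀) * V * Vol)
    (habs : |V - V₀| ≤ cc * ε) (hρ0 : 0 ≤ T * V * ρ) (hρ : T * V * ρ ≤ 3 * b)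
    (hx : |x| ≤ b * √R) (hy : |y| ≤ √g * √R) :
    T / 2 - T * ε * g < 3 * b * cc + (cc * b + √g) * √R + q * N := by
  have e1 : T * (s * ε / 2) ≤ T * ((V - V₀) * V * Vol) := mul_le_mul_of_nonneg_left hmain hT
  have e2 : -(cc * ε * (3 * b)) ≤ (V - V₀) * (T * V * ρ) := by
    have h1 : |(V - V₀) * (T * V * ρ)| ≤ cc * ε * (3 * b) := by
      rw [abs_mul, abs_of_nonneg hρ0]
      exact mul_le_mul habs hρ hρ0 (by positivity)
    linarith [(abs_le.1 h1).1]
  have e3 : (V - V₀) * x ≤ cc * ε * (b * √R) := by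
    have h1 : |(V - V₀) * x| ≤ cc * ε * (b * √R) := by
      rw [abs_mul]
      exact mul_le_mul habs hx (abs_nonneg _) (by positivity)
    exact (le_abs_self _).trans h1
  have e4 : ε * y ≤ ε * (√g * √R) := mul_le_mul_of_nonneg_left ((le_abs_self _).trans hy) hε.le
  have e5 : ε * (T / 2 - T * ε * g) < ε * (3 * b * cc + (cc * b + √g) * √R + q * N) := by
    nlinarith
  exact lt_of_mul_lt_mul_left e5 hε.le
/-- TARGET -/
theorem obs_rat {U : Type*} [DecidableEq U] (b : ℝ) (β : U → ℝ) (hb : 0 < b)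
    (hβ : ∀ u, 0 ≤ β u) (hsum : Summable β) (hvol : ∑' u, β u ^ 2 < b ^ 2) (hN : Nef (b, β))
    (p q : ℕ) (hq : 0 < q) (hqp : q ≤ p) (hcop : Nat.Coprime p q) (s : ℤ)
    (hs : s = 1 ∨ (s = -1 ∧ 1 < p))
    (hN₀ : Nef (vec b β (√(((p : ℝ) / q) / (b ^ 2 - ∑' u, β u ^ 2))) ((p : ℝ) / q)))
    (hκ : √(((p : ℝ) / q) / (b ^ 2 - ∑' u, β u ^ 2)) * (3 * b - ∑' u, β u)
      ≤ 1 + (p : ℝ) / q - 1 / q) :
    ∃ (K : ℕ) (δ : ℝ), 0 < δ ∧ ∀ ε : ℝ, 0 < ε → ε < δ → ∀ k : ℕ, K < k →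
      ellCap 1 ((p : ℝ) / q + s * ε) k
        ≤ √(((p : ℝ) / q + s * ε) / (b ^ 2 - ∑' u, β u ^ 2)) * capW b β k := by
  obtain ⟨m, ω, γ, ε₀, hm, hε₀, hγ0, hγq, hw0, hwpos, -, hw2, hw1, hwω, hωω, -, hnear, -⟩ :=
    nearRat p q hq hqp hcop s hs
  have hqr : (0 : ℝ) < q := by exact_mod_cast hq
  set B1 : ℝ := ∑' u, β u with hB1
  set B2 : ℝ := ∑' u, β u ^ 2 with hB2
  set Vol : ℝ := b ^ 2 - B2 with hVol
  have hVolp : 0 < Vol := by rw [hVol]; linarith
  set z₀ : ℝ := (p : ℝ) / q with hz₀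
  have hz₀1 : 1 ≤ z₀ := by
    rw [hz₀, le_div_iff₀ hqr, one_mul]
    exact_mod_cast hqp
  set V₀ : ℝ := √(z₀ / Vol) with hV₀
  have hV₀p : 0 < V₀ := Real.sqrt_pos.2 (by positivity)
  have hV₀2 : V₀ ^ 2 * Vol = z₀ := by
    rw [hV₀, Real.sq_sqrt (by positivity), div_mul_cancel₀ _ hVolp.ne']
  have hB1n : 0 ≤ B1 := tsum_nonneg hβ
  have hsq : Summable (fun u => β u ^ 2) := by
    refine Summable.of_nonneg_of_le (fun u => sq_nonneg _) (fun u => ?_) (hsum.mul_left B1)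
    have : β u ≤ B1 := hsum.le_tsum u (fun j _ => hβ j)
    nlinarith [hβ u]
  have hB2n : 0 ≤ B2 := tsum_nonneg fun u => sq_nonneg _
  set Per : ℝ := 3 * b - B1 with hPer
  set cc : ℝ := 1 / (Vol * V₀) with hcc
  have hccp : 0 < cc := by positivity
  set W : ℝ := ∑ i ∈ Finset.range m, (ω i : ℝ) with hW
  set c₁ : ℝ := cc * |Per| + |W| with hc₁
  have hc₁n : 0 ≤ c₁ := by positivity
  set V₁ : ℝ := V₀ + cc with hV₁
  have hV₁p : 0 < V₁ := by positivity
  set g : ℝ := (q : ℝ) * γ with hg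
  have hγr : (0 : ℝ) ≤ γ := by exact_mod_cast hγ0
  have hgn : 0 ≤ g := by positivity
  set a₂ : ℝ := (cc * b + √g) * √(3 * V₁ * b) with ha₂
  set a₁ : ℝ := 3 * b * cc + q * (m / 4) with ha₁
  have ha₁n : 0 ≤ a₁ := by positivity
  have ha₂n : 0 ≤ a₂ := by positivity
  obtain ⟨X, hX0, hX⟩ := or_tannery β hβ hsum (1 / (8 * q * V₁)) (by positivity)
  set T₀ : ℝ := max (X / V₁) (16 * a₁ + 256 * a₂ ^ 2 + 1) with hT₀
  have hT₀p : 0 < T₀ := lt_of_lt_of_le (by positivity) (le_max_right _ _)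
  set D₀ : ℕ := ⌈T₀ * V₁ * b⌉₊ with hD₀
  refine ⟨D₀ ^ 2 + 3 * D₀, min (min ε₀ (1 / 2)) (1 / (4 * (g + q * c₁ + 1))), by positivity, ?_⟩
  intro ε hε hεδ k hk
  have hεε₀ : ε < ε₀ := hεδ.trans_le ((min_le_left _ _).trans (min_le_left _ _))
  have hε2 : ε < 1 / 2 := hεδ.trans_le ((min_le_left _ _).trans (min_le_right _ _))
  have hε3 : ε * (g + q * c₁) ≤ 1 / 4 := by
    have h1 : ε < 1 / (4 * (g + q * c₁ + 1)) := hεδ.trans_le (min_le_right _ _)
    have h2 : 0 < 4 * (g + q * c₁ + 1) := by positivity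
    rw [lt_div_iff₀ h2] at h1
    nlinarith
  by_contra hlt
  push Not at hlt
  have hsr : (s : ℝ) = 1 ∨ (s : ℝ) = -1 := by
    rcases hs with h | h
    · left; rw [h]; norm_num
    · right; rw [h.1]; norm_num
  set z : ℝ := z₀ + s * ε with hz
  have hzp : 0 < z := by
    rcases hsr with h | h <;> rw [hz, h] <;> linarith
  set V : ℝ := √(z / Vol) with hV
  have hVp : 0 < V := Real.sqrt_pos.2 (by positivity)
  have hV2 : V ^ 2 * Vol = z := by
    rw [hV, Real.sq_sqrt (by positivity), div_mul_cancel₀ _ hVolp.ne']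
  have habs : |V - V₀| ≤ cc * ε := by
    have h1 : (V - V₀) * ((V + V₀) * Vol) = s * ε := by
      have : (V - V₀) * ((V + V₀) * Vol) = V ^ 2 * Vol - V₀ ^ 2 * Vol := by ring
      rw [this, hV2, hV₀2, hz]; ring
    have h2 : |V - V₀| * ((V + V₀) * Vol) = ε := by
      rw [← abs_of_pos (show 0 < (V + V₀) * Vol by positivity), ← abs_mul, h1, abs_mul,
        abs_of_pos hε]
      rcases hsr with h | h <;> rw [h] <;> simp
    rw [hcc, div_mul_eq_mul_div, one_mul, le_div_iff₀ (by positivity)]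
    calc |V - V₀| * (Vol * V₀) ≤ |V - V₀| * ((V + V₀) * Vol) := by
          apply mul_le_mul_of_nonneg_left _ (abs_nonneg _)
          nlinarith [mul_pos hVp hVolp]
      _ = ε := h2
  have hVV₁ : V ≤ V₁ := by
    have h1 := (abs_le.1 habs).2
    have : cc * ε ≤ cc := by nlinarith
    rw [hV₁]; linarith
  obtain ⟨S, C, hC0, hCn, hCS, hCI, hCB, hCk⟩ := (bridge b β hb hβ hN z hzp V hVp).2 k hlt
  obtain ⟨A, M, hmM, hSA⟩ := or_ext S m
  have hCS' : ∀ i, i ∉ S → (toR C).2 i = 0 := fun i hi => by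
    simp only [toR]; rw [hCS i hi]; simp
  have hCI' : 0 ≤ idx (A.disjSum (Finset.range M)) C := by
    rw [or_idx_mono S _ hSA C hCS]; exact hCI
  have hCB' : Bf (A.disjSum (Finset.range M)) (vec b β V z) (toR C) < 0 := by
    rw [or_Bf_mono S _ hSA _ _ hCS']; exact hCB
  -- the numbers
  set d : ℝ := (C.1 : ℝ) with hd
  have hd0 : 0 ≤ d := by rw [hd]; exact_mod_cast hC0
  set cR : U → ℝ := fun u => (C.2 (Sum.inl u) : ℝ) with hcR
  set nR : ℕ → ℝ := fun i => (C.2 (Sum.inr i) : ℝ) with hnR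
  have hcRn : ∀ u, 0 ≤ cR u := fun u => by simp only [hcR]; exact_mod_cast hCn _
  have hnRn : ∀ i, 0 ≤ nR i := fun i => by simp only [hnR]; exact_mod_cast hCn _
  set w : ℕ → ℝ := wt 1 z with hw
  have hwn : ∀ i, 0 ≤ w i := fun i => or_wt_nonneg z hzp i
  obtain ⟨T, hT⟩ : ∃ T : ℝ, T = d / (V * b) := ⟨_, rfl⟩
  have hVb : 0 < V * b := by positivity
  have hdT : d = T * V * b := by rw [hT]; field_simp
  -- `T` is large
  have hD : (D₀ : ℤ) ≤ C.1 := by
    by_contra hcon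
    push Not at hcon
    have h1 : C.1 ^ 2 + 3 * C.1 ≤ (D₀ : ℤ) ^ 2 + 3 * D₀ := by nlinarith
    have h2 : ((D₀ ^ 2 + 3 * D₀ : ℕ) : ℤ) < k := by exact_mod_cast hk
    push_cast at h2
    have h3 : (0 : ℤ) ≤ k := Int.natCast_nonneg k
    linarith
  have hTT₀ : T₀ ≤ T := by
    have h1 : (D₀ : ℝ) ≤ d := by rw [hd]; exact_mod_cast hD
    have h2 : T₀ * V₁ * b ≤ D₀ := Nat.le_ceil _
    rw [hT, le_div_iff₀ hVb]
    have h3 : T₀ * (V * b) ≤ T₀ * V₁ * b := by
      rw [mul_assoc]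
      exact mul_le_mul_of_nonneg_left (mul_le_mul_of_nonneg_right hVV₁ hb.le) hT₀p.le
    linarith
  have hTp : 0 < T := lt_of_lt_of_le hT₀p hTT₀
  -- expansion of `Bf`
  have hBf : V * b * d - (∑ u ∈ A, V * β u * cR u + (∑ i ∈ Finset.range m, w i * nR i
      + ∑ i ∈ Finset.Ico m M, w i * nR i)) < 0 := by
    rw [Finset.sum_range_add_sum_Ico _ hmM]
    have := hCB'
    simp only [Bf, vec, toR, Finset.sum_disjSum, Sum.elim_inl, Sum.elim_inr] at this
    exact this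
  -- the inequality at `z₀`
  have hX0' : 0 ≤ V₀ * b * d - (∑ u ∈ A, V₀ * β u * cR u
      + ∑ i ∈ Finset.range m, wt 1 z₀ i * nR i) := by
    have h1 : 0 ≤ idx (A.disjSum (Finset.range m)) C := by
      refine hCI'.trans ?_
      simp only [idx, Bf, Kd, Finset.sum_disjSum]
      have h2 : ∀ f : ℕ → ℤ, (∀ i, 0 ≤ f i) →
          ∑ i ∈ Finset.range m, f i ≤ ∑ i ∈ Finset.range M, f i := fun f hf =>
        Finset.sum_le_sum_of_subset_of_nonneg (Finset.range_mono hmM) (fun i _ _ => hf i)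
      have h3 := h2 (fun i => C.2 (Sum.inr i) * C.2 (Sum.inr i)) (fun i => mul_self_nonneg _)
      have h4 := h2 (fun i => C.2 (Sum.inr i)) (fun i => hCn _)
      linarith
    have := hN₀ (A.disjSum (Finset.range m)) C hC0 h1
    simp only [Bf, vec, toR, Finset.sum_disjSum, Sum.elim_inl, Sum.elim_inr] at this
    exact this
  -- the key inequality
  have hs1 : Summable ((fun i : U ⊕ ℕ => (vec b β V z).2 i ^ 2) ∘ Sum.inl) := by
    have : ((fun i : U ⊕ ℕ => (vec b β V z).2 i ^ 2) ∘ Sum.inl) = fun u => V ^ 2 * β u ^ 2 := by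
      funext u
      simp only [Function.comp, vec, Sum.elim_inl]
      ring
    rw [this]
    exact hsq.mul_left _
  have hs2' : Summable (fun i => w i ^ 2) :=
    summable_of_sum_range_le (fun n => sq_nonneg _) (or_wt_sq_sum z hzp)
  have hs2 : Summable ((fun i : U ⊕ ℕ => (vec b β V z).2 i ^ 2) ∘ Sum.inr) := hs2'
  have htsum : ∑' i : U ⊕ ℕ, (vec b β V z).2 i ^ 2 = V ^ 2 * B2 + ∑' i, w i ^ 2 := by
    rw [Summable.tsum_sum hs1 hs2]
    congr 1
    rw [hB2, ← tsum_mul_left]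
    refine tsum_congr fun u => ?_
    simp only [vec, Sum.elim_inl]
    ring
  have hWz : ∑' i, w i ^ 2 ≤ z :=
    Real.tsum_le_of_sum_range_le (fun n => sq_nonneg _) (or_wt_sq_sum z hzp)
  have hkey := key_ineq (vec b β V z) hVb (fun i => by
      rcases i with u | i
      · exact mul_nonneg hVp.le (hβ u)
      · exact hwn i) (Summable.sum _ hs1 hs2) (by
      rw [htsum]
      show V ^ 2 * B2 + ∑' i, w i ^ 2 ≤ (V * b) ^ 2
      have : (V * b) ^ 2 = V ^ 2 * B2 + V ^ 2 * Vol := by rw [hVol]; ring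
      rw [this, hV2]
      linarith only [hWz]) (A.disjSum (Finset.range M)) C hC0 hCI' hCB'
  rw [htsum] at hkey
  have hKey : ∑ u ∈ A, ((cR u - T * (V * β u)) ^ 2 + cR u)
      + (∑ i ∈ Finset.range m, ((nR i - T * w i) ^ 2 + nR i)
        + ∑ i ∈ Finset.Ico m M, ((nR i - T * w i) ^ 2 + nR i))
      + T ^ 2 * (V ^ 2 * B2 + ∑' i, w i ^ 2
        - (∑ u ∈ A, (V * β u) ^ 2 + ∑ i ∈ Finset.range M, w i ^ 2)) < 3 * d := by
    rw [Finset.sum_range_add_sum_Ico _ hmM]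
    have e : (C.1 : ℝ) / (vec b β V z).1 = T := by rw [hT]; rfl
    rw [e] at hkey
    simp only [vec, Finset.sum_disjSum, Sum.elim_inl, Sum.elim_inr] at hkey
    exact hkey
  clear hkey
  have hWsum : ∑ i ∈ Finset.range M, w i ^ 2 ≤ ∑' i, w i ^ 2 :=
    hs2'.sum_le_tsum _ (fun i _ => sq_nonneg _)
  set SA : ℝ := ∑ u ∈ A, β u ^ 2 with hSA'
  have hSAle : SA ≤ B2 := hsq.sum_le_tsum _ (fun i _ => sq_nonneg _)
  obtain ⟨ρ, hρ⟩ : ∃ ρ : ℝ, ρ = B2 - SA := ⟨_, rfl⟩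
  have hρn : 0 ≤ ρ := by rw [hρ]; linarith only [hSAle]
  have hVA : ∑ u ∈ A, (V * β u) ^ 2 = V ^ 2 * SA := by
    rw [hSA', Finset.mul_sum]
    exact Finset.sum_congr rfl fun u _ => by ring
  have hKey2 : ∑ u ∈ A, ((cR u - T * (V * β u)) ^ 2 + cR u)
      + (∑ i ∈ Finset.range m, ((nR i - T * w i) ^ 2 + nR i)
        + ∑ i ∈ Finset.Ico m M, ((nR i - T * w i) ^ 2 + nR i))
      + T ^ 2 * V ^ 2 * ρ < 3 * d := by
    rw [hVA] at hKey
    have : T ^ 2 * (V ^ 2 * B2 + ∑' i, w i ^ 2 - (V ^ 2 * SA + ∑ i ∈ Finset.range M, w i ^ 2))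
        = T ^ 2 * V ^ 2 * ρ + T ^ 2 * (∑' i, w i ^ 2 - ∑ i ∈ Finset.range M, w i ^ 2) := by
      rw [hρ]; ring
    rw [this] at hKey
    have h1 : 0 ≤ T ^ 2 * (∑' i, w i ^ 2 - ∑ i ∈ Finset.range M, w i ^ 2) :=
      mul_nonneg (sq_nonneg _) (by linarith only [hWsum])
    linarith only [h1, hKey]
  clear hKey
  -- nonnegativity of the pieces
  have hp1 : 0 ≤ ∑ u ∈ A, cR u := Finset.sum_nonneg fun u _ => hcRn u
  have hp2 : 0 ≤ ∑ i ∈ Finset.range m, nR i := Finset.sum_nonneg fun u _ => hnRn u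
  have hp3 : 0 ≤ ∑ i ∈ Finset.Ico m M, nR i := Finset.sum_nonneg fun u _ => hnRn u
  have hq1 : 0 ≤ ∑ u ∈ A, (cR u - T * (V * β u)) ^ 2 := Finset.sum_nonneg fun u _ => sq_nonneg _
  have hq2 : 0 ≤ ∑ i ∈ Finset.range m, (nR i - T * w i) ^ 2 :=
    Finset.sum_nonneg fun u _ => sq_nonneg _
  have hq3 : 0 ≤ ∑ i ∈ Finset.Ico m M, (nR i - T * w i) ^ 2 :=
    Finset.sum_nonneg fun u _ => sq_nonneg _
  have hTVρ : 0 ≤ T ^ 2 * V ^ 2 * ρ := by positivity
  set R : ℝ := 3 * T * V * b with hR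
  have hRn : 0 ≤ R := by positivity
  have hR3 : 3 * d = R := by rw [hdT, hR]; ring
  have hKey3 := hKey2
  rw [Finset.sum_add_distrib, Finset.sum_add_distrib, Finset.sum_add_distrib, hR3] at hKey3
  have F1a : ∑ u ∈ A, (cR u - T * (V * β u)) ^ 2 ≤ R := by
    linarith only [hKey3, hp1, hp2, hp3, hq1, hq2, hq3, hTVρ]
  have F1b : ∑ i ∈ Finset.range m, (nR i - T * w i) ^ 2 ≤ R := by
    linarith only [hKey3, hp1, hp2, hp3, hq1, hq2, hq3, hTVρ]
  have F2 : T * V * ρ ≤ 3 * b := by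
    have h1 : (T * V) * (T * V * ρ) ≤ (T * V) * (3 * b) := by
      have : (T * V) * (T * V * ρ) = T ^ 2 * V ^ 2 * ρ := by ring
      rw [this]
      have : (T * V) * (3 * b) = R := by rw [hR]; ring
      rw [this]
      linarith only [hKey3, hp1, hp2, hp3, hq1, hq2, hq3, hTVρ]
    exact le_of_mul_le_mul_left h1 (by positivity)
  -- the bound of `N`
  set N : ℝ := ∑ i ∈ Finset.Ico m M, nR i with hNdef
  set G' : ℝ := ∑' u, min (1 / 4) (T * V * β u) with hG'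
  have hTV : 0 ≤ T * V := by positivity
  have hsG : Summable (fun u => min (1 / 4) (T * V * β u)) := or_min_summable β hβ hsum _ hTV
  have hsT : Summable (fun u => T * V * β u) := hsum.mul_left _
  have F3 : N ≤ T * (V * Per - ∑ i ∈ Finset.range m, w i) + G' + m / 4 := by
    have h1 : ∑' u, (T * V * β u - min (1 / 4) (T * V * β u)) = T * V * B1 - G' := by
      rw [hsT.tsum_sub hsG, tsum_mul_left]
    have hs4 : Summable (fun u => (T * V * β u) ^ 2 - (T * V * β u - min (1 / 4) (T * V * β u))) := by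
      apply Summable.sub _ (hsT.sub hsG)
      have : (fun u => (T * V * β u) ^ 2) = fun u => (T * V) ^ 2 * β u ^ 2 := by
        funext u; ring
      rw [this]
      exact hsq.mul_left _
    have h2 : ∑ u ∈ A, ((T * V * β u) ^ 2 - (T * V * β u - min (1 / 4) (T * V * β u)))
        ≤ ∑' u, ((T * V * β u) ^ 2 - (T * V * β u - min (1 / 4) (T * V * β u))) := by
      apply hs4.sum_le_tsum
      intro u _
      have h5 := or_minle 0 (T * V * β u) le_rfl
      have h6 : (0 - T * V * β u) ^ 2 + 0 = (T * V * β u) ^ 2 := by ring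
      rw [h6] at h5
      linarith only [h5]
    have h3 : ∑' u, ((T * V * β u) ^ 2 - (T * V * β u - min (1 / 4) (T * V * β u)))
        = T ^ 2 * V ^ 2 * B2 - (T * V * B1 - G') := by
      have e1 : (fun u => (T * V * β u) ^ 2) = fun u => (T * V) ^ 2 * β u ^ 2 := by
        funext u; ring
      have hs5 : Summable (fun u => (T * V * β u) ^ 2) := by
        rw [e1]; exact hsq.mul_left _
      rw [hs5.tsum_sub (hsT.sub hsG), h1, e1, tsum_mul_left]
      ring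
    have h4 : ∑ u ∈ A, ((T * V * β u) ^ 2 - (T * V * β u - min (1 / 4) (T * V * β u)))
        = T ^ 2 * V ^ 2 * SA - ∑ u ∈ A, (T * V * β u - min (1 / 4) (T * V * β u)) := by
      rw [Finset.sum_sub_distrib, hSA', Finset.mul_sum]
      congr 1
      exact Finset.sum_congr rfl fun u _ => by ring
    have h5 : ∑ u ∈ A, (T * V * β u - min (1 / 4) (T * V * β u))
        ≤ ∑ u ∈ A, ((cR u - T * (V * β u)) ^ 2 + cR u) := by
      apply Finset.sum_le_sum
      intro u _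
      have := or_minle (cR u) (T * V * β u) (hcRn u)
      rw [mul_assoc T V (β u)] at this ⊢
      exact this
    have h6 : ∑ i ∈ Finset.range m, (T * w i - 1 / 4)
        ≤ ∑ i ∈ Finset.range m, ((nR i - T * w i) ^ 2 + nR i) := by
      apply Finset.sum_le_sum
      intro i _
      have := or_minle (nR i) (T * w i) (hnRn i)
      have h7 := min_le_left (1 / 4) (T * w i)
      linarith only [this, h7]
    have h7 : ∑ i ∈ Finset.range m, (T * w i - 1 / 4) = T * ∑ i ∈ Finset.range m, w i - m / 4 := by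
      rw [Finset.sum_sub_distrib, ← Finset.mul_sum]
      simp
      ring
    have h8 : N ≤ ∑ i ∈ Finset.Ico m M, ((nR i - T * w i) ^ 2 + nR i) := by
      rw [Finset.sum_add_distrib]; linarith only [hq3]
    have h9 : T ^ 2 * V ^ 2 * ρ = T ^ 2 * V ^ 2 * B2 - T ^ 2 * V ^ 2 * SA := by rw [hρ]; ring
    have h10 : T * (V * Per - ∑ i ∈ Finset.range m, w i)
        = R - T * V * B1 - T * ∑ i ∈ Finset.range m, w i := by rw [hR, hPer]; ring
    rw [hR3] at hKey2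
    rw [h10]
    rw [h3, h4] at h2
    rw [h7] at h6
    linarith only [h2, h5, h6, h8, h9, hKey2]
  have hwi : ∀ i ∈ Finset.range m, w i = wt 1 z₀ i + ε * ω i := fun i hi =>
    (hnear ε hε hεε₀).1 i (Finset.mem_range.1 hi)
  have F4 : V * Per - ∑ i ∈ Finset.range m, w i ≤ c₁ * ε := by
    have h1 : ∑ i ∈ Finset.range m, w i = (1 + z₀ - 1 / q) + ε * W := by
      rw [Finset.sum_congr rfl hwi, Finset.sum_add_distrib, hw1, ← Finset.mul_sum]
    have h2 : (V - V₀) * Per ≤ cc * ε * |Per| := by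
      refine (le_abs_self _).trans ?_
      rw [abs_mul]
      exact mul_le_mul_of_nonneg_right habs (abs_nonneg _)
    have h3 : -(ε * W) ≤ ε * |W| := by
      rw [← mul_neg]
      exact mul_le_mul_of_nonneg_left (neg_le_abs W) hε.le
    have h4 : V * Per = V₀ * Per + (V - V₀) * Per := by ring
    have h5 : V₀ * Per ≤ 1 + z₀ - 1 / q := hκ
    have h6 : (cc * |Per| + |W|) * ε = cc * ε * |Per| + ε * |W| := by ring
    rw [h1, h4, hc₁, h6]
    linarith only [h2, h3, h5]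
  -- the bound from below of the pairing
  set P : U → ℝ := fun u => cR u - T * (V * β u) with hP
  set Pn : ℕ → ℝ := fun i => nR i - T * w i with hPn
  have hx : |∑ u ∈ A, β u * P u| ≤ b * √R := by
    have := or_cs A β P (b ^ 2) R (sq_nonneg _) hRn (by linarith only [hSAle, hSA', hVolp, hVol]) F1a
    rwa [Real.sqrt_sq hb.le] at this
  have hωωr : ∑ i ∈ Finset.range m, (ω i : ℝ) ^ 2 = g := by
    rw [hg]; exact_mod_cast hωω
  have hy : |∑ i ∈ Finset.range m, (ω i : ℝ) * Pn i| ≤ √g * √R :=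
    or_cs (Finset.range m) (fun i => (ω i : ℝ)) Pn g R hgn hRn hωωr.le F1b
  have hWn : ∑ i ∈ Finset.Ico m M, w i * nR i ≤ q * ε * N := by
    rw [hNdef, Finset.mul_sum]
    apply Finset.sum_le_sum
    intro i hi
    have h1 := ((hnear ε hε hεε₀).2.2.1 i (Finset.mem_Ico.1 hi).1).2
    exact mul_le_mul_of_nonneg_right h1 (hnRn i)
  have hmain : s * ε / 2 ≤ (V - V₀) * V * Vol := by
    have h1 : 2 * (V * V₀ * Vol) ≤ z + z₀ := by
      have h4 : 0 ≤ (V - V₀) ^ 2 * Vol := by positivity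
      have h5 : (V - V₀) ^ 2 * Vol = V ^ 2 * Vol - 2 * (V * V₀ * Vol) + V₀ ^ 2 * Vol := by ring
      rw [h5, hV2, hV₀2] at h4
      linarith only [h4]
    have h2 : (V - V₀) * V * Vol = z - V * V₀ * Vol := by rw [← hV2]; ring
    have h3 : z = z₀ + s * ε := hz
    rw [h2]
    linarith only [h1, h3]
  have hA1 : ∑ u ∈ A, β u * cR u = ∑ u ∈ A, β u * P u + T * V * SA := by
    rw [hSA', Finset.mul_sum, ← Finset.sum_add_distrib]
    exact Finset.sum_congr rfl fun u _ => by simp only [hP]; ring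
  have hA2 : ∑ i ∈ Finset.range m, (ω i : ℝ) * nR i
      = ∑ i ∈ Finset.range m, (ω i : ℝ) * Pn i + T * ((s - 1) / 2) + T * ε * g := by
    have h1 : T * ((s - 1) / 2) + T * ε * g = T * ∑ i ∈ Finset.range m, (ω i : ℝ) * w i := by
      have h2 : ∑ i ∈ Finset.range m, (ω i : ℝ) * w i = ((s : ℝ) - 1) / 2 + ε * g := by
        rw [← hwω, ← hωωr, Finset.mul_sum, ← Finset.sum_add_distrib]
        refine Finset.sum_congr rfl fun i hi => ?_
        rw [hwi i hi]; ring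
      rw [h2]; ring
    rw [add_assoc, h1, Finset.mul_sum, ← Finset.sum_add_distrib]
    exact Finset.sum_congr rfl fun i _ => by simp only [hPn]; ring
  have hA3 : ∑ u ∈ A, V * β u * cR u = V * ∑ u ∈ A, β u * cR u := by
    rw [Finset.mul_sum]; exact Finset.sum_congr rfl fun u _ => by ring
  have hA4 : ∑ u ∈ A, V₀ * β u * cR u = V₀ * ∑ u ∈ A, β u * cR u := by
    rw [Finset.mul_sum]; exact Finset.sum_congr rfl fun u _ => by ring
  have hA5 : ∑ i ∈ Finset.range m, w i * nR i = ∑ i ∈ Finset.range m, wt 1 z₀ i * nR i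
      + ε * ∑ i ∈ Finset.range m, (ω i : ℝ) * nR i := by
    rw [Finset.mul_sum, ← Finset.sum_add_distrib]
    refine Finset.sum_congr rfl fun i hi => ?_
    rw [hwi i hi]; ring
  have hfin := or_assemble ε T V V₀ Vol b ρ s (∑ u ∈ A, β u * P u)
    (∑ i ∈ Finset.range m, (ω i : ℝ) * Pn i) g N R cc q
    (V₀ * b * d - (∑ u ∈ A, V₀ * β u * cR u + ∑ i ∈ Finset.range m, wt 1 z₀ i * nR i))
    (∑ i ∈ Finset.Ico m M, w i * nR i) hε hTp.le hb.le hccp.le (by
      have e : V * b * d - (∑ u ∈ A, V * β u * cR u + (∑ i ∈ Finset.range m, w i * nR i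
          + ∑ i ∈ Finset.Ico m M, w i * nR i))
          = V₀ * b * d - (∑ u ∈ A, V₀ * β u * cR u + ∑ i ∈ Finset.range m, wt 1 z₀ i * nR i)
          + (V - V₀) * (T * V * (Vol + ρ) - ∑ u ∈ A, β u * P u)
          - ε * (∑ i ∈ Finset.range m, (ω i : ℝ) * Pn i + T * ((s - 1) / 2) + T * ε * g)
          - ∑ i ∈ Finset.Ico m M, w i * nR i := by
        rw [← hA2, hA3, hA4, hA5, hA1, hdT, hρ, hVol]
        ring
      rw [← e]
      exact hBf) hX0' hWn hmain habs (by positivity) F2 hx hy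
  -- the end
  have hGle : G' ≤ T / (8 * q) := by
    have h1 : G' ≤ ∑' u, min (1 / 4) (T * V₁ * β u) := by
      apply hsG.tsum_le_tsum _ (or_min_summable β hβ hsum _ (by positivity))
      intro u
      apply min_le_min le_rfl
      apply mul_le_mul_of_nonneg_right _ (hβ u)
      exact mul_le_mul_of_nonneg_left hVV₁ hTp.le
    have h2 := hX (T * V₁) (by
      have : X / V₁ ≤ T := (le_max_left _ _).trans hTT₀
      rwa [div_le_iff₀ hV₁p] at this)
    refine h1.trans (h2.trans (le_of_eq ?_))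
    field_simp
  have hRle : √R ≤ √(3 * V₁ * b) * √T := by
    rw [← Real.sqrt_mul (by positivity)]
    apply Real.sqrt_le_sqrt
    rw [hR]
    have : T * V * b ≤ T * V₁ * b :=
      mul_le_mul_of_nonneg_right (mul_le_mul_of_nonneg_left hVV₁ hTp.le) hb.le
    linarith only [this]
  have hNle : q * N ≤ T * ε * (q * c₁) + T / 8 + q * (m / 4) := by
    have h1 : N ≤ T * (c₁ * ε) + T / (8 * q) + m / 4 := by
      have := mul_le_mul_of_nonneg_left F4 hTp.le
      linarith only [this, F3, hGle]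
    have h2 := mul_le_mul_of_nonneg_left h1 hqr.le
    have h3 : (q : ℝ) * (T * (c₁ * ε) + T / (8 * q) + m / 4)
        = T * ε * (q * c₁) + T / 8 + q * (m / 4) := by
      field_simp
    linarith only [h2, h3]
  have hRle2 : (cc * b + √g) * √R ≤ a₂ * √T := by
    rw [ha₂, mul_assoc]
    exact mul_le_mul_of_nonneg_left hRle (by positivity)
  have hTε : T * (ε * (g + q * c₁)) ≤ T * (1 / 4) := mul_le_mul_of_nonneg_left hε3 hTp.le
  refine or_final T a₁ a₂ ha₁n ((le_max_right _ _).trans hTT₀) ?_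
  have e9 : T * (ε * (g + q * c₁)) = T * ε * g + T * ε * (q * c₁) := by ring
  rw [e9] at hTε
  rw [ha₁]
  linarith only [hTε, hRle2, hNle, hfin]


end Pool.Agent.Helper416_Stair
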