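import Pool.Agent.Helper416_Stair.M5
import Pool.Agent.Helper416_Stair.ObRat
import Pool.Agent.Helper416_Stair.ObIrr
import Pool.Agent.Helper416_Stair.Nice

/-!
# Case analysis at a point
-/

noncomputable section

open scoped BigOperators Pointwise

namespace Pool.Agent.Helper416_Stair

section

variable {U : Type*} [DecidableEq U] (b : ℝ) (β : U → ℝ)

lemma vec_scale (V l z : ℝ) :
    vec (V * b) (fun u => V * β u) l z = vec b β (l * V) z := by
  ext i
  · simp only [vec]; ring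
  · rcases i with u | i
    · simp only [vec, Sum.elim_inl]; ring
    · simp only [vec, Sum.elim_inr]

/-- the maximum of an affine function and `√(z / Vol)` is affine or `√(z / Vol)` near `0` -/
lemma nice_of_max (c : ℝ → ℝ) (Vol z₀ s : ℝ) (hVol : 0 < Vol) (hz₀ : 0 < z₀) (A B δ : ℝ)
    (hA : 0 < A) (hδ : 0 < δ)
    (h : ∀ ε : ℝ, 0 < ε → ε < δ → c (z₀ + s * ε) = max (√((z₀ + s * ε) / Vol)) (A + B * ε)) :
    NiceSide c Vol z₀ s := by
  open Filter Topology in
  have hp : ∀ᶠ ε in 𝓝[>] (0 : ℝ), 0 < ε := eventually_mem_nhdsWithin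
  have hδ' : ∀ᶠ ε in 𝓝[>] (0 : ℝ), ε < δ := by
    filter_upwards [Ioo_mem_nhdsGT hδ] with ε hε using hε.2
  have hA' := NC_pos A B 0 hA
  have hz' := NC_pos z₀ s 0 hz₀
  -- compare the squares
  rcases NC_quad (A ^ 2 - z₀ / Vol) (2 * A * B - s / Vol) (B ^ 2) with hc | hc
  · have hev : ∀ᶠ ε in 𝓝[>] (0 : ℝ), c (z₀ + s * ε) = A + B * ε := by
      filter_upwards [hp, hδ', hA', hc] with ε h0 h1 h2 h3
      rw [h ε h0 h1]
      apply max_eq_right
      have h4 : 0 ≤ A + B * ε := by linarith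
      rw [Real.sqrt_le_left h4]
      have e : (z₀ + s * ε) / Vol = z₀ / Vol + s / Vol * ε := by ring
      rw [e]
      nlinarith
    obtain ⟨η, hη, hη'⟩ := (mem_nhdsGT_iff_exists_Ioo_subset).mp hev
    exact ⟨η, hη, Or.inl ⟨A, B, fun ε h0 h1 => hη' ⟨h0, h1⟩⟩⟩
  · have hev : ∀ᶠ ε in 𝓝[>] (0 : ℝ), c (z₀ + s * ε) = √((z₀ + s * ε) / Vol) := by
      filter_upwards [hp, hδ', hz', hc] with ε h0 h1 h2 h3
      rw [h ε h0 h1]
      apply max_eq_left
      apply Real.le_sqrt_of_sq_le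
      have e : (z₀ + s * ε) / Vol = z₀ / Vol + s / Vol * ε := by ring
      rw [e]
      nlinarith
    obtain ⟨η, hη, hη'⟩ := (mem_nhdsGT_iff_exists_Ioo_subset).mp hev
    exact ⟨η, hη, Or.inr (fun ε h0 h1 => hη' ⟨h0, h1⟩)⟩

/-- the local alternative: at a non-exceptional point the function is nice on both sides -/
theorem local_nice (hb : 0 < b) (hβ : ∀ u, 0 ≤ β u) (hsum : Summable β)
    (hvol : ∑' u, β u ^ 2 < b ^ 2) (hN : Nef (b, β))
    (hpos : ∃ c > 0, ∀ k : ℕ, 1 ≤ k → c ≤ capW b β k) (z₀ : ℝ) (hz₀ : 1 ≤ z₀) (s : ℤ)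
    (hs : s = 1 ∨ (s = -1 ∧ 1 < z₀))
    (hex : ¬ (Irrational z₀ ∧
      √(z₀ / (b ^ 2 - ∑' u, β u ^ 2)) * (3 * b - ∑' u, β u) = 1 + z₀)) :
    NiceSide (cfun (capW b β)) (b ^ 2 - ∑' u, β u ^ 2) z₀ s := by
  set Vol : ℝ := b ^ 2 - ∑' u, β u ^ 2 with hVoldef
  have hVol : 0 < Vol := by rw [hVoldef]; linarith
  obtain ⟨hB1, hB2, hB3⟩ := cfunBasic b β hb hβ hsum hvol hN hpos
  have hV : ∀ z l : ℝ, 1 ≤ z → 0 < l → (∀ k, ellCap 1 z k ≤ l * capW b β k) →
      √(z / (b ^ 2 - ∑' u, β u ^ 2)) ≤ l := by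
    intro z l hz hl h
    exact vol_bound b β hb hβ hsum hvol z l hz hl
      ((bridge b β hb hβ hN z (by linarith) l hl).1.mp h)
  have hs' : (s : ℝ) = 1 ∨ (s : ℝ) = -1 := by
    rcases hs with h | ⟨h, -⟩
    · left; rw [h]; norm_num
    · right; rw [h]; norm_num
  have hz1 : ∃ δ > 0, ∀ ε : ℝ, 0 < ε → ε < δ → 1 ≤ z₀ + s * ε := by
    rcases hs with h | ⟨h, h1⟩
    · refine ⟨1, one_pos, fun ε h0 _ => ?_⟩
      rw [h]; push_cast; linarith
    · refine ⟨z₀ - 1, by linarith, fun ε h0 h1 => ?_⟩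
      rw [h]; push_cast; linarith
  obtain ⟨δz, hδz, hz1⟩ := hz1
  have habs : ∀ ε : ℝ, 0 < ε → |z₀ + s * ε - z₀| = ε := by
    intro ε h0
    rw [add_sub_cancel_left, abs_mul, abs_of_pos h0]
    rcases hs' with h | h <;> rw [h] <;> norm_num
  -- from a bound on all large obstructions
  have fin : ∀ (K : ℕ) (δ : ℝ), 0 < δ → (∀ ε : ℝ, 0 < ε → ε < δ → ∃ η : ℝ,
      (η ≤ √((z₀ + s * ε) / Vol) ∨ η < cfun (capW b β) (z₀ + s * ε)) ∧
      ∀ k : ℕ, K < k → ellCap 1 (z₀ + s * ε) k ≤ η * capW b β k) →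
      NiceSide (cfun (capW b β)) Vol z₀ s := by
    intro K δ hδ h
    refine nice b β hb hβ hsum hvol hN hpos hV z₀ s hs' hz₀ K (min δ δz) (lt_min hδ hδz) ?_ ?_
    · intro ε h0 h1
      exact hz1 ε h0 (lt_of_lt_of_le h1 (min_le_right _ _))
    · intro ε h0 h1
      exact h ε h0 (lt_of_lt_of_le h1 (min_le_left _ _))
  obtain ⟨hc0, hc1⟩ := hB1 z₀ hz₀
  have hVle : √(z₀ / Vol) ≤ cfun (capW b β) z₀ :=
    hV z₀ _ hz₀ hc0 ((hc1 _ hc0).mpr le_rfl)
  rcases lt_or_eq_of_le hVle with hlt | heq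
  · -- local finiteness
    obtain ⟨K, δ, hδ, hK⟩ := hB3 z₀ hz₀ hlt
    refine fin K (min δ δz) (lt_min hδ hδz) ?_
    intro ε h0 h1
    obtain ⟨η, h2, h3⟩ := hK (z₀ + s * ε) (hz1 ε h0 (lt_of_lt_of_le h1 (min_le_right _ _))) (by
      rw [habs ε h0]; exact lt_of_lt_of_le h1 (min_le_left _ _))
    exact ⟨η, Or.inr h2, h3⟩
  · have hV0 : 0 < √(z₀ / Vol) := by rw [heq]; exact hc0
    have hN₀ : Nef (vec b β (√(z₀ / Vol)) z₀) := by
      rw [← (bridge b β hb hβ hN z₀ (by linarith) _ hV0).1, hc1 _ hV0, heq]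
    by_cases hirr : Irrational z₀
    · rcases lt_trichotomy (√(z₀ / Vol) * (3 * b - ∑' u, β u)) (1 + z₀) with hk | hk | hk
      · obtain ⟨K, δ, hδ, hK⟩ := obs_irr b β hb hβ hsum hvol hN z₀ hz₀ hirr hk
        refine fin K δ hδ ?_
        intro ε h0 h1
        exact ⟨_, Or.inl le_rfl, hK _ (by rw [habs ε h0]; exact h1)⟩
      · exact absurd ⟨hirr, hk⟩ hex
      · exfalso
        obtain ⟨w1, w2, w3, -⟩ := wtIrr z₀ hz₀ hirr
        set V := √(z₀ / Vol) with hVdef
        have hV2 : V ^ 2 * Vol = z₀ := by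
          rw [hVdef, Real.sq_sqrt (by positivity)]; field_simp
        have hs1 : HasSum (vec b β V z₀).2 (V * ∑' u, β u + (1 + z₀)) := by
          apply HasSum.sum
          · refine (hsum.hasSum.mul_left V).congr_fun ?_
            intro u
            simp [Function.comp, vec]
          · exact w2
        have hs2 : HasSum (fun i => (vec b β V z₀).2 i ^ 2) (V ^ 2 * ∑' u, β u ^ 2 + z₀) := by
          apply HasSum.sum
          · refine ((lf_sq_summable β hβ hsum).hasSum.mul_left (V ^ 2)).congr_fun ?_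
            intro u
            simp only [Function.comp, vec, Sum.elim_inl]; ring
          · exact w3
        have e1 : (vec b β V z₀).1 = V * b := rfl
        obtain ⟨S, F, hF0, -, -, hvF⟩ := rational_of_nef (vec b β V z₀)
          (by rw [e1]; positivity) (nef_entry_nonneg _ hN₀) hs1.summable
          (by rw [hs2.tsum_eq, e1]; nlinarith) (by rw [hs1.tsum_eq, e1]; nlinarith) hN₀
        -- infinitely many positive entries
        have hinf : (Set.range (Sum.inr : ℕ → U ⊕ ℕ)).Infinite :=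
          Set.infinite_range_of_injective Sum.inr_injective
        obtain ⟨j, ⟨i, rfl⟩, hj⟩ := hinf.exists_notMem_finset S
        have h1 : (vec b β V z₀).2 (Sum.inr i) = wt 1 z₀ i := rfl
        have h2 : (vec b β V z₀).2 (Sum.inr i) = 0 := by
          rw [hvF]
          simp [toR, hF0 _ hj]
        rw [h1] at h2
        exact absurd h2 (w1 i).ne'
    · obtain ⟨p, q, hq, hqp, hcop, hzpq⟩ := rat_form z₀ hz₀ hirr
      have hqr : (0 : ℝ) < q := by exact_mod_cast hq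
      have hs2 : s = 1 ∨ (s = -1 ∧ 1 < p) := by
        rcases hs with h | ⟨h, h1⟩
        · exact Or.inl h
        · refine Or.inr ⟨h, ?_⟩
          rw [hzpq, lt_div_iff₀ hqr, one_mul] at h1
          have : q < p := by exact_mod_cast h1
          omega
      rcases le_or_gt (√(z₀ / Vol) * (3 * b - ∑' u, β u)) (1 + z₀ - 1 / q) with hk | hk
      · have hN₁ : Nef (vec b β (√(((p : ℝ) / q) / (b ^ 2 - ∑' u, β u ^ 2))) ((p : ℝ) / q)) := by
          rw [← hzpq]; exact hN₀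
        obtain ⟨K, δ, hδ, hK⟩ := obs_rat b β hb hβ hsum hvol hN p q hq hqp hcop s hs2 hN₁
          (by rw [← hzpq]; exact hk)
        refine fin K δ hδ ?_
        intro ε h0 h1
        refine ⟨_, Or.inl le_rfl, ?_⟩
        rw [hzpq]
        exact hK ε h0 h1
      · -- the local theorem
        set V := √(z₀ / Vol) with hVdef
        have hV2 : V ^ 2 * Vol = z₀ := by
          rw [hVdef, Real.sq_sqrt (by positivity)]; field_simp
        have hN' : Nef (V * b, fun u => V * β u) := by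
          have : ((V * b, fun u => V * β u) : ℝ × (U → ℝ)) = V • ((b, β) : ℝ × (U → ℝ)) := by
            ext i <;> simp
          rw [this]
          exact nef_smul _ hV0.le _ hN
        have ht1 : ∑' u, (V * β u) ^ 2 = V ^ 2 * ∑' u, β u ^ 2 := by
          rw [← tsum_mul_left]; exact tsum_congr (fun u => by ring)
        have ht2 : ∑' u, V * β u = V * ∑' u, β u := tsum_mul_left
        obtain ⟨κs, δ, hδ, hm⟩ := m5 (V * b) (fun u => V * β u) (by positivity)
          (fun u => mul_nonneg hV0.le (hβ u)) (hsum.mul_left V) hN' p q hq hqp hcop s hs2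
          (by rw [ht1, ← hzpq, ← hV2, hVoldef]; ring)
          (by rw [vec_scale, one_mul, ← hzpq]; exact hN₀)
          (by rw [ht2, ← hzpq]; linarith)
        refine nice_of_max _ Vol z₀ s hVol (by linarith) V (V * κs) (min δ δz) hV0
          (lt_min hδ hδz) ?_
        intro ε h0 h1
        have hz := hz1 ε h0 (lt_of_lt_of_le h1 (min_le_right _ _))
        have h2 := hm ε h0 (lt_of_lt_of_le h1 (min_le_left _ _))
        obtain ⟨hd0, hd1⟩ := hB1 (z₀ + s * ε) hz
        have key : ∀ l : ℝ, 0 < l → (cfun (capW b β) (z₀ + s * ε) ≤ l ↔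
            max (√((z₀ + s * ε) / Vol)) (V + V * κs * ε) ≤ l) := by
          intro l hl
          rw [← hd1 l hl, (bridge b β hb hβ hN _ (by linarith) l hl).1]
          have h3 := h2 (l / V) (by positivity)
          rw [vec_scale, div_mul_cancel₀ _ hV0.ne', ← hzpq] at h3
          rw [h3]
          have e1 : √((z₀ + s * ε) / Vol) = V * √((z₀ + s * ε) / z₀) := by
            rw [hVdef, ← Real.sqrt_mul (by positivity)]
            congr 1
            field_simp
          have e2 : V + V * κs * ε = V * (1 + κs * ε) := by ring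
          rw [e1, e2, ← mul_max_of_nonneg _ _ hV0.le, le_div_iff₀ hV0, mul_comm]
        have hm0 : 0 < max (√((z₀ + s * ε) / Vol)) (V + V * κs * ε) := by
          apply lt_max_of_lt_left
          apply Real.sqrt_pos.mpr
          positivity
        exact le_antisymm ((key _ hm0).mpr le_rfl) ((key _ hd0).mp le_rfl)

/-- on a nice side the function is smooth at all nearby points -/
lemma smooth_of_nice (c : ℝ → ℝ) (Vol z₀ s : ℝ) (hVol : 0 < Vol) (hs : s = 1 ∨ s = -1)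
    (hz₀ : 0 < z₀) (h : NiceSide c Vol z₀ s) :
    ∃ δ > 0, ∀ ε : ℝ, 0 < ε → ε < δ → ContDiffAt ℝ (⊤ : ℕ∞) c (z₀ + s * ε) := by
  obtain ⟨δ, hδ, h⟩ := h
  have hopen : ∀ δ' : ℝ, IsOpen {x : ℝ | 0 < s * (x - z₀) ∧ s * (x - z₀) < δ'} := by
    intro δ'
    have hc : Continuous (fun x : ℝ => s * (x - z₀)) := by fun_prop
    exact (isOpen_lt continuous_const hc).inter (isOpen_lt hc continuous_const)
  have hss : s * s = 1 := by rcases hs with h | h <;> rw [h] <;> norm_num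
  rcases h with ⟨A, B, h⟩ | h
  · refine ⟨δ, hδ, fun ε h0 h1 => ?_⟩
    have hev : c =ᶠ[nhds (z₀ + s * ε)] fun x => A + B * (s * (x - z₀)) := by
      have hmem : {x : ℝ | 0 < s * (x - z₀) ∧ s * (x - z₀) < δ} ∈ nhds (z₀ + s * ε) := by
        apply (hopen δ).mem_nhds
        have e : s * (z₀ + s * ε - z₀) = ε := by
          have : s * (z₀ + s * ε - z₀) = (s * s) * ε := by ring
          rw [this, hss, one_mul]
        show 0 < s * (z₀ + s * ε - z₀) ∧ s * (z₀ + s * ε - z₀) < δ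
        rw [e]; exact ⟨h0, h1⟩
      filter_upwards [hmem] with x hx
      have := h (s * (x - z₀)) hx.1 hx.2
      have e : z₀ + s * (s * (x - z₀)) = x := by
        have : z₀ + s * (s * (x - z₀)) = z₀ + (s * s) * (x - z₀) := by ring
        rw [this, hss]; ring
      rw [e] at this
      exact this
    refine ContDiffAt.congr_of_eventuallyEq ?_ hev
    fun_prop
  · refine ⟨min δ z₀, lt_min hδ hz₀, fun ε h0 h1 => ?_⟩
    have h1' : ε < δ := lt_of_lt_of_le h1 (min_le_left _ _)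
    have h1'' : ε < z₀ := lt_of_lt_of_le h1 (min_le_right _ _)
    have hev : c =ᶠ[nhds (z₀ + s * ε)] fun x => √(x / Vol) := by
      have hmem : {x : ℝ | 0 < s * (x - z₀) ∧ s * (x - z₀) < δ} ∈ nhds (z₀ + s * ε) := by
        apply (hopen δ).mem_nhds
        have e : s * (z₀ + s * ε - z₀) = ε := by
          have : s * (z₀ + s * ε - z₀) = (s * s) * ε := by ring
          rw [this, hss, one_mul]
        show 0 < s * (z₀ + s * ε - z₀) ∧ s * (z₀ + s * ε - z₀) < δ
        rw [e]; exact ⟨h0, h1'⟩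
      filter_upwards [hmem] with x hx
      have := h (s * (x - z₀)) hx.1 hx.2
      have e : z₀ + s * (s * (x - z₀)) = x := by
        have : z₀ + s * (s * (x - z₀)) = z₀ + (s * s) * (x - z₀) := by ring
        rw [this, hss]; ring
      rw [e] at this
      exact this
    refine ContDiffAt.congr_of_eventuallyEq ?_ hev
    have hz : 0 < z₀ + s * ε := by
      rcases hs with h | h <;> rw [h] <;> linarith
    apply ContDiffAt.sqrt
    · fun_prop
    · positivity

/-- the main theorem for the weights -/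
theorem main_weights (hb : 0 < b) (hβ : ∀ u, 0 ≤ β u) (hsum : Summable β)
    (hvol : ∑' u, β u ^ 2 < b ^ 2) (hN : Nef (b, β))
    (hpos : ∃ c > 0, ∀ k : ℕ, 1 ≤ k → c ≤ capW b β k) (R : ℝ)
    (hinf : {a : ℝ | 1 ≤ a ∧ a ≤ R ∧ ¬ ContDiffAt ℝ (⊤ : ℕ∞) (cfun (capW b β)) a}.Infinite) :
    ∃ z₀ : ℝ, 1 ≤ z₀ ∧ Irrational z₀ ∧
      √(z₀ / (b ^ 2 - ∑' u, β u ^ 2)) * (3 * b - ∑' u, β u) = 1 + z₀ := by
  set N := {a : ℝ | 1 ≤ a ∧ a ≤ R ∧ ¬ ContDiffAt ℝ (⊤ : ℕ∞) (cfun (capW b β)) a} with hNdef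
  have hVol : 0 < b ^ 2 - ∑' u, β u ^ 2 := by linarith
  obtain ⟨z₀, hz₀, hacc⟩ := hinf.exists_accPt_of_subset_isCompact (isCompact_Icc (a := (1 : ℝ)) (b := R))
    (fun a ha => ⟨ha.1, ha.2.1⟩)
  by_contra hcon
  push Not at hcon
  have hex : ¬ (Irrational z₀ ∧
      √(z₀ / (b ^ 2 - ∑' u, β u ^ 2)) * (3 * b - ∑' u, β u) = 1 + z₀) :=
    fun h => hcon z₀ hz₀.1 h.1 h.2
  have hz0 : 0 < z₀ := by linarith [hz₀.1]
  obtain ⟨δ₁, hδ₁, hr⟩ := smooth_of_nice _ _ z₀ ((1 : ℤ) : ℝ) hVol (by left; norm_num) hz0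
    (local_nice b β hb hβ hsum hvol hN hpos z₀ hz₀.1 1 (Or.inl rfl) hex)
  have hleft : ∃ δ₂ > 0, ∀ x : ℝ, z₀ - δ₂ < x → x < z₀ → x ∉ N := by
    rcases lt_or_eq_of_le hz₀.1 with h | h
    · obtain ⟨δ₂, hδ₂, hl⟩ := smooth_of_nice _ _ z₀ ((-1 : ℤ) : ℝ) hVol (by right; norm_num) hz0
        (local_nice b β hb hβ hsum hvol hN hpos z₀ hz₀.1 (-1) (Or.inr ⟨rfl, h⟩) hex)
      refine ⟨δ₂, hδ₂, fun x h1 h2 hx => ?_⟩
      have := hl (z₀ - x) (by linarith) (by linarith)
      have e : z₀ + ((-1 : ℤ) : ℝ) * (z₀ - x) = x := by push_cast; ring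
      rw [e] at this
      exact hx.2.2 this
    · refine ⟨1, one_pos, fun x _ h2 hx => ?_⟩
      have := hx.1
      linarith
  obtain ⟨δ₂, hδ₂, hl⟩ := hleft
  rw [accPt_iff_nhds] at hacc
  obtain ⟨y, ⟨hy1, hy2⟩, hyne⟩ := hacc (Set.Ioo (z₀ - δ₂) (z₀ + δ₁))
    (Ioo_mem_nhds (by linarith) (by linarith))
  rcases lt_or_gt_of_ne hyne with h | h
  · exact hl y hy1.1 h hy2
  · have := hr (y - z₀) (by linarith) (by linarith [hy1.2])
    have e : z₀ + ((1 : ℤ) : ℝ) * (y - z₀) = y := by push_cast; ring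
    rw [e] at this
    exact hy2.2.2 this

end

end Pool.Agent.Helper416_Stair
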