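import Pool.Agent.Helper416_Stair.Model

/-!
# Infinite staircases: further definitions used in the proof

`wt x y` is the weight sequence of the ellipsoid `E(x, y)`.  Vectors `(r, a)` with `a : ι → R`, the form `Bf S`, the
degree `Kd S`, the index `idx S`, the cone `Nef`, the Cremona moves `crem`; the weights `(bK, wK)` of a convex set.
-/

noncomputable section

open scoped BigOperators Pointwise

namespace Pool.Agent.Helper416_Stair

section Lattice

variable {ι : Type*} {R : Type*} [CommRing R]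

/-- the form `v.1 w.1 - ∑_{i ∈ S} v_i w_i` -/
def Bf (S : Finset ι) (v w : R × (ι → R)) : R := v.1 * w.1 - ∑ i ∈ S, v.2 i * w.2 i

/-- the degree `3 v.1 - ∑_{i ∈ S} v_i` -/
def Kd (S : Finset ι) (v : R × (ι → R)) : R := 3 * v.1 - ∑ i ∈ S, v.2 i

/-- the index `d^2 + 3 d - ∑_{i ∈ S} (m_i^2 + m_i)` -/
def idx (S : Finset ι) (v : R × (ι → R)) : R := Bf S v v + Kd S v

/-- real vector of an integral one -/
def toR (C : ℤ × (ι → ℤ)) : ℝ × (ι → ℝ) := ((C.1 : ℝ), fun i => (C.2 i : ℝ))

/-- nonnegative pairing with every integral class of nonnegative degree and index -/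
def Nef (v : ℝ × (ι → ℝ)) : Prop :=
  ∀ (S : Finset ι) (C : ℤ × (ι → ℤ)), 0 ≤ C.1 → 0 ≤ idx S C → 0 ≤ Bf S v (toR C)

/-- Cremona move at the indices `i, j, k` -/
def crem [DecidableEq ι] (i j k : ι) (v : R × (ι → R)) : R × (ι → R) :=
  (v.1 + (v.1 - v.2 i - v.2 j - v.2 k),
    fun l => v.2 l + if l = i ∨ l = j ∨ l = k then (v.1 - v.2 i - v.2 j - v.2 k) else 0)

end Lattice

section Ellipsoid

/-- one subtractive Euclid step -/
def stepE (s : ℝ × ℝ) : ℝ × ℝ := if s.1 ≤ s.2 then (s.1, s.2 - s.1) else (s.1 - s.2, s.2)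

/-- the state after `n` steps from `(x, y)` -/
def stE (x y : ℝ) (n : ℕ) : ℝ × ℝ := stepE^[n] (x, y)

/-- the weight sequence of `E(x, y)` (zero after it ends) -/
def wt (x y : ℝ) (n : ℕ) : ℝ := min (stE x y n).1 (stE x y n).2

end Ellipsoid

section Target

variable {U : Type*}

/-- the capacities attached to a target with weights `(b; β)` -/
def capW (b : ℝ) (β : U → ℝ) (k : ℕ) : ℝ :=
  sInf {L : ℝ | ∃ (S : Finset U) (C : ℤ × (U → ℤ)), 0 ≤ C.1 ∧ 2 * (k : ℤ) ≤ idx S C ∧
    L = Bf S (b, β) (toR C)}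

end Target

section Geometry

/-- the index set of the weights of a convex set: a root cone and a path in its Farey tree -/
abbrev Node := Fin 3 × List Bool

/-- the three root pairs of normals -/
def rootPair : Fin 3 → (ℤ × ℤ) × (ℤ × ℤ)
  | 0 => ((1, 1), (-1, 0))
  | 1 => ((-1, 0), (0, -1))
  | 2 => ((0, -1), (1, 1))

/-- the pair of normals of a node; the head of the list is the last step -/
def pairOf (i : Fin 3) : List Bool → (ℤ × ℤ) × (ℤ × ℤ)
  | [] => rootPair i
  | true :: l => ((pairOf i l).1, (pairOf i l).1 + (pairOf i l).2)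
  | false :: l => ((pairOf i l).1 + (pairOf i l).2, (pairOf i l).2)

/-- the size of the circumscribed standard triangle -/
def bK (K : Set (ℝ × ℝ)) : ℝ := suppF K (1, 1) + suppF K (-1, 0) + suppF K (0, -1)

/-- the negative weights of a convex set: sizes of the corners cut off -/
def wK (K : Set (ℝ × ℝ)) (u : Node) : ℝ :=
  suppF K (pairOf u.1 u.2).1 + suppF K (pairOf u.1 u.2).2
    - suppF K ((pairOf u.1 u.2).1 + (pairOf u.1 u.2).2)

end Geometry

end Pool.Agent.Helper416_Stair
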