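import Pool.Agent.Helper416_Stair.GeoA

/-!
# Affine perimeter as three times the degree minus the sum of the weights
-/

noncomputable section

open scoped BigOperators Pointwise

namespace Pool.Agent.Helper416_Stair



/-
JOB GEO-C (helper416, MP_f690a7_gt).  The affine perimeter is `3 bK - ∑ wK`.

Plain proof.  `h = suppF K`, `x v ∈ K` a maximiser of `v·x`; for a pair `(v,w)` of the tree `s(v,w) = h w - w·x v ≥ 0`,
`t(v,w) = h v - v·x w ≥ 0`, `β = h v + h w - h(v+w) = wK`.  For the children `s(v,v+w) = s - β`,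
`t(v,v+w)+s(v+w,w) = β`, `t(v+w,w) = t - β`; hence `Ψ_n = ∑_{level n} (s + t) = 3 bK - ∑_{level < n} wK`  (at level 0
`Ψ_0 = 3 bK`, the three root vectors sum to 0).  Group the terms of `Ψ_n` by vectors: `Ψ_n = ∑_v ℓ_n(v)`, `v` over the
vectors occurring in level-`n` pairs, `ℓ_n(v) = s(v,w⁺) + t(w⁻,v)` with `w⁺, w⁻` the neighbours of `v` at level `n`.
As `n → ∞` the neighbours of a fixed `v` are `w⁺ = w₀⁺ + n v`, `w⁻ = w₀⁻ + n v` (eventually), with `det(v, w⁺) = 1`,
`det(w⁻, v) = 1`, and `h(w₀ + n v) - (w₀ + n v)·x v → max_{F_v} w₀·y - w₀·x v`, `F_v` the face of maximisers of `v`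
(a standard compactness argument), so `ℓ_n(v) → faceLen K v` (decreasing in `n`).
Uniform tail: `K` contains a disc of radius `r` about some `y₀`, so `h v - v·y₀ ≥ r |v|`; the same telescoping with
`g v = h v - v·y₀ ≥ 0` gives `∑_v ℓ_n(v) g v = Ψ_n(g) ≤ Ψ_0(g) = bK · (g(1,1)+g(-1,0)+g(0,-1)) = bK²` (each step subtracts
`wK · defect g ≥ 0`, `defect g = wK`), hence the vectors with `|v| ≥ R` contribute at most `bK²/(r R)` to `Ψ_n` for every `n`.
So `lim Ψ_n = ∑_v faceLen K v` over primitive `v`; every primitive vector occurs in the tree (as a root vector or as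
`v + w` for a unique node).  Note `faceLen K v ≥ 0` always (t = 0 is allowed), it is bounded since `K` is bounded.
You may assume job GEO-A below.
-/









/-! ### auxiliary lemmas for `geoC` -/

/-- the linear functional `v · x` -/
def geoC_dot (v : ℤ × ℤ) (x : ℝ × ℝ) : ℝ := (v.1 : ℝ) * x.1 + (v.2 : ℝ) * x.2

lemma geoC_dot_cont (v : ℤ × ℤ) : Continuous (geoC_dot v) := by
  unfold geoC_dot; fun_prop

lemma geoC_dot_add (v w : ℤ × ℤ) (x : ℝ × ℝ) :
    geoC_dot (v + w) x = geoC_dot v x + geoC_dot w x := by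
  simp only [geoC_dot, Prod.fst_add, Prod.snd_add, Int.cast_add]; ring

lemma geoC_dot_nsmul (j : ℕ) (v : ℤ × ℤ) (x : ℝ × ℝ) :
    geoC_dot (j • v) x = j * geoC_dot v x := by
  have h1 : (j • v).1 = j * v.1 := by rw [Prod.smul_fst, nsmul_eq_mul]
  have h2 : (j • v).2 = j * v.2 := by rw [Prod.smul_snd, nsmul_eq_mul]
  rw [geoC_dot, h1, h2, geoC_dot]
  push_cast
  ring

lemma geoC_max {K : Set (ℝ × ℝ)} (hK : IsCompact K) (hne : K.Nonempty) (v : ℤ × ℤ) :
    ∃ x ∈ K, geoC_dot v x = suppF K v := by
  obtain ⟨x, hx, hm⟩ := hK.exists_isMaxOn hne (geoC_dot_cont v).continuousOn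
  refine ⟨x, hx, ?_⟩
  have : IsGreatest (geoC_dot v '' K) (geoC_dot v x) :=
    ⟨Set.mem_image_of_mem _ hx, by rintro _ ⟨y, hy, rfl⟩; exact hm hy⟩
  exact this.csSup_eq.symm

lemma geoC_le {K : Set (ℝ × ℝ)} (hK : IsCompact K) (v : ℤ × ℤ) {x : ℝ × ℝ} (hx : x ∈ K) :
    geoC_dot v x ≤ suppF K v := by
  have hb : BddAbove (geoC_dot v '' K) :=
    (hK.image (geoC_dot_cont v)).bddAbove
  exact le_csSup hb (Set.mem_image_of_mem _ hx)

lemma geoC_sub {K : Set (ℝ × ℝ)} (hK : IsCompact K) (hne : K.Nonempty) (v w : ℤ × ℤ) :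
    suppF K (v + w) ≤ suppF K v + suppF K w := by
  obtain ⟨x, hx, h⟩ := geoC_max hK hne (v + w)
  rw [← h, geoC_dot_add]
  exact add_le_add (geoC_le hK v hx) (geoC_le hK w hx)

/-- one-sided limit -/
lemma geoC_lim1 {K : Set (ℝ × ℝ)} (hK : IsCompact K) (hne : K.Nonempty) (y q : ℤ × ℤ) :
    ∃ M : ℝ, (∃ z ∈ K, geoC_dot y z = suppF K y ∧ geoC_dot q z = M) ∧
      (∀ z ∈ K, geoC_dot y z = suppF K y → geoC_dot q z ≤ M) ∧
      Filter.Tendsto (fun j : ℕ => suppF K (q + j • y) - j * suppF K y) Filter.atTop (nhds M) := by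
  set F : Set (ℝ × ℝ) := K ∩ {z | geoC_dot y z = suppF K y} with hF
  have hFc : IsCompact F := hK.inter_right (isClosed_eq (geoC_dot_cont y) continuous_const)
  have hFne : F.Nonempty := by
    obtain ⟨x, hx, h⟩ := geoC_max hK hne y
    exact ⟨x, hx, h⟩
  obtain ⟨z, hz, hm⟩ := hFc.exists_isMaxOn hFne (geoC_dot_cont q).continuousOn
  refine ⟨geoC_dot q z, ⟨z, hz.1, hz.2, rfl⟩, fun z' h1 h2 => hm ⟨h1, h2⟩, ?_⟩
  set M := geoC_dot q z with hM
  have hlow : ∀ j : ℕ, M ≤ suppF K (q + j • y) - j * suppF K y := by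
    intro j
    have h1 := geoC_le hK (q + j • y) hz.1
    rw [geoC_dot_add, geoC_dot_nsmul] at h1
    have h2 : geoC_dot y z = suppF K y := hz.2
    rw [h2] at h1
    linarith
  rw [Metric.tendsto_atTop]
  intro ε hε
  let t : ℕ → Set (ℝ × ℝ) := fun j =>
    {z | M + ε / 2 ≤ geoC_dot q z - j * (suppF K y - geoC_dot y z)}
  have htc : ∀ j, IsClosed (t j) := by
    intro j
    refine isClosed_le continuous_const ?_
    exact (geoC_dot_cont q).sub (continuous_const.mul (continuous_const.sub (geoC_dot_cont y)))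
  obtain ⟨j0, hj0⟩ := hK.elim_directed_family_closed (fun j => K ∩ t j)
    (fun j => hK.isClosed.inter (htc j)) (by
      rw [Set.eq_empty_iff_forall_notMem]
      rintro z' ⟨hz'K, hz'⟩
      rw [Set.mem_iInter] at hz'
      have hle := geoC_le hK y hz'K
      have hall : ∀ j : ℕ, (j : ℝ) * (suppF K y - geoC_dot y z') ≤ geoC_dot q z' - M - ε / 2 := by
        intro j
        have h3 : M + ε / 2 ≤ geoC_dot q z' - j * (suppF K y - geoC_dot y z') := (hz' j).2
        linarith
      have heq : geoC_dot y z' = suppF K y := by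
        by_contra hcon
        have hpos : 0 < suppF K y - geoC_dot y z' := by
          rcases hle.lt_or_eq with h | h
          · linarith
          · exact absurd h hcon
        obtain ⟨n, hn⟩ := exists_nat_gt ((geoC_dot q z' - M - ε / 2) / (suppF K y - geoC_dot y z'))
        rw [div_lt_iff₀ hpos] at hn
        have := hall n
        linarith
      have h4 := hall 0
      have h5 : geoC_dot q z' ≤ M := hm ⟨hz'K, heq⟩
      simp at h4
      linarith) (by
      refine directed_of_isDirected_le ?_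
      intro i j hij z' hz'
      refine ⟨hz'.1, ?_⟩
      have hle := geoC_le hK y hz'.1
      have h3 : M + ε / 2 ≤ geoC_dot q z' - j * (suppF K y - geoC_dot y z') := hz'.2
      have hij' : (i : ℝ) ≤ j := by exact_mod_cast hij
      change M + ε / 2 ≤ geoC_dot q z' - i * (suppF K y - geoC_dot y z')
      nlinarith)
  refine ⟨j0, fun j hj => ?_⟩
  obtain ⟨x, hx, hmax⟩ := geoC_max hK hne (q + j • y)
  have h1 : ¬ (M + ε / 2 ≤ geoC_dot q x - j0 * (suppF K y - geoC_dot y x)) := by
    intro h
    have : x ∈ K ∩ (K ∩ t j0) := ⟨hx, hx, h⟩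
    rw [hj0] at this
    exact this
  push Not at h1
  have hle := geoC_le hK y hx
  have hj' : (j0 : ℝ) ≤ j := by exact_mod_cast hj
  rw [geoC_dot_add, geoC_dot_nsmul] at hmax
  have h2 : suppF K (q + j • y) - j * suppF K y < M + ε / 2 := by
    rw [← hmax]
    nlinarith
  rw [Real.dist_eq, abs_lt]
  constructor
  · linarith [hlow j]
  · linarith

/-- the limit of the two-sided expression is the length of the face -/
lemma geoC_lim {K : Set (ℝ × ℝ)} (hK : IsCompact K) (hne : K.Nonempty) (y p q : ℤ × ℤ) (m : ℤ)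
    (hdet : y.1 * q.2 - y.2 * q.1 = 1) (hpq1 : p.1 + q.1 = m * y.1)
    (hpq2 : p.2 + q.2 = m * y.2) :
    Filter.Tendsto (fun j : ℕ => suppF K (q + j • y) + suppF K (p + j • y) -
      (2 * j + m) * suppF K y) Filter.atTop (nhds (faceLen K y)) := by
  obtain ⟨M, ⟨z, hzK, hz1, hz2⟩, hM, hlim⟩ := geoC_lim1 hK hne y q
  obtain ⟨N, ⟨z', hzK', hz1', hz2'⟩, hN, hlim'⟩ := geoC_lim1 hK hne y p
  have hsum : ∀ x : ℝ × ℝ, geoC_dot p x + geoC_dot q x = m * geoC_dot y x := by
    intro x
    have h1 : (p.1 : ℝ) + q.1 = m * y.1 := by exact_mod_cast hpq1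
    have h2 : (p.2 : ℝ) + q.2 = m * y.2 := by exact_mod_cast hpq2
    simp only [geoC_dot]
    linear_combination x.1 * h1 + x.2 * h2
  have hdet' : (y.1 : ℝ) * q.2 - y.2 * q.1 = 1 := by exact_mod_cast hdet
  have hface : faceLen K y = M + N - m * suppF K y := by
    refine IsGreatest.csSup_eq ⟨?_, ?_⟩
    · -- attained
      refine ⟨z', hzK', hz1', ?_⟩
      have h1 : geoC_dot q z' = m * suppF K y - N := by
        have := hsum z'
        rw [hz1', hz2'] at this
        linarith
      have hy : geoC_dot y z = geoC_dot y z' := by rw [hz1, hz1']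
      have e1 : z'.1 - (M + N - m * suppF K y) * y.2 = z.1 := by
        have hT : M + N - m * suppF K y = geoC_dot q z - geoC_dot q z' := by rw [hz2, h1]; ring
        rw [hT]
        simp only [geoC_dot] at hy ⊢
        linear_combination (-q.2 : ℝ) * hy + (z.1 - z'.1) * hdet'
      have e2 : z'.2 + (M + N - m * suppF K y) * y.1 = z.2 := by
        have hT : M + N - m * suppF K y = geoC_dot q z - geoC_dot q z' := by rw [hz2, h1]; ring
        rw [hT]
        simp only [geoC_dot] at hy ⊢
        linear_combination (q.1 : ℝ) * hy + (z.2 - z'.2) * hdet'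
      rw [e1, e2]
      exact hzK
    · rintro t ⟨x, hx, hxy, hx'⟩
      have hxy' : geoC_dot y x = suppF K y := hxy
      have h1 : geoC_dot y (x.1 - t * y.2, x.2 + t * y.1) = suppF K y := by
        rw [← hxy']
        simp only [geoC_dot]
        ring
      have h2 := hM _ hx' h1
      have h3 := hN _ hx hxy'
      have h4 := hsum x
      rw [hxy'] at h4
      have h5 : geoC_dot q (x.1 - t * y.2, x.2 + t * y.1) = geoC_dot q x + t := by
        simp only [geoC_dot]
        linear_combination t * hdet'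
      rw [h5] at h2
      linarith
  rw [hface]
  have h := (hlim.add hlim').sub_const (m * suppF K y)
  refine h.congr fun j => ?_
  ring

/-! #### the tree, read from the root -/

/-- descend from the pair `P` along the path, the head being the first step -/
def geoC_desc : (ℤ × ℤ) × (ℤ × ℤ) → List Bool → (ℤ × ℤ) × (ℤ × ℤ)
  | P, [] => P
  | P, true :: l => geoC_desc (P.1, P.1 + P.2) l
  | P, false :: l => geoC_desc (P.1 + P.2, P.2) l

lemma geoC_desc_true (P : (ℤ × ℤ) × (ℤ × ℤ)) (l : List Bool) :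
    geoC_desc P (l ++ [true]) = ((geoC_desc P l).1, (geoC_desc P l).1 + (geoC_desc P l).2) := by
  induction l generalizing P with
  | nil => rfl
  | cons b l ih => cases b <;> exact ih _

lemma geoC_desc_false (P : (ℤ × ℤ) × (ℤ × ℤ)) (l : List Bool) :
    geoC_desc P (l ++ [false]) = ((geoC_desc P l).1 + (geoC_desc P l).2, (geoC_desc P l).2) := by
  induction l generalizing P with
  | nil => rfl
  | cons b l ih => cases b <;> exact ih _

lemma geoC_pairOf (i : Fin 3) (l : List Bool) :
    pairOf i l = geoC_desc (rootPair i) l.reverse := by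
  induction l with
  | nil => rfl
  | cons b l ih =>
    cases b
    · rw [List.reverse_cons, geoC_desc_false, ← ih]; rfl
    · rw [List.reverse_cons, geoC_desc_true, ← ih]; rfl

/-- determinant -/
def geoC_det (P : (ℤ × ℤ) × (ℤ × ℤ)) : ℤ := P.1.1 * P.2.2 - P.1.2 * P.2.1

lemma geoC_desc_det (P : (ℤ × ℤ) × (ℤ × ℤ)) (l : List Bool) (h : geoC_det P = 1) :
    geoC_det (geoC_desc P l) = 1 := by
  induction l generalizing P with
  | nil => exact h
  | cons b l ih =>
    cases b
    · refine ih _ ?_
      unfold geoC_det at h ⊢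
      simp only [Prod.fst_add, Prod.snd_add]
      linear_combination h
    · refine ih _ ?_
      unfold geoC_det at h ⊢
      simp only [Prod.fst_add, Prod.snd_add]
      linear_combination h

lemma geoC_root_det (i : Fin 3) : geoC_det (rootPair i) = 1 := by
  fin_cases i <;> simp [geoC_det, rootPair]

lemma geoC_mem_lists (n : ℕ) (l : List Bool) : l ∈ listsLT n ↔ l.length < n := by
  induction n generalizing l with
  | zero => simp [listsLT]
  | succ n ih =>
    simp only [listsLT, Finset.mem_insert, Finset.mem_union, Finset.mem_image]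
    cases l with
    | nil => simp
    | cons b l =>
      simp only [List.length_cons, Nat.add_lt_add_iff_right, ← ih]
      cases b <;> simp

lemma geoC_sum_lists (n : ℕ) (G : List Bool → ℝ) :
    ∑ l ∈ listsLT (n + 1), G l = G [] + (∑ l ∈ listsLT n, G (true :: l) +
      ∑ l ∈ listsLT n, G (false :: l)) := by
  have hdisj : Disjoint ((listsLT n).image (List.cons true))
      ((listsLT n).image (List.cons false)) := by
    rw [Finset.disjoint_left]
    intro l h1 h2
    simp only [Finset.mem_image] at h1 h2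
    obtain ⟨a, _, rfl⟩ := h1
    obtain ⟨b, _, hb⟩ := h2
    simp at hb
  have hnot : [] ∉ (listsLT n).image (List.cons true) ∪ (listsLT n).image (List.cons false) := by
    simp
  rw [listsLT, Finset.sum_insert hnot, Finset.sum_union hdisj,
    Finset.sum_image (fun a _ b _ h => (List.cons.inj h).2),
    Finset.sum_image (fun a _ b _ h => (List.cons.inj h).2)]

section tele

variable (h : ℤ × ℤ → ℝ)

/-- defect at a pair -/
def geoC_G (P : (ℤ × ℤ) × (ℤ × ℤ)) : ℝ := h P.1 + h P.2 - h (P.1 + P.2)

/-- the approximate face length at the new vector, `j` levels below -/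
def geoC_L (j : ℕ) (P : (ℤ × ℤ) × (ℤ × ℤ)) : ℝ :=
  h (P.2 + j • (P.1 + P.2)) + h (P.1 + j • (P.1 + P.2)) - (2 * j + 1) * h (P.1 + P.2)

/-- boundary terms -/
def geoC_B (n : ℕ) (P : (ℤ × ℤ) × (ℤ × ℤ)) : ℝ :=
  (h P.2 + n * h P.1 - h (P.2 + n • P.1)) + (h P.1 + n * h P.2 - h (P.1 + n • P.2))

lemma geoC_tele (n : ℕ) (P : (ℤ × ℤ) × (ℤ × ℤ)) :
    ∑ l ∈ listsLT n, (geoC_L h (n - 1 - l.length) (geoC_desc P l) + geoC_G h (geoC_desc P l)) =
      geoC_B h n P := by
  induction n generalizing P with
  | zero => simp [listsLT, geoC_B]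
  | succ n ih =>
    rw [geoC_sum_lists]
    have e1 : ∀ l : List Bool, n + 1 - 1 - (l.length + 1) = n - 1 - l.length := by
      intro l; omega
    simp only [List.length_cons, List.length_nil, geoC_desc, e1]
    rw [ih, ih]
    simp only [Nat.add_sub_cancel, Nat.sub_zero]
    unfold geoC_L geoC_G geoC_B
    simp only
    have a1 : P.1 + P.2 + n • P.1 = P.2 + (n + 1) • P.1 := by
      rw [add_smul, one_smul]; abel
    have a2 : P.1 + P.2 + n • P.2 = P.1 + (n + 1) • P.2 := by
      rw [add_smul, one_smul]; abel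
    rw [a1, a2]
    push_cast
    ring

end tele

/-! #### the enumeration of the primitive vectors -/

/-- coordinates of the new vector at the end of the path -/
def geoC_N : List Bool → ℤ × ℤ
  | [] => (1, 1)
  | true :: l => ((geoC_N l).1 + (geoC_N l).2, (geoC_N l).2)
  | false :: l => ((geoC_N l).1, (geoC_N l).1 + (geoC_N l).2)

lemma geoC_N_pos (l : List Bool) : 0 < (geoC_N l).1 ∧ 0 < (geoC_N l).2 := by
  induction l with
  | nil => simp [geoC_N]
  | cons b l ih => cases b <;> simp only [geoC_N] <;> omega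

lemma geoC_N_coprime (l : List Bool) : IsCoprime (geoC_N l).1 (geoC_N l).2 := by
  induction l with
  | nil => exact isCoprime_one_left
  | cons b l ih =>
    obtain ⟨s, t, h⟩ := ih
    cases b
    · exact ⟨s - t, t, by simp only [geoC_N]; linear_combination h⟩
    · exact ⟨s, t - s, by simp only [geoC_N]; linear_combination h⟩

lemma geoC_N_inj : Function.Injective geoC_N := by
  intro l
  induction l with
  | nil =>
    intro l' h
    cases l' with
    | nil => rfl
    | cons b l' =>
      have hp := geoC_N_pos l'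
      rw [Prod.ext_iff] at h
      cases b <;> simp only [geoC_N] at h <;> omega
  | cons b l ih =>
    intro l' h
    have hp := geoC_N_pos l
    cases l' with
    | nil =>
      rw [Prod.ext_iff] at h
      cases b <;> simp only [geoC_N] at h <;> omega
    | cons b' l' =>
      have hp' := geoC_N_pos l'
      rw [Prod.ext_iff] at h
      cases b <;> cases b' <;> simp only [geoC_N] at h
      · rw [ih (Prod.ext_iff.2 ⟨by omega, by omega⟩ : geoC_N l = geoC_N l')]
      · omega
      · omega
      · rw [ih (Prod.ext_iff.2 ⟨by omega, by omega⟩ : geoC_N l = geoC_N l')]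

lemma geoC_N_surj (n : ℕ) : ∀ a b : ℤ, 0 < a → 0 < b → a + b ≤ n → IsCoprime a b →
    ∃ l, geoC_N l = (a, b) := by
  induction n with
  | zero => intro a b ha hb hab _; omega
  | succ n ih =>
    intro a b ha hb hab hc
    rcases lt_trichotomy a b with h | h | h
    · obtain ⟨s, t, hst⟩ := hc
      obtain ⟨l, hl⟩ := ih a (b - a) ha (by omega) (by omega)
        ⟨s + t, t, by linear_combination hst⟩
      exact ⟨false :: l, by simp only [geoC_N, hl]; ext <;> simp⟩
    · subst h
      have : a = 1 := by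
        have := Int.isUnit_iff.1 (isCoprime_self.1 hc)
        omega
      exact ⟨[], by rw [this]; rfl⟩
    · obtain ⟨s, t, hst⟩ := hc
      obtain ⟨l, hl⟩ := ih (a - b) b (by omega) hb (by omega)
        ⟨s, s + t, by linear_combination hst⟩
      exact ⟨true :: l, by simp only [geoC_N, hl]; ext <;> simp⟩

lemma geoC_desc_sum (P : (ℤ × ℤ) × (ℤ × ℤ)) (l : List Bool) :
    (geoC_desc P l).1 + (geoC_desc P l).2 =
      ((geoC_N l).1 * P.1.1 + (geoC_N l).2 * P.2.1, (geoC_N l).1 * P.1.2 + (geoC_N l).2 * P.2.2) := by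
  induction l generalizing P with
  | nil => simp [geoC_desc, geoC_N, Prod.ext_iff]
  | cons b l ih =>
    cases b
    · simp only [geoC_desc, ih, geoC_N, Prod.fst_add, Prod.snd_add, Prod.mk.injEq]
      constructor <;> ring
    · simp only [geoC_desc, ih, geoC_N, Prod.fst_add, Prod.snd_add, Prod.mk.injEq]
      constructor <;> ring

/-- the enumeration: the roots, and the new vectors -/
def geoC_enum : Fin 3 ⊕ Node → ℤ × ℤ
  | Sum.inl i => (rootPair i).1
  | Sum.inr u => (geoC_desc (rootPair u.1) u.2).1 + (geoC_desc (rootPair u.1) u.2).2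

lemma geoC_enum_inr0 (l : List Bool) : geoC_enum (Sum.inr (0, l)) =
    ((geoC_N l).1 - (geoC_N l).2, (geoC_N l).1) := by
  simp only [geoC_enum, geoC_desc_sum, rootPair, Prod.mk.injEq]
  constructor <;> ring

lemma geoC_enum_inr1 (l : List Bool) : geoC_enum (Sum.inr (1, l)) =
    (-(geoC_N l).1, -(geoC_N l).2) := by
  simp only [geoC_enum, geoC_desc_sum, rootPair, Prod.mk.injEq]
  constructor <;> ring

lemma geoC_enum_inr2 (l : List Bool) : geoC_enum (Sum.inr (2, l)) =
    ((geoC_N l).2, (geoC_N l).2 - (geoC_N l).1) := by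
  simp only [geoC_enum, geoC_desc_sum, rootPair, Prod.mk.injEq]
  constructor <;> ring

lemma geoC_enum_coprime (s : Fin 3 ⊕ Node) : IsCoprime (geoC_enum s).1 (geoC_enum s).2 := by
  rcases s with i | ⟨i, l⟩
  · fin_cases i
    · exact ⟨1, 0, by simp [geoC_enum, rootPair]⟩
    · exact ⟨-1, 0, by simp [geoC_enum, rootPair]⟩
    · exact ⟨0, -1, by simp [geoC_enum, rootPair]⟩
  · obtain ⟨s, t, h⟩ := geoC_N_coprime l
    fin_cases i
    · refine ⟨-t, s + t, ?_⟩
      have e := geoC_enum_inr0 l
      simp only [Fin.zero_eta] at e ⊢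
      rw [e]
      linear_combination h
    · refine ⟨-s, -t, ?_⟩
      have e := geoC_enum_inr1 l
      simp only [Fin.mk_one] at e ⊢
      rw [e]
      linear_combination h
    · refine ⟨s + t, -s, ?_⟩
      have e := geoC_enum_inr2 l
      simp only [Fin.reduceFinMk] at e ⊢
      rw [e]
      linear_combination h

lemma geoC_enum_inj : Function.Injective geoC_enum := by
  intro s s' h
  rcases s with i | ⟨i, l⟩ <;> rcases s' with i' | ⟨i', l'⟩
  · fin_cases i <;> fin_cases i' <;> simp [geoC_enum, rootPair] at h ⊢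
  · exfalso
    have hp := geoC_N_pos l'
    fin_cases i <;> fin_cases i' <;>
      simp [geoC_enum, geoC_desc_sum, rootPair] at h <;> omega
  · exfalso
    have hp := geoC_N_pos l
    fin_cases i <;> fin_cases i' <;>
      simp [geoC_enum, geoC_desc_sum, rootPair] at h <;> omega
  · have hp := geoC_N_pos l
    have hp' := geoC_N_pos l'
    have key : i = i' ∧ geoC_N l = geoC_N l' := by
      rw [Prod.ext_iff]
      fin_cases i <;> fin_cases i' <;>
        simp [geoC_enum, geoC_desc_sum, rootPair] at h ⊢ <;> omega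
    rw [key.1, geoC_N_inj key.2]

lemma geoC_enum_surj (z : ℤ × ℤ) (hz : IsCoprime z.1 z.2) : ∃ s, geoC_enum s = z := by
  obtain ⟨s, t, hst⟩ := hz
  obtain ⟨x, y⟩ := z
  simp only at hst
  by_cases h0 : 0 < y ∧ x < y
  · obtain ⟨l, hl⟩ := geoC_N_surj (y + (y - x)).toNat y (y - x) h0.1 (by omega) (by omega)
      ⟨t + s, -s, by linear_combination hst⟩
    refine ⟨Sum.inr (0, l), ?_⟩
    rw [geoC_enum_inr0, hl]
    ext <;> simp
  by_cases h2 : 0 < x ∧ y < x
  · obtain ⟨l, hl⟩ := geoC_N_surj ((x - y) + x).toNat (x - y) x (by omega) h2.1 (by omega)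
      ⟨-t, s + t, by linear_combination hst⟩
    refine ⟨Sum.inr (2, l), ?_⟩
    rw [geoC_enum_inr2, hl]
    ext <;> simp
  by_cases h1 : x < 0 ∧ y < 0
  · obtain ⟨l, hl⟩ := geoC_N_surj ((-x) + (-y)).toNat (-x) (-y) (by omega) (by omega) (by omega)
      ⟨-s, -t, by linear_combination hst⟩
    refine ⟨Sum.inr (1, l), ?_⟩
    rw [geoC_enum_inr1, hl]
    ext <;> simp
  -- the remaining vectors are the roots
  have hcase : (x = y ∧ 0 < x) ∨ (x = 0 ∧ y < 0) ∨ (x < 0 ∧ y = 0) ∨ (x = 0 ∧ y = 0) := by omega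
  rcases hcase with ⟨h3, h4⟩ | ⟨h3, h4⟩ | ⟨h3, h4⟩ | ⟨h3, h4⟩
  · refine ⟨Sum.inl 0, ?_⟩
    subst h3
    have : x = 1 := by
      have h5 : x ∣ 1 := ⟨s + t, by linear_combination -hst⟩
      have := Int.isUnit_iff.1 (isUnit_of_dvd_one h5)
      omega
    subst this
    rfl
  · refine ⟨Sum.inl 2, ?_⟩
    subst h3
    have : y = -1 := by
      have h5 : y ∣ 1 := ⟨t, by linear_combination -hst⟩
      have := Int.isUnit_iff.1 (isUnit_of_dvd_one h5)
      omega
    subst this
    rfl
  · refine ⟨Sum.inl 1, ?_⟩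
    subst h4
    have : x = -1 := by
      have h5 : x ∣ 1 := ⟨s, by linear_combination -hst⟩
      have := Int.isUnit_iff.1 (isUnit_of_dvd_one h5)
      omega
    subst this
    rfl
  · subst h3 h4
    simp at hst

/-- the enumeration as an equivalence -/
def geoC_equiv : Fin 3 ⊕ Node ≃ {v : ℤ × ℤ // IsCoprime v.1 v.2} :=
  Equiv.ofBijective (fun s => ⟨geoC_enum s, geoC_enum_coprime s⟩) (by
    constructor
    · intro s s' h
      exact geoC_enum_inj (congrArg Subtype.val h)
    · rintro ⟨z, hz⟩
      obtain ⟨s, hs⟩ := geoC_enum_surj z hz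
      exact ⟨s, Subtype.ext hs⟩)

/-- reversing the paths -/
def geoC_rev : Node ≃ Node := Equiv.prodCongr (Equiv.refl _) (List.reverse_involutive.toPerm _)

lemma geoC_rev_apply (u : Node) : geoC_rev u = (u.1, u.2.reverse) := rfl

/-- TARGET -/
theorem geoC (K : Set (ℝ × ℝ)) (hK : IsCompact K) (hc : Convex ℝ K)
    (hint : (interior K).Nonempty) :
    HasSum (fun v : {v : ℤ × ℤ // IsCoprime v.1 v.2} => faceLen K v.1)
      (3 * bK K - ∑' u, wK K u) := by
  have hne : K.Nonempty := hint.mono interior_subset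
  obtain ⟨hw0, _, hwsum, _, _⟩ := geoA K hK hne
  set h := suppF K with hh
  -- the pair at a node, read from the root
  set Q : Node → (ℤ × ℤ) × (ℤ × ℤ) := fun u => geoC_desc (rootPair u.1) u.2 with hQ
  have hwQ : ∀ u : Node, wK K (geoC_rev u) = geoC_G h (Q u) := by
    intro u
    simp only [wK, geoC_rev_apply, geoC_pairOf, List.reverse_reverse, geoC_G, hQ, hh]
  have hG0 : ∀ u, 0 ≤ geoC_G h (Q u) := fun u => by rw [← hwQ]; exact hw0 _
  have hGsum : Summable (fun u => geoC_G h (Q u)) := by
    have := (Equiv.summable_iff geoC_rev).2 hwsum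
    refine this.congr fun u => ?_
    exact hwQ u
  have hGt : ∑' u, geoC_G h (Q u) = ∑' u, wK K u := by
    rw [← geoC_rev.tsum_eq (wK K)]
    exact tsum_congr fun u => (hwQ u).symm
  have hQdet : ∀ u : Node, geoC_det (Q u) = 1 := fun u =>
    geoC_desc_det _ _ (geoC_root_det u.1)
  -- the new vector
  set X : Node → ℤ × ℤ := fun u => (Q u).1 + (Q u).2 with hX
  have hLlim : ∀ u, Filter.Tendsto (fun j : ℕ => geoC_L h j (Q u)) Filter.atTop
      (nhds (faceLen K (X u))) := by
    intro u
    have hd := hQdet u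
    unfold geoC_det at hd
    have := geoC_lim hK hne (X u) (Q u).1 (Q u).2 1 (by
      simp only [hX, Prod.fst_add, Prod.snd_add]
      linear_combination hd) (by simp [hX]) (by simp [hX])
    refine this.congr fun j => ?_
    simp only [geoC_L, hX, Int.cast_one, hh]
  have hLle : ∀ (j : ℕ) u, geoC_L h j (Q u) ≤ geoC_G h (Q u) := by
    intro j u
    induction j with
    | zero =>
      simp only [geoC_L, geoC_G, zero_smul, add_zero, Nat.cast_zero]
      linarith
    | succ j ih =>
      refine le_trans ?_ ih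
      simp only [geoC_L]
      have e1 : (Q u).2 + (j + 1) • ((Q u).1 + (Q u).2) =
          ((Q u).2 + j • ((Q u).1 + (Q u).2)) + ((Q u).1 + (Q u).2) := by
        rw [add_smul, one_smul]; abel
      have e2 : (Q u).1 + (j + 1) • ((Q u).1 + (Q u).2) =
          ((Q u).1 + j • ((Q u).1 + (Q u).2)) + ((Q u).1 + (Q u).2) := by
        rw [add_smul, one_smul]; abel
      have s1 := geoC_sub hK hne ((Q u).2 + j • ((Q u).1 + (Q u).2)) ((Q u).1 + (Q u).2)
      have s2 := geoC_sub hK hne ((Q u).1 + j • ((Q u).1 + (Q u).2)) ((Q u).1 + (Q u).2)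
      rw [e1, e2]
      push_cast
      simp only [hh]
      linarith
  have hface0 : ∀ v, 0 ≤ faceLen K v := by
    intro v
    by_cases hb : BddAbove {t : ℝ | ∃ x ∈ K, (v.1 : ℝ) * x.1 + (v.2 : ℝ) * x.2 = suppF K v ∧
        (x.1 - t * v.2, x.2 + t * v.1) ∈ K}
    · obtain ⟨x, hx, hxm⟩ := geoC_max hK hne v
      exact le_csSup hb ⟨x, hx, hxm, by simpa using hx⟩
    · unfold faceLen
      rw [Real.sSup_of_not_bddAbove hb]
  have hLpos : ∀ (j : ℕ) u, 0 ≤ geoC_L h j (Q u) := by
    intro j u
    -- decreasing to a nonnegative limit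
    have hanti : Antitone (fun j : ℕ => geoC_L h j (Q u)) := by
      refine antitone_nat_of_succ_le fun j => ?_
      simp only [geoC_L]
      have e1 : (Q u).2 + (j + 1) • ((Q u).1 + (Q u).2) =
          ((Q u).2 + j • ((Q u).1 + (Q u).2)) + ((Q u).1 + (Q u).2) := by
        rw [add_smul, one_smul]; abel
      have e2 : (Q u).1 + (j + 1) • ((Q u).1 + (Q u).2) =
          ((Q u).1 + j • ((Q u).1 + (Q u).2)) + ((Q u).1 + (Q u).2) := by
        rw [add_smul, one_smul]; abel
      have s1 := geoC_sub hK hne ((Q u).2 + j • ((Q u).1 + (Q u).2)) ((Q u).1 + (Q u).2)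
      have s2 := geoC_sub hK hne ((Q u).1 + j • ((Q u).1 + (Q u).2)) ((Q u).1 + (Q u).2)
      rw [e1, e2]
      push_cast
      simp only [hh]
      linarith
    exact (hface0 _).trans (hanti.le_of_tendsto (hLlim u) j)
  -- dominated convergence
  let f : ℕ → Node → ℝ := fun n u =>
    if u.2.length < n then geoC_L h (n - 1 - u.2.length) (Q u) + geoC_G h (Q u) else 0
  have hf_lim : ∀ u, Filter.Tendsto (fun n => f n u) Filter.atTop
      (nhds (faceLen K (X u) + geoC_G h (Q u))) := by
    intro u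
    have h1 : Filter.Tendsto (fun n : ℕ => n - 1 - u.2.length) Filter.atTop Filter.atTop := by
      refine Filter.tendsto_atTop.2 fun b => ?_
      filter_upwards [Filter.eventually_ge_atTop (b + 1 + u.2.length)] with n hn
      omega
    have h2 := ((hLlim u).comp h1).add_const (geoC_G h (Q u))
    refine h2.congr' ?_
    filter_upwards [Filter.eventually_gt_atTop u.2.length] with n hn
    simp only [f, if_pos hn, Function.comp_apply]
  have hf_bound : ∀ n u, ‖f n u‖ ≤ 2 * geoC_G h (Q u) := by
    intro n u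
    simp only [f]
    split_ifs with hn
    · rw [Real.norm_eq_abs, abs_of_nonneg (add_nonneg (hLpos _ _) (hG0 _))]
      linarith [hLle (n - 1 - u.2.length) u]
    · rw [norm_zero]
      exact mul_nonneg zero_le_two (hG0 u)
  have hdct := tendsto_tsum_of_dominated_convergence (hGsum.mul_left 2) hf_lim
    (Filter.Eventually.of_forall hf_bound)
  have hf_sum : ∀ n, ∑' u, f n u = ∑ i : Fin 3, geoC_B h n (rootPair i) := by
    intro n
    rw [tsum_eq_sum (s := nodesLT n)]
    · rw [nodesLT, Finset.sum_product]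
      refine Finset.sum_congr rfl fun i _ => ?_
      rw [← geoC_tele]
      refine Finset.sum_congr rfl fun l hl => ?_
      simp only [f, hQ, if_pos ((geoC_mem_lists n l).1 hl)]
    · intro u hu
      have : ¬ u.2.length < n := by
        intro h'
        apply hu
        simp only [nodesLT, Finset.mem_product, Finset.mem_univ, true_and]
        exact (geoC_mem_lists n u.2).2 h'
      simp only [f, if_neg this]
  simp only [hf_sum] at hdct
  -- the roots
  have hroot : Filter.Tendsto (fun n : ℕ => ∑ i : Fin 3, geoC_B h n (rootPair i)) Filter.atTop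
      (nhds (3 * bK K - ∑ i : Fin 3, faceLen K (rootPair i).1)) := by
    have r0 := geoC_lim hK hne (1, 1) (0, -1) (-1, 0) (-1) (by norm_num) (by norm_num)
      (by norm_num)
    have r1 := geoC_lim hK hne (-1, 0) (1, 1) (0, -1) (-1) (by norm_num) (by norm_num)
      (by norm_num)
    have r2 := geoC_lim hK hne (0, -1) (-1, 0) (1, 1) (-1) (by norm_num) (by norm_num)
      (by norm_num)
    have r := ((r0.add r1).add r2).const_sub (3 * bK K)
    simp only [Fin.sum_univ_three, rootPair]
    refine r.congr fun n => ?_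
    simp only [geoC_B, bK, hh]
    push_cast
    ring
  have hfin := tendsto_nhds_unique hdct hroot
  have hfsum : Summable (fun u => faceLen K (X u)) := by
    refine Summable.of_nonneg_of_le (fun u => hface0 _) (fun u => ?_) hGsum
    exact le_of_tendsto (hLlim u) (Filter.Eventually.of_forall fun j => hLle j u)
  rw [hfsum.tsum_add hGsum, hGt] at hfin
  -- transfer
  rw [← Equiv.hasSum_iff geoC_equiv]
  have hs1 : HasSum (((fun v : {v : ℤ × ℤ // IsCoprime v.1 v.2} => faceLen K v.1) ∘ geoC_equiv) ∘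
      Sum.inl) (∑ i : Fin 3, faceLen K (rootPair i).1) := hasSum_fintype _
  have hs2 : HasSum (((fun v : {v : ℤ × ℤ // IsCoprime v.1 v.2} => faceLen K v.1) ∘ geoC_equiv) ∘
      Sum.inr) (∑' u, faceLen K (X u)) := hfsum.hasSum
  have := hs1.sum hs2
  convert! this using 1
  linarith


end Pool.Agent.Helper416_Stair
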