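import Pool.Agent.Helper416_Stair.GeoB

/-!
# Area and lattice point formulas
-/

noncomputable section

open scoped BigOperators Pointwise

namespace Pool.Agent.Helper416_Stair



/-
JOB GEO-B2 (helper416, MP_f690a7_gt).  Area and lattice point formulas from the decomposition.

Plain proof.  Area: `tri K` is a right triangle with legs `bK K` (area `bK²/2`); a unimodular affine change of
coordinates `a = h v - v·x`, `c = h w - w·x` (determinant 1) takes `Tnode K u` to `{a ≥ 0, c ≥ 0, a + c < wK K u}`, of area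
`wK²/2`.  Everything is measurable, so `bK²/2 - area K = ∑ wK²/2` by countable additivity.
Lattice points: for `K = latHull P` all `suppF K v` are integers (attained at points of `P`), and `wK K u = 0` for all but
finitely many nodes: the lattice points of `tri K` are finitely many and each nonempty `Tnode` with integral data contains a
lattice point (the vertex where `a = c = 0`), and the `Tnode`s are disjoint.  `tri K` has `(b+1)(b+2)/2` lattice points
and `Tnode K u` has `m(m+1)/2`, `m = wK K u`, because the change of coordinates is a bijection of `ℤ²`.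
Hence `2 (latPts K) = (b+1)(b+2) - ∑ m(m+1)`, i.e. `idx S C = 2 (latPts K - 1)`.
-/










/-! ### auxiliary facts: support functions -/

theorem aux27_bdd (K : Set (ℝ × ℝ)) (hK : IsCompact K) (v : ℤ × ℤ) :
    BddAbove ((fun x : ℝ × ℝ => (v.1 : ℝ) * x.1 + (v.2 : ℝ) * x.2) '' K) :=
  (hK.image (by fun_prop)).bddAbove

theorem aux27_le (K : Set (ℝ × ℝ)) (hK : IsCompact K) (v : ℤ × ℤ) {x : ℝ × ℝ} (hx : x ∈ K) :
    (v.1 : ℝ) * x.1 + (v.2 : ℝ) * x.2 ≤ suppF K v :=
  le_csSup (aux27_bdd K hK v) ⟨x, hx, rfl⟩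

theorem aux27_sub (K : Set (ℝ × ℝ)) (hK : IsCompact K) (hne : K.Nonempty) (v w : ℤ × ℤ) :
    suppF K (v + w) ≤ suppF K v + suppF K w := by
  apply csSup_le (hne.image _)
  rintro _ ⟨x, hx, rfl⟩
  have h1 := aux27_le K hK v hx
  have h2 := aux27_le K hK w hx
  simp only [Prod.fst_add, Prod.snd_add, Int.cast_add]
  linarith

theorem aux27_wK_nonneg (K : Set (ℝ × ℝ)) (hK : IsCompact K) (hne : K.Nonempty) (u : Node) :
    0 ≤ wK K u := by
  have := aux27_sub K hK hne (pairOf u.1 u.2).1 (pairOf u.1 u.2).2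
  unfold wK
  linarith

theorem aux27_bK_nonneg (K : Set (ℝ × ℝ)) (hK : IsCompact K) (hne : K.Nonempty) :
    0 ≤ bK K := by
  obtain ⟨x, hx⟩ := hne
  have h1 := aux27_le K hK (1, 1) hx
  have h2 := aux27_le K hK (-1, 0) hx
  have h3 := aux27_le K hK (0, -1) hx
  unfold bK
  norm_num at h1 h2 h3
  linarith

/-! ### areas -/

theorem aux27_meas3 {p q r : ℝ × ℝ → Prop} (hp : MeasurableSet {x | p x})
    (hq : MeasurableSet {x | q x}) (hr : MeasurableSet {x | r x}) :
    MeasurableSet {x | p x ∧ q x ∧ r x} := by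
  have : {x | p x ∧ q x ∧ r x} = {x | p x} ∩ ({x | q x} ∩ {x | r x}) := by
    ext x; simp
  rw [this]
  exact hp.inter (hq.inter hr)

/-- area of the half open triangle in standard position -/
theorem aux27_vol_std_lt (m : ℝ) (hm : 0 ≤ m) :
    MeasureTheory.volume {x : ℝ × ℝ | 0 ≤ x.1 ∧ 0 ≤ x.2 ∧ x.1 + x.2 < m}
      = ENNReal.ofReal (m ^ 2 / 2) := by
  have hmeas : MeasurableSet {x : ℝ × ℝ | 0 ≤ x.1 ∧ 0 ≤ x.2 ∧ x.1 + x.2 < m} := by
    exact aux27_meas3 (measurableSet_le (by fun_prop) (by fun_prop))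
      (measurableSet_le (by fun_prop) (by fun_prop)) (measurableSet_lt (by fun_prop) (by fun_prop))
  rw [MeasureTheory.Measure.volume_eq_prod, MeasureTheory.Measure.prod_apply hmeas]
  have h1 : (fun x : ℝ => MeasureTheory.volume (Prod.mk x ⁻¹'
      {x : ℝ × ℝ | 0 ≤ x.1 ∧ 0 ≤ x.2 ∧ x.1 + x.2 < m}))
      = (Set.Icc 0 m).indicator (fun x => ENNReal.ofReal (m - x)) := by
    funext x
    by_cases hx : x ∈ Set.Icc 0 m
    · rw [Set.indicator_of_mem hx]
      have : (Prod.mk x ⁻¹' {x : ℝ × ℝ | 0 ≤ x.1 ∧ 0 ≤ x.2 ∧ x.1 + x.2 < m}) = Set.Ico 0 (m - x) := by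
        ext y
        simp only [Set.mem_preimage, Set.mem_ofPred_eq, Set.mem_Ico]
        constructor
        · rintro ⟨_, h2, h3⟩; exact ⟨h2, by linarith⟩
        · rintro ⟨h2, h3⟩; exact ⟨hx.1, h2, by linarith⟩
      rw [this, Real.volume_Ico, sub_zero]
    · rw [Set.indicator_of_notMem hx]
      have : (Prod.mk x ⁻¹' {x : ℝ × ℝ | 0 ≤ x.1 ∧ 0 ≤ x.2 ∧ x.1 + x.2 < m}) = ∅ := by
        ext y
        simp only [Set.mem_preimage, Set.mem_ofPred_eq, Set.mem_empty_iff_false, iff_false]
        rintro ⟨h1, h2, h3⟩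
        exact hx ⟨h1, by linarith⟩
      rw [this, MeasureTheory.measure_empty]
  rw [h1, MeasureTheory.lintegral_indicator measurableSet_Icc,
    ← MeasureTheory.ofReal_integral_eq_lintegral_ofReal]
  · congr 1
    rw [MeasureTheory.integral_Icc_eq_integral_Ioc, ← intervalIntegral.integral_of_le hm,
      intervalIntegral.integral_sub (by simp) (by simp), intervalIntegral.integral_const, integral_id]
    simp only [smul_eq_mul]
    ring
  · exact (continuous_const.sub continuous_id).integrableOn_Icc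
  · filter_upwards [MeasureTheory.ae_restrict_mem measurableSet_Icc] with x hx
    simp only [Pi.zero_apply]
    linarith [hx.2]

/-- area of the closed triangle in standard position -/
theorem aux27_vol_std_le (m : ℝ) (hm : 0 ≤ m) :
    MeasureTheory.volume {x : ℝ × ℝ | 0 ≤ x.1 ∧ 0 ≤ x.2 ∧ x.1 + x.2 ≤ m}
      = ENNReal.ofReal (m ^ 2 / 2) := by
  have hmeas : MeasurableSet {x : ℝ × ℝ | 0 ≤ x.1 ∧ 0 ≤ x.2 ∧ x.1 + x.2 ≤ m} := by
    exact aux27_meas3 (measurableSet_le (by fun_prop) (by fun_prop))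
      (measurableSet_le (by fun_prop) (by fun_prop)) (measurableSet_le (by fun_prop) (by fun_prop))
  rw [MeasureTheory.Measure.volume_eq_prod, MeasureTheory.Measure.prod_apply hmeas]
  have h1 : (fun x : ℝ => MeasureTheory.volume (Prod.mk x ⁻¹'
      {x : ℝ × ℝ | 0 ≤ x.1 ∧ 0 ≤ x.2 ∧ x.1 + x.2 ≤ m}))
      = (Set.Icc 0 m).indicator (fun x => ENNReal.ofReal (m - x)) := by
    funext x
    by_cases hx : x ∈ Set.Icc 0 m
    · rw [Set.indicator_of_mem hx]
      have : (Prod.mk x ⁻¹' {x : ℝ × ℝ | 0 ≤ x.1 ∧ 0 ≤ x.2 ∧ x.1 + x.2 ≤ m}) = Set.Icc 0 (m - x) := by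
        ext y
        simp only [Set.mem_preimage, Set.mem_ofPred_eq, Set.mem_Icc]
        constructor
        · rintro ⟨_, h2, h3⟩; exact ⟨h2, by linarith⟩
        · rintro ⟨h2, h3⟩; exact ⟨hx.1, h2, by linarith⟩
      rw [this, Real.volume_Icc, sub_zero]
    · rw [Set.indicator_of_notMem hx]
      have : (Prod.mk x ⁻¹' {x : ℝ × ℝ | 0 ≤ x.1 ∧ 0 ≤ x.2 ∧ x.1 + x.2 ≤ m}) = ∅ := by
        ext y
        simp only [Set.mem_preimage, Set.mem_ofPred_eq, Set.mem_empty_iff_false, iff_false]
        rintro ⟨h1, h2, h3⟩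
        exact hx ⟨h1, by linarith⟩
      rw [this, MeasureTheory.measure_empty]
  rw [h1, MeasureTheory.lintegral_indicator measurableSet_Icc,
    ← MeasureTheory.ofReal_integral_eq_lintegral_ofReal]
  · congr 1
    rw [MeasureTheory.integral_Icc_eq_integral_Ioc, ← intervalIntegral.integral_of_le hm,
      intervalIntegral.integral_sub (by simp) (by simp), intervalIntegral.integral_const, integral_id]
    simp only [smul_eq_mul]
    ring
  · exact (continuous_const.sub continuous_id).integrableOn_Icc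
  · filter_upwards [MeasureTheory.ae_restrict_mem measurableSet_Icc] with x hx
    simp only [Pi.zero_apply]
    linarith [hx.2]

/-- the affine map `x ↦ (p - v·x, q - w·x)` with `det (v, w) = 1` preserves area -/
theorem aux27_pres (v w : ℤ × ℤ) (hdet : v.1 * w.2 - v.2 * w.1 = 1) (p q : ℝ)
    (T : Set (ℝ × ℝ)) :
    MeasureTheory.volume {x : ℝ × ℝ | (p - dotp v x, q - dotp w x) ∈ T}
      = MeasureTheory.volume T := by
  set L : (ℝ × ℝ) →ₗ[ℝ] (ℝ × ℝ) := Matrix.toLin (Module.Basis.finTwoProd ℝ) (Module.Basis.finTwoProd ℝ)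
    !![(v.1 : ℝ), (v.2 : ℝ); (w.1 : ℝ), (w.2 : ℝ)] with hL
  have hLx : ∀ x : ℝ × ℝ, L x = (dotp v x, dotp w x) := by
    intro x
    rw [hL, Matrix.toLin_finTwoProd_apply]
    rfl
  have hdetL : LinearMap.det L = 1 := by
    rw [hL, LinearMap.det_toLin, Matrix.det_fin_two_of]
    have := hdet
    exact_mod_cast this
  have h1 : {x : ℝ × ℝ | (p - dotp v x, q - dotp w x) ∈ T}
      = L ⁻¹' ((fun y : ℝ × ℝ => (p, q) - y) ⁻¹' T) := by
    ext x
    simp only [Set.mem_ofPred_eq, Set.mem_preimage, hLx, Prod.mk_sub_mk]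
  rw [h1, MeasureTheory.Measure.addHaar_preimage_linearMap _ (by rw [hdetL]; exact one_ne_zero), hdetL]
  simp only [inv_one, abs_one, ENNReal.ofReal_one, one_mul]
  exact (MeasureTheory.Measure.measurePreserving_sub_left MeasureTheory.volume ((p, q) : ℝ × ℝ)).measure_preimage_emb
    (MeasurableEquiv.subLeft ((p, q) : ℝ × ℝ)).measurableEmbedding T

theorem aux27_vol_tri (K : Set (ℝ × ℝ)) (hK : IsCompact K) (hne : K.Nonempty) :
    MeasureTheory.volume (tri K) = ENNReal.ofReal (bK K ^ 2 / 2) := by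
  rw [← aux27_vol_std_le (bK K) (aux27_bK_nonneg K hK hne),
    ← aux27_pres (-1, 0) (0, -1) (by norm_num) (suppF K (-1, 0)) (suppF K (0, -1))
      {x : ℝ × ℝ | 0 ≤ x.1 ∧ 0 ≤ x.2 ∧ x.1 + x.2 ≤ bK K}]
  congr 1
  ext x
  simp only [tri, bK, dotp, Set.mem_ofPred_eq]
  push_cast
  constructor
  · rintro ⟨h1, h2, h3⟩
    refine ⟨by linarith, by linarith, by linarith⟩
  · rintro ⟨h1, h2, h3⟩
    refine ⟨by linarith, by linarith, by linarith⟩

theorem aux27_vol_Tnode (K : Set (ℝ × ℝ)) (hK : IsCompact K) (hne : K.Nonempty) (u : Node)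
    (hdet : (pairOf u.1 u.2).1.1 * (pairOf u.1 u.2).2.2
      - (pairOf u.1 u.2).1.2 * (pairOf u.1 u.2).2.1 = 1) :
    MeasureTheory.volume (Tnode K u) = ENNReal.ofReal (wK K u ^ 2 / 2) := by
  rw [← aux27_vol_std_lt (wK K u) (aux27_wK_nonneg K hK hne u),
    ← aux27_pres (pairOf u.1 u.2).1 (pairOf u.1 u.2).2 hdet (suppF K (pairOf u.1 u.2).1)
      (suppF K (pairOf u.1 u.2).2) {x : ℝ × ℝ | 0 ≤ x.1 ∧ 0 ≤ x.2 ∧ x.1 + x.2 < wK K u}]
  congr 1
  ext x
  simp only [Tnode, wK, dotp, Set.mem_ofPred_eq, Prod.fst_add, Prod.snd_add, Int.cast_add]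
  constructor
  · rintro ⟨h1, h2, h3⟩
    refine ⟨by linarith, by linarith, by linarith⟩
  · rintro ⟨h1, h2, h3⟩
    refine ⟨by linarith, by linarith, by linarith⟩

theorem aux27_meas_Tnode (K : Set (ℝ × ℝ)) (u : Node) : MeasurableSet (Tnode K u) := by
  unfold Tnode dotp
  exact aux27_meas3 (measurableSet_le (by fun_prop) (by fun_prop))
      (measurableSet_le (by fun_prop) (by fun_prop)) (measurableSet_lt (by fun_prop) (by fun_prop))

theorem aux27_area (K : Set (ℝ × ℝ)) (hK : IsCompact K) (hc : Convex ℝ K) (hne : K.Nonempty) :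
    HasSum (fun u => wK K u ^ 2) (bK K ^ 2 - 2 * (MeasureTheory.volume K).toReal) := by
  obtain ⟨h1, h2, h3, h4⟩ := geoB K hK hc hne
  have hU : MeasureTheory.volume (⋃ u, Tnode K u) = ∑' u, ENNReal.ofReal (wK K u ^ 2 / 2) := by
    rw [MeasureTheory.measure_iUnion h3 (aux27_meas_Tnode K)]
    exact tsum_congr fun u => aux27_vol_Tnode K hK hne u (h4 u)
  have hT := aux27_vol_tri K hK hne
  have hadd : MeasureTheory.volume (tri K)
      = MeasureTheory.volume K + ∑' u, ENNReal.ofReal (wK K u ^ 2 / 2) := by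
    rw [← hU, ← h2, MeasureTheory.measure_add_sdiff hK.measurableSet.nullMeasurableSet,
      Set.union_eq_self_of_subset_left h1]
  have hne_top : ∑' u, ENNReal.ofReal (wK K u ^ 2 / 2) ≠ ⊤ := by
    intro h
    rw [h, hT] at hadd
    simp at hadd
  have hs := ENNReal.hasSum_toReal hne_top
  have hreal : (MeasureTheory.volume (tri K)).toReal
      = (MeasureTheory.volume K).toReal + (∑' u, ENNReal.ofReal (wK K u ^ 2 / 2)).toReal := by
    rw [hadd, ENNReal.toReal_add hK.measure_lt_top.ne hne_top]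
  rw [hT, ENNReal.toReal_ofReal (by positivity)] at hreal
  rw [← ENNReal.tsum_toReal_eq (fun a => ENNReal.ofReal_ne_top)] at hs
  have h5 : (∑' u, ENNReal.ofReal (wK K u ^ 2 / 2)).toReal
      = (bK K ^ 2 - 2 * (MeasureTheory.volume K).toReal) / 2 := by linarith
  rw [h5] at hs
  have h6 := hs.mul_left 2
  have h7 : (fun u => 2 * (ENNReal.ofReal (wK K u ^ 2 / 2)).toReal) = fun u => wK K u ^ 2 := by
    funext u
    rw [ENNReal.toReal_ofReal (by positivity)]
    ring
  rw [h7] at h6
  have h8 : (2 : ℝ) * ((bK K ^ 2 - 2 * (MeasureTheory.volume K).toReal) / 2)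
      = bK K ^ 2 - 2 * (MeasureTheory.volume K).toReal := by ring
  rw [h8] at h6
  exact h6

/-! ### lattice points -/

/-- integral support function of `P` -/
def aux27_H (P : Finset (ℤ × ℤ)) (hP : P.Nonempty) (v : ℤ × ℤ) : ℤ :=
  P.sup' hP (fun z => v.1 * z.1 + v.2 * z.2)

theorem aux27_suppF (P : Finset (ℤ × ℤ)) (hP : P.Nonempty) (v : ℤ × ℤ) :
    suppF (latHull P) v = (aux27_H P hP v : ℝ) := by
  have hcomp : IsCompact (latHull P) := Set.Finite.isCompact_convexHull ℝ (P.finite_toSet.image emb)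
  apply le_antisymm
  · apply csSup_le
    · obtain ⟨z, hz⟩ := hP
      exact ⟨_, ⟨emb z, subset_convexHull ℝ _ ⟨z, hz, rfl⟩, rfl⟩⟩
    · rintro _ ⟨x, hx, rfl⟩
      have hconv : latHull P ⊆ {x : ℝ × ℝ | (v.1 : ℝ) * x.1 + (v.2 : ℝ) * x.2 ≤ (aux27_H P hP v : ℝ)} := by
        apply convexHull_min
        · rintro _ ⟨z, hz, rfl⟩
          have h1 : v.1 * z.1 + v.2 * z.2 ≤ aux27_H P hP v :=
            Finset.le_sup' (fun z : ℤ × ℤ => v.1 * z.1 + v.2 * z.2) hz
          simp only [emb, Set.mem_ofPred_eq]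
          exact_mod_cast h1
        · have hlin : IsLinearMap ℝ (fun x : ℝ × ℝ => (v.1 : ℝ) * x.1 + (v.2 : ℝ) * x.2) := by
            constructor
            · intro x y
              simp only [Prod.fst_add, Prod.snd_add]
              ring
            · intro c x
              simp only [Prod.smul_fst, Prod.smul_snd, smul_eq_mul]
              ring
          exact convex_halfSpace_le hlin _
      exact hconv hx
  · obtain ⟨z, hz, hz2⟩ := Finset.exists_mem_eq_sup' hP (fun z : ℤ × ℤ => v.1 * z.1 + v.2 * z.2)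
    have h1 := aux27_le (latHull P) hcomp v (x := emb z) (subset_convexHull ℝ _ ⟨z, hz, rfl⟩)
    have h2 : ((aux27_H P hP v : ℤ) : ℝ) = (v.1 : ℝ) * (emb z).1 + (v.2 : ℝ) * (emb z).2 := by
      unfold aux27_H
      rw [hz2]
      simp only [emb]
      push_cast
      ring
    rw [h2]
    exact h1

/-- integral points of the standard triangle of size `n` -/
def aux27_T (n : ℤ) : Set (ℤ × ℤ) := {z | 0 ≤ z.1 ∧ 0 ≤ z.2 ∧ z.1 + z.2 < n}

theorem aux27_T_eq (k : ℕ) : aux27_T (k : ℤ) = (fun p : ℕ × ℕ => ((p.1 : ℤ), (p.2 : ℤ))) ''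
    (((Finset.range k).biUnion (fun i => Finset.HasAntidiagonal.antidiagonal i) : Finset (ℕ × ℕ)) : Set (ℕ × ℕ)) := by
  ext ⟨a, c⟩
  simp only [aux27_T, Set.mem_ofPred_eq, Set.mem_image, Finset.mem_coe, Finset.mem_biUnion,
    Finset.mem_range, Finset.HasAntidiagonal.mem_antidiagonal, Prod.exists, Prod.mk.injEq]
  constructor
  · rintro ⟨h1, h2, h3⟩
    refine ⟨a.toNat, c.toNat, ⟨a.toNat + c.toNat, by omega, rfl⟩, by omega, by omega⟩
  · rintro ⟨x, y, ⟨i, hi, hxy⟩, rfl, rfl⟩
    refine ⟨by omega, by omega, by omega⟩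

theorem aux27_inj : Function.Injective (fun p : ℕ × ℕ => ((p.1 : ℤ), (p.2 : ℤ))) := by
  rintro ⟨a, b⟩ ⟨c, d⟩ h
  simp only [Prod.mk.injEq, Nat.cast_inj] at h
  exact Prod.ext h.1 h.2

theorem aux27_T_fin (n : ℤ) : (aux27_T n).Finite := by
  rcases le_or_gt 0 n with h | h
  · obtain ⟨k, rfl⟩ := Int.eq_ofNat_of_zero_le h
    rw [aux27_T_eq]
    exact (Finset.finite_toSet _).image _
  · have : aux27_T n = ∅ := by
      ext z
      simp only [aux27_T, Set.mem_ofPred_eq, Set.mem_empty_iff_false, iff_false]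
      rintro ⟨h1, h2, h3⟩
      omega
    rw [this]
    exact Set.finite_empty

theorem aux27_T_card (n : ℤ) (hn : 0 ≤ n) : 2 * ((aux27_T n).ncard : ℤ) = n * (n + 1) := by
  obtain ⟨k, rfl⟩ := Int.eq_ofNat_of_zero_le hn
  rw [aux27_T_eq, Set.ncard_image_of_injective _ aux27_inj, Set.ncard_coe_finset,
    Finset.card_biUnion]
  · simp only [Finset.Nat.card_antidiagonal]
    have : ∀ k : ℕ, 2 * ∑ i ∈ Finset.range k, (i + 1) = k * (k + 1) := by
      intro k
      induction k with
      | zero => simp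
      | succ m ih => rw [Finset.sum_range_succ, mul_add, ih]; ring
    exact_mod_cast this k
  · intro i _ j _ hij
    rw [Function.onFun, Finset.disjoint_left]
    rintro ⟨a, c⟩ h1 h2
    rw [Finset.HasAntidiagonal.mem_antidiagonal] at h1 h2
    exact hij (h1.symm.trans h2)

/-- change of coordinates on the lattice -/
def aux27_f (v w : ℤ × ℤ) (p q : ℤ) (z : ℤ × ℤ) : ℤ × ℤ :=
  (p - (v.1 * z.1 + v.2 * z.2), q - (w.1 * z.1 + w.2 * z.2))

theorem aux27_f_bij (v w : ℤ × ℤ) (hdet : v.1 * w.2 - v.2 * w.1 = 1) (p q : ℤ) :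
    Function.Bijective (aux27_f v w p q) := by
  constructor
  · rintro ⟨a, b⟩ ⟨c, d⟩ h
    simp only [aux27_f, Prod.mk.injEq] at h
    obtain ⟨h1, h2⟩ := h
    have e1 : a - c = 0 := by
      have : a - c = (v.1 * w.2 - v.2 * w.1) * (a - c) := by rw [hdet, one_mul]
      rw [this]
      linear_combination (-w.2) * h1 + v.2 * h2
    have e2 : b - d = 0 := by
      have : b - d = (v.1 * w.2 - v.2 * w.1) * (b - d) := by rw [hdet, one_mul]
      rw [this]
      linear_combination w.1 * h1 - v.1 * h2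
    exact Prod.ext (by linarith) (by linarith)
  · rintro ⟨a, c⟩
    refine ⟨(w.2 * (p - a) - v.2 * (q - c), v.1 * (q - c) - w.1 * (p - a)), ?_⟩
    simp only [aux27_f, Prod.mk.injEq]
    constructor
    · linear_combination (-(p - a)) * hdet
    · linear_combination (-(q - c)) * hdet

theorem aux27_ncard_pre (v w : ℤ × ℤ) (hdet : v.1 * w.2 - v.2 * w.1 = 1) (p q n : ℤ) (hn : 0 ≤ n) :
    (aux27_f v w p q ⁻¹' aux27_T n).Finite ∧
      2 * ((aux27_f v w p q ⁻¹' aux27_T n).ncard : ℤ) = n * (n + 1) := by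
  have hb := aux27_f_bij v w hdet p q
  constructor
  · exact (aux27_T_fin n).preimage hb.1.injOn
  · rw [Set.ncard_preimage_of_injective_subset_range hb.1
      (by rw [hb.2.range_eq]; exact Set.subset_univ _)]
    exact aux27_T_card n hn

/-- lattice points of a set -/
def aux27_L (A : Set (ℝ × ℝ)) : Set (ℤ × ℤ) := {z | emb z ∈ A}

theorem aux27_lat (P : Finset (ℤ × ℤ)) (hP : P.Nonempty) :
    ∃ (S : Finset Node) (C : ℤ × (Node → ℤ)),
      0 ≤ C.1 ∧ (∀ u, 0 ≤ C.2 u) ∧ (∀ u ∉ S, C.2 u = 0) ∧ (C.1 : ℝ) = bK (latHull P) ∧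
      (∀ u, (C.2 u : ℝ) = wK (latHull P) u) ∧
      idx S C = 2 * ((latPts (latHull P) : ℤ) - 1) := by
  classical
  have hcomp : IsCompact (latHull P) := Set.Finite.isCompact_convexHull ℝ (P.finite_toSet.image emb)
  have hconv : Convex ℝ (latHull P) := convex_convexHull ℝ _
  have hne : (latHull P).Nonempty := by
    obtain ⟨z, hz⟩ := hP
    exact ⟨emb z, subset_convexHull ℝ _ ⟨z, hz, rfl⟩⟩
  obtain ⟨h1, h2, h3, h4⟩ := geoB (latHull P) hcomp hconv hne
  set H := aux27_H P hP with hH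
  have hsupp : ∀ v, suppF (latHull P) v = (H v : ℝ) := aux27_suppF P hP
  set b : ℤ := H (1, 1) + H (-1, 0) + H (0, -1) with hb
  set m : Node → ℤ := fun u => H (pairOf u.1 u.2).1 + H (pairOf u.1 u.2).2
    - H ((pairOf u.1 u.2).1 + (pairOf u.1 u.2).2) with hm
  have hbK : (b : ℝ) = bK (latHull P) := by
    rw [hb, bK, hsupp, hsupp, hsupp]
    push_cast
    ring
  have hmK : ∀ u, (m u : ℝ) = wK (latHull P) u := by
    intro u
    rw [hm, wK, hsupp, hsupp, hsupp]
    push_cast
    ring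
  have hb0 : 0 ≤ b := by
    have := aux27_bK_nonneg _ hcomp hne
    rw [← hbK] at this
    exact_mod_cast this
  have hm0 : ∀ u, 0 ≤ m u := by
    intro u
    have := aux27_wK_nonneg _ hcomp hne u
    rw [← hmK] at this
    exact_mod_cast this
  -- lattice points of the triangle
  have hLtri : aux27_L (tri (latHull P)) = aux27_f (-1, 0) (0, -1) (H (-1, 0)) (H (0, -1)) ⁻¹' aux27_T (b + 1) := by
    ext ⟨x, y⟩
    simp only [aux27_L, tri, emb, aux27_f, aux27_T, Set.mem_ofPred_eq, Set.mem_preimage, hsupp, hb]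
    generalize H (-1, 0) = A
    generalize H (0, -1) = B
    generalize H (1, 1) = D
    constructor
    · rintro ⟨e1, e2, e3⟩
      norm_cast at e1 e2 e3
      refine ⟨by linarith, by linarith, by linarith⟩
    · rintro ⟨e1, e2, e3⟩
      norm_cast
      refine ⟨by linarith, by linarith, by linarith⟩
  have hLnode : ∀ u, aux27_L (Tnode (latHull P) u) = aux27_f (pairOf u.1 u.2).1 (pairOf u.1 u.2).2
      (H (pairOf u.1 u.2).1) (H (pairOf u.1 u.2).2) ⁻¹' aux27_T (m u) := by
    intro u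
    ext ⟨x, y⟩
    simp only [aux27_L, Tnode, dotp, emb, aux27_f, aux27_T, Set.mem_ofPred_eq, Set.mem_preimage, hsupp, hm,
      Prod.fst_add, Prod.snd_add]
    constructor
    · rintro ⟨e1, e2, e3⟩
      norm_cast at e1 e2 e3
      refine ⟨by linarith, by linarith, by linarith⟩
    · rintro ⟨e1, e2, e3⟩
      norm_cast
      refine ⟨by linarith, by linarith, by linarith⟩
  have hFfin : (aux27_L (tri (latHull P))).Finite := by
    rw [hLtri]
    exact (aux27_ncard_pre _ _ (by norm_num) _ _ _ (by linarith)).1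
  have hFcard : 2 * ((aux27_L (tri (latHull P))).ncard : ℤ) = (b + 1) * (b + 2) := by
    rw [hLtri, (aux27_ncard_pre _ _ (by norm_num) _ _ _ (by linarith)).2]
    ring
  have hufin : ∀ u, (aux27_L (Tnode (latHull P) u)).Finite := by
    intro u
    rw [hLnode]
    exact (aux27_ncard_pre _ _ (h4 u) _ _ _ (hm0 u)).1
  have hucard : ∀ u, 2 * ((aux27_L (Tnode (latHull P) u)).ncard : ℤ) = m u * (m u + 1) := by
    intro u
    rw [hLnode]
    exact (aux27_ncard_pre _ _ (h4 u) _ _ _ (hm0 u)).2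
  have hKfin : (aux27_L (latHull P)).Finite := hFfin.subset (fun z hz => h1 hz)
  -- the nonzero nodes
  have hpt : ∀ u, ∃ z : ℤ × ℤ, m u ≠ 0 → emb z ∈ Tnode (latHull P) u := by
    intro u
    by_cases hu : m u = 0
    · exact ⟨(0, 0), fun h => absurd hu h⟩
    · have hpos : 0 < m u := lt_of_le_of_ne (hm0 u) (Ne.symm hu)
      have hcard := hucard u
      have hne' : (aux27_L (Tnode (latHull P) u)).Nonempty := by
        rw [Set.nonempty_iff_ne_empty]
        intro hempty
        rw [hempty, Set.ncard_empty] at hcard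
        have : 0 < m u * (m u + 1) := by positivity
        rw [← hcard] at this
        norm_num at this
      obtain ⟨z, hz⟩ := hne'
      exact ⟨z, fun _ => hz⟩
  choose g hg using hpt
  have hsub : ∀ u, Tnode (latHull P) u ⊆ tri (latHull P) := by
    intro u x hx
    have : x ∈ tri (latHull P) \ latHull P := by
      rw [h2]
      exact Set.mem_iUnion.2 ⟨u, hx⟩
    exact this.1
  have hSfin : {u : Node | m u ≠ 0}.Finite := by
    apply Set.Finite.of_injOn (f := g) (t := aux27_L (tri (latHull P))) _ _ hFfin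
    · intro u hu
      exact hsub u (hg u hu)
    · intro u hu u' hu' huu'
      by_contra hne'
      have hd := h3 hne'
      have e1 := hg u hu
      have e2 := hg u' hu'
      rw [← huu'] at e2
      exact Set.disjoint_left.1 hd e1 e2
  have hmem : ∀ u, u ∈ hSfin.toFinset ↔ m u ≠ 0 := by
    intro u
    rw [Set.Finite.mem_toFinset]
    rfl
  refine ⟨hSfin.toFinset, (b, m), hb0, hm0, ?_, hbK, hmK, ?_⟩
  · intro u hu
    rw [hmem] at hu
    exact not_not.1 hu
  · have hdecomp : hFfin.toFinset = hKfin.toFinset ∪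
        hSfin.toFinset.biUnion (fun u => (hufin u).toFinset) := by
      ext z
      simp only [Set.Finite.mem_toFinset, Finset.mem_union, Finset.mem_biUnion, hmem]
      constructor
      · intro hz
        by_cases hzK : emb z ∈ latHull P
        · exact Or.inl hzK
        · right
          have : emb z ∈ tri (latHull P) \ latHull P := ⟨hz, hzK⟩
          rw [h2] at this
          obtain ⟨u, hu⟩ := Set.mem_iUnion.1 this
          have hu' : z ∈ aux27_L (Tnode (latHull P) u) := hu
          refine ⟨u, ?_, hu'⟩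
          intro h0
          have hc := hucard u
          rw [h0] at hc
          have hc0 : (aux27_L (Tnode (latHull P) u)).ncard = 0 := by
            have : 2 * ((aux27_L (Tnode (latHull P) u)).ncard : ℤ) = 0 := by rw [hc]; ring
            omega
          rw [Set.ncard_eq_zero (hufin u)] at hc0
          rw [hc0] at hu'
          exact hu'
      · rintro (hz | ⟨u, _, hz⟩)
        · exact h1 hz
        · exact hsub u hz
    have hd1 : Disjoint hKfin.toFinset
        (hSfin.toFinset.biUnion (fun u => (hufin u).toFinset)) := by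
      rw [Finset.disjoint_left]
      intro z hz hz'
      rw [Set.Finite.mem_toFinset] at hz
      rw [Finset.mem_biUnion] at hz'
      obtain ⟨u, _, hzu⟩ := hz'
      rw [Set.Finite.mem_toFinset] at hzu
      have : emb z ∈ tri (latHull P) \ latHull P := by
        rw [h2]
        exact Set.mem_iUnion.2 ⟨u, hzu⟩
      exact this.2 hz
    have hd2 : ((hSfin.toFinset : Finset Node) : Set Node).PairwiseDisjoint (fun u => (hufin u).toFinset) := by
      intro u _ u' _ huu'
      rw [Function.onFun, Finset.disjoint_left]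
      intro z hz hz'
      rw [Set.Finite.mem_toFinset] at hz hz'
      exact Set.disjoint_left.1 (h3 huu') hz hz'
    have hcard := congrArg Finset.card hdecomp
    rw [Finset.card_union_of_disjoint hd1, Finset.card_biUnion hd2,
      ← Set.ncard_eq_toFinset_card _ hFfin, ← Set.ncard_eq_toFinset_card _ hKfin] at hcard
    simp_rw [← Set.ncard_eq_toFinset_card _ (hufin _)] at hcard
    have hcard' : ((aux27_L (tri (latHull P))).ncard : ℤ) = ((aux27_L (latHull P)).ncard : ℤ)
        + ∑ u ∈ hSfin.toFinset, ((aux27_L (Tnode (latHull P) u)).ncard : ℤ) := by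
      exact_mod_cast hcard
    have hsum : 2 * ∑ u ∈ hSfin.toFinset, ((aux27_L (Tnode (latHull P) u)).ncard : ℤ)
        = ∑ u ∈ hSfin.toFinset, m u * m u + ∑ u ∈ hSfin.toFinset, m u := by
      rw [Finset.mul_sum, ← Finset.sum_add_distrib]
      apply Finset.sum_congr rfl
      intro u _
      rw [hucard u]
      ring
    have hlat : latPts (latHull P) = (aux27_L (latHull P)).ncard := rfl
    rw [hlat]
    simp only [idx, Bf, Kd]
    linear_combination (-1 : ℤ) * hFcard + 2 * hcard' + hsum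

/-- TARGET -/
theorem geoB2 :
    (∀ K : Set (ℝ × ℝ), IsCompact K → Convex ℝ K → K.Nonempty →
      HasSum (fun u => wK K u ^ 2) (bK K ^ 2 - 2 * (MeasureTheory.volume K).toReal)) ∧
    (∀ P : Finset (ℤ × ℤ), P.Nonempty → ∃ (S : Finset Node) (C : ℤ × (Node → ℤ)),
      0 ≤ C.1 ∧ (∀ u, 0 ≤ C.2 u) ∧ (∀ u ∉ S, C.2 u = 0) ∧ (C.1 : ℝ) = bK (latHull P) ∧
      (∀ u, (C.2 u : ℝ) = wK (latHull P) u) ∧
      idx S C = 2 * ((latPts (latHull P) : ℤ) - 1)) :=
  ⟨fun K hK hc hne => aux27_area K hK hc hne, fun P hP => aux27_lat P hP⟩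


end Pool.Agent.Helper416_Stair
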