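import Pool.Agent.Helper416_Stair.GeoA
import Pool.Agent.Helper416_Stair.GeoB2

/-!
# ECH capacities of a convex toric domain from its weights
-/

noncomputable section

open scoped BigOperators Pointwise

namespace Pool.Agent.Helper416_Stair



/-
JOB GEO-D (helper416, MP_f690a7_gt).  ECH capacities of a convex toric domain from its weights.

Plain proof.  Write `(b; β) = (bK Ω, wK Ω)`.
(0) `suppF (A + B) v = suppF A v + suppF B v` for nonempty compact `A, B`, so `bK`, `wK` are additive, and by the area formula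
    (first part of GEO-B2, applied to `Ω`, `K`, `Ω + K`) `mixedArea Ω K = bK Ω * bK K - ∑' wK Ω u * wK K u` for nonempty
    compact convex `K`.  (`∑ wK²` summable gives summability of the products.)
(1) `capW ≤ echCap`: for `P` with `k+1` lattice points take `(S, C)` from the second part of GEO-B2: `idx S C = 2k`, and
    `mixedArea Ω (latHull P) = Bf S (b,β) (toR C)`.
(2) Main step: for every `S, C` with `C.1 ≥ 0`, `idx S C ≥ 2k` there is `P` nonempty with `latPts (latHull P) ≥ k+1` and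
    `mixedArea Ω (latHull P) ≤ Bf S (b,β) (toR C)`.  Replace `C.2` by its positive part on `S` and `0` outside: `idx` does not
    decrease (`m²+m ≥ 0` for integers) and `Bf` does not increase (`β ≥ 0`).  Let `N` bound the levels of the nodes in `S`.
    Define `H : ℤ×ℤ → ℤ` on the vectors of the tree by `H(1,1) = d`, `H(-1,0) = H(0,-1) = 0`, `H(v+w) = H v + H w - m_u`
    (all primitive vectors occur exactly once, so this is consistent; alternatively work with the values `H` along the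
    tree as a function of nodes).  Let `P` = lattice points `x` of the triangle `x.1 ≥ 0, x.2 ≥ 0, x.1+x.2 ≤ d` with
    `(v+w)·x ≤ H(v+w)` for all nodes of level `≤ N`.  A lattice point of the triangle not in `P` has a first violated node on
    the way down (`v·x ≤ H v`, `w·x ≤ H w`, `(v+w)·x > H(v+w)`), and for a given node there are at most `m_u(m_u+1)/2` such
    points (`a = H v - v·x ≥ 0`, `c = H w - w·x ≥ 0`, `a + c < m_u`; unimodular).  So
    `#P ≥ (d+1)(d+2)/2 - ∑ m(m+1)/2 = idx/2 + 1 ≥ k+1`, in particular `P` is nonempty.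
    With `K = latHull P`, `g v := H v - suppF K v ≥ 0` for every vector `v` of the tree (for `v` below level `N` it follows by
    subadditivity of `suppF K`), and `defect g u = m_u - wK K u` (with `m_u = 0` off `S`), `g(1,1)+g(-1,0)+g(0,-1) = d - bK K`.
    GEO-A (last part, put `g = 0` on non-tree vectors, or use that all primitive vectors are tree vectors) gives
    `∑' β_u (m_u - wK K u) ≤ b (d - bK K)`, i.e. `mixedArea Ω K ≤ Bf S (b,β)(toR C)`.
(3) From `≥ k+1` to exactly `k+1` lattice points: if `A` is the set of lattice points of `latHull P`, remove an extreme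
    point; the hull of the rest has exactly `#A - 1` lattice points, and mixed area is monotone: for `K' ⊆ K`,
    `mixedArea Ω K' ≤ mixedArea Ω K` (GEO-A with `g = suppF K - suppF K' ≥ 0`).  Iterate.
(4) `mixedArea Ω K ≥ 0` (compare with a point, whose mixed area is `0`), so by (2) with `k = 0`: `0 ≤ Bf` for all `C` with
    `idx ≥ 0`, i.e. `Nef`.  If `idx S C ≥ 2`, (2)+(3) give `P` with exactly two lattice points, so `latHull P` is a primitive
    segment, and `mixedArea Ω (segment)` is at least a constant `c > 0`: `Ω` contains a square `Q` with axis-parallel sides of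
    length `δ`; `mixedArea Ω P ≥ mixedArea Q P` (monotone in the first argument by symmetry), and `mixedArea Q (segment from 0
    to (m,n)) = δ(|m|+|n|) ≥ δ`.  (Or any other argument giving a uniform positive lower bound.)
-/











namespace GeoDAux

/-- the linear functional of an integral vector -/
def lf (v : ℤ × ℤ) (x : ℝ × ℝ) : ℝ := (v.1 : ℝ) * x.1 + (v.2 : ℝ) * x.2

lemma suppF_def' (K : Set (ℝ × ℝ)) (v : ℤ × ℤ) : suppF K v = sSup (lf v '' K) := rfl

lemma lf_continuous (v : ℤ × ℤ) : Continuous (lf v) := by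
  unfold lf; fun_prop

lemma lf_add (v : ℤ × ℤ) (x y : ℝ × ℝ) : lf v (x + y) = lf v x + lf v y := by
  simp only [lf, Prod.fst_add, Prod.snd_add]; ring

lemma lf_vadd (v w : ℤ × ℤ) (x : ℝ × ℝ) : lf (v + w) x = lf v x + lf w x := by
  simp only [lf, Prod.fst_add, Prod.snd_add]; push_cast; ring

lemma lf_emb (v : ℤ × ℤ) (z : ℤ × ℤ) : lf v (emb z) = ((v.1 * z.1 + v.2 * z.2 : ℤ) : ℝ) := by
  simp only [lf, emb]; push_cast; ring

lemma le_suppF {K : Set (ℝ × ℝ)} (hK : IsCompact K) (v : ℤ × ℤ) {x : ℝ × ℝ} (hx : x ∈ K) :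
    lf v x ≤ suppF K v := by
  rw [suppF_def']
  exact le_csSup (hK.image (lf_continuous v)).bddAbove ⟨x, hx, rfl⟩

lemma suppF_le {K : Set (ℝ × ℝ)} (hne : K.Nonempty) (v : ℤ × ℤ) {c : ℝ}
    (h : ∀ x ∈ K, lf v x ≤ c) : suppF K v ≤ c := by
  rw [suppF_def']
  refine csSup_le (hne.image _) ?_
  rintro _ ⟨x, hx, rfl⟩
  exact h x hx

lemma suppF_attained {K : Set (ℝ × ℝ)} (hK : IsCompact K) (hne : K.Nonempty) (v : ℤ × ℤ) :
    ∃ x ∈ K, lf v x = suppF K v := by
  have := (hK.image (lf_continuous v)).sSup_mem (hne.image _)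
  obtain ⟨x, hx, h⟩ := this
  exact ⟨x, hx, h⟩

lemma suppF_mono {A B : Set (ℝ × ℝ)} (hB : IsCompact B) (hne : A.Nonempty) (h : A ⊆ B)
    (v : ℤ × ℤ) : suppF A v ≤ suppF B v :=
  suppF_le hne v fun _ hx => le_suppF hB v (h hx)

lemma suppF_add {A B : Set (ℝ × ℝ)} (hA : IsCompact A) (hB : IsCompact B) (hAn : A.Nonempty)
    (hBn : B.Nonempty) (v : ℤ × ℤ) : suppF (A + B) v = suppF A v + suppF B v := by
  apply le_antisymm
  · refine suppF_le (hAn.add hBn) v ?_
    rintro _ ⟨x, hx, y, hy, rfl⟩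
    simp only [lf_add]
    exact add_le_add (le_suppF hA v hx) (le_suppF hB v hy)
  · obtain ⟨x, hx, h1⟩ := suppF_attained hA hAn v
    obtain ⟨y, hy, h2⟩ := suppF_attained hB hBn v
    rw [← h1, ← h2, ← lf_add]
    exact le_suppF (hA.add hB) v (Set.add_mem_add hx hy)

lemma suppF_subadd {K : Set (ℝ × ℝ)} (hK : IsCompact K) (hne : K.Nonempty) (v w : ℤ × ℤ) :
    suppF K (v + w) ≤ suppF K v + suppF K w := by
  refine suppF_le hne _ ?_
  intro x hx
  rw [lf_vadd]
  exact add_le_add (le_suppF hK v hx) (le_suppF hK w hx)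

lemma bK_add {A B : Set (ℝ × ℝ)} (hA : IsCompact A) (hB : IsCompact B) (hAn : A.Nonempty)
    (hBn : B.Nonempty) : bK (A + B) = bK A + bK B := by
  simp only [bK, suppF_add hA hB hAn hBn]; ring

lemma wK_add {A B : Set (ℝ × ℝ)} (hA : IsCompact A) (hB : IsCompact B) (hAn : A.Nonempty)
    (hBn : B.Nonempty) (u : Node) : wK (A + B) u = wK A u + wK B u := by
  simp only [wK, suppF_add hA hB hAn hBn]; ring

/-- the mixed area from the weights -/
lemma mixed_formula {A B : Set (ℝ × ℝ)} (hA : IsCompact A) (hB : IsCompact B)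
    (cA : Convex ℝ A) (cB : Convex ℝ B) (hAn : A.Nonempty) (hBn : B.Nonempty) :
    HasSum (fun u => wK A u * wK B u) (bK A * bK B - mixedArea A B) := by
  have h1 := geoB2.1 A hA cA hAn
  have h2 := geoB2.1 B hB cB hBn
  have h3 := geoB2.1 (A + B) (hA.add hB) (cA.add cB) (hAn.add hBn)
  have h4 := ((h3.sub h1).sub h2).mul_left (1 / 2)
  have e1 : (fun u => wK A u * wK B u)
      = fun i => 1 / 2 * (wK (A + B) i ^ 2 - wK A i ^ 2 - wK B i ^ 2) := by
    funext u
    rw [wK_add hA hB hAn hBn]; ring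
  have e2 : bK A * bK B - mixedArea A B = 1 / 2 *
      (bK (A + B) ^ 2 - 2 * (MeasureTheory.volume (A + B)).toReal -
        (bK A ^ 2 - 2 * (MeasureTheory.volume A).toReal) -
        (bK B ^ 2 - 2 * (MeasureTheory.volume B).toReal)) := by
    rw [bK_add hA hB hAn hBn]
    unfold mixedArea
    ring
  rw [e1, e2]
  exact h4

lemma wK_eq_defect (K : Set (ℝ × ℝ)) (u : Node) : wK K u = defect (suppF K) u := rfl

lemma mixedArea_comm (A B : Set (ℝ × ℝ)) : mixedArea A B = mixedArea B A := by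
  unfold mixedArea
  rw [add_comm A B]; ring

/-- monotonicity of the mixed area in the second argument -/
lemma mixed_mono {Ω A B : Set (ℝ × ℝ)} (hΩ : IsCompact Ω) (cΩ : Convex ℝ Ω) (nΩ : Ω.Nonempty)
    (hA : IsCompact A) (hB : IsCompact B)
    (cA : Convex ℝ A) (cB : Convex ℝ B) (hAn : A.Nonempty) (hAB : A ⊆ B) :
    mixedArea Ω A ≤ mixedArea Ω B := by
  have hBn : B.Nonempty := hAn.mono hAB
  have fA := mixed_formula hΩ hA cΩ cA nΩ hAn
  have fB := mixed_formula hΩ hB cΩ cB nΩ hBn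
  have hd : ∀ u, wK Ω u * defect (fun v => suppF B v - suppF A v) u
      = wK Ω u * wK B u - wK Ω u * wK A u := by
    intro u
    simp only [defect, wK]; ring
  have hs : HasSum (fun u => wK Ω u * defect (fun v => suppF B v - suppF A v) u)
      ((bK Ω * bK B - mixedArea Ω B) - (bK Ω * bK A - mixedArea Ω A)) := by
    simp only [hd]
    exact fB.sub fA
  have := (geoA Ω hΩ nΩ).2.2.2.2 (fun v => suppF B v - suppF A v)
    (fun v => sub_nonneg.2 (suppF_mono hB hAn hAB v)) hs.summable
  rw [hs.tsum_eq] at this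
  unfold bK at this
  nlinarith [this]

lemma mixed_point {Ω : Set (ℝ × ℝ)} (hΩ : IsCompact Ω) (cΩ : Convex ℝ Ω) (nΩ : Ω.Nonempty)
    (p : ℝ × ℝ) : mixedArea Ω {p} = 0 := by
  have f := mixed_formula hΩ (isCompact_singleton (x := p)) cΩ (convex_singleton p) nΩ
    (Set.singleton_nonempty p)
  have hs : ∀ v, suppF {p} v = lf v p := by
    intro v; rw [suppF_def']; simp
  have hb : bK {p} = 0 := by
    simp only [bK, hs, lf]; push_cast; ring
  have hw : ∀ u, wK {p} u = 0 := by
    intro u; simp only [wK, hs, lf_vadd]; ring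
  simp only [hw, hb, mul_zero, zero_sub] at f
  have := f.unique hasSum_zero
  linarith

lemma mixed_nonneg {Ω K : Set (ℝ × ℝ)} (hΩ : IsCompact Ω) (cΩ : Convex ℝ Ω) (nΩ : Ω.Nonempty)
    (hK : IsCompact K) (cK : Convex ℝ K) (hKn : K.Nonempty) : 0 ≤ mixedArea Ω K := by
  obtain ⟨p, hp⟩ := hKn
  rw [← mixed_point hΩ cΩ nΩ p]
  exact mixed_mono hΩ cΩ nΩ isCompact_singleton hK (convex_singleton p) cK
    (Set.singleton_nonempty p) (Set.singleton_subset_iff.2 hp)

/-! ### lattice hulls -/

lemma emb_injective : Function.Injective emb := by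
  intro a b h
  simp only [emb, Prod.mk.injEq, Int.cast_inj] at h
  exact Prod.ext h.1 h.2

lemma latHull_compact (P : Finset (ℤ × ℤ)) : IsCompact (latHull P) :=
  (P.finite_toSet.image emb).isCompact_convexHull ℝ

lemma latHull_convex (P : Finset (ℤ × ℤ)) : Convex ℝ (latHull P) := convex_convexHull ℝ _

lemma emb_mem_latHull {P : Finset (ℤ × ℤ)} {z : ℤ × ℤ} (hz : z ∈ P) : emb z ∈ latHull P :=
  subset_convexHull ℝ _ ⟨z, hz, rfl⟩

lemma latHull_nonempty {P : Finset (ℤ × ℤ)} (h : P.Nonempty) : (latHull P).Nonempty :=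
  let ⟨z, hz⟩ := h
  ⟨emb z, emb_mem_latHull hz⟩

lemma latPts_finite {K : Set (ℝ × ℝ)} (hK : IsCompact K) : {z : ℤ × ℤ | emb z ∈ K}.Finite := by
  obtain ⟨R, hR⟩ := hK.isBounded.exists_norm_le
  obtain ⟨n, hn⟩ := exists_int_gt R
  refine (Set.finite_Icc ((-n, -n) : ℤ × ℤ) (n, n)).subset ?_
  intro z hz
  have h := hR _ hz
  have h1 : |(z.1 : ℝ)| ≤ R := (norm_fst_le (emb z)).trans h
  have h2 : |(z.2 : ℝ)| ≤ R := (norm_snd_le (emb z)).trans h
  rw [abs_le] at h1 h2
  have a1 : (-n : ℝ) < z.1 := by linarith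
  have a2 : (z.1 : ℝ) < n := by linarith
  have a3 : (-n : ℝ) < z.2 := by linarith
  have a4 : (z.2 : ℝ) < n := by linarith
  have b1 : -n < z.1 := by exact_mod_cast a1
  have b2 : z.1 < n := by exact_mod_cast a2
  have b3 : -n < z.2 := by exact_mod_cast a3
  have b4 : z.2 < n := by exact_mod_cast a4
  exact ⟨⟨b1.le, b3.le⟩, ⟨b2.le, b4.le⟩⟩

lemma card_le_latPts (P : Finset (ℤ × ℤ)) : P.card ≤ latPts (latHull P) := by
  rw [← Set.ncard_coe_finset P]
  exact Set.ncard_le_ncard (fun z hz => emb_mem_latHull hz) (latPts_finite (latHull_compact P))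

/-- removing extreme points one at a time -/
lemma shrink (P : Finset (ℤ × ℤ)) (hP : P.Nonempty) (j : ℕ) (hj : 1 ≤ j)
    (h : j ≤ latPts (latHull P)) :
    ∃ P' : Finset (ℤ × ℤ), P'.Nonempty ∧ latHull P' ⊆ latHull P ∧ latPts (latHull P') = j := by
  induction hn : latPts (latHull P) using Nat.strong_induction_on generalizing P with
  | _ n ih =>
    rcases Nat.eq_or_lt_of_le h with h0 | h0
    · exact ⟨P, hP, subset_rfl, h0.symm⟩
    · set A : Finset (ℤ × ℤ) := (latPts_finite (latHull_compact P)).toFinset with hA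
      have memA : ∀ z, z ∈ A ↔ emb z ∈ latHull P := by
        intro z; simp [hA]
      have hAP : latHull A = latHull P := by
        apply Set.Subset.antisymm
        · refine convexHull_min ?_ (latHull_convex P)
          rintro _ ⟨z, hz, rfl⟩
          exact (memA z).1 hz
        · refine convexHull_mono ?_
          rintro _ ⟨z, hz, rfl⟩
          exact ⟨z, (memA z).2 (emb_mem_latHull hz), rfl⟩
      have hAn : A.Nonempty := by
        obtain ⟨z, hz⟩ := hP
        exact ⟨z, (memA z).2 (emb_mem_latHull hz)⟩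
      have hcard : A.card = latPts (latHull P) := by
        rw [latPts, ← Set.ncard_coe_finset A]
        congr 1
        ext z; simp [memA]
      obtain ⟨x, hx⟩ := (latHull_compact A).extremePoints_nonempty (latHull_nonempty hAn)
      obtain ⟨a, haA, rfl⟩ := extremePoints_convexHull_subset hx
      have hconv := ((latHull_convex A).mem_extremePoints_iff_convex_sdiff.1 hx).2
      have hsub : latHull (A.erase a) ⊆ latHull A \ {emb a} := by
        refine convexHull_min ?_ hconv
        rintro _ ⟨z, hz, rfl⟩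
        have hz' := Finset.mem_erase.1 (Finset.mem_coe.1 hz)
        exact ⟨emb_mem_latHull hz'.2, fun h => hz'.1 (emb_injective h)⟩
      have hlat : latPts (latHull (A.erase a)) = n - 1 := by
        have : {z : ℤ × ℤ | emb z ∈ latHull (A.erase a)} = ((A.erase a : Finset (ℤ × ℤ)) :
            Set (ℤ × ℤ)) := by
          ext z
          simp only [Set.mem_ofPred_eq, Finset.coe_erase, Set.mem_sdiff, Finset.mem_coe,
            Set.mem_singleton_iff]
          constructor
          · intro hz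
            have := hsub hz
            refine ⟨(memA z).2 (hAP ▸ this.1), fun h => this.2 (by rw [h]; rfl)⟩
          · rintro ⟨h1, h2⟩
            exact emb_mem_latHull (Finset.mem_erase.2 ⟨h2, h1⟩)
        rw [latPts, this, Set.ncard_coe_finset, Finset.card_erase_of_mem haA, hcard, hn]
      have hn1 : 1 < n := by omega
      have hne : (A.erase a).Nonempty := by
        rw [← Finset.card_pos, Finset.card_erase_of_mem haA, hcard, hn]; omega
      obtain ⟨P', h1, h2, h3⟩ := ih (n - 1) (by omega) (A.erase a) hne (by rw [hlat]; omega) hlat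
      exact ⟨P', h1, h2.trans ((hsub.trans Set.sdiff_subset).trans hAP.subset), h3⟩

/-! ### the tree -/

/-- coordinates of `x` in the basis of a node -/
def crd (u : Node) (x : ℤ × ℤ) : ℤ × ℤ :=
  (x.1 * (pairOf u.1 u.2).2.2 - x.2 * (pairOf u.1 u.2).2.1,
    (pairOf u.1 u.2).1.1 * x.2 - (pairOf u.1 u.2).1.2 * x.1)

lemma det_pair (i : Fin 3) (l : List Bool) :
    (pairOf i l).1.1 * (pairOf i l).2.2 - (pairOf i l).1.2 * (pairOf i l).2.1 = 1 := by
  induction l with
  | nil => fin_cases i <;> simp [pairOf, rootPair]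
  | cons s l ih =>
    cases s
    · simp only [pairOf, Prod.fst_add, Prod.snd_add]; linarith
    · simp only [pairOf, Prod.fst_add, Prod.snd_add]; linarith

lemma crd_true (i : Fin 3) (l : List Bool) (x : ℤ × ℤ) :
    crd (i, true :: l) x = ((crd (i, l) x).1 - (crd (i, l) x).2, (crd (i, l) x).2) := by
  simp only [crd, pairOf, Prod.fst_add, Prod.snd_add, Prod.mk.injEq, and_true]; ring

lemma crd_false (i : Fin 3) (l : List Bool) (x : ℤ × ℤ) :
    crd (i, false :: l) x = ((crd (i, l) x).1, (crd (i, l) x).2 - (crd (i, l) x).1) := by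
  simp only [crd, pairOf, Prod.fst_add, Prod.snd_add, Prod.mk.injEq, true_and]; ring

/-- the mediant -/
def med (u : Node) : ℤ × ℤ := (pairOf u.1 u.2).1 + (pairOf u.1 u.2).2

lemma crd_med (u : Node) : crd u (med u) = (1, 1) := by
  have := det_pair u.1 u.2
  simp only [crd, med, Prod.fst_add, Prod.snd_add, Prod.mk.injEq]
  constructor
  · linarith
  · linarith

/-- both coordinates are positive -/
def Pos (u : Node) (x : ℤ × ℤ) : Prop := 0 < (crd u x).1 ∧ 0 < (crd u x).2

lemma Pos_med (u : Node) : Pos u (med u) := by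
  simp [Pos, crd_med]

lemma Pos_tail {i : Fin 3} {s : Bool} {l : List Bool} {x : ℤ × ℤ} (h : Pos (i, s :: l) x) :
    Pos (i, l) x := by
  cases s
  · simp only [Pos, crd_false] at h ⊢; omega
  · simp only [Pos, crd_true] at h ⊢; omega

lemma Pos_append {i : Fin 3} (r : List Bool) {l : List Bool} {x : ℤ × ℤ}
    (h : Pos (i, r ++ l) x) : Pos (i, l) x := by
  induction r with
  | nil => exact h
  | cons s r ih => exact ih (Pos_tail h)

lemma Pos_head {i : Fin 3} {s s' : Bool} {l : List Bool} {x : ℤ × ℤ} (h : Pos (i, s :: l) x)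
    (h' : Pos (i, s' :: l) x) : s = s' := by
  cases s <;> cases s' <;> simp only [Pos, crd_false, crd_true] at h h' ⊢ <;> omega

lemma Pos_suffix {i : Fin 3} {x : ℤ × ℤ} (l l' : List Bool) (h : Pos (i, l) x)
    (h' : Pos (i, l') x) : l <:+ l' ∨ l' <:+ l := by
  induction l with
  | nil => exact Or.inl (List.nil_suffix)
  | cons s t ih =>
    rcases ih (Pos_tail h) with ⟨r, hr⟩ | h1
    · rcases List.eq_nil_or_concat r with rfl | ⟨r', s', rfl⟩
      · right
        rw [← hr]
        exact ⟨[s], rfl⟩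
      · left
        have e : l' = r' ++ (s' :: t) := by rw [← hr]; simp
        rw [e] at h'
        have := Pos_head h (Pos_append r' h')
        subst this
        exact ⟨r', e.symm⟩
    · right
      exact h1.trans ⟨[s], rfl⟩

lemma med_inj_list {i : Fin 3} {l l' : List Bool} (h : med (i, l) = med (i, l')) : l = l' := by
  have key : ∀ {l l' : List Bool}, med (i, l) = med (i, l') → l <:+ l' → l = l' := by
    intro l l' h hs
    obtain ⟨r, hr⟩ := hs
    rcases List.eq_nil_or_concat r with rfl | ⟨r', s', rfl⟩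
    · simpa using hr
    · exfalso
      have e : l' = r' ++ (s' :: l) := by rw [← hr]; simp
      have h1 := Pos_med (i, l')
      rw [e] at h1
      have h2 := Pos_append r' h1
      rw [← e, ← h] at h2
      have h3 := crd_med (i, l)
      cases s'
      · simp only [Pos, crd_false, h3] at h2; omega
      · simp only [Pos, crd_true, h3] at h2; omega
  have h2 := Pos_med (i, l')
  rw [← h] at h2
  rcases Pos_suffix l l' (Pos_med (i, l)) h2 with h1 | h1
  · exact key h h1
  · exact (key h.symm h1).symm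

lemma Pos_root {u : Node} {x : ℤ × ℤ} (h : Pos u x) : Pos (u.1, []) x := by
  have := Pos_append (i := u.1) u.2 (l := []) (x := x) (by simpa using h)
  exact this

lemma root_disj {i j : Fin 3} {x : ℤ × ℤ} (h : Pos (i, []) x) (h' : Pos (j, []) x) : i = j := by
  fin_cases i <;> fin_cases j <;> simp [Pos, crd, pairOf, rootPair] at h h' ⊢ <;> omega

lemma med_injective : Function.Injective med := by
  intro u u' h
  have h1 := Pos_root (Pos_med u)
  have h2 := Pos_root (Pos_med u')
  rw [← h] at h2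
  have hi := root_disj h1 h2
  obtain ⟨i, l⟩ := u
  obtain ⟨j, l'⟩ := u'
  simp only at hi
  subst hi
  rw [med_inj_list h]

lemma med_ne_root (u : Node) (i : Fin 3) : med u ≠ (rootPair i).1 := by
  intro h
  have h1 := Pos_root (Pos_med u)
  rw [h] at h1
  obtain ⟨j, l⟩ := u
  fin_cases i <;> fin_cases j <;> simp [Pos, crd, pairOf, rootPair] at h1

/-! ### the integral support numbers -/

section Hfun

variable (d : ℤ) (m : Node → ℤ)

/-- the values at the three root vectors -/
def rootVal : Fin 3 → ℤ × ℤ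
  | 0 => (d, 0)
  | 1 => (0, 0)
  | 2 => (0, d)

/-- values at the two vectors of a node -/
def hp (i : Fin 3) : List Bool → ℤ × ℤ
  | [] => rootVal d i
  | true :: l => ((hp i l).1, (hp i l).1 + (hp i l).2 - m (i, l))
  | false :: l => ((hp i l).1 + (hp i l).2 - m (i, l), (hp i l).2)

open Classical in
/-- the function on all integral vectors -/
def HH (x : ℤ × ℤ) : ℤ :=
  if h : ∃ u, med u = x then (hp d m h.choose.1 h.choose.2).1 + (hp d m h.choose.1 h.choose.2).2
      - m h.choose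
  else if x = (1, 1) then d else 0

lemma HH_med (u : Node) : HH d m (med u) = (hp d m u.1 u.2).1 + (hp d m u.1 u.2).2 - m u := by
  have h : ∃ u', med u' = med u := ⟨u, rfl⟩
  have hu : h.choose = u := med_injective h.choose_spec
  unfold HH
  rw [dif_pos h, hu]

lemma HH_root : HH d m (1, 1) = d ∧ HH d m (-1, 0) = 0 ∧ HH d m (0, -1) = 0 := by
  refine ⟨?_, ?_, ?_⟩
  · have : ¬ ∃ u, med u = (1, 1) := by
      rintro ⟨u, hu⟩; exact med_ne_root u 0 hu
    unfold HH
    rw [dif_neg this, if_pos rfl]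
  · have : ¬ ∃ u, med u = (-1, 0) := by
      rintro ⟨u, hu⟩; exact med_ne_root u 1 hu
    unfold HH
    rw [dif_neg this, if_neg (by decide)]
  · have : ¬ ∃ u, med u = (0, -1) := by
      rintro ⟨u, hu⟩; exact med_ne_root u 2 hu
    unfold HH
    rw [dif_neg this, if_neg (by decide)]

lemma HH_pair (i : Fin 3) (l : List Bool) :
    HH d m (pairOf i l).1 = (hp d m i l).1 ∧ HH d m (pairOf i l).2 = (hp d m i l).2 := by
  induction l with
  | nil =>
    have := HH_root d m
    fin_cases i <;> simp [pairOf, rootPair, hp, rootVal, this]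
  | cons s l ih =>
    have := HH_med d m (i, l)
    simp only [med] at this
    cases s
    · exact ⟨this, ih.2⟩
    · exact ⟨ih.1, this⟩

lemma HH_defect (u : Node) :
    HH d m (pairOf u.1 u.2).1 + HH d m (pairOf u.1 u.2).2 - HH d m (med u) = m u := by
  rw [HH_med, (HH_pair d m u.1 u.2).1, (HH_pair d m u.1 u.2).2]; ring

end Hfun

/-! ### counting -/

/-- the lattice points of the standard triangle of size `n` -/
def Tri (n : ℤ) : Finset (ℤ × ℤ) :=
  ((Finset.Icc 0 n) ×ˢ (Finset.Icc 0 n)).filter (fun x => x.1 + x.2 ≤ n)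

lemma mem_Tri {n : ℤ} {x : ℤ × ℤ} : x ∈ Tri n ↔ 0 ≤ x.1 ∧ 0 ≤ x.2 ∧ x.1 + x.2 ≤ n := by
  simp only [Tri, Finset.mem_filter, Finset.mem_product, Finset.mem_Icc]
  omega

lemma Tri_card_nat (N : ℕ) : 2 * ((Tri ((N : ℤ) - 1)).card : ℤ) = N * (N + 1) := by
  induction N with
  | zero =>
    have : Tri (((0 : ℕ) : ℤ) - 1) = ∅ := by
      ext x; simp only [mem_Tri, Finset.notMem_empty, iff_false]; push_cast; omega
    rw [this]; simp
  | succ N ih =>
    have e : Tri (((N + 1 : ℕ) : ℤ) - 1)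
        = Tri ((N : ℤ) - 1) ∪ (Finset.Icc (0 : ℤ) N).image (fun a => (a, (N : ℤ) - a)) := by
      ext x
      simp only [mem_Tri, Finset.mem_union, Finset.mem_image, Finset.mem_Icc]
      constructor
      · rintro ⟨h1, h2, h3⟩
        push_cast at h3
        by_cases h : x.1 + x.2 ≤ (N : ℤ) - 1
        · exact Or.inl ⟨h1, h2, h⟩
        · right
          refine ⟨x.1, ⟨h1, by omega⟩, ?_⟩
          ext
          · rfl
          · simp only; omega
      · rintro (⟨h1, h2, h3⟩ | ⟨a, ⟨h1, h2⟩, rfl⟩)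
        · refine ⟨h1, h2, ?_⟩; push_cast; omega
        · refine ⟨h1, ?_, ?_⟩
          · simp only; omega
          · push_cast; omega
    have hd : Disjoint (Tri ((N : ℤ) - 1))
        ((Finset.Icc (0 : ℤ) N).image (fun a => (a, (N : ℤ) - a))) := by
      rw [Finset.disjoint_left]
      intro x hx hx'
      simp only [Finset.mem_image, Finset.mem_Icc] at hx'
      obtain ⟨a, _, rfl⟩ := hx'
      have := (mem_Tri.1 hx).2.2
      simp only at this
      omega
    rw [e, Finset.card_union_of_disjoint hd, Finset.card_image_of_injective]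
    · simp only [Int.card_Icc, sub_zero]
      push_cast
      have : (((N : ℤ) + 1).toNat : ℤ) = N + 1 := by omega
      rw [this]
      nlinarith [ih]
    · intro a b h
      simpa using congrArg Prod.fst h

lemma Tri_card {n : ℤ} (hn : -1 ≤ n) : 2 * ((Tri n).card : ℤ) = (n + 1) * (n + 2) := by
  obtain ⟨N, hN⟩ := Int.eq_ofNat_of_zero_le (show 0 ≤ n + 1 by omega)
  have h := Tri_card_nat N
  have e : (N : ℤ) - 1 = n := by omega
  rw [e] at h
  rw [h]
  have e2 : (N : ℤ) = n + 1 := by omega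
  rw [e2]; ring

lemma mem_listsLT (n : ℕ) (l : List Bool) : l ∈ listsLT n ↔ l.length < n := by
  induction n generalizing l with
  | zero => simp [listsLT]
  | succ n ih =>
    cases l with
    | nil => simp [listsLT]
    | cons s l =>
      simp only [listsLT, Finset.mem_insert, Finset.mem_union, Finset.mem_image, ih,
        List.length_cons]
      constructor
      · rintro (h | ⟨a, h1, h2⟩ | ⟨a, h1, h2⟩)
        · simp at h
        · simp only [List.cons.injEq] at h2
          rw [← h2.2]; omega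
        · simp only [List.cons.injEq] at h2
          rw [← h2.2]; omega
      · intro h
        right
        cases s
        · right; exact ⟨l, by omega, rfl⟩
        · left; exact ⟨l, by omega, rfl⟩

lemma mem_nodesLT (n : ℕ) (u : Node) : u ∈ nodesLT n ↔ u.2.length < n := by
  simp [nodesLT, mem_listsLT]

/-- integral pairing -/
def li (v x : ℤ × ℤ) : ℤ := v.1 * x.1 + v.2 * x.2

lemma li_add (v w x : ℤ × ℤ) : li (v + w) x = li v x + li w x := by
  simp only [li, Prod.fst_add, Prod.snd_add]; ring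

lemma li_unimod (u : Node) {x y : ℤ × ℤ} (h1 : li (pairOf u.1 u.2).1 x = li (pairOf u.1 u.2).1 y)
    (h2 : li (pairOf u.1 u.2).2 x = li (pairOf u.1 u.2).2 y) : x = y := by
  have hd := det_pair u.1 u.2
  generalize (pairOf u.1 u.2).1 = v at *
  generalize (pairOf u.1 u.2).2 = w at *
  have key : ∀ z : ℤ × ℤ, z.1 = li v z * w.2 - li w z * v.2 ∧
      z.2 = li w z * v.1 - li v z * w.1 := by
    intro z
    constructor
    · simp only [li]
      linear_combination (-z.1) * hd
    · simp only [li]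
      linear_combination (-z.2) * hd
  ext
  · rw [(key x).1, (key y).1, h1, h2]
  · rw [(key x).2, (key y).2, h1, h2]

section Count

variable (d : ℤ) (m : Node → ℤ)

/-- the points cut off at a node -/
def Bad (u : Node) : Finset (ℤ × ℤ) :=
  (Tri d).filter (fun x => li (pairOf u.1 u.2).1 x ≤ HH d m (pairOf u.1 u.2).1 ∧
    li (pairOf u.1 u.2).2 x ≤ HH d m (pairOf u.1 u.2).2 ∧ HH d m (med u) < li (med u) x)

lemma Bad_card (u : Node) (hm : 0 ≤ m u) : 2 * ((Bad d m u).card : ℤ) ≤ m u * (m u + 1) := by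
  have h1 : (Bad d m u).card ≤ (Tri (m u - 1)).card := by
    refine Finset.card_le_card_of_injOn
      (fun x => (HH d m (pairOf u.1 u.2).1 - li (pairOf u.1 u.2).1 x,
        HH d m (pairOf u.1 u.2).2 - li (pairOf u.1 u.2).2 x)) ?_ ?_
    · intro x hx
      simp only [Finset.mem_coe, Bad, Finset.mem_filter] at hx
      obtain ⟨_, h1, h2, h3⟩ := hx
      simp only [Finset.mem_coe, mem_Tri]
      have hd := HH_defect d m u
      have : li (med u) x = li (pairOf u.1 u.2).1 x + li (pairOf u.1 u.2).2 x := li_add _ _ _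
      refine ⟨by linarith, by linarith, by linarith⟩
    · intro x _ y _ h
      simp only [Prod.mk.injEq] at h
      exact li_unimod u (by linarith [h.1]) (by linarith [h.2])
  have h2 := Tri_card (n := m u - 1) (by omega)
  have h3 : ((Bad d m u).card : ℤ) ≤ (Tri (m u - 1)).card := by exact_mod_cast h1
  nlinarith [h2, h3]

/-- the lattice points kept -/
def Kept (N : ℕ) : Finset (ℤ × ℤ) :=
  (Tri d).filter (fun x => ∀ u ∈ nodesLT N, li (med u) x ≤ HH d m (med u))

lemma cover_aux {x : ℤ × ℤ} (hx : x ∈ Tri d) (i : Fin 3) (l : List Bool) :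
    (li (pairOf i l).1 x ≤ HH d m (pairOf i l).1 ∧ li (pairOf i l).2 x ≤ HH d m (pairOf i l).2) ∨
      ∃ l' : List Bool, l'.length < l.length ∧ x ∈ Bad d m (i, l') := by
  induction l with
  | nil =>
    left
    have h := mem_Tri.1 hx
    have hr := HH_root d m
    fin_cases i <;> simp [pairOf, rootPair, hr, li] <;> omega
  | cons s l ih =>
    rcases ih with ⟨h1, h2⟩ | ⟨l', h1, h2⟩
    · by_cases h3 : li (med (i, l)) x ≤ HH d m (med (i, l))
      · left
        cases s
        · exact ⟨h3, h2⟩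
        · exact ⟨h1, h3⟩
      · right
        refine ⟨l, by simp, ?_⟩
        simp only [Bad, Finset.mem_filter]
        exact ⟨hx, h1, h2, not_le.1 h3⟩
    · right
      exact ⟨l', by simp; omega, h2⟩

lemma cover (N : ℕ) : Tri d ⊆ Kept d m N ∪ (nodesLT N).biUnion (Bad d m) := by
  intro x hx
  by_cases h : x ∈ Kept d m N
  · exact Finset.mem_union_left _ h
  · apply Finset.mem_union_right
    simp only [Kept, Finset.mem_filter, not_and, not_forall, not_le] at h
    obtain ⟨u, hu, h3⟩ := h hx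
    rw [Finset.mem_biUnion]
    rcases cover_aux d m hx u.1 u.2 with ⟨h1, h2⟩ | ⟨l', h1, h2⟩
    · refine ⟨u, hu, ?_⟩
      simp only [Bad, Finset.mem_filter]
      exact ⟨hx, h1, h2, h3⟩
    · refine ⟨(u.1, l'), ?_, h2⟩
      rw [mem_nodesLT] at hu ⊢
      simp only; omega

lemma Kept_card (N : ℕ) (hd : 0 ≤ d) (hm : ∀ u, 0 ≤ m u) :
    d ^ 2 + 3 * d - ∑ u ∈ nodesLT N, (m u * (m u + 1)) + 2 ≤ 2 * ((Kept d m N).card : ℤ) := by
  have h1 := (Finset.card_le_card (cover d m N)).trans (Finset.card_union_le _ _)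
  have h2 : ((nodesLT N).biUnion (Bad d m)).card ≤ ∑ u ∈ nodesLT N, (Bad d m u).card :=
    Finset.card_biUnion_le
  have h3 : 2 * ((∑ u ∈ nodesLT N, (Bad d m u).card : ℕ) : ℤ)
      ≤ ∑ u ∈ nodesLT N, (m u * (m u + 1)) := by
    push_cast
    rw [Finset.mul_sum]
    exact Finset.sum_le_sum fun u _ => Bad_card d m u (hm u)
  have h4 := Tri_card (n := d) (by omega)
  have h5 : ((Tri d).card : ℤ) ≤ (Kept d m N).card + ((∑ u ∈ nodesLT N, (Bad d m u).card : ℕ) : ℤ) := by
    exact_mod_cast h1.trans (Nat.add_le_add_left h2 _)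
  nlinarith [h3, h4, h5]

lemma suppF_latHull_le {P : Finset (ℤ × ℤ)} (hP : P.Nonempty) (v : ℤ × ℤ) (c : ℤ)
    (h : ∀ z ∈ P, li v z ≤ c) : suppF (latHull P) v ≤ c := by
  refine suppF_le (latHull_nonempty hP) v ?_
  have hl : IsLinearMap ℝ (lf v) := by
    constructor
    · exact lf_add v
    · intro a x
      simp only [lf, Prod.smul_fst, Prod.smul_snd, smul_eq_mul]; ring
  have hconv : Convex ℝ {x | lf v x ≤ (c : ℝ)} := convex_halfSpace_le hl _
  have : latHull P ⊆ {x | lf v x ≤ (c : ℝ)} := by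
    refine convexHull_min ?_ hconv
    rintro _ ⟨z, hz, rfl⟩
    have := h z hz
    show lf v (emb z) ≤ c
    rw [lf_emb]
    exact_mod_cast this
  exact fun x hx => this hx

lemma suppF_le_HH (N : ℕ) (hP : (Kept d m N).Nonempty) (hm : ∀ u : Node, N ≤ u.2.length → m u = 0)
    (i : Fin 3) (l : List Bool) :
    suppF (latHull (Kept d m N)) (pairOf i l).1 ≤ HH d m (pairOf i l).1 ∧
    suppF (latHull (Kept d m N)) (pairOf i l).2 ≤ HH d m (pairOf i l).2 := by
  induction l with
  | nil =>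
    have hr := HH_root d m
    constructor
    · refine suppF_latHull_le hP _ _ fun z hz => ?_
      have h := mem_Tri.1 (Finset.mem_filter.1 hz).1
      fin_cases i <;> simp [pairOf, rootPair, hr, li] <;> omega
    · refine suppF_latHull_le hP _ _ fun z hz => ?_
      have h := mem_Tri.1 (Finset.mem_filter.1 hz).1
      fin_cases i <;> simp [pairOf, rootPair, hr, li] <;> omega
  | cons s l ih =>
    have h3 : suppF (latHull (Kept d m N)) (med (i, l)) ≤ HH d m (med (i, l)) := by
      by_cases hl : l.length < N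
      · refine suppF_latHull_le hP _ _ fun z hz => ?_
        exact (Finset.mem_filter.1 hz).2 (i, l) ((mem_nodesLT N (i, l)).2 hl)
      · have h0 := hm (i, l) (not_lt.1 hl)
        have hd := HH_defect d m (i, l)
        rw [h0] at hd
        have e : (HH d m (med (i, l)) : ℝ)
            = HH d m (pairOf i l).1 + HH d m (pairOf i l).2 := by
          have : HH d m (med (i, l)) = HH d m (pairOf i l).1 + HH d m (pairOf i l).2 := by
            simp only at hd; linarith
          exact_mod_cast this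
        rw [e]
        exact (suppF_subadd (latHull_compact _) (latHull_nonempty hP) _ _).trans
          (add_le_add ih.1 ih.2)
    cases s
    · exact ⟨h3, ih.2⟩
    · exact ⟨ih.1, h3⟩

end Count

lemma main_step {Ω : Set (ℝ × ℝ)} (hΩ : IsCompact Ω) (cΩ : Convex ℝ Ω) (nΩ : Ω.Nonempty)
    (k : ℕ) (S : Finset Node) (C : ℤ × (Node → ℤ)) (h0 : 0 ≤ C.1) (hk : 2 * (k : ℤ) ≤ idx S C) :
    ∃ P : Finset (ℤ × ℤ), P.Nonempty ∧ k + 1 ≤ latPts (latHull P) ∧
      mixedArea Ω (latHull P) ≤ Bf S (bK Ω, wK Ω) (toR C) := by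
  classical
  set m : Node → ℤ := fun u => if u ∈ S then max (C.2 u) 0 else 0 with hm
  set N : ℕ := S.sup (fun u => u.2.length) + 1 with hN
  have hSN : ∀ u ∈ S, u.2.length < N := by
    intro u hu
    have := Finset.le_sup (f := fun u : Node => u.2.length) hu
    omega
  have hm0 : ∀ u, 0 ≤ m u := by
    intro u; simp only [hm]; split_ifs
    · exact le_max_right _ _
    · exact le_refl _
  have hmN : ∀ u : Node, N ≤ u.2.length → m u = 0 := by
    intro u hu
    simp only [hm]
    rw [if_neg]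
    intro h
    have := hSN u h; omega
  have hsub : S ⊆ nodesLT N := fun u hu => (mem_nodesLT N u).2 (hSN u hu)
  have hsum1 : ∑ u ∈ nodesLT N, (m u * (m u + 1)) = ∑ u ∈ S, (m u * (m u + 1)) := by
    symm
    refine Finset.sum_subset hsub fun u _ hu => ?_
    simp [hm, hu]
  have hsum2 : ∑ u ∈ S, (m u * (m u + 1)) ≤ ∑ u ∈ S, (C.2 u * C.2 u + C.2 u) := by
    refine Finset.sum_le_sum fun u hu => ?_
    simp only [hm, if_pos hu]
    rcases le_total (C.2 u) 0 with h | h
    · rw [max_eq_right h]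
      rcases h.eq_or_lt with h | h
      · rw [h]; simp
      · have : C.2 u + 1 ≤ 0 := by omega
        nlinarith [this, h]
    · rw [max_eq_left h]; nlinarith
  have hcard := Kept_card C.1 m N h0 hm0
  have hidx : idx S C = C.1 ^ 2 + 3 * C.1 - ∑ u ∈ S, (C.2 u * C.2 u + C.2 u) := by
    simp only [idx, Bf, Kd, Finset.sum_add_distrib]; ring
  have hcard2 : k + 1 ≤ (Kept C.1 m N).card := by
    have : 2 * (k : ℤ) + 2 ≤ 2 * ((Kept C.1 m N).card : ℤ) := by
      rw [hsum1] at hcard
      rw [hidx] at hk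
      linarith
    omega
  have hP : (Kept C.1 m N).Nonempty := by
    rw [← Finset.card_pos]; omega
  refine ⟨Kept C.1 m N, hP, hcard2.trans (card_le_latPts _), ?_⟩
  set K := latHull (Kept C.1 m N) with hKdef
  have hle := suppF_le_HH C.1 m N hP hmN
  rw [← hKdef] at hle
  set g : ℤ × ℤ → ℝ := fun x => max ((HH C.1 m x : ℝ) - suppF K x) 0 with hg
  have hgv : ∀ i l, g (pairOf i l).1 = HH C.1 m (pairOf i l).1 - suppF K (pairOf i l).1 ∧
      g (pairOf i l).2 = HH C.1 m (pairOf i l).2 - suppF K (pairOf i l).2 := by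
    intro i l
    simp only [hg]
    exact ⟨max_eq_left (sub_nonneg.2 (hle i l).1), max_eq_left (sub_nonneg.2 (hle i l).2)⟩
  have hdef : ∀ u, wK Ω u * defect g u = wK Ω u * m u - wK Ω u * wK K u := by
    intro u
    have h1 := hgv u.1 u.2
    have h2 : g (med u) = HH C.1 m (med u) - suppF K (med u) := by
      have := (hgv u.1 (true :: u.2)).2
      exact this
    have h3 : (HH C.1 m (pairOf u.1 u.2).1 : ℝ) + HH C.1 m (pairOf u.1 u.2).2
        - HH C.1 m (med u) = m u := by
      exact_mod_cast HH_defect C.1 m u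
    have h4 : defect g u = (m u : ℝ) - wK K u := by
      have : defect g u = g (pairOf u.1 u.2).1 + g (pairOf u.1 u.2).2 - g (med u) := rfl
      rw [this, h1.1, h1.2, h2, ← h3]
      simp only [wK, med]
      ring
    rw [h4]; ring
  have fK := mixed_formula hΩ (latHull_compact (Kept C.1 m N)) cΩ (latHull_convex _) nΩ
    (latHull_nonempty hP)
  rw [← hKdef] at fK
  have fm : HasSum (fun u => wK Ω u * (m u : ℝ)) (∑ u ∈ S, wK Ω u * (m u : ℝ)) := by
    refine hasSum_sum_of_ne_finset_zero fun u hu => ?_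
    simp [hm, hu]
  have hs : HasSum (fun u => wK Ω u * defect g u)
      (∑ u ∈ S, wK Ω u * (m u : ℝ) - (bK Ω * bK K - mixedArea Ω K)) := by
    simp only [hdef]
    exact fm.sub fK
  have hA := (geoA Ω hΩ nΩ).2.2.2.2 g (fun v => le_max_right _ _) hs.summable
  rw [hs.tsum_eq] at hA
  have hr := HH_root C.1 m
  have g1 : g (1, 1) = C.1 - suppF K (1, 1) := by
    have := (hgv 0 []).1
    simpa [pairOf, rootPair, hr.1] using this
  have g2 : g (-1, 0) = - suppF K (-1, 0) := by
    have := (hgv 0 []).2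
    simpa [pairOf, rootPair, hr.2.1] using this
  have g3 : g (0, -1) = - suppF K (0, -1) := by
    have := (hgv 1 []).2
    simpa [pairOf, rootPair, hr.2.2] using this
  rw [g1, g2, g3] at hA
  have hβ := (geoA Ω hΩ nΩ).1
  have hsum3 : ∑ u ∈ S, wK Ω u * (C.2 u : ℝ) ≤ ∑ u ∈ S, wK Ω u * (m u : ℝ) := by
    refine Finset.sum_le_sum fun u hu => mul_le_mul_of_nonneg_left ?_ (hβ u)
    have : C.2 u ≤ m u := by
      simp only [hm, if_pos hu]; exact le_max_left _ _
    exact_mod_cast this
  have hBf : Bf S (bK Ω, wK Ω) (toR C) = bK Ω * C.1 - ∑ u ∈ S, wK Ω u * (C.2 u : ℝ) := by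
    simp only [Bf, toR]
  rw [hBf]
  have e : bK Ω * bK K = bK Ω * (suppF K (1, 1) + suppF K (-1, 0) + suppF K (0, -1)) := rfl
  nlinarith [hA, hsum3, e]

/-! ### the lower bound for hulls with two lattice points -/

/-- a standard triangle of size `δ` with corner `p` -/
def triQ (p : ℝ × ℝ) (δ : ℝ) : Set (ℝ × ℝ) :=
  convexHull ℝ {p, (p.1 + δ, p.2), (p.1, p.2 + δ)}

/-- the vertex which is extreme for the `i`-th root cone -/
def vtx (p : ℝ × ℝ) (δ : ℝ) : Fin 3 → ℝ × ℝ
  | 0 => (p.1, p.2 + δ)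
  | 1 => p
  | 2 => (p.1 + δ, p.2)

lemma triQ_compact (p : ℝ × ℝ) (δ : ℝ) : IsCompact (triQ p δ) :=
  Set.Finite.isCompact_convexHull ℝ (by simp)

lemma lf_isLinear (v : ℤ × ℤ) : IsLinearMap ℝ (lf v) := by
  constructor
  · exact lf_add v
  · intro a x
    simp only [lf, Prod.smul_fst, Prod.smul_snd, smul_eq_mul]; ring

lemma vtx_mem (p : ℝ × ℝ) (δ : ℝ) (i : Fin 3) : vtx p δ i ∈ triQ p δ := by
  apply subset_convexHull
  fin_cases i <;> simp [vtx]

lemma suppF_triQ {p : ℝ × ℝ} {δ : ℝ} (v : ℤ × ℤ) (i : Fin 3)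
    (h1 : lf v p ≤ lf v (vtx p δ i)) (h2 : lf v (p.1 + δ, p.2) ≤ lf v (vtx p δ i))
    (h3 : lf v (p.1, p.2 + δ) ≤ lf v (vtx p δ i)) :
    suppF (triQ p δ) v = lf v (vtx p δ i) := by
  apply le_antisymm
  · refine suppF_le ⟨_, vtx_mem p δ i⟩ v ?_
    have : triQ p δ ⊆ {x | lf v x ≤ lf v (vtx p δ i)} := by
      refine convexHull_min ?_ (convex_halfSpace_le (lf_isLinear v) _)
      rintro x (rfl | rfl | rfl)
      · exact h1
      · exact h2
      · exact h3
    exact fun x hx => this hx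
  · exact le_suppF (triQ_compact p δ) v (vtx_mem p δ i)

/-- the vectors maximised at the `i`-th vertex -/
def Mx (p : ℝ × ℝ) (δ : ℝ) (i : Fin 3) (v : ℤ × ℤ) : Prop :=
  lf v p ≤ lf v (vtx p δ i) ∧ lf v (p.1 + δ, p.2) ≤ lf v (vtx p δ i) ∧
    lf v (p.1, p.2 + δ) ≤ lf v (vtx p δ i)

lemma Mx_add {p : ℝ × ℝ} {δ : ℝ} {i : Fin 3} {v w : ℤ × ℤ} (hv : Mx p δ i v) (hw : Mx p δ i w) :
    Mx p δ i (v + w) := by
  simp only [Mx, lf_vadd] at hv hw ⊢
  exact ⟨add_le_add hv.1 hw.1, add_le_add hv.2.1 hw.2.1, add_le_add hv.2.2 hw.2.2⟩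

lemma Mx_pair (p : ℝ × ℝ) {δ : ℝ} (hδ : 0 ≤ δ) (i : Fin 3) (l : List Bool) :
    Mx p δ i (pairOf i l).1 ∧ Mx p δ i (pairOf i l).2 := by
  induction l with
  | nil =>
    fin_cases i <;> simp [pairOf, rootPair, Mx, lf, vtx] <;>
      (try constructor) <;> (try constructor) <;> linarith
  | cons s l ih =>
    cases s
    · exact ⟨Mx_add ih.1 ih.2, ih.2⟩
    · exact ⟨ih.1, Mx_add ih.1 ih.2⟩

lemma wK_triQ (p : ℝ × ℝ) {δ : ℝ} (hδ : 0 ≤ δ) (u : Node) : wK (triQ p δ) u = 0 := by
  have h := Mx_pair p hδ u.1 u.2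
  have h3 := Mx_add h.1 h.2
  rw [wK, suppF_triQ _ u.1 h.1.1 h.1.2.1 h.1.2.2, suppF_triQ _ u.1 h.2.1 h.2.2.1 h.2.2.2,
    suppF_triQ _ u.1 h3.1 h3.2.1 h3.2.2, lf_vadd]
  ring

lemma bK_triQ (p : ℝ × ℝ) {δ : ℝ} (hδ : 0 ≤ δ) : bK (triQ p δ) = δ := by
  have h0 := Mx_pair p hδ 0 []
  have h1 := Mx_pair p hδ 1 []
  simp only [pairOf, rootPair] at h0 h1
  rw [bK, suppF_triQ _ 0 h0.1.1 h0.1.2.1 h0.1.2.2, suppF_triQ _ 0 h0.2.1 h0.2.2.1 h0.2.2.2,
    suppF_triQ _ 1 h1.2.1 h1.2.2.1 h1.2.2.2]
  simp only [lf, vtx]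
  push_cast
  ring

lemma one_le_bK {K : Set (ℝ × ℝ)} (hK : IsCompact K) (h : 2 ≤ latPts K) : 1 ≤ bK K := by
  have h2 : 1 < {z : ℤ × ℤ | emb z ∈ K}.ncard := h
  obtain ⟨a, b, ha, hb, hab⟩ := (Set.one_lt_ncard_iff (latPts_finite hK)).1 h2
  have key : ∀ a b : ℤ × ℤ, emb a ∈ K → emb b ∈ K → a ≠ b → b.1 + b.2 ≤ a.1 + a.2 →
      1 ≤ bK K := by
    intro a b ha hb hab hle
    have e1 := le_suppF hK (1, 1) ha
    have e2 := le_suppF hK (-1, 0) ha
    have e3 := le_suppF hK (0, -1) ha
    have e4 := le_suppF hK (-1, 0) hb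
    have e5 := le_suppF hK (0, -1) hb
    rw [lf_emb] at e1 e2 e3 e4 e5
    push_cast at e1 e2 e3 e4 e5
    by_cases h1 : b.1 < a.1
    · have : (b.1 : ℝ) + 1 ≤ a.1 := by exact_mod_cast h1
      unfold bK; linarith
    · by_cases h2 : b.2 < a.2
      · have : (b.2 : ℝ) + 1 ≤ a.2 := by exact_mod_cast h2
        unfold bK; linarith
      · exfalso
        exact hab (Prod.ext (by omega) (by omega))
  rcases le_total (b.1 + b.2) (a.1 + a.2) with h | h
  · exact key a b ha hb hab h
  · exact key b a hb ha hab.symm h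

lemma exists_triQ {Ω : Set (ℝ × ℝ)} (cΩ : Convex ℝ Ω) (hint : (interior Ω).Nonempty) :
    ∃ (p : ℝ × ℝ) (δ : ℝ), 0 < δ ∧ triQ p δ ⊆ Ω := by
  obtain ⟨p, hp⟩ := hint
  obtain ⟨r, hr, hb⟩ := Metric.isOpen_iff.1 isOpen_interior p hp
  have hb' := hb.trans interior_subset
  refine ⟨p, r / 2, by linarith, convexHull_min ?_ cΩ⟩
  rintro x (rfl | rfl | rfl)
  · exact hb' (Metric.mem_ball_self hr)
  · apply hb'
    rw [Metric.mem_ball, Prod.dist_eq, max_lt_iff]
    simp only [Real.dist_eq, add_sub_cancel_left, sub_self, abs_zero]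
    exact ⟨by rw [abs_of_pos (by linarith)]; linarith, hr⟩
  · apply hb'
    rw [Metric.mem_ball, Prod.dist_eq, max_lt_iff]
    simp only [Real.dist_eq, add_sub_cancel_left, sub_self, abs_zero]
    exact ⟨hr, by rw [abs_of_pos (by linarith)]; linarith⟩

lemma mixed_lower {Ω : Set (ℝ × ℝ)} (hΩ : IsCompact Ω) (cΩ : Convex ℝ Ω)
    (hint : (interior Ω).Nonempty) :
    ∃ c > 0, ∀ K : Set (ℝ × ℝ), IsCompact K → Convex ℝ K → 2 ≤ latPts K → c ≤ mixedArea Ω K := by
  obtain ⟨p, δ, hδ, hQ⟩ := exists_triQ cΩ hint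
  refine ⟨δ, hδ, fun K hK cK h2 => ?_⟩
  have nK : K.Nonempty := by
    have : 0 < {z : ℤ × ℤ | emb z ∈ K}.ncard := lt_of_lt_of_le (by norm_num) h2
    obtain ⟨z, hz⟩ := (Set.ncard_pos (latPts_finite hK)).1 this
    exact ⟨emb z, hz⟩
  have nQ : (triQ p δ).Nonempty := ⟨_, vtx_mem p δ 0⟩
  have f := mixed_formula (triQ_compact p δ) hK (convex_convexHull ℝ _) cK nQ nK
  simp only [wK_triQ p hδ.le, zero_mul, bK_triQ p hδ.le] at f
  have h1 := f.unique hasSum_zero
  have h3 := one_le_bK hK h2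
  have h4 : mixedArea (triQ p δ) K ≤ mixedArea Ω K := by
    rw [mixedArea_comm _ K, mixedArea_comm _ K]
    exact mixed_mono hK cK nK (triQ_compact p δ) hΩ (convex_convexHull ℝ _) cΩ nQ hQ
  nlinarith

end GeoDAux

open GeoDAux

/-- TARGET -/
theorem geoD (Ω : Set (ℝ × ℝ)) (hK : IsCompact Ω) (hc : Convex ℝ Ω)
    (hint : (interior Ω).Nonempty) :
    (∀ k, echCap Ω k = capW (bK Ω) (wK Ω) k) ∧
    Nef (bK Ω, wK Ω) ∧
    (∃ c > 0, ∀ (S : Finset Node) (C : ℤ × (Node → ℤ)), 0 ≤ C.1 → 2 ≤ idx S C →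
      c ≤ Bf S (bK Ω, wK Ω) (toR C)) := by
  have nΩ : Ω.Nonempty := hint.mono interior_subset
  have nef : Nef (bK Ω, wK Ω) := by
    intro S C h0 h1
    obtain ⟨P, hP, _, h3⟩ := main_step hK hc nΩ 0 S C h0 (by simpa using h1)
    exact (mixed_nonneg hK hc nΩ (latHull_compact P) (latHull_convex P)
      (latHull_nonempty hP)).trans h3
  -- every element of the second set dominates an element of the first
  have dom : ∀ (k : ℕ) (S : Finset Node) (C : ℤ × (Node → ℤ)), 0 ≤ C.1 → 2 * (k : ℤ) ≤ idx S C →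
      ∃ P : Finset (ℤ × ℤ), P.Nonempty ∧ latPts (latHull P) = k + 1 ∧
        mixedArea Ω (latHull P) ≤ Bf S (bK Ω, wK Ω) (toR C) := by
    intro k S C h0 h1
    obtain ⟨P, hP, h2, h3⟩ := main_step hK hc nΩ k S C h0 h1
    obtain ⟨P', hP', h4, h5⟩ := shrink P hP (k + 1) (by omega) h2
    exact ⟨P', hP', h5, (mixed_mono hK hc nΩ (latHull_compact P') (latHull_compact P)
      (latHull_convex P') (latHull_convex P) (latHull_nonempty hP') h4).trans h3⟩
  have sub : ∀ (k : ℕ) (P : Finset (ℤ × ℤ)), P.Nonempty → latPts (latHull P) = k + 1 →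
      ∃ (S : Finset Node) (C : ℤ × (Node → ℤ)), 0 ≤ C.1 ∧ 2 * (k : ℤ) ≤ idx S C ∧
        mixedArea Ω (latHull P) = Bf S (bK Ω, wK Ω) (toR C) := by
    intro k P hP h1
    obtain ⟨S, C, h2, _, h4, h5, h6, h7⟩ := geoB2.2 P hP
    refine ⟨S, C, h2, ?_, ?_⟩
    · rw [h7, h1]; push_cast; linarith
    · have f := mixed_formula hK (latHull_compact P) hc (latHull_convex P) nΩ
        (latHull_nonempty hP)
      have f2 : HasSum (fun u => wK Ω u * wK (latHull P) u)
          (∑ u ∈ S, wK Ω u * wK (latHull P) u) := by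
        refine hasSum_sum_of_ne_finset_zero fun u hu => ?_
        rw [← h6 u, h4 u hu]; simp
      have h8 := f.unique f2
      simp only [Bf, toR, h5, h6]
      linarith
  refine ⟨fun k => ?_, nef, ?_⟩
  · have hne : {L : ℝ | ∃ P : Finset (ℤ × ℤ), P.Nonempty ∧ latPts (latHull P) = k + 1 ∧
        L = mixedArea Ω (latHull P)}.Nonempty := by
      obtain ⟨P, hP, h1, _⟩ := dom k ∅ ((k : ℤ), fun _ => 0) (by simp) (by
        simp only [idx, Bf, Kd, Finset.sum_empty]; nlinarith [Int.natCast_nonneg k])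
      exact ⟨_, P, hP, h1, rfl⟩
    have hne2 : {L : ℝ | ∃ (S : Finset Node) (C : ℤ × (Node → ℤ)), 0 ≤ C.1 ∧
        2 * (k : ℤ) ≤ idx S C ∧ L = Bf S (bK Ω, wK Ω) (toR C)}.Nonempty := by
      obtain ⟨_, P, hP, h1, rfl⟩ := hne
      obtain ⟨S, C, h2, h3, h4⟩ := sub k P hP h1
      exact ⟨_, S, C, h2, h3, h4⟩
    unfold echCap capW
    apply le_antisymm
    · refine le_csInf hne2 ?_
      rintro L ⟨S, C, h0, h1, rfl⟩
      obtain ⟨P, hP, h2, h3⟩ := dom k S C h0 h1
      have hbd : BddBelow {L : ℝ | ∃ P : Finset (ℤ × ℤ), P.Nonempty ∧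
          latPts (latHull P) = k + 1 ∧ L = mixedArea Ω (latHull P)} := by
        refine ⟨0, ?_⟩
        rintro _ ⟨P', hP', _, rfl⟩
        exact mixed_nonneg hK hc nΩ (latHull_compact P') (latHull_convex P')
          (latHull_nonempty hP')
      exact (csInf_le hbd ⟨P, hP, h2, rfl⟩).trans h3
    · refine le_csInf hne ?_
      rintro L ⟨P, hP, h1, rfl⟩
      obtain ⟨S, C, h2, h3, h4⟩ := sub k P hP h1
      refine csInf_le ?_ ⟨S, C, h2, h3, h4⟩
      refine ⟨0, ?_⟩
      rintro _ ⟨S', C', h5, h6, rfl⟩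
      exact nef S' C' h5 (by have := Int.natCast_nonneg k; linarith)
  · obtain ⟨c, hc0, hlow⟩ := mixed_lower hK hc hint
    refine ⟨c, hc0, fun S C h0 h1 => ?_⟩
    obtain ⟨P, hP, h2, h3⟩ := main_step hK hc nΩ 1 S C h0 (by simpa using h1)
    exact (hlow _ (latHull_compact P) (latHull_convex P) h2).trans h3


end Pool.Agent.Helper416_Stair
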