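import Pool.Agent.Helper416_Stair.Cases
import Pool.Agent.Helper416_Stair.GeoC
import Pool.Agent.Helper416_Stair.GeoD

/-!
# Irrationality of the accumulation point
-/

noncomputable section

open scoped BigOperators Pointwise

namespace Pool.Agent.Helper416_Stair

/-- if the embedding function defined by the ECH capacities has infinitely many non-smooth points in a
bounded interval, then the accumulation point exists and is irrational -/
theorem staircase_irrational (Ω : Set (ℝ × ℝ)) (hK : IsCompact Ω) (hc : Convex ℝ Ω)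
    (hint : (interior Ω).Nonempty) (R : ℝ)
    (hinf : {a : ℝ | 1 ≤ a ∧ a ≤ R ∧ ¬ ContDiffAt ℝ (⊤ : ℕ∞) (cfun (echCap Ω)) a}.Infinite) :
    4 ≤ affPer Ω ^ 2 / (2 * (MeasureTheory.volume Ω).toReal) ∧
    ∀ a₀ : ℝ, 1 ≤ a₀ →
      a₀ ^ 2 - a₀ * (affPer Ω ^ 2 / (2 * (MeasureTheory.volume Ω).toReal) - 2) + 1 = 0 →
      Irrational a₀ := by
  have hne : Ω.Nonempty := hint.mono interior_subset
  obtain ⟨hcap, hN, c₀, hc₀, hpos⟩ := geoD Ω hK hc hint
  obtain ⟨hw0, -, hwsum, -, -⟩ := geoA Ω hK hne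
  have hper : affPer Ω = 3 * bK Ω - ∑' u, wK Ω u := (geoC Ω hK hc hint).tsum_eq
  have hsq := (geoB2.1 Ω hK hc hne).tsum_eq
  -- the area is positive
  have harea : 0 < (MeasureTheory.volume Ω).toReal := by
    apply ENNReal.toReal_pos
    · have h1 : 0 < MeasureTheory.volume (interior Ω) := isOpen_interior.measure_pos _ hint
      exact (lt_of_lt_of_le h1 (MeasureTheory.measure_mono interior_subset)).ne'
    · exact hK.measure_lt_top.ne
  have hb0 : 0 ≤ bK Ω := by
    have h := hN ∅ (1, fun _ => 0) (by simp) (by simp [idx, Bf, Kd])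
    simpa [Bf, toR] using h
  have hvol : ∑' u, wK Ω u ^ 2 < bK Ω ^ 2 := by rw [hsq]; linarith
  have hb : 0 < bK Ω := by
    rcases lt_or_eq_of_le hb0 with h | h
    · exact h
    · exfalso
      rw [← h] at hvol
      have : 0 ≤ ∑' u, wK Ω u ^ 2 := tsum_nonneg (fun u => sq_nonneg _)
      norm_num at hvol
      linarith
  have hcap' : echCap Ω = capW (bK Ω) (wK Ω) := funext hcap
  have hpos' : ∃ c > 0, ∀ k : ℕ, 1 ≤ k → c ≤ capW (bK Ω) (wK Ω) k := by
    refine ⟨c₀, hc₀, fun k hk => ?_⟩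
    apply le_csInf
    · refine ⟨_, ∅, ((k : ℤ), fun _ => 0), by simp, ?_, rfl⟩
      simp only [idx, Bf, Kd, Finset.sum_empty, sub_zero]
      nlinarith [Int.natCast_nonneg k]
    · rintro L ⟨S, C, h1, h2, rfl⟩
      apply hpos S C h1
      have : (1 : ℤ) ≤ k := by exact_mod_cast hk
      linarith
  rw [hcap'] at hinf
  obtain ⟨z₀, hz₀, hirr, hz⟩ := main_weights (bK Ω) (wK Ω) hb hw0 hwsum hvol hN hpos' R hinf
  have hV : bK Ω ^ 2 - ∑' u, wK Ω u ^ 2 = 2 * (MeasureTheory.volume Ω).toReal := by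
    rw [hsq]; ring
  rw [hV, ← hper] at hz
  set Vol := 2 * (MeasureTheory.volume Ω).toReal with hVol
  have hVol0 : 0 < Vol := by rw [hVol]; linarith
  have hz0 : 0 < z₀ := by linarith
  have key : affPer Ω ^ 2 / Vol = (1 + z₀) ^ 2 / z₀ := by
    have h1 : (√(z₀ / Vol) * affPer Ω) ^ 2 = (1 + z₀) ^ 2 := by rw [hz]
    rw [mul_pow, Real.sq_sqrt (by positivity)] at h1
    rw [← h1]
    field_simp
  rw [key]
  constructor
  · rw [le_div_iff₀ hz0]
    nlinarith [sq_nonneg (1 - z₀)]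
  · intro a₀ _ h
    have h1 : (a₀ - z₀) * (a₀ - z₀⁻¹) = 0 := by
      have e : (a₀ - z₀) * (a₀ - z₀⁻¹) = a₀ ^ 2 - a₀ * ((1 + z₀) ^ 2 / z₀ - 2) + 1 := by
        field_simp; ring
      rw [e, h]
    rcases mul_eq_zero.mp h1 with h2 | h2
    · have : a₀ = z₀ := by linarith
      rw [this]; exact hirr
    · have : a₀ = z₀⁻¹ := by linarith
      rw [this]; exact irrational_inv_iff.mpr hirr

end Pool.Agent.Helper416_Stair
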