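import Pool.Agent.Helper416_Stair.Defs

/-!
# Farey tree potential of a compact set
-/

noncomputable section

open scoped BigOperators Pointwise

namespace Pool.Agent.Helper416_Stair



/-
JOB GEO-A (helper416, MP_f690a7_gt).  Farey tree potential of a compact set.

Plain proof.  `h = suppF K` is subadditive and `h 0 = 0`, `h (n v) = n h v` for `n ≥ 0`.  For every integral vector `v`
choose a maximiser `x v ∈ K` of `v·x` (K compact nonempty).  For a pair `(v, w)` put
`s(v,w) = h w - w·(x v) ≥ 0` and `t(v,w) = h v - v·(x w) ≥ 0`, `β = h v + h w - h (v+w)`.  Then for the children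
`(v, v+w)` and `(v+w, w)`:
  `s(v,v+w) = h(v+w) - (v+w)·x v = s(v,w) - β`,
  `t(v,v+w) + s(v+w,w) = h v - v·x(v+w) + h w - w·x(v+w) = β`,
  `t(v+w,w) = h(v+w) - (v+w)·x w = t(v,w) - β`.
So `Ψ_n = ∑ over pairs (v,w) of level n of (s g v + t g w)` satisfies
  `Ψ_{n+1} = Ψ_n - ∑_{level n} β (g v + g w - g (v+w))`, and `Ψ_n ≥ 0` if `g ≥ 0`.  At level 0, for each root vector
`v_i` the two terms are `h v_{i+1} - v_{i+1}·x v_i + h v_{i-1} - v_{i-1}·x v_i = bK K` because the three root vectors
sum to zero.  Level `n+1` lists are `true :: l`, `false :: l` with `l` of level `n`.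
-/

/-- all lists of length `< n` -/
def listsLT : ℕ → Finset (List Bool)
  | 0 => ∅
  | n + 1 => insert [] ((listsLT n).image (List.cons true) ∪ (listsLT n).image (List.cons false))

/-- all nodes of level `< n` -/
def nodesLT (n : ℕ) : Finset Node := Finset.univ ×ˢ listsLT n

/-- `g v + g w - g (v + w)` at the node with pair `(v, w)` -/
def defect (g : ℤ × ℤ → ℝ) (u : Node) : ℝ :=
  g (pairOf u.1 u.2).1 + g (pairOf u.1 u.2).2 - g ((pairOf u.1 u.2).1 + (pairOf u.1 u.2).2)


theorem geoA_sum_succ (F : List Bool → ℝ) (n : ℕ) :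
    ∑ l ∈ listsLT (n + 1), F l =
      F [] + ∑ l ∈ listsLT n, F (true :: l) + ∑ l ∈ listsLT n, F (false :: l) := by
  have h1 : ([] : List Bool) ∉
      (listsLT n).image (List.cons true) ∪ (listsLT n).image (List.cons false) := by
    simp
  have h2 : Disjoint ((listsLT n).image (List.cons true)) ((listsLT n).image (List.cons false)) := by
    rw [Finset.disjoint_left]
    intro a ha hb
    simp only [Finset.mem_image] at ha hb
    obtain ⟨b, _, rfl⟩ := ha
    obtain ⟨c, _, hc⟩ := hb
    simp at hc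
  show ∑ l ∈ insert [] ((listsLT n).image (List.cons true) ∪ (listsLT n).image (List.cons false)),
    F l = _
  rw [Finset.sum_insert h1, Finset.sum_union h2, Finset.sum_image, Finset.sum_image]
  · ring
  · intro a _ b _ h
    simpa using h
  · intro a _ b _ h
    simpa using h

/-- sum over the lists of length `n` -/
def geoLS : ℕ → (List Bool → ℝ) → ℝ
  | 0, F => F []
  | n + 1, F => geoLS n (fun l => F (true :: l)) + geoLS n (fun l => F (false :: l))

theorem geoA_sum_level (n : ℕ) : ∀ (F : List Bool → ℝ),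
    ∑ l ∈ listsLT (n + 1), F l = ∑ l ∈ listsLT n, F l + geoLS n F := by
  induction n with
  | zero =>
    intro F
    rw [geoA_sum_succ]
    simp [listsLT, geoLS]
  | succ n ih =>
    intro F
    rw [geoA_sum_succ, ih, ih, geoA_sum_succ]
    simp only [geoLS]
    ring

theorem geoLS_nonneg (n : ℕ) : ∀ (F : List Bool → ℝ), (∀ l, 0 ≤ F l) → 0 ≤ geoLS n F := by
  induction n with
  | zero => intro F hF; exact hF []
  | succ n ih =>
    intro F hF
    exact add_nonneg (ih _ fun l => hF _) (ih _ fun l => hF _)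

theorem geoLS_add (n : ℕ) : ∀ (F G : List Bool → ℝ),
    geoLS n (fun l => F l + G l) = geoLS n F + geoLS n G := by
  induction n with
  | zero => intro F G; rfl
  | succ n ih =>
    intro F G
    simp only [geoLS]
    rw [ih, ih]
    ring

theorem geoLS_congr (n : ℕ) (F G : List Bool → ℝ) (h : ∀ l, F l = G l) :
    geoLS n F = geoLS n G := by
  rw [funext h]

theorem geoLS_step (P Q : List Bool → ℝ) (h : ∀ l, P (true :: l) + P (false :: l) = P l - Q l)
    (n : ℕ) : geoLS (n + 1) P = geoLS n P - geoLS n Q := by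
  have h1 : geoLS (n + 1) P = geoLS n (fun l => P (true :: l) + P (false :: l)) := by
    rw [geoLS_add]; rfl
  have h2 : geoLS n P = geoLS n (fun l => (P (true :: l) + P (false :: l)) + Q l) := by
    apply geoLS_congr
    intro l
    rw [h]; ring
  rw [h1, h2, geoLS_add n (fun l => P (true :: l) + P (false :: l)) Q]
  ring

theorem geoLS_total (P Q : List Bool → ℝ) (h : ∀ l, P (true :: l) + P (false :: l) = P l - Q l)
    (n : ℕ) : ∑ l ∈ listsLT n, Q l + geoLS n P = P [] := by
  induction n with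
  | zero => simp [listsLT, geoLS]
  | succ n ih =>
    rw [geoA_sum_level, geoLS_step P Q h n, ← ih]
    ring

/-- the linear form of an integral vector -/
def geoDot (v : ℤ × ℤ) (x : ℝ × ℝ) : ℝ := (v.1 : ℝ) * x.1 + (v.2 : ℝ) * x.2

theorem geoDot_add (v w : ℤ × ℤ) (x : ℝ × ℝ) : geoDot (v + w) x = geoDot v x + geoDot w x := by
  simp only [geoDot, Prod.fst_add, Prod.snd_add, Int.cast_add]
  ring

theorem geoDot_cont (v : ℤ × ℤ) : Continuous (geoDot v) := by
  unfold geoDot
  fun_prop

theorem geo_le_suppF (K : Set (ℝ × ℝ)) (hK : IsCompact K) (v : ℤ × ℤ) (x : ℝ × ℝ) (hx : x ∈ K) :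
    geoDot v x ≤ suppF K v := by
  apply le_csSup
  · exact (hK.image (geoDot_cont v)).bddAbove
  · exact ⟨x, hx, rfl⟩

theorem geo_exists_max (K : Set (ℝ × ℝ)) (hK : IsCompact K) (hne : K.Nonempty) (v : ℤ × ℤ) :
    ∃ x ∈ K, geoDot v x = suppF K v := by
  obtain ⟨x, hx, hmax⟩ := hK.exists_isMaxOn hne (geoDot_cont v).continuousOn
  refine ⟨x, hx, le_antisymm (geo_le_suppF K hK v x hx) ?_⟩
  apply csSup_le (hne.image _)
  rintro y ⟨z, hz, rfl⟩
  exact hmax hz

theorem geoA_mem_listsLT (l : List Bool) : ∀ n, l.length < n → l ∈ listsLT n := by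
  induction l with
  | nil =>
    intro n hn
    obtain ⟨m, rfl⟩ : ∃ m, n = m + 1 := ⟨n - 1, by simp at hn; omega⟩
    simp [listsLT]
  | cons a l ih =>
    intro n hn
    obtain ⟨m, rfl⟩ : ∃ m, n = m + 1 := ⟨n - 1, by simp at hn; omega⟩
    have hm : l ∈ listsLT m := ih m (by simpa using hn)
    cases a <;> simp [listsLT, hm]

theorem geoA_listsLT_mono (n : ℕ) : listsLT n ⊆ listsLT (n + 1) := by
  induction n with
  | zero => simp [listsLT]
  | succ n ih =>
    show insert [] ((listsLT n).image (List.cons true) ∪ (listsLT n).image (List.cons false)) ⊆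
      insert [] ((listsLT (n + 1)).image (List.cons true) ∪
        (listsLT (n + 1)).image (List.cons false))
    apply Finset.insert_subset_insert
    exact Finset.union_subset_union (Finset.image_subset_image ih) (Finset.image_subset_image ih)

theorem geoA_nodesLT_monotone : Monotone nodesLT := by
  apply monotone_nat_of_le_succ
  intro n
  exact Finset.product_subset_product_right (geoA_listsLT_mono n)

theorem geoA_tendsto : Filter.Tendsto nodesLT Filter.atTop Filter.atTop := by
  apply Filter.tendsto_atTop_finset_of_monotone geoA_nodesLT_monotone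
  rintro ⟨i, l⟩
  exact ⟨l.length + 1, by
    simp only [nodesLT, Finset.mem_product, Finset.mem_univ, true_and]
    exact geoA_mem_listsLT l _ (Nat.lt_succ_self _)⟩

theorem geoA_wK_nonneg (K : Set (ℝ × ℝ)) (hK : IsCompact K) (hne : K.Nonempty) (u : Node) :
    0 ≤ wK K u := by
  obtain ⟨x, hx, h⟩ := geo_exists_max K hK hne ((pairOf u.1 u.2).1 + (pairOf u.1 u.2).2)
  have h1 := geo_le_suppF K hK (pairOf u.1 u.2).1 x hx
  have h2 := geo_le_suppF K hK (pairOf u.1 u.2).2 x hx
  rw [geoDot_add] at h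
  unfold wK
  linarith

theorem geoA_main (K : Set (ℝ × ℝ)) (hK : IsCompact K) (hne : K.Nonempty)
    (g : ℤ × ℤ → ℝ) (hg : ∀ v, 0 ≤ g v) (n : ℕ) :
    ∑ u ∈ nodesLT n, wK K u * defect g u ≤ bK K * (g (1, 1) + g (-1, 0) + g (0, -1)) := by
  choose x hx hmax using geo_exists_max K hK hne
  -- the potential
  let P : Fin 3 → List Bool → ℝ := fun i l =>
    (suppF K (pairOf i l).2 - geoDot (pairOf i l).2 (x (pairOf i l).1)) * g (pairOf i l).1 +
    (suppF K (pairOf i l).1 - geoDot (pairOf i l).1 (x (pairOf i l).2)) * g (pairOf i l).2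
  let Q : Fin 3 → List Bool → ℝ := fun i l => wK K (i, l) * defect g (i, l)
  have hstep : ∀ i l, P i (true :: l) + P i (false :: l) = P i l - Q i l := by
    intro i l
    show (suppF K ((pairOf i l).1 + (pairOf i l).2) -
        geoDot ((pairOf i l).1 + (pairOf i l).2) (x (pairOf i l).1)) * g (pairOf i l).1 +
      (suppF K (pairOf i l).1 - geoDot (pairOf i l).1 (x ((pairOf i l).1 + (pairOf i l).2))) *
        g ((pairOf i l).1 + (pairOf i l).2) +
      ((suppF K (pairOf i l).2 - geoDot (pairOf i l).2 (x ((pairOf i l).1 + (pairOf i l).2))) *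
        g ((pairOf i l).1 + (pairOf i l).2) +
      (suppF K ((pairOf i l).1 + (pairOf i l).2) -
        geoDot ((pairOf i l).1 + (pairOf i l).2) (x (pairOf i l).2)) * g (pairOf i l).2) =
      ((suppF K (pairOf i l).2 - geoDot (pairOf i l).2 (x (pairOf i l).1)) * g (pairOf i l).1 +
       (suppF K (pairOf i l).1 - geoDot (pairOf i l).1 (x (pairOf i l).2)) * g (pairOf i l).2) -
      (suppF K (pairOf i l).1 + suppF K (pairOf i l).2
        - suppF K ((pairOf i l).1 + (pairOf i l).2)) *
      (g (pairOf i l).1 + g (pairOf i l).2 - g ((pairOf i l).1 + (pairOf i l).2))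
    have e1 := hmax (pairOf i l).1
    have e2 := hmax (pairOf i l).2
    have e3 := hmax ((pairOf i l).1 + (pairOf i l).2)
    rw [geoDot_add] at e3
    rw [geoDot_add, geoDot_add, e1, e2]
    generalize hs : suppF K ((pairOf i l).1 + (pairOf i l).2) = s3 at *
    generalize g ((pairOf i l).1 + (pairOf i l).2) = g3 at *
    have e4 : geoDot (pairOf i l).2 (x ((pairOf i l).1 + (pairOf i l).2)) =
        s3 - geoDot (pairOf i l).1 (x ((pairOf i l).1 + (pairOf i l).2)) := by linarith
    rw [e4]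
    ring
  have hPnn : ∀ i l, 0 ≤ P i l := by
    intro i l
    apply add_nonneg
    · apply mul_nonneg _ (hg _)
      have := geo_le_suppF K hK (pairOf i l).2 _ (hx (pairOf i l).1)
      linarith
    · apply mul_nonneg _ (hg _)
      have := geo_le_suppF K hK (pairOf i l).1 _ (hx (pairOf i l).2)
      linarith
  have htot : ∀ i, ∑ l ∈ listsLT n, Q i l ≤ P i [] := by
    intro i
    have h1 := geoLS_total (P i) (Q i) (hstep i) n
    have h2 := geoLS_nonneg n (P i) (hPnn i)
    linarith
  have hroot : P 0 [] + P 1 [] + P 2 [] = bK K * (g (1, 1) + g (-1, 0) + g (0, -1)) := by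
    show ((suppF K (-1, 0) - geoDot (-1, 0) (x (1, 1))) * g (1, 1) +
        (suppF K (1, 1) - geoDot (1, 1) (x (-1, 0))) * g (-1, 0)) +
      ((suppF K (0, -1) - geoDot (0, -1) (x (-1, 0))) * g (-1, 0) +
        (suppF K (-1, 0) - geoDot (-1, 0) (x (0, -1))) * g (0, -1)) +
      ((suppF K (1, 1) - geoDot (1, 1) (x (0, -1))) * g (0, -1) +
        (suppF K (0, -1) - geoDot (0, -1) (x (1, 1))) * g (1, 1)) =
      (suppF K (1, 1) + suppF K (-1, 0) + suppF K (0, -1)) *
        (g (1, 1) + g (-1, 0) + g (0, -1))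
    have e1 := hmax (1, 1)
    have e2 := hmax (-1, 0)
    have e3 := hmax (0, -1)
    rw [← e1, ← e2, ← e3]
    simp only [geoDot]
    push_cast
    ring
  have hsplit : ∑ u ∈ nodesLT n, wK K u * defect g u =
      ∑ l ∈ listsLT n, Q 0 l + ∑ l ∈ listsLT n, Q 1 l + ∑ l ∈ listsLT n, Q 2 l := by
    unfold nodesLT
    rw [Finset.sum_product, Fin.sum_univ_three]
  rw [hsplit, ← hroot]
  have a0 := htot 0
  have a1 := htot 1
  have a2 := htot 2
  linarith

/-- TARGET (prove all the parts; you may split it into lemmas before it) -/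
theorem geoA (K : Set (ℝ × ℝ)) (hK : IsCompact K) (hne : K.Nonempty) :
    (∀ u, 0 ≤ wK K u) ∧
    (∀ (g : ℤ × ℤ → ℝ), (∀ v, 0 ≤ g v) → ∀ n : ℕ,
      ∑ u ∈ nodesLT n, wK K u * defect g u ≤ bK K * (g (1, 1) + g (-1, 0) + g (0, -1))) ∧
    Summable (wK K) ∧ ∑' u, wK K u ≤ 3 * bK K ∧
    (∀ (g : ℤ × ℤ → ℝ), (∀ v, 0 ≤ g v) → Summable (fun u => wK K u * defect g u) →
      ∑' u, wK K u * defect g u ≤ bK K * (g (1, 1) + g (-1, 0) + g (0, -1))) := by
  have hnn := geoA_wK_nonneg K hK hne
  have hmain := geoA_main K hK hne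
  have hone : ∀ n, ∑ u ∈ nodesLT n, wK K u ≤ 3 * bK K := by
    intro n
    have h := hmain (fun _ => 1) (fun _ => zero_le_one) n
    simp only [defect] at h
    have e : ∑ u ∈ nodesLT n, wK K u * ((1 : ℝ) + 1 - 1) = ∑ u ∈ nodesLT n, wK K u := by
      apply Finset.sum_congr rfl
      intro u _
      ring
    rw [e] at h
    linarith
  have hfin : ∀ s : Finset Node, ∑ u ∈ s, wK K u ≤ 3 * bK K := by
    intro s
    obtain ⟨n, hn⟩ := (geoA_tendsto.eventually_ge_atTop s).exists
    exact (Finset.sum_le_sum_of_subset_of_nonneg hn fun u _ _ => hnn u).trans (hone n)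
  have hsum : Summable (wK K) := summable_of_sum_le hnn hfin
  refine ⟨hnn, hmain, hsum, ?_, ?_⟩
  · exact hsum.tsum_le_of_sum_le hfin
  · intro g hg hs
    exact le_of_tendsto' (hs.hasSum.comp geoA_tendsto) (fun n => hmain g hg n)


end Pool.Agent.Helper416_Stair
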