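import Pool.Agent.Helper416_Stair.Defs

/-!
# The triangle minus a convex set is a disjoint union of corner triangles
-/

noncomputable section

open scoped BigOperators Pointwise

namespace Pool.Agent.Helper416_Stair



/-
JOB GEO-B (helper416, MP_f690a7_gt).  The triangle minus a convex set is a disjoint union of corner triangles.

Plain proof.  `h = suppF K`.  Let `x ∉ K`; the set `V_x = {u ∈ ℝ² : u·x > sup_K u·y}` of violated directions is nonempty
(separation; `K` compact convex), open, closed under sums and positive multiples, and does not contain `0`.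
Let `(v,w)` be the pair of a node or a root pair (`det = 1`, so a basis of `ℤ²` and of `ℝ²`).
(1) If `v, w ∉ V_x` and `v + w ∈ V_x`, then every `u ∈ V_x` is `α v + γ w` with `α, γ > 0`: otherwise, say `α ≤ γ`, `α ≤ 0`;
    then `u + (-α)(v+w) = (γ-α) w` lies in `V_x`, impossible both for `γ = α` and `γ > α`.
(2) Hence `Tnode K u ⊆ tri K`, `Tnode K u ∩ K = ∅` and two different nodes have disjoint `Tnode`s: for the deeper one `u'`
    its `v'+w'` would be a positive combination of `v, w` and conversely.  (In the tree: the sum vector of a node lies in the open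
    cone of another node iff it is that node or a descendant.)  One convenient way: show for each pair `(v,w)` met in the
    tree that the set `A(v,w)` of points `x ∉ K` with all violated directions in the open cone of `(v,w)` is the disjoint
    union of the `Tnode` of that node and of `A(v,v+w)`, `A(v+w,w)`; and `tri K \ K` is the disjoint union of the three root
    `A`s (the violated directions form a convex cone avoiding the rays of the three root vectors).
(3) For `x ∈ tri K \ K` the open set `V_x` contains an integral vector, so a primitive one, and every primitive vector other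
    than the three root vectors is `v + w` for some node; walking down the tree towards it, the first violated sum gives
    the node with `x ∈ Tnode K u`.  (Termination: a positive integral combination `α v + γ w` becomes, in the child cone
    containing it, a combination with smaller `α + γ`.)
-/

/-- the circumscribed standard triangle of `K` -/
def tri (K : Set (ℝ × ℝ)) : Set (ℝ × ℝ) :=
  {x | x.1 + x.2 ≤ suppF K (1, 1) ∧ -x.1 ≤ suppF K (-1, 0) ∧ -x.2 ≤ suppF K (0, -1)}

/-- dot product of an integral and a real vector -/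
def dotp (v : ℤ × ℤ) (x : ℝ × ℝ) : ℝ := (v.1 : ℝ) * x.1 + (v.2 : ℝ) * x.2

/-- the corner triangle cut off at a node -/
def Tnode (K : Set (ℝ × ℝ)) (u : Node) : Set (ℝ × ℝ) :=
  {x | dotp (pairOf u.1 u.2).1 x ≤ suppF K (pairOf u.1 u.2).1 ∧
    dotp (pairOf u.1 u.2).2 x ≤ suppF K (pairOf u.1 u.2).2 ∧
    suppF K ((pairOf u.1 u.2).1 + (pairOf u.1 u.2).2) <
      dotp ((pairOf u.1 u.2).1 + (pairOf u.1 u.2).2) x}


/-- determinant of two integral vectors -/
def dtt (a b : ℤ × ℤ) : ℤ := a.1 * b.2 - a.2 * b.1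

/-- violated directions at `x` -/
def Vset (K : Set (ℝ × ℝ)) (x : ℝ × ℝ) : Set (ℤ × ℤ) := {v | ∀ y ∈ K, dotp v y < dotp v x}

theorem dotp_add (v w : ℤ × ℤ) (x : ℝ × ℝ) : dotp (v + w) x = dotp v x + dotp w x := by
  simp only [dotp, Prod.fst_add, Prod.snd_add, Int.cast_add]; ring

theorem dotp_smul (n : ℤ) (v : ℤ × ℤ) (x : ℝ × ℝ) : dotp (n • v) x = (n : ℝ) * dotp v x := by
  simp only [dotp, Prod.smul_fst, Prod.smul_snd, smul_eq_mul, Int.cast_mul]; ring

theorem dotp_cont (v : ℤ × ℤ) : Continuous (dotp v) := by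
  unfold dotp; fun_prop

theorem viol_iff {K : Set (ℝ × ℝ)} (hK : IsCompact K) (hne : K.Nonempty) (v : ℤ × ℤ)
    (x : ℝ × ℝ) : suppF K v < dotp v x ↔ v ∈ Vset K x := by
  have hbdd : BddAbove (dotp v '' K) := (hK.image (dotp_cont v)).bddAbove
  constructor
  · intro h y hy
    exact lt_of_le_of_lt (le_csSup hbdd (Set.mem_image_of_mem _ hy)) h
  · intro h
    obtain ⟨y, hy, hy2⟩ := hK.exists_sSup_image_eq hne (dotp_cont v).continuousOn
    have : suppF K v = dotp v y := hy2
    rw [this]; exact h y hy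

theorem nviol_iff {K : Set (ℝ × ℝ)} (hK : IsCompact K) (hne : K.Nonempty) (v : ℤ × ℤ)
    (x : ℝ × ℝ) : dotp v x ≤ suppF K v ↔ v ∉ Vset K x := by
  rw [← viol_iff hK hne, not_lt]

theorem V_add {K : Set (ℝ × ℝ)} {x : ℝ × ℝ} {v w : ℤ × ℤ} (hv : v ∈ Vset K x)
    (hw : w ∈ Vset K x) : v + w ∈ Vset K x := by
  intro y hy
  rw [dotp_add, dotp_add]
  exact add_lt_add (hv y hy) (hw y hy)

theorem V_smul {K : Set (ℝ × ℝ)} {x : ℝ × ℝ} {n : ℤ} (hn : 0 < n) {v : ℤ × ℤ} :
    n • v ∈ Vset K x ↔ v ∈ Vset K x := by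
  have hn' : (0 : ℝ) < n := by exact_mod_cast hn
  constructor
  · intro h y hy
    have := h y hy
    rw [dotp_smul, dotp_smul] at this
    exact lt_of_mul_lt_mul_left this hn'.le
  · intro h y hy
    rw [dotp_smul, dotp_smul]
    exact mul_lt_mul_of_pos_left (h y hy) hn'

theorem V_zero {K : Set (ℝ × ℝ)} (hne : K.Nonempty) {x : ℝ × ℝ} : (0 : ℤ × ℤ) ∉ Vset K x := by
  intro h
  obtain ⟨y, hy⟩ := hne
  have := h y hy
  simp [dotp] at this

/-- an integral violated direction exists at each point outside `K` -/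
theorem V_nonempty {K : Set (ℝ × ℝ)} (hK : IsCompact K) (hc : Convex ℝ K)
    {x : ℝ × ℝ} (hx : x ∉ K) : (Vset K x).Nonempty := by
  obtain ⟨f, u, hfu, hux⟩ := geometric_hahn_banach_closed_point hc hK.isClosed hx
  -- the direction of `f`
  have hf : ∀ z : ℝ × ℝ, f z = f (1, 0) * z.1 + f (0, 1) * z.2 := by
    intro z
    have : z = z.1 • ((1 : ℝ), (0 : ℝ)) + z.2 • ((0 : ℝ), (1 : ℝ)) := by
      ext <;> simp
    conv_lhs => rw [this]
    rw [map_add, map_smul, map_smul, smul_eq_mul, smul_eq_mul]; ring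
  have hev : ∀ᶠ c : ℝ × ℝ in nhds (f (1, 0), f (0, 1)),
      ∀ y ∈ K, c.1 * y.1 + c.2 * y.2 < c.1 * x.1 + c.2 * x.2 := by
    refine hK.eventually_forall_of_forall_eventually ?_
    intro y hy
    have hopen : IsOpen {p : (ℝ × ℝ) × (ℝ × ℝ) |
        p.1.1 * p.2.1 + p.1.2 * p.2.2 < p.1.1 * x.1 + p.1.2 * x.2} :=
      isOpen_lt (by fun_prop) (by fun_prop)
    refine hopen.mem_nhds ?_
    simp only [Set.mem_setOf_eq]
    rw [← hf y, ← hf x]
    exact (hfu y hy).trans hux
  obtain ⟨U, hU, hUo, hcU⟩ := eventually_nhds_iff.1 hev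
  -- dense rationals
  have hd : DenseRange (fun q : ℚ × ℚ => ((q.1 : ℝ), (q.2 : ℝ))) := by
    have h1 : DenseRange (fun q : ℚ => (q : ℝ)) := Rat.denseRange_cast
    exact h1.prodMap h1
  obtain ⟨q, hq⟩ := hd.exists_mem_open hUo ⟨_, hcU⟩
  have hq' := hU _ hq
  refine ⟨(q.1.num * q.2.den, q.2.num * q.1.den), ?_⟩
  intro y hy
  have h1 : ((q.1 : ℚ) : ℝ) = (q.1.num : ℝ) / (q.1.den : ℝ) := by
    exact_mod_cast (Rat.num_div_den q.1).symm
  have h2 : ((q.2 : ℚ) : ℝ) = (q.2.num : ℝ) / (q.2.den : ℝ) := by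
    exact_mod_cast (Rat.num_div_den q.2).symm
  have p1 : (0 : ℝ) < q.1.den := by exact_mod_cast q.1.den_pos
  have p2 : (0 : ℝ) < q.2.den := by exact_mod_cast q.2.den_pos
  have key := hq' y hy
  simp only at key
  have hmul := mul_lt_mul_of_pos_left key (mul_pos p1 p2)
  have e1 : (q.1.den : ℝ) * (q.1 : ℝ) = q.1.num := by rw [h1]; field_simp
  have e2 : (q.2.den : ℝ) * (q.2 : ℝ) = q.2.num := by rw [h2]; field_simp
  simp only [dotp]
  push_cast
  have r1 : ∀ z : ℝ × ℝ, (q.1.den : ℝ) * q.2.den * ((q.1 : ℝ) * z.1 + (q.2 : ℝ) * z.2)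
      = (q.1.num : ℝ) * q.2.den * z.1 + (q.2.num : ℝ) * q.1.den * z.2 := by
    intro z
    rw [← e1, ← e2]; ring
  rw [r1 y, r1 x] at hmul
  exact hmul

/-- Cramer's rule -/
theorem cramer {v w : ℤ × ℤ} (h : dtt v w = 1) (u : ℤ × ℤ) :
    u = dtt u w • v + dtt v u • w := by
  unfold dtt at h ⊢
  ext
  · simp only [Prod.fst_add, Prod.smul_fst, smul_eq_mul]
    linear_combination (-u.1) * h
  · simp only [Prod.snd_add, Prod.smul_snd, smul_eq_mul]
    linear_combination (-u.2) * h

/-- the abstract cone lemma -/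
theorem cone_lem {K : Set (ℝ × ℝ)} (hne : K.Nonempty) {x : ℝ × ℝ} {v w : ℤ × ℤ}
    (h : dtt v w = 1) (hv : v ∉ Vset K x) (hw : w ∉ Vset K x) (hvw : v + w ∈ Vset K x)
    {u : ℤ × ℤ} (hu : u ∈ Vset K x) : 0 < dtt u w ∧ 0 < dtt v u := by
  have hu' := cramer h u
  set a := dtt u w
  set c := dtt v u
  by_contra hcon
  have hcases : (a ≤ 0 ∧ a ≤ c) ∨ (c ≤ 0 ∧ c ≤ a) := by
    rcases le_total a c with h1 | h1
    · left
      refine ⟨?_, h1⟩
      by_contra h2
      exact hcon ⟨by omega, by omega⟩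
    · right
      refine ⟨?_, h1⟩
      by_contra h2
      exact hcon ⟨by omega, by omega⟩
  rcases hcases with ⟨h1, h2⟩ | ⟨h1, h2⟩
  · have key : (c - a) • w ∈ Vset K x := by
      rcases h1.lt_or_eq with h3 | h3
      · have e : (c - a) • w = u + (-a) • (v + w) := by
          rw [hu', smul_add, sub_smul, neg_smul, neg_smul]; abel
        rw [e]
        exact V_add hu ((V_smul (by omega)).2 hvw)
      · rw [h3, zero_smul, zero_add] at hu'
        rw [h3, sub_zero, ← hu']
        exact hu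
    rcases h2.lt_or_eq with h3 | h3
    · exact hw ((V_smul (by omega)).1 key)
    · rw [h3, sub_self, zero_smul] at key
      exact V_zero hne key
  · have key : (a - c) • v ∈ Vset K x := by
      rcases h1.lt_or_eq with h3 | h3
      · have e : (a - c) • v = u + (-c) • (v + w) := by
          rw [hu', smul_add, sub_smul, neg_smul, neg_smul]; abel
        rw [e]
        exact V_add hu ((V_smul (by omega)).2 hvw)
      · rw [h3, zero_smul, add_zero] at hu'
        rw [h3, sub_zero, ← hu']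
        exact hu
    rcases h2.lt_or_eq with h3 | h3
    · exact hv ((V_smul (by omega)).1 key)
    · rw [h3, sub_self, zero_smul] at key
      exact V_zero hne key

theorem pair_det (i : Fin 3) (l : List Bool) : dtt (pairOf i l).1 (pairOf i l).2 = 1 := by
  induction l with
  | nil => fin_cases i <;> simp [pairOf, rootPair, dtt]
  | cons b l ih =>
    unfold dtt at ih ⊢
    cases b
    · simp only [pairOf, Prod.fst_add, Prod.snd_add]
      linear_combination ih
    · simp only [pairOf, Prod.fst_add, Prod.snd_add]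
      linear_combination ih

/-- all violated directions lie in the open cone of the node -/
def Cn (K : Set (ℝ × ℝ)) (x : ℝ × ℝ) (i : Fin 3) (l : List Bool) : Prop :=
  ∀ u ∈ Vset K x, 0 < dtt u (pairOf i l).2 ∧ 0 < dtt (pairOf i l).1 u

theorem Cn_tail {K : Set (ℝ × ℝ)} {x : ℝ × ℝ} {i : Fin 3} {b : Bool} {l : List Bool}
    (h : Cn K x i (b :: l)) : Cn K x i l := by
  intro u hu
  have := h u hu
  unfold dtt at this ⊢
  cases b
  · simp only [pairOf, Prod.fst_add, Prod.snd_add] at this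
    constructor <;> nlinarith [this.1, this.2]
  · simp only [pairOf, Prod.fst_add, Prod.snd_add] at this
    constructor <;> nlinarith [this.1, this.2]

theorem Cn_drop {K : Set (ℝ × ℝ)} {x : ℝ × ℝ} {i : Fin 3} {l₁ l : List Bool}
    (h : Cn K x i (l₁ ++ l)) : Cn K x i l := by
  induction l₁ with
  | nil => simpa using h
  | cons b l₁ ih => exact ih (Cn_tail h)

theorem Cn_head {K : Set (ℝ × ℝ)} {x : ℝ × ℝ} (hV : (Vset K x).Nonempty) {i : Fin 3}
    {b b' : Bool} {l : List Bool}
    (h : Cn K x i (b :: l)) (h' : Cn K x i (b' :: l)) : b = b' := by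
  obtain ⟨u, hu⟩ := hV
  have h1 := h u hu
  have h2 := h' u hu
  unfold dtt at h1 h2
  cases b <;> cases b' <;> simp only [pairOf, Prod.fst_add, Prod.snd_add] at h1 h2 <;>
    first | rfl | (exfalso; nlinarith [h1.1, h1.2, h2.1, h2.2])

theorem Cn_sum {K : Set (ℝ × ℝ)} {x : ℝ × ℝ} {i : Fin 3} {b : Bool} {l : List Bool}
    (h : Cn K x i (b :: l)) : (pairOf i l).1 + (pairOf i l).2 ∉ Vset K x := by
  intro hs
  have := h _ hs
  unfold dtt at this
  cases b
  · simp only [pairOf, Prod.fst_add, Prod.snd_add] at this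
    nlinarith [this.1, this.2]
  · simp only [pairOf, Prod.fst_add, Prod.snd_add] at this
    nlinarith [this.1, this.2]

theorem Cn_root {K : Set (ℝ × ℝ)} {x : ℝ × ℝ} (hV : (Vset K x).Nonempty) {i j : Fin 3}
    (h : Cn K x i []) (h' : Cn K x j []) : i = j := by
  obtain ⟨u, hu⟩ := hV
  have h1 := h u hu
  have h2 := h' u hu
  unfold dtt at h1 h2
  fin_cases i <;> fin_cases j <;> simp [pairOf, rootPair] at h1 h2 ⊢ <;> omega

theorem Cn_suffix {K : Set (ℝ × ℝ)} {x : ℝ × ℝ} (hV : (Vset K x).Nonempty) {i : Fin 3} :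
    ∀ (n : ℕ) (l l' : List Bool), l'.length = n → Cn K x i l → Cn K x i l' →
      l.length ≤ l'.length → ∃ l₁, l' = l₁ ++ l := by
  intro n
  induction n with
  | zero =>
    intro l l' h1 _ _ h4
    have e1 : l' = [] := List.length_eq_zero_iff.1 h1
    have e2 : l = [] := List.length_eq_zero_iff.1 (by omega)
    exact ⟨[], by rw [e1, e2]; rfl⟩
  | succ n ih =>
    intro l l' h1 h2 h3 h4
    obtain ⟨b', m', rfl⟩ : ∃ b' m', l' = b' :: m' := by
      cases l' with
      | nil => simp at h1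
      | cons b m => exact ⟨b, m, rfl⟩
    simp only [List.length_cons] at h1 h4
    by_cases hlen : l.length ≤ m'.length
    · obtain ⟨l₁, hl₁⟩ := ih l m' (by omega) h2 (Cn_tail h3) hlen
      exact ⟨b' :: l₁, by rw [hl₁]; rfl⟩
    · obtain ⟨b, m, rfl⟩ : ∃ b m, l = b :: m := by
        cases l with
        | nil => simp at hlen
        | cons b m => exact ⟨b, m, rfl⟩
      simp only [List.length_cons] at h4 hlen
      obtain ⟨l₁, hl₁⟩ := ih m m' (by omega) (Cn_tail h2) (Cn_tail h3) (by omega)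
      have hl0 : l₁ = [] := by
        apply List.length_eq_zero_iff.1
        have := congrArg List.length hl₁
        rw [List.length_append] at this
        omega
      subst hl0
      simp only [List.nil_append] at hl₁
      subst hl₁
      have := Cn_head hV h2 h3
      subst this
      exact ⟨[], rfl⟩

theorem mem_Tnode {K : Set (ℝ × ℝ)} (hK : IsCompact K) (hne : K.Nonempty) (x : ℝ × ℝ)
    (i : Fin 3) (l : List Bool) : x ∈ Tnode K (i, l) ↔ (pairOf i l).1 ∉ Vset K x ∧
      (pairOf i l).2 ∉ Vset K x ∧ (pairOf i l).1 + (pairOf i l).2 ∈ Vset K x := by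
  unfold Tnode
  simp only [Set.mem_setOf_eq]
  rw [nviol_iff hK hne, nviol_iff hK hne, viol_iff hK hne]

theorem Tnode_Cn {K : Set (ℝ × ℝ)} (hne : K.Nonempty) {x : ℝ × ℝ}
    {i : Fin 3} {l : List Bool} (h1 : (pairOf i l).1 ∉ Vset K x)
    (h2 : (pairOf i l).2 ∉ Vset K x) (h3 : (pairOf i l).1 + (pairOf i l).2 ∈ Vset K x) :
    Cn K x i l := fun _ hu => cone_lem hne (pair_det i l) h1 h2 h3 hu

theorem eq_of_mem {K : Set (ℝ × ℝ)} {x : ℝ × ℝ} (hV : (Vset K x).Nonempty) {i : Fin 3}
    {l l' : List Bool} (hc : Cn K x i l) (hc' : Cn K x i l') (hle : l.length ≤ l'.length)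
    (hs : (pairOf i l).1 + (pairOf i l).2 ∈ Vset K x) : l = l' := by
  obtain ⟨l₁, rfl⟩ := Cn_suffix hV _ l l' rfl hc hc' hle
  rcases List.eq_nil_or_concat l₁ with rfl | ⟨l₂, b, rfl⟩
  · rfl
  · exfalso
    have : Cn K x i (b :: l) := by
      have e : l₂ ++ [b] ++ l = l₂ ++ (b :: l) := by simp
      rw [List.concat_eq_append, e] at hc'
      exact Cn_drop hc'
    exact Cn_sum this hs

theorem descend {K : Set (ℝ × ℝ)} {x : ℝ × ℝ} (i : Fin 3) :
    ∀ (n : ℕ) (l : List Bool) (a c : ℤ), 0 < a → 0 < c → a + c ≤ n →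
      (pairOf i l).1 ∉ Vset K x → (pairOf i l).2 ∉ Vset K x →
      a • (pairOf i l).1 + c • (pairOf i l).2 ∈ Vset K x →
      ∃ l', (pairOf i l').1 ∉ Vset K x ∧ (pairOf i l').2 ∉ Vset K x ∧
        (pairOf i l').1 + (pairOf i l').2 ∈ Vset K x := by
  intro n
  induction n with
  | zero => intro l a c ha hc hn; simp at hn; omega
  | succ n ih =>
    intro l a c ha hc hn h1 h2 h3
    by_cases hs : (pairOf i l).1 + (pairOf i l).2 ∈ Vset K x
    · exact ⟨l, h1, h2, hs⟩
    · rcases lt_trichotomy a c with h | h | h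
      · refine ih (false :: l) a (c - a) ha (by omega) (by push_cast at hn; omega) ?_ ?_ ?_
        · simpa only [pairOf] using hs
        · simpa only [pairOf] using h2
        · simp only [pairOf]
          have e : a • ((pairOf i l).1 + (pairOf i l).2) + (c - a) • (pairOf i l).2
              = a • (pairOf i l).1 + c • (pairOf i l).2 := by
            rw [smul_add, sub_smul]; abel
          rw [e]; exact h3
      · exfalso
        subst h
        rw [← smul_add] at h3
        exact hs ((V_smul ha).1 h3)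
      · refine ih (true :: l) (a - c) c (by omega) hc (by push_cast at hn; omega) ?_ ?_ ?_
        · simpa only [pairOf] using h1
        · simpa only [pairOf] using hs
        · simp only [pairOf]
          have e : (a - c) • (pairOf i l).1 + c • ((pairOf i l).1 + (pairOf i l).2)
              = a • (pairOf i l).1 + c • (pairOf i l).2 := by
            rw [smul_add, sub_smul]; abel
          rw [e]; exact h3

theorem exists_root {K : Set (ℝ × ℝ)} (hne : K.Nonempty) {x : ℝ × ℝ}
    (h1 : ((1, 1) : ℤ × ℤ) ∉ Vset K x) (h2 : ((-1, 0) : ℤ × ℤ) ∉ Vset K x)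
    (h3 : ((0, -1) : ℤ × ℤ) ∉ Vset K x) {u : ℤ × ℤ} (hu : u ∈ Vset K x) :
    ∃ i : Fin 3, ∃ a c : ℤ, 0 < a ∧ 0 < c ∧ (pairOf i []).1 ∉ Vset K x ∧
      (pairOf i []).2 ∉ Vset K x ∧ a • (pairOf i []).1 + c • (pairOf i []).2 = u := by
  obtain ⟨p, q⟩ := u
  have case0 : 0 < q → p < q → ∃ i : Fin 3, ∃ a c : ℤ, 0 < a ∧ 0 < c ∧
      (pairOf i []).1 ∉ Vset K x ∧
      (pairOf i []).2 ∉ Vset K x ∧ a • (pairOf i []).1 + c • (pairOf i []).2 = (p, q) := by
    intro hq hpq
    refine ⟨0, q, q - p, hq, by omega, by simpa [pairOf, rootPair] using h1,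
      by simpa [pairOf, rootPair] using h2, ?_⟩
    simp [pairOf, rootPair]
  have case1 : p < 0 → q < 0 → ∃ i : Fin 3, ∃ a c : ℤ, 0 < a ∧ 0 < c ∧
      (pairOf i []).1 ∉ Vset K x ∧
      (pairOf i []).2 ∉ Vset K x ∧ a • (pairOf i []).1 + c • (pairOf i []).2 = (p, q) := by
    intro hp hq
    refine ⟨1, -p, -q, by omega, by omega, by simpa [pairOf, rootPair] using h2,
      by simpa [pairOf, rootPair] using h3, ?_⟩
    simp [pairOf, rootPair]
  have case2 : 0 < p → q < p → ∃ i : Fin 3, ∃ a c : ℤ, 0 < a ∧ 0 < c ∧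
      (pairOf i []).1 ∉ Vset K x ∧
      (pairOf i []).2 ∉ Vset K x ∧ a • (pairOf i []).1 + c • (pairOf i []).2 = (p, q) := by
    intro hp hpq
    refine ⟨2, p - q, p, by omega, hp, by simpa [pairOf, rootPair] using h3,
      by simpa [pairOf, rootPair] using h1, ?_⟩
    simp [pairOf, rootPair]
  have bd1 : ¬ (p = q ∧ 0 < p) := by
    rintro ⟨rfl, hp⟩
    refine h1 ((V_smul hp).1 ?_)
    simpa using hu
  have bd2 : ¬ (q = 0 ∧ p < 0) := by
    rintro ⟨rfl, hp⟩
    refine h2 ((V_smul (n := -p) (by omega)).1 ?_)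
    simpa using hu
  have bd3 : ¬ (p = 0 ∧ q < 0) := by
    rintro ⟨rfl, hp⟩
    refine h3 ((V_smul (n := -q) (by omega)).1 ?_)
    simpa using hu
  have bd0 : ¬ (p = 0 ∧ q = 0) := by
    rintro ⟨rfl, rfl⟩
    exact V_zero hne hu
  by_cases c0 : 0 < q ∧ p < q
  · exact case0 c0.1 c0.2
  by_cases c1 : p < 0 ∧ q < 0
  · exact case1 c1.1 c1.2
  by_cases c2 : 0 < p ∧ q < p
  · exact case2 c2.1 c2.2
  exfalso
  omega

/-- TARGET -/
theorem geoB (K : Set (ℝ × ℝ)) (hK : IsCompact K) (hc : Convex ℝ K) (hne : K.Nonempty) :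
    K ⊆ tri K ∧ tri K \ K = ⋃ u, Tnode K u ∧ Pairwise (Function.onFun Disjoint (Tnode K)) ∧
    (∀ u : Node, (pairOf u.1 u.2).1.1 * (pairOf u.1 u.2).2.2
      - (pairOf u.1 u.2).1.2 * (pairOf u.1 u.2).2.1 = 1) := by
  have htri : ∀ x, x ∈ tri K ↔ ((1, 1) : ℤ × ℤ) ∉ Vset K x ∧ ((-1, 0) : ℤ × ℤ) ∉ Vset K x ∧
      ((0, -1) : ℤ × ℤ) ∉ Vset K x := by
    intro x
    rw [← nviol_iff hK hne, ← nviol_iff hK hne, ← nviol_iff hK hne]
    simp [tri, dotp]
  have hKV : ∀ x ∈ K, ∀ u, u ∉ Vset K x := fun x hx u hu => lt_irrefl _ (hu x hx)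
  refine ⟨?_, ?_, ?_, ?_⟩
  · intro x hx
    exact (htri x).2 ⟨hKV x hx _, hKV x hx _, hKV x hx _⟩
  · ext x
    simp only [Set.mem_diff, Set.mem_iUnion]
    constructor
    · rintro ⟨hx, hxK⟩
      obtain ⟨h1, h2, h3⟩ := (htri x).1 hx
      obtain ⟨u, hu⟩ := V_nonempty hK hc hxK
      obtain ⟨i, a, c, ha, hc', hi1, hi2, rfl⟩ := exists_root hne h1 h2 h3 hu
      obtain ⟨l', hl'⟩ := descend i (a + c).toNat [] a c ha hc'
        (by rw [Int.toNat_of_nonneg (by omega)]) hi1 hi2 hu
      exact ⟨(i, l'), (mem_Tnode hK hne x i l').2 hl'⟩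
    · rintro ⟨⟨i, l⟩, hu⟩
      obtain ⟨h1, h2, h3⟩ := (mem_Tnode hK hne x i l).1 hu
      have hC := Tnode_Cn hne h1 h2 h3
      have hC0 : Cn K x i [] := Cn_drop (l₁ := l) (by simpa using hC)
      refine ⟨(htri x).2 ⟨?_, ?_, ?_⟩, fun hxK => hKV x hxK _ h3⟩
      all_goals
        intro hv
        have := hC0 _ hv
        unfold dtt at this
        fin_cases i <;> simp [pairOf, rootPair] at this
  · rintro ⟨i, l⟩ ⟨j, l'⟩ hij
    show Disjoint _ _
    rw [Set.disjoint_left]
    intro x hx hx'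
    apply hij
    obtain ⟨h1, h2, h3⟩ := (mem_Tnode hK hne x i l).1 hx
    obtain ⟨h1', h2', h3'⟩ := (mem_Tnode hK hne x j l').1 hx'
    have hV : (Vset K x).Nonempty := ⟨_, h3⟩
    have hC := Tnode_Cn hne h1 h2 h3
    have hC' := Tnode_Cn hne h1' h2' h3'
    have hC0 : Cn K x i [] := Cn_drop (l₁ := l) (by simpa using hC)
    have hC0' : Cn K x j [] := Cn_drop (l₁ := l') (by simpa using hC')
    have hij' := Cn_root hV hC0 hC0'
    subst hij'
    rcases le_total l.length l'.length with hle | hle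
    · rw [eq_of_mem hV hC hC' hle h3]
    · rw [eq_of_mem hV hC' hC hle h3']
  · rintro ⟨i, l⟩
    exact pair_det i l


end Pool.Agent.Helper416_Stair
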