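import Pool.Agent.Helper416_Stair.A1

/-!
# Key inequality, capacity growth and volume inequality
-/

noncomputable section

open scoped BigOperators Pointwise

namespace Pool.Agent.Helper416_Stair



variable {ι : Type*} [DecidableEq ι] {R : Type*} [CommRing R]

















/-
JOB KEY (helper416, MP_f690a7_gt).  Three inequalities for the form.

(1) Key inequality.  `d = C.1 = T r`, `r = v.1 > 0`.  `∑_S a_i m_i > r d = T r²` (negative pairing), so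
`∑_S (m_i - T a_i)² = ∑ m² - 2T ∑ a m + T² ∑_S a² < ∑_S m² - 2 T² r² + T² ∑_S a² ≤ ∑_S m² - d² - T² (∑' a² - ∑_S a²)`
(using `∑' a² ≤ r²`), and `∑_S m² - d² ≤ 3d - ∑_S m` (index `≥ 0`).
(2) Growth of the capacities.  For `C` with `C.1 = d ≥ 0`, `idx S C ≥ 2k`; let `m` be the positive part of `C.2` on `S`.  With
`e = d + 3/2`, `∑ m² ≤ d² + 3d - 2k - ∑ m ≤ e² - 2k =: s²`, `q² := ∑' β² < b²`: `(b;β)·C ≥ d b - |m| q ≥ e b - s q - (3/2) b` and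
`e b - s q ≥ √((e² - s²)(b² - q²)) = √(2 k Vol)` (reverse Cauchy-Schwarz: `(e b - s q)² - (e² - s²)(b² - q²) = (e q - s b)²`).
(3) Volume.  If `Nef v`, `v.1 ≥ 0`, `v.2 ≥ 0` but `∑_S v_i² > r²` (`r = v.1`): let `ρ₀² = ∑_S v_i²`, pick `ρ > ρ₀` with
`r ρ < ρ₀²`, `u = (ρ; v_i on S)`; `u·u > 0`, `v·u < 0`.  For large integers `T` the integral class `C = (⌊Tρ⌋; ⌊T v_i⌋)` has
`C·C = T² u·u + O(T)`, `Kd C = O(T)`, so `idx > 0`, `C.1 ≥ 0`, and `v·C = T v·u + O(1) < 0`: contradiction.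
-/


/-- an integer satisfies `m ^ 2 + m ≥ 0` -/
theorem key_int (m : ℤ) : 0 ≤ m ^ 2 + m := by
  rcases le_or_gt 0 m with h | h
  · positivity
  · have h1 : m ≤ -1 := by omega
    nlinarith

/-- casting the index -/
theorem key_idx {ι : Type*} (S : Finset ι) (C : ℤ × (ι → ℤ)) (c : ℤ) (h : c ≤ idx S C) :
    (c : ℝ) ≤ (C.1 : ℝ) ^ 2 + 3 * C.1 - ∑ i ∈ S, ((C.2 i : ℝ) ^ 2 + C.2 i) := by
  have h1 : idx S C = C.1 ^ 2 + 3 * C.1 - ∑ i ∈ S, (C.2 i ^ 2 + C.2 i) := by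
    unfold idx Bf Kd
    rw [Finset.sum_add_distrib]
    simp only [pow_two]
    ring
  rw [h1] at h
  exact_mod_cast h

theorem key_Bf {ι : Type*} (S : Finset ι) (v : ℝ × (ι → ℝ)) (C : ℤ × (ι → ℤ)) :
    Bf S v (toR C) = v.1 * C.1 - ∑ i ∈ S, v.2 i * C.2 i := rfl

theorem key1 {ι : Type*} (v : ℝ × (ι → ℝ)) (hr : 0 < v.1) (hv : ∀ i, 0 ≤ v.2 i)
    (hsum : ∑' i, v.2 i ^ 2 ≤ v.1 ^ 2) (S : Finset ι) (C : ℤ × (ι → ℤ)) (hd : 0 ≤ C.1)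
    (hI : 0 ≤ idx S C) (hB : Bf S v (toR C) < 0) :
    ∑ i ∈ S, (((C.2 i : ℝ) - (C.1 / v.1) * v.2 i) ^ 2 + C.2 i)
        + (C.1 / v.1) ^ 2 * (∑' i, v.2 i ^ 2 - ∑ i ∈ S, v.2 i ^ 2) < 3 * C.1 := by
  have hI' := key_idx S C 0 hI
  rw [key_Bf] at hB
  rw [Int.cast_zero] at hI'
  set T : ℝ := C.1 / v.1 with hT
  have hdT : (C.1 : ℝ) = T * v.1 := by rw [hT]; field_simp
  have hexp : ∑ i ∈ S, (((C.2 i : ℝ) - T * v.2 i) ^ 2 + C.2 i) =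
      ∑ i ∈ S, ((C.2 i : ℝ) ^ 2 + C.2 i) - 2 * T * ∑ i ∈ S, v.2 i * C.2 i
        + T ^ 2 * ∑ i ∈ S, v.2 i ^ 2 := by
    rw [Finset.mul_sum, Finset.mul_sum, ← Finset.sum_sub_distrib, ← Finset.sum_add_distrib]
    apply Finset.sum_congr rfl
    intro i _
    ring
  rw [hexp]
  have hd' : (0 : ℝ) ≤ C.1 := by exact_mod_cast hd
  rcases eq_or_lt_of_le hd with h0 | h0
  · exfalso
    rw [← h0] at hB hI'
    simp only [Int.cast_zero, mul_zero, zero_sub] at hB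
    have hI2 : ∑ i ∈ S, ((C.2 i : ℝ) ^ 2 + C.2 i) ≤ 0 := by
      have : (0 : ℝ) ≤ 0 ^ 2 + 3 * 0 - ∑ i ∈ S, ((C.2 i : ℝ) ^ 2 + C.2 i) := by
        simpa using hI'
      linarith
    have hterm : ∀ i ∈ S, (0 : ℝ) ≤ (C.2 i : ℝ) ^ 2 + C.2 i := by
      intro i _
      exact_mod_cast key_int (C.2 i)
    have hz := (Finset.sum_eq_zero_iff_of_nonneg hterm).1
      (le_antisymm hI2 (Finset.sum_nonneg hterm))
    have hle : ∑ i ∈ S, v.2 i * C.2 i ≤ 0 := by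
      apply Finset.sum_nonpos
      intro i hi
      have h1 := hz i hi
      have h2 : (C.2 i : ℝ) ≤ 0 := by nlinarith [sq_nonneg (C.2 i : ℝ)]
      exact mul_nonpos_of_nonneg_of_nonpos (hv i) h2
    linarith
  · have h0' : (0 : ℝ) < C.1 := by exact_mod_cast h0
    have hTpos : 0 < T := div_pos h0' hr
    have h1 : T * (v.1 * C.1) < T * ∑ i ∈ S, v.2 i * C.2 i :=
      mul_lt_mul_of_pos_left (by linarith) hTpos
    have h2 : T ^ 2 * ∑' i, v.2 i ^ 2 ≤ T ^ 2 * v.1 ^ 2 :=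
      mul_le_mul_of_nonneg_left hsum (by positivity)
    have h3 : T ^ 2 * v.1 ^ 2 = (C.1 : ℝ) ^ 2 := by rw [hdT]; ring
    have h4 : T * (v.1 * C.1) = (C.1 : ℝ) ^ 2 := by
      have : T * (v.1 * C.1) = (T * v.1) * C.1 := by ring
      rw [this, ← hdT]; ring
    linarith

theorem key2 {ι : Type*} (b : ℝ) (β : ι → ℝ) (hb : 0 < b) (hβ : ∀ u, 0 ≤ β u)
    (hs : Summable (fun u => β u ^ 2)) (hlt : ∑' u, β u ^ 2 < b ^ 2) (k : ℕ) :
    √(2 * k * (b ^ 2 - ∑' u, β u ^ 2)) - 3 / 2 * b ≤ capW b β k := by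
  unfold capW
  apply le_csInf
  · refine ⟨_, ∅, ((2 * k : ℕ), fun _ => 0), by positivity, ?_, rfl⟩
    unfold idx Bf Kd
    simp only [Finset.sum_empty, sub_zero]
    push_cast
    nlinarith [(by positivity : (0 : ℤ) ≤ k)]
  · rintro L ⟨S, C, hd, hI, rfl⟩
    have hI' := key_idx S C _ hI
    rw [key_Bf]
    push_cast at hI'
    simp only
    have hd' : (0 : ℝ) ≤ C.1 := by exact_mod_cast hd
    set d : ℝ := (C.1 : ℝ) with hdef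
    set Q : ℝ := ∑' u, β u ^ 2 with hQ
    have hQ0 : 0 ≤ Q := tsum_nonneg (fun _ => sq_nonneg _)
    -- positive parts
    set m : ι → ℝ := fun i => max (C.2 i : ℝ) 0 with hm
    have hm0 : ∀ i, 0 ≤ m i := fun i => le_max_right _ _
    have hmle : ∀ i, m i ^ 2 ≤ (C.2 i : ℝ) ^ 2 + C.2 i := by
      intro i
      rcases le_total (0 : ℝ) (C.2 i : ℝ) with h | h
      · simp only [hm, max_eq_left h]; linarith
      · simp only [hm, max_eq_right h]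
        have : (0 : ℝ) ≤ (C.2 i : ℝ) ^ 2 + C.2 i := by exact_mod_cast key_int (C.2 i)
        simpa using this
    have hM : ∑ i ∈ S, m i ^ 2 ≤ d ^ 2 + 3 * d - 2 * k := by
      have := Finset.sum_le_sum (fun i (_ : i ∈ S) => hmle i)
      linarith
    have hM0 : 0 ≤ ∑ i ∈ S, m i ^ 2 := Finset.sum_nonneg (fun _ _ => sq_nonneg _)
    have hβS : ∑ i ∈ S, β i ^ 2 ≤ Q := hs.sum_le_tsum S (fun _ _ => sq_nonneg _)
    have hdot : ∑ i ∈ S, β i * C.2 i ≤ ∑ i ∈ S, β i * m i :=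
      Finset.sum_le_sum (fun i _ => mul_le_mul_of_nonneg_left (le_max_left _ _) (hβ i))
    have hCS : (∑ i ∈ S, β i * m i) ^ 2 ≤ (∑ i ∈ S, β i ^ 2) * ∑ i ∈ S, m i ^ 2 :=
      Finset.sum_mul_sq_le_sq_mul_sq S β m
    set s : ℝ := √((d + 3 / 2) ^ 2 - 2 * k) with hsdef
    have hs2 : s ^ 2 = (d + 3 / 2) ^ 2 - 2 * k := Real.sq_sqrt (by nlinarith)
    have hs0 : 0 ≤ s := Real.sqrt_nonneg _
    set q : ℝ := √Q with hq
    have hq2 : q ^ 2 = Q := Real.sq_sqrt hQ0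
    have hq0 : 0 ≤ q := Real.sqrt_nonneg _
    have hqb : q ≤ b := by
      apply le_of_sq_le_sq _ hb.le
      rw [hq2]; exact hlt.le
    have hse : s ≤ d + 3 / 2 := by
      apply le_of_sq_le_sq _ (by linarith)
      rw [hs2]
      have : (0 : ℝ) ≤ k := by positivity
      linarith
    have hdot2 : ∑ i ∈ S, β i * m i ≤ q * s := by
      apply le_of_sq_le_sq _ (by positivity)
      rw [mul_pow, hq2, hs2]
      refine hCS.trans ?_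
      refine mul_le_mul hβS ?_ hM0 hQ0
      nlinarith
    have hfin : √(2 * k * (b ^ 2 - Q)) ≤ (d + 3 / 2) * b - q * s := by
      have h1 : q * s ≤ b * (d + 3 / 2) := mul_le_mul hqb hse hs0 hb.le
      apply Real.sqrt_le_iff.2
      refine ⟨by linarith, ?_⟩
      have h2 : (2 : ℝ) * k = (d + 3 / 2) ^ 2 - s ^ 2 := by rw [hs2]; ring
      rw [h2, ← hq2]
      nlinarith [sq_nonneg ((d + 3 / 2) * q - s * b)]
    linarith

theorem key3 {ι : Type*} (v : ℝ × (ι → ℝ)) (hr : 0 ≤ v.1) (hv : ∀ i, 0 ≤ v.2 i) (hN : Nef v)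
    (S : Finset ι) : ∑ i ∈ S, v.2 i ^ 2 ≤ v.1 ^ 2 := by
  by_contra hcon
  push Not at hcon
  set P : ℝ := ∑ i ∈ S, v.2 i ^ 2 with hP
  have hP0 : 0 < P := lt_of_le_of_lt (sq_nonneg _) hcon
  -- choose `ρ`
  have hρ : ∃ ρ : ℝ, 0 < ρ ∧ P < ρ ^ 2 ∧ v.1 * ρ < P := by
    have hsq : √P ^ 2 = P := Real.sq_sqrt hP0.le
    have hsq0 : 0 < √P := Real.sqrt_pos.2 hP0
    have hrs : v.1 < √P := by
      refine lt_of_pow_lt_pow_left₀ 2 hsq0.le ?_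
      rw [hsq]; exact hcon
    -- `ρ = √P + η` with `v.1 (√P + η) < P`
    refine ⟨√P + (√P - v.1) / 2, by linarith, by nlinarith, by nlinarith⟩
  obtain ⟨ρ, hρ0, hρ1, hρ2⟩ := hρ
  set M : ℝ := ∑ i ∈ S, v.2 i with hM
  have hM0 : 0 ≤ M := Finset.sum_nonneg (fun i _ => hv i)
  obtain ⟨T, hT⟩ := exists_nat_gt (max (M / (ρ ^ 2 - P)) ((v.1 + M) / (P - v.1 * ρ)))
  have hT1 : M < T * (ρ ^ 2 - P) := by
    have := lt_of_le_of_lt (le_max_left _ _) hT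
    rwa [div_lt_iff₀ (by linarith)] at this
  have hT2 : v.1 + M < T * (P - v.1 * ρ) := by
    have := lt_of_le_of_lt (le_max_right _ _) hT
    rwa [div_lt_iff₀ (by linarith)] at this
  have hT0 : (0 : ℝ) ≤ T := by positivity
  let C : ℤ × (ι → ℤ) := (⌈T * ρ⌉, fun i => ⌊T * v.2 i⌋)
  have hC1 : (T : ℝ) * ρ ≤ (C.1 : ℝ) := Int.le_ceil _
  have hC1' : (C.1 : ℝ) < T * ρ + 1 := Int.ceil_lt_add_one _
  have hC2 : ∀ i, (C.2 i : ℝ) ≤ T * v.2 i := fun i => Int.floor_le _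
  have hC2' : ∀ i, T * v.2 i - 1 < (C.2 i : ℝ) := fun i => Int.sub_one_lt_floor _
  have hC3 : ∀ i, (0 : ℝ) ≤ (C.2 i : ℝ) := by
    intro i
    have : (0 : ℤ) ≤ C.2 i := Int.floor_nonneg.2 (mul_nonneg hT0 (hv i))
    exact_mod_cast this
  have hCd : 0 ≤ C.1 := Int.ceil_nonneg (by positivity)
  have hCI : 0 ≤ idx S C := by
    have h1 : idx S C = C.1 ^ 2 + 3 * C.1 - ∑ i ∈ S, (C.2 i ^ 2 + C.2 i) := by
      unfold idx Bf Kd
      rw [Finset.sum_add_distrib]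
      simp only [pow_two]
      ring
    have h2 : (0 : ℝ) ≤ (C.1 : ℝ) ^ 2 + 3 * C.1 - ∑ i ∈ S, ((C.2 i : ℝ) ^ 2 + C.2 i) := by
      have h3 : ∑ i ∈ S, ((C.2 i : ℝ) ^ 2 + C.2 i) ≤
          ∑ i ∈ S, ((T : ℝ) ^ 2 * v.2 i ^ 2 + T * v.2 i) := by
        apply Finset.sum_le_sum
        intro i _
        have h4 : (C.2 i : ℝ) ^ 2 ≤ (T * v.2 i) ^ 2 := pow_le_pow_left₀ (hC3 i) (hC2 i) 2
        have := hC2 i
        nlinarith
      have h4 : ∑ i ∈ S, ((T : ℝ) ^ 2 * v.2 i ^ 2 + T * v.2 i) = T ^ 2 * P + T * M := by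
        rw [Finset.sum_add_distrib, ← Finset.mul_sum, ← Finset.mul_sum]
      have h5 : (T * ρ) ^ 2 ≤ (C.1 : ℝ) ^ 2 := pow_le_pow_left₀ (by positivity) hC1 2
      have h6 : (0 : ℝ) ≤ C.1 := by exact_mod_cast hCd
      have h7 : T * M ≤ T * (T * (ρ ^ 2 - P)) := mul_le_mul_of_nonneg_left hT1.le hT0
      nlinarith
    rw [h1]
    exact_mod_cast h2
  have := hN S C hCd hCI
  rw [key_Bf] at this
  have h1 : v.1 * C.1 ≤ v.1 * (T * ρ + 1) := mul_le_mul_of_nonneg_left hC1'.le hr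
  have h2 : ∑ i ∈ S, v.2 i * (T * v.2 i - 1) ≤ ∑ i ∈ S, v.2 i * C.2 i :=
    Finset.sum_le_sum (fun i _ => mul_le_mul_of_nonneg_left (hC2' i).le (hv i))
  have h3 : ∑ i ∈ S, v.2 i * (T * v.2 i - 1) = T * P - M := by
    rw [hP, hM, Finset.mul_sum, ← Finset.sum_sub_distrib]
    apply Finset.sum_congr rfl
    intro i _
    ring
  nlinarith

/-- TARGET -/
theorem key_ineqs :
    (∀ v : ℝ × (ι → ℝ), 0 < v.1 → (∀ i, 0 ≤ v.2 i) → Summable (fun i => v.2 i ^ 2) →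
      ∑' i, v.2 i ^ 2 ≤ v.1 ^ 2 → ∀ (S : Finset ι) (C : ℤ × (ι → ℤ)), 0 ≤ C.1 →
      0 ≤ idx S C → Bf S v (toR C) < 0 →
      ∑ i ∈ S, (((C.2 i : ℝ) - (C.1 / v.1) * v.2 i) ^ 2 + C.2 i)
        + (C.1 / v.1) ^ 2 * (∑' i, v.2 i ^ 2 - ∑ i ∈ S, v.2 i ^ 2) < 3 * C.1) ∧
    (∀ (b : ℝ) (β : ι → ℝ), 0 < b → (∀ u, 0 ≤ β u) → Summable (fun u => β u ^ 2) →
      ∑' u, β u ^ 2 < b ^ 2 → ∀ k : ℕ,
      √(2 * k * (b ^ 2 - ∑' u, β u ^ 2)) - 3 / 2 * b ≤ capW b β k) ∧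
    (∀ v : ℝ × (ι → ℝ), 0 ≤ v.1 → (∀ i, 0 ≤ v.2 i) → Nef v →
      ∀ S : Finset ι, ∑ i ∈ S, v.2 i ^ 2 ≤ v.1 ^ 2) := by
  refine ⟨fun v hr hv _ hsum S C hd hI hB => key1 v hr hv hsum S C hd hI hB,
    fun b β hb hβ hs hlt k => key2 b β hb hβ hs hlt k,
    fun v hr hv hN S => key3 v hr hv hN S⟩


end Pool.Agent.Helper416_Stair
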