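import Pool.Agent.Helper416_Stair.Bridge
import Pool.Agent.Helper416_Stair.Glue
import Pool.Agent.Helper416_Stair.E0

/-!
# Basic properties of the embedding function
-/

noncomputable section

open scoped BigOperators Pointwise

namespace Pool.Agent.Helper416_Stair





/-
JOB LF (helper416, MP_f690a7_gt).  Basic properties of the embedding function and local finiteness above the volume bound.

`Vol = b² - ∑' β² > 0`, `V(z) = √(z / Vol)`, `cap k = capW b β k`, `c z = cfun cap z = inf A_z`, `A_z = {l > 0 : ∀ k, ellCap 1 z k ≤ l cap k}`.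
Plain proof.  `cap k ≥ 0` (nefness), `cap 0 = 0`, `cap k ≥ c₀ > 0` for `k ≥ 1`.  For `z ≥ 1`: `A_z` is nonempty (`ellCap 1 z k ≤ √(2 k z)`,
`cap k ≥ √(2 k Vol) - 3b/2`, `cap k ≥ c₀` bound all ratios), bounded below by 0, closed upwards; the infimum is attained:
`ellCap 1 z k ≤ (c z) cap k` for all `k`, and `c z > 0` since `1 ≤ ellCap 1 z 1 ≤ l cap 1`.  Monotonicity and scaling follow from those of
`ellCap` (part 6 of `ellBasic`).  Local finiteness: let `3η₀ = c z₀ - V z₀ > 0`.  For `z` near `z₀` (`z ≥ 1`) monotonicity/scaling give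
`c z > c z₀ - η₀`, and `V z < V z₀ + η₀`, so `η := V z + η₀ < c z`.  For `k` large
`(V z + η₀) cap k ≥ (V z + η₀)(√(2 k Vol) - 3b/2) = √(2kz) + η₀ √(2 k Vol) - (V z + η₀) 3b/2 ≥ √(2kz) ≥ ellCap 1 z k`, uniformly near `z₀`.
-/




theorem lf_cap_nonneg {U : Type*} (b : ℝ) (β : U → ℝ) (hN : Nef (b, β)) (k : ℕ) :
    0 ≤ capW b β k := by
  apply Real.sInf_nonneg
  rintro L ⟨S, C, h0, h1, rfl⟩
  exact hN S C h0 (le_trans (by positivity) h1)

theorem lf_sq_summable {U : Type*} (β : U → ℝ) (hβ : ∀ u, 0 ≤ β u) (hsum : Summable β) :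
    Summable (fun u => β u ^ 2) := by
  have h := (hsum.mul_of_nonneg hsum hβ hβ).comp_injective
    (i := fun u : U => (u, u)) (fun a b h => (Prod.mk.inj h).1)
  refine h.congr fun u => ?_
  simp [sq]

theorem lf_ratio {U : Type*} [DecidableEq U] (b : ℝ) (β : U → ℝ) (hb : 0 < b)
    (hβ : ∀ u, 0 ≤ β u) (hsum : Summable β) (hvol : ∑' u, β u ^ 2 < b ^ 2) (hN : Nef (b, β))
    (c₀ : ℝ) (hc₀ : 0 < c₀) (hcap : ∀ k : ℕ, 1 ≤ k → c₀ ≤ capW b β k) (z : ℝ) (hz : 1 ≤ z) :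
    ∃ l : ℝ, 0 < l ∧ ∀ k, ellCap 1 z k ≤ l * capW b β k := by
  obtain ⟨-, -, E3, E4, E5, E6, -, E8⟩ := ellBasic
  have hz0 : 0 < z := by linarith
  set W := b ^ 2 - ∑' u, β u ^ 2 with hW
  have hWpos : 0 < W := by linarith
  have hsW : 0 < √W := Real.sqrt_pos.mpr hWpos
  have hsz : 0 < √z := Real.sqrt_pos.mpr hz0
  refine ⟨√z * (1 + 3 / 2 * b / c₀) / √W, by positivity, fun k => ?_⟩
  rcases Nat.eq_zero_or_pos k with rfl | hk
  · rw [E3 z hz0]
    exact mul_nonneg (by positivity) (lf_cap_nonneg b β hN 0)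
  · have h1 := hcap k hk
    have h2 := capW_growth b β hb hβ (lf_sq_summable β hβ hsum) hvol k
    rw [← hW, Real.sqrt_mul (by positivity)] at h2
    have h3 := E8 z hz0 k
    rw [Real.sqrt_mul (by positivity)] at h3
    have h4 : √(2 * (k : ℝ)) * √W ≤ capW b β k * (1 + 3 / 2 * b / c₀) := by
      have : 3 / 2 * b ≤ capW b β k * (3 / 2 * b / c₀) := by
        rw [mul_div_assoc', le_div_iff₀ hc₀]
        nlinarith
      linarith
    have h5 : √(2 * (k : ℝ)) ≤ capW b β k * (1 + 3 / 2 * b / c₀) / √W := by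
      rw [le_div_iff₀ hsW]; exact h4
    calc ellCap 1 z k ≤ √(2 * (k : ℝ)) * √z := h3
      _ ≤ (capW b β k * (1 + 3 / 2 * b / c₀) / √W) * √z :=
          mul_le_mul_of_nonneg_right h5 hsz.le
      _ = √z * (1 + 3 / 2 * b / c₀) / √W * capW b β k := by ring

theorem lf_one {U : Type*} [DecidableEq U] (b : ℝ) (β : U → ℝ) (hb : 0 < b)
    (hβ : ∀ u, 0 ≤ β u) (hsum : Summable β) (hvol : ∑' u, β u ^ 2 < b ^ 2) (hN : Nef (b, β))
    (c₀ : ℝ) (hc₀ : 0 < c₀) (hcap : ∀ k : ℕ, 1 ≤ k → c₀ ≤ capW b β k) (z : ℝ) (hz : 1 ≤ z) :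
    0 < cfun (capW b β) z ∧
      ∀ l : ℝ, 0 < l → ((∀ k, ellCap 1 z k ≤ l * capW b β k) ↔ cfun (capW b β) z ≤ l) := by
  have hz0 : 0 < z := by linarith
  obtain ⟨l₀, hl₀, hl₀'⟩ := lf_ratio b β hb hβ hsum hvol hN c₀ hc₀ hcap z hz
  obtain ⟨-, -, E3, E4, E5, E6, -, E8⟩ := ellBasic
  have hne : ({l : ℝ | 0 < l ∧ ∀ k, ellCap 1 z k ≤ l * capW b β k}).Nonempty := ⟨l₀, hl₀, hl₀'⟩
  have hbdd : BddBelow {l : ℝ | 0 < l ∧ ∀ k, ellCap 1 z k ≤ l * capW b β k} :=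
    ⟨0, fun l hl => hl.1.le⟩
  have hc1 : 0 < capW b β 1 := lt_of_lt_of_le hc₀ (hcap 1 le_rfl)
  constructor
  · have : 1 / capW b β 1 ≤ cfun (capW b β) z := by
      apply le_csInf hne
      rintro l ⟨_, hl⟩
      rw [div_le_iff₀ hc1]
      exact (E4 z hz 1 le_rfl).trans (hl 1)
    exact lt_of_lt_of_le (by positivity) this
  · intro l hl
    constructor
    · intro h
      exact csInf_le hbdd ⟨hl, h⟩
    · intro h k
      rcases Nat.eq_zero_or_pos k with rfl | hk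
      · rw [E3 z hz0]
        exact mul_nonneg hl.le (lf_cap_nonneg b β hN 0)
      · have hck : 0 < capW b β k := lt_of_lt_of_le hc₀ (hcap k hk)
        have : ellCap 1 z k / capW b β k ≤ cfun (capW b β) z := by
          apply le_csInf hne
          rintro l' ⟨_, hl'⟩
          rw [div_le_iff₀ hck]
          exact hl' k
        rw [← div_le_iff₀ hck]
        exact this.trans h

theorem lf_two {U : Type*} [DecidableEq U] (b : ℝ) (β : U → ℝ) (hb : 0 < b)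
    (hβ : ∀ u, 0 ≤ β u) (hsum : Summable β) (hvol : ∑' u, β u ^ 2 < b ^ 2) (hN : Nef (b, β))
    (c₀ : ℝ) (hc₀ : 0 < c₀) (hcap : ∀ k : ℕ, 1 ≤ k → c₀ ≤ capW b β k) (z z' : ℝ) (hz : 1 ≤ z)
    (hzz : z ≤ z') : cfun (capW b β) z ≤ cfun (capW b β) z' ∧
      cfun (capW b β) z' ≤ (z' / z) * cfun (capW b β) z := by
  have hz0 : 0 < z := by linarith
  have hz'0 : 0 < z' := by linarith
  obtain ⟨p1, q1⟩ := lf_one b β hb hβ hsum hvol hN c₀ hc₀ hcap z hz
  obtain ⟨p2, q2⟩ := lf_one b β hb hβ hsum hvol hN c₀ hc₀ hcap z' (hz.trans hzz)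
  obtain ⟨-, -, -, -, -, E6, -, -⟩ := ellBasic
  constructor
  · rw [← q1 _ p2]
    intro k
    exact (E6 z z' hz0 hzz k).1.trans ((q2 _ p2).mpr le_rfl k)
  · rw [← q2 _ (by positivity)]
    intro k
    refine (E6 z z' hz0 hzz k).2.trans ?_
    rw [mul_assoc]
    exact mul_le_mul_of_nonneg_left ((q1 _ p1).mpr le_rfl k) (by positivity)

/-- TARGET -/
theorem cfunBasic {U : Type*} [DecidableEq U] (b : ℝ) (β : U → ℝ) (hb : 0 < b)
    (hβ : ∀ u, 0 ≤ β u) (hsum : Summable β) (hvol : ∑' u, β u ^ 2 < b ^ 2) (hN : Nef (b, β))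
    (hpos : ∃ c > 0, ∀ k : ℕ, 1 ≤ k → c ≤ capW b β k) :
    (∀ z : ℝ, 1 ≤ z → 0 < cfun (capW b β) z ∧
      ∀ l : ℝ, 0 < l → ((∀ k, ellCap 1 z k ≤ l * capW b β k) ↔ cfun (capW b β) z ≤ l)) ∧
    (∀ z z' : ℝ, 1 ≤ z → z ≤ z' → cfun (capW b β) z ≤ cfun (capW b β) z' ∧
      cfun (capW b β) z' ≤ (z' / z) * cfun (capW b β) z) ∧
    (∀ z₀ : ℝ, 1 ≤ z₀ → √(z₀ / (b ^ 2 - ∑' u, β u ^ 2)) < cfun (capW b β) z₀ →
      ∃ (K : ℕ) (δ : ℝ), 0 < δ ∧ ∀ z : ℝ, 1 ≤ z → |z - z₀| < δ →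
        ∃ η : ℝ, η < cfun (capW b β) z ∧ ∀ k : ℕ, K < k → ellCap 1 z k ≤ η * capW b β k) := by
  obtain ⟨c₀, hc₀, hcap⟩ := hpos
  have H1 := lf_one b β hb hβ hsum hvol hN c₀ hc₀ hcap
  have H2 := lf_two b β hb hβ hsum hvol hN c₀ hc₀ hcap
  refine ⟨H1, H2, ?_⟩
  intro z₀ hz₀ hlt
  obtain ⟨-, -, -, -, -, -, -, E8⟩ := ellBasic
  set W := b ^ 2 - ∑' u, β u ^ 2 with hW
  have hWpos : 0 < W := by linarith
  have hsW : 0 < √W := Real.sqrt_pos.mpr hWpos
  have hz₀0 : 0 < z₀ := by linarith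
  set c := cfun (capW b β) z₀ with hc
  have hcpos : 0 < c := (H1 z₀ hz₀).1
  set V := √(z₀ / W) with hV
  have hVnn : 0 ≤ V := Real.sqrt_nonneg _
  set η₀ := (c - V) / 3 with hη₀
  have hη₀pos : 0 < η₀ := by rw [hη₀]; linarith
  have hcont : ContinuousAt (fun z : ℝ => √(z / W)) z₀ :=
    (Real.continuous_sqrt.comp (continuous_id.div_const W)).continuousAt
  obtain ⟨δ₁, hδ₁, hδ₁'⟩ := Metric.continuousAt_iff.mp hcont η₀ hη₀pos
  set B := V + 2 * η₀ with hB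
  have hBpos : 0 < B := by rw [hB]; linarith
  set T := 3 / 2 * b * B / η₀ with hT
  have hTpos : 0 < T := by positivity
  obtain ⟨K, hK⟩ := exists_nat_ge (T ^ 2 / (2 * W))
  refine ⟨K, min δ₁ (η₀ * z₀ / c), lt_min hδ₁ (by positivity), ?_⟩
  intro z hz hzd
  have hz0 : 0 < z := by linarith
  have hd1 : |z - z₀| < δ₁ := lt_of_lt_of_le hzd (min_le_left _ _)
  have hd2 : |z - z₀| < η₀ * z₀ / c := lt_of_lt_of_le hzd (min_le_right _ _)
  have hV1 : √(z / W) < V + η₀ := by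
    have := hδ₁' (show dist z z₀ < δ₁ by rw [Real.dist_eq]; exact hd1)
    rw [Real.dist_eq] at this
    have := (abs_lt.mp this).2
    linarith
  have hc1 : c - η₀ < cfun (capW b β) z := by
    rcases le_total z₀ z with h | h
    · have := (H2 z₀ z hz₀ h).1
      linarith
    · have h1 := (H2 z z₀ hz h).2
      rw [← hc] at h1
      have h2 : z * c ≤ z₀ * cfun (capW b β) z := by
        have : z₀ / z * cfun (capW b β) z = z₀ * cfun (capW b β) z / z := by ring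
        rw [this, le_div_iff₀ hz0] at h1
        linarith
      have h3 : (z₀ - z) * c < η₀ * z₀ := by
        rw [lt_div_iff₀ hcpos] at hd2
        have : z₀ - z ≤ |z - z₀| := by rw [abs_sub_comm]; exact le_abs_self _
        nlinarith
      have h4 : z₀ * (c - η₀) < z₀ * cfun (capW b β) z := by nlinarith
      exact lt_of_mul_lt_mul_left h4 hz₀0.le
  refine ⟨√(z / W) + η₀, ?_, ?_⟩
  · have : V + 3 * η₀ = c := by rw [hη₀]; ring
    linarith
  · intro k hk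
    have hkR : (K : ℝ) ≤ k := by exact_mod_cast hk.le
    have h1 := capW_growth b β hb hβ (lf_sq_summable β hβ hsum) hvol k
    rw [← hW] at h1
    have h3 := E8 z hz0 k
    have h4 : √(2 * (k : ℝ) * z) = √(z / W) * √(2 * k * W) := by
      rw [← Real.sqrt_mul (by positivity)]
      congr 1
      field_simp
    have h5 : T ≤ √(2 * (k : ℝ) * W) := by
      apply Real.le_sqrt_of_sq_le
      rw [div_le_iff₀ (by positivity)] at hK
      nlinarith
    have h6 : 3 / 2 * b * B ≤ η₀ * √(2 * (k : ℝ) * W) := by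
      have : T * η₀ = 3 / 2 * b * B := by rw [hT]; field_simp
      nlinarith
    have hη : 0 < √(z / W) + η₀ := by positivity
    have h7 : (√(z / W) + η₀) * (√(2 * k * W) - 3 / 2 * b) ≤ (√(z / W) + η₀) * capW b β k :=
      mul_le_mul_of_nonneg_left h1 hη.le
    have h8 : √(z / W) + η₀ ≤ B := by rw [hB]; linarith
    have h9 : (√(z / W) + η₀) * (3 / 2 * b) ≤ 3 / 2 * b * B := by nlinarith
    rw [h4] at h3
    have h10 : (√(z / W) + η₀) * (√(2 * k * W) - 3 / 2 * b) =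
        √(z / W) * √(2 * k * W) + η₀ * √(2 * k * W) - (√(z / W) + η₀) * (3 / 2 * b) := by ring
    linarith


end Pool.Agent.Helper416_Stair
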