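import Pool.Agent.Helper416_Stair.Act
import Pool.Agent.Helper416_Stair.Bridge

/-!
# Local structure of the embedding problem at a rational point
-/

noncomputable section

open scoped BigOperators Pointwise

namespace Pool.Agent.Helper416_Stair

/-- the class `(b; β; 0)` on `U ⊕ ℕ` -/
def Bv {U : Type*} (b : ℝ) (β : U → ℝ) : ℝ × (U ⊕ ℕ → ℝ) := (b, Sum.elim β 0)

/-- the class `(0; 0; ω)` on `U ⊕ ℕ` -/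
def Ov (U : Type*) (m : ℕ) (ω : ℕ → ℤ) : ℝ × (U ⊕ ℕ → ℝ) :=
  (0, Sum.elim 0 (fun i => if i < m then (ω i : ℝ) else 0))

/-- the local data at the rational point `p / q`, in direction `s`; the isotropic nef class `F` is `q n` times
`vec b β 1 (p / q)`, the word `w` moves it to `(1; e_{i₁})` -/
structure Loc {U : Type*} [DecidableEq U] (b : ℝ) (β : U → ℝ) (p q : ℕ) (s : ℤ) (m : ℕ)
    (ω : ℕ → ℤ) (γ : ℤ) (ε₀ : ℝ) (n : ℕ) (S : Finset (U ⊕ ℕ)) (F : ℤ × (U ⊕ ℕ → ℤ))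
    (w : List ((U ⊕ ℕ) × (U ⊕ ℕ) × (U ⊕ ℕ))) (i₁ : U ⊕ ℕ) : Prop where
  hb : 0 < b
  hβ : ∀ u, 0 ≤ β u
  hN : Nef (b, β)
  hN₀ : Nef (vec b β 1 ((p : ℝ) / q))
  hq : 0 < q
  hqp : q ≤ p
  hcop : p.Coprime q
  hs : s = 1 ∨ (s = -1 ∧ 1 < p)
  hm : 0 < m
  hε₀ : 0 < ε₀
  hγ0 : 0 ≤ γ
  hγq : γ ≤ q
  w0 : ∀ i, m ≤ i → wt 1 ((p : ℝ) / q) i = 0
  wpos : ∀ i < m, 0 < wt 1 ((p : ℝ) / q) i
  wlast : wt 1 ((p : ℝ) / q) (m - 1) = 1 / q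
  wsq : ∑ i ∈ Finset.range m, wt 1 ((p : ℝ) / q) i ^ 2 = (p : ℝ) / q
  wsum : ∑ i ∈ Finset.range m, wt 1 ((p : ℝ) / q) i = 1 + (p : ℝ) / q - 1 / q
  wω : ∑ i ∈ Finset.range m, wt 1 ((p : ℝ) / q) i * ω i = ((s : ℝ) - 1) / 2
  ωsq : ∑ i ∈ Finset.range m, ω i ^ 2 = q * γ
  ωlast : ω (m - 1) = -γ
  near : ∀ ε : ℝ, 0 < ε → ε < ε₀ →
    (∀ i < m, wt 1 ((p : ℝ) / q + s * ε) i = wt 1 ((p : ℝ) / q) i + ε * ω i) ∧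
    wt 1 ((p : ℝ) / q + s * ε) m = q * ε ∧
    (∀ i, m ≤ i → 0 ≤ wt 1 ((p : ℝ) / q + s * ε) i ∧ wt 1 ((p : ℝ) / q + s * ε) i ≤ q * ε) ∧
    ∀ M, m ≤ M → ∑ i ∈ Finset.Ico m M, wt 1 ((p : ℝ) / q + s * ε) i ≤ 1 / q - γ * ε + q * ε
  cl : (s = -1 ∨ 1 < q) → ∃ c : ℕ → ℤ,
    ∑ i ∈ Finset.range m, (c i : ℝ) * wt 1 ((p : ℝ) / q) i = 0 ∧
    ∑ i ∈ Finset.range m, c i * ω i = -q ∧
    ∑ i ∈ Finset.range m, c i = ∑ i ∈ Finset.range m, c i ^ 2 - 2 ∧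
    c (m - 1) = 1
  hn : 0 < n
  F1 : (F.1 : ℝ) = q * n * b
  FU : ∀ u, (F.2 (Sum.inl u) : ℝ) = q * n * β u
  FN : ∀ i, (F.2 (Sum.inr i) : ℝ) = q * n * wt 1 ((p : ℝ) / q) i
  hS : ∀ i, i ∈ S ↔ F.2 i ≠ 0
  FF : Bf S F F = 0
  KF : Kd S F = 2
  hvol : Bf S (Bv b β) (Bv b β) = (p : ℝ) / q
  word : GoodWord S w
  hi₁ : i₁ ∈ S
  actF : act w F = (1, fun i => if i = i₁ then 1 else 0)

end Pool.Agent.Helper416_Stair
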