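import Pool.Agent.Helper416_Stair.Loc

/-!
# First consequences of the local structure
-/

noncomputable section

open scoped BigOperators Pointwise

namespace Pool.Agent.Helper416_Stair

variable {U : Type*} [DecidableEq U] {b : ℝ} {β : U → ℝ} {p q : ℕ} {s : ℤ} {m : ℕ}
    {ω : ℕ → ℤ} {γ : ℤ} {ε₀ : ℝ} {n : ℕ} {S : Finset (U ⊕ ℕ)} {F : ℤ × (U ⊕ ℕ → ℤ)}
    {w : List ((U ⊕ ℕ) × (U ⊕ ℕ) × (U ⊕ ℕ))} {i₁ : U ⊕ ℕ}

theorem loc_mem (L : Loc b β p q s m ω γ ε₀ n S F w i₁) :
    (∀ i, Sum.inr i ∈ S ↔ i < m) ∧ (∀ u, Sum.inl u ∉ S → β u = 0) := by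
  have hq : (0 : ℝ) < q := by exact_mod_cast L.hq
  have hn : (0 : ℝ) < n := by exact_mod_cast L.hn
  constructor
  · intro i
    rw [L.hS]
    constructor
    · intro h
      by_contra hi
      apply h
      have := L.FN i
      rw [L.w0 i (by omega), mul_zero] at this
      exact_mod_cast this
    · intro hi h
      have h1 := L.FN i
      rw [h] at h1
      have h2 := L.wpos i hi
      have : 0 < (q : ℝ) * n * wt 1 ((p : ℝ) / q) i := by positivity
      rw [← h1] at this
      simp at this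
  · intro u hu
    rw [L.hS, not_not] at hu
    have h1 := L.FU u
    rw [hu] at h1
    have h2 : (q : ℝ) * n ≠ 0 := by positivity
    have h3 : (q : ℝ) * n * β u = 0 := by rw [← h1]; simp
    rcases mul_eq_zero.mp h3 with h | h
    · exact absurd h h2
    · exact h

/-- the tail of the vector -/
def Tv (U : Type*) (m : ℕ) (z : ℝ) : ℝ × (U ⊕ ℕ → ℝ) :=
  (0, Sum.elim 0 (fun i => if i < m then 0 else wt 1 z i))

lemma loc_F (L : Loc b β p q s m ω γ ε₀ n S F w i₁) :
    vec b β 1 ((p : ℝ) / q) = (1 / ((q : ℝ) * n)) • toR F := by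
  have hq : (0 : ℝ) < q := by exact_mod_cast L.hq
  have hn : (0 : ℝ) < n := by exact_mod_cast L.hn
  ext i
  · simp only [vec, toR, Prod.smul_fst, smul_eq_mul, L.F1]; field_simp
  · rcases i with u | i
    · simp only [vec, toR, Prod.smul_snd, Pi.smul_apply, smul_eq_mul, L.FU, Sum.elim_inl]; field_simp
    · simp only [vec, toR, Prod.smul_snd, Pi.smul_apply, smul_eq_mul, L.FN, Sum.elim_inr]; field_simp

lemma loc_vec (L : Loc b β p q s m ω γ ε₀ n S F w i₁) (κ ε : ℝ) (h0 : 0 < ε) (h1 : ε < ε₀) :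
    vec b β (1 + κ * ε) ((p : ℝ) / q + s * ε) = (1 / ((q : ℝ) * n)) • toR F +
      (ε • (κ • Bv b β + Ov U m ω) + Tv U m ((p : ℝ) / q + s * ε)) := by
  rw [← loc_F L]
  ext i
  · simp only [vec, Bv, Ov, Tv, Prod.fst_add, Prod.smul_fst, smul_eq_mul]; ring
  · rcases i with u | i
    · simp only [vec, Bv, Ov, Tv, Prod.snd_add, Prod.smul_snd, Pi.add_apply, Pi.smul_apply,
        smul_eq_mul, Sum.elim_inl, Pi.zero_apply]; ring
    · simp only [vec, Bv, Ov, Tv, Prod.snd_add, Prod.smul_snd, Pi.add_apply, Pi.smul_apply,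
        smul_eq_mul, Sum.elim_inr, Pi.zero_apply]
      by_cases hi : i < m
      · simp only [hi, if_true, (L.near ε h0 h1).1 i hi]; ring
      · simp only [hi, if_false, L.w0 i (by omega)]; ring

lemma act_Tv (L : Loc b β p q s m ω γ ε₀ n S F w i₁) (z : ℝ) : act w (Tv U m z) = Tv U m z := by
  have key : ∀ l : List ((U ⊕ ℕ) × (U ⊕ ℕ) × (U ⊕ ℕ)), GoodWord S l →
      act l (Tv U m z) = Tv U m z := by
    intro l
    induction l with
    | nil => intro _; rfl
    | cons t l ih =>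
      intro hl
      have : act (t :: l) (Tv U m z) = crem t.1 t.2.1 t.2.2 (act l (Tv U m z)) := rfl
      rw [this, ih (fun t ht => hl t (by simp [ht]))]
      obtain ⟨h1, h2, h3, -, -, -⟩ := hl t (by simp)
      have h0 : ∀ i ∈ S, (Tv U m z).2 i = 0 := by
        intro i hi
        rcases i with u | i
        · simp [Tv]
        · have := ((loc_mem L).1 i).mp hi
          simp [Tv, this]
      ext i
      · simp [crem, h0 _ h1, h0 _ h2, h0 _ h3]; simp [Tv]
      · have e : (Tv U m z).1 = 0 := rfl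
        simp only [crem, h0 _ h1, h0 _ h2, h0 _ h3, e]
        split_ifs <;> ring
  exact key w L.word

theorem loc_expand (L : Loc b β p q s m ω γ ε₀ n S F w i₁) (κ ε : ℝ) (h0 : 0 < ε) (h1 : ε < ε₀) :
    (act w (vec b β (1 + κ * ε) ((p : ℝ) / q + s * ε))).1 = 1 / (q * n) + ε * (κ * (act w (Bv b β)).1
      + (act w (Ov U m ω)).1) ∧
    (∀ j ∈ S, (act w (vec b β (1 + κ * ε) ((p : ℝ) / q + s * ε))).2 j =
      (if j = i₁ then 1 / ((q : ℝ) * n) else 0) + ε * (κ * (act w (Bv b β)).2 j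
      + (act w (Ov U m ω)).2 j)) ∧
    (∀ u, Sum.inl u ∉ S → (act w (vec b β (1 + κ * ε) ((p : ℝ) / q + s * ε))).2 (Sum.inl u) = 0) ∧
    (∀ i, m ≤ i → (act w (vec b β (1 + κ * ε) ((p : ℝ) / q + s * ε))).2 (Sum.inr i) =
      wt 1 ((p : ℝ) / q + s * ε) i) := by
  have hmem := loc_mem L
  have E : act w (vec b β (1 + κ * ε) ((p : ℝ) / q + s * ε)) = (1 / ((q : ℝ) * n)) • toR (act w F) +
      (ε • (κ • act w (Bv b β) + act w (Ov U m ω)) + Tv U m ((p : ℝ) / q + s * ε)) := by
    rw [loc_vec L κ ε h0 h1, act_add, act_add, act_smul, act_smul, act_add, act_smul, act_Tv L,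
      act_toR]
  refine ⟨?_, ?_, ?_, ?_⟩
  · rw [E, L.actF]
    simp only [Prod.fst_add, Prod.smul_fst, smul_eq_mul, toR, Tv]
    push_cast
    ring
  · intro j hj
    have ht : (Tv U m ((p : ℝ) / q + s * ε)).2 j = 0 := by
      rcases j with u | i
      · simp [Tv]
      · have := (hmem.1 i).mp hj
        simp [Tv, this]
    rw [E, L.actF]
    simp only [Prod.snd_add, Pi.add_apply, Prod.smul_snd, Pi.smul_apply, smul_eq_mul, ht, toR]
    split_ifs with h <;> simp
  · intro u hu
    rw [act_snd_of_notMem S w L.word _ hu]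
    simp [vec, hmem.2 u hu]
  · intro i hi
    have hu : (Sum.inr i : U ⊕ ℕ) ∉ S := by rw [hmem.1 i]; omega
    rw [act_snd_of_notMem S w L.word _ hu]
    simp [vec]

lemma sum_S (L : Loc b β p q s m ω γ ε₀ n S F w i₁) (g : U ⊕ ℕ → ℝ) :
    ∑ i ∈ S, g i = ∑ i ∈ S.filter (fun i => i.isLeft), g i + ∑ i ∈ Finset.range m, g (Sum.inr i) := by
  rw [← Finset.sum_filter_add_sum_filter_not S (fun i => i.isLeft)]
  congr 1
  have : S.filter (fun i => ¬ (i.isLeft = true)) = (Finset.range m).image Sum.inr := by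
    ext i
    simp only [Finset.mem_filter, Finset.mem_image, Finset.mem_range]
    rcases i with u | i
    · simp
    · simp [(loc_mem L).1 i]
  rw [this, Finset.sum_image (by intro a _ b _ h; exact Sum.inr_injective h)]

/-- pairing of the moved classes with the standard class -/
lemma loc_std (L : Loc b β p q s m ω γ ε₀ n S F w i₁) (v : ℝ × (U ⊕ ℕ → ℝ)) :
    (act w v).1 - (act w v).2 i₁ = Bf S v (toR F) := by
  rw [← Bf_act S w L.word v (toR F), act_toR, L.actF, ← Bf_std S i₁ L.hi₁ (act w v)]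
  congr 1
  ext i
  · simp [toR]
  · simp [toR]

theorem loc_pair (L : Loc b β p q s m ω γ ε₀ n S F w i₁) :
    (act w (Bv b β)).1 - (act w (Bv b β)).2 i₁ = n * p ∧
    (act w (Ov U m ω)).1 - (act w (Ov U m ω)).2 i₁ = q * n * (1 - (s : ℝ)) / 2 := by
  have hq : (0 : ℝ) < q := by exact_mod_cast L.hq
  have hn : (0 : ℝ) < n := by exact_mod_cast L.hn
  constructor
  · rw [loc_std L]
    have h := L.hvol
    have e : Bf S (Bv b β) (toR F) = q * n * Bf S (Bv b β) (Bv b β) := by
      simp only [Bf, mul_sub, Finset.mul_sum, toR, L.F1, Bv]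
      congr 1
      · ring
      · apply Finset.sum_congr rfl
        intro i _
        rcases i with u | i
        · simp only [Sum.elim_inl, L.FU]; ring
        · simp
    rw [e, h]
    field_simp
  · rw [loc_std L]
    have e : Bf S (Ov U m ω) (toR F) = -(q * n * ∑ i ∈ Finset.range m, wt 1 ((p : ℝ) / q) i * ω i) := by
      simp only [Bf, toR, Ov]
      rw [sum_S L]
      have z1 : ∑ i ∈ S.filter (fun i => i.isLeft),
          (Sum.elim 0 (fun i => if i < m then (ω i : ℝ) else 0) : U ⊕ ℕ → ℝ) i * (F.2 i : ℝ) = 0 := by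
        apply Finset.sum_eq_zero
        intro i hi
        rcases i with u | i
        · simp
        · simp at hi
      have z2 : ∑ i ∈ Finset.range m,
          (Sum.elim 0 (fun i => if i < m then (ω i : ℝ) else 0) : U ⊕ ℕ → ℝ) (Sum.inr i) *
            (F.2 (Sum.inr i) : ℝ) = q * n * ∑ i ∈ Finset.range m, wt 1 ((p : ℝ) / q) i * ω i := by
        rw [Finset.mul_sum]
        apply Finset.sum_congr rfl
        intro i hi
        simp only [Sum.elim_inr, Finset.mem_range.mp hi, if_true, L.FN]; ring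
      rw [z1, z2]; ring
    rw [e, L.wω]; ring

/-- `(b; β; 0)` is nef -/
lemma nef_Bv {U : Type*} [DecidableEq U] (b : ℝ) (β : U → ℝ) (hN : Nef (b, β)) :
    Nef (Bv b β) := by
  intro S C h1 h2
  set S' : Finset U := S.preimage Sum.inl Sum.inl_injective.injOn with hS'
  have hsum : ∀ g : U ⊕ ℕ → ℝ, ∑ i ∈ S.filter (fun i => i.isLeft), g i = ∑ u ∈ S', g (Sum.inl u) := by
    intro g
    have : S.filter (fun i => i.isLeft) = S'.image Sum.inl := by
      ext i
      simp only [Finset.mem_filter, Finset.mem_image, hS', Finset.mem_preimage]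
      rcases i with u | i
      · simp
      · simp
    rw [this, Finset.sum_image (by intro a _ b _ h; exact Sum.inl_injective h)]
  have hsumZ : ∀ g : U ⊕ ℕ → ℤ, ∑ i ∈ S.filter (fun i => i.isLeft), g i = ∑ u ∈ S', g (Sum.inl u) := by
    intro g
    have : S.filter (fun i => i.isLeft) = S'.image Sum.inl := by
      ext i
      simp only [Finset.mem_filter, Finset.mem_image, hS', Finset.mem_preimage]
      rcases i with u | i
      · simp
      · simp
    rw [this, Finset.sum_image (by intro a _ b _ h; exact Sum.inl_injective h)]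
  have hidx : idx S C ≤ idx S' (C.1, fun u => C.2 (Sum.inl u)) := by
    rw [idx_eq, idx_eq]
    have : ∑ u ∈ S', ((C.2 (Sum.inl u)) ^ 2 + C.2 (Sum.inl u)) ≤ ∑ i ∈ S, (C.2 i ^ 2 + C.2 i) := by
      rw [← hsumZ (fun i => C.2 i ^ 2 + C.2 i)]
      apply Finset.sum_le_sum_of_subset_of_nonneg (Finset.filter_subset _ _)
      intro i _ _
      exact int_sq_add_nonneg _
    simp only at this ⊢
    linarith
  have h := hN S' (C.1, fun u => C.2 (Sum.inl u)) h1 (le_trans h2 hidx)
  have e : Bf S (Bv b β) (toR C) = Bf S' (b, β) (toR (C.1, fun u => C.2 (Sum.inl u))) := by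
    simp only [Bf, toR, Bv]
    congr 1
    rw [← Finset.sum_filter_add_sum_filter_not S (fun i => i.isLeft)]
    have z : ∑ i ∈ S.filter (fun i => ¬ (i.isLeft = true)),
        (Sum.elim β 0 : U ⊕ ℕ → ℝ) i * (C.2 i : ℝ) = 0 := by
      apply Finset.sum_eq_zero
      intro i hi
      rcases i with u | i
      · simp at hi
      · simp
    rw [z, add_zero, hsum]
    simp
  rw [e]; exact h

lemma exists_notMem_S (L : Loc b β p q s m ω γ ε₀ n S F w i₁) : (Sum.inr m : U ⊕ ℕ) ∉ S := by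
  rw [(loc_mem L).1]; omega

theorem loc_B (L : Loc b β p q s m ω γ ε₀ n S F w i₁) : ∀ j ∈ S, j ≠ i₁ →
    0 ≤ (act w (Bv b β)).2 j ∧ (act w (Bv b β)).2 j ≤ n * p := by
  intro j hj hji
  have hB : Nef (act w (Bv b β)) := (nef_act S w L.word _).mpr (nef_Bv b β L.hN)
  refine ⟨nef_entry_nonneg _ hB j, ?_⟩
  have := nef_two _ hB hji
  have h2 := (loc_pair L).1
  linarith

/-- necessary conditions -/
theorem loc_lower (L : Loc b β p q s m ω γ ε₀ n S F w i₁) (κ ε : ℝ) (h0 : 0 < ε) (h1 : ε < ε₀)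
    (hN : Nef (vec b β (1 + κ * ε) ((p : ℝ) / q + s * ε))) :
    (∀ j ∈ S, j ≠ i₁ → 0 ≤ κ * (act w (Bv b β)).2 j + (act w (Ov U m ω)).2 j ∧
        κ * (act w (Bv b β)).2 j + (act w (Ov U m ω)).2 j
          ≤ n * p * κ + q * n * (1 - (s : ℝ)) / 2) ∧
      (q : ℝ) ≤ n * p * κ + q * n * (1 - (s : ℝ)) / 2 := by
  obtain ⟨e1, e2, e3, e4⟩ := loc_expand L κ ε h0 h1
  obtain ⟨p1, p2⟩ := loc_pair L
  have hA : Nef (act w (vec b β (1 + κ * ε) ((p : ℝ) / q + s * ε))) :=
    (nef_act S w L.word _).mpr hN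
  have hi1 := e2 i₁ L.hi₁
  simp only [if_true] at hi1
  constructor
  · intro j hj hji
    have a1 := nef_entry_nonneg _ hA j
    have a2 := nef_two _ hA hji
    have a3 := e2 j hj
    simp only [hji, if_false, zero_add] at a3
    rw [a3] at a1 a2
    refine ⟨nonneg_of_mul_nonneg_right a1 h0, ?_⟩
    rw [e1, hi1] at a2
    have : ε * (κ * (act w (Bv b β)).2 j + (act w (Ov U m ω)).2 j) ≤
        ε * (n * p * κ + q * n * (1 - (s : ℝ)) / 2) := by
      have e : n * p * κ + q * n * (1 - (s : ℝ)) / 2 =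
        κ * ((act w (Bv b β)).1 - (act w (Bv b β)).2 i₁)
          + ((act w (Ov U m ω)).1 - (act w (Ov U m ω)).2 i₁) := by rw [p1, p2]; ring
      rw [e]
      nlinarith
    exact le_of_mul_le_mul_left this h0
  · have hne : (Sum.inr m : U ⊕ ℕ) ≠ i₁ := by
      intro h; exact exists_notMem_S L (h ▸ L.hi₁)
    have a2 := nef_two _ hA hne
    rw [e4 m le_rfl, (L.near ε h0 h1).2.1, e1, hi1] at a2
    have : ε * q ≤ ε * (n * p * κ + q * n * (1 - (s : ℝ)) / 2) := by
      have e : n * p * κ + q * n * (1 - (s : ℝ)) / 2 =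
        κ * ((act w (Bv b β)).1 - (act w (Bv b β)).2 i₁)
          + ((act w (Ov U m ω)).1 - (act w (Ov U m ω)).2 i₁) := by rw [p1, p2]; ring
      rw [e]
      nlinarith
    exact le_of_mul_le_mul_left this h0

end Pool.Agent.Helper416_Stair
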