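import Pool.Agent.Helper416_Stair.LocLem
import Pool.Agent.Helper416_Stair.A5
import Pool.Agent.Helper416_Stair.E3
import Pool.Agent.Helper416_Stair.E4
import Pool.Agent.Helper416_Stair.LF

/-!
# Volume bound and existence of the local structure
-/

noncomputable section

open scoped BigOperators Pointwise

namespace Pool.Agent.Helper416_Stair

/-- a real number `≥ 1` that is not irrational is a quotient of coprime naturals -/
lemma rat_form (z : ℝ) (hz : 1 ≤ z) (h : ¬ Irrational z) :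
    ∃ p q : ℕ, 0 < q ∧ q ≤ p ∧ p.Coprime q ∧ z = (p : ℝ) / q := by
  rw [irrational_iff_ne_rational] at h
  push Not at h
  obtain ⟨a, b, hb, hab⟩ := h
  have hr : ∃ r : ℚ, (r : ℝ) = z := ⟨(a : ℚ) / b, by rw [hab]; push_cast; ring⟩
  obtain ⟨r, rfl⟩ := hr
  have hr1 : (1 : ℚ) ≤ r := by exact_mod_cast hz
  have hnum : 0 < r.num := Rat.num_pos.mpr (by linarith)
  refine ⟨r.num.natAbs, r.den, r.den_pos, ?_, r.reduced, ?_⟩
  · have h1 : (r.den : ℤ) ≤ r.num := by
      have h2 : (1 : ℚ) * r.den ≤ r * r.den := mul_le_mul_of_nonneg_right hr1 (by positivity)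
      rw [Rat.mul_den_eq_num, one_mul] at h2
      exact_mod_cast h2
    omega
  · have h1 : ((r.num.natAbs : ℕ) : ℝ) = (r.num : ℝ) := by
      rw [Nat.cast_natAbs, abs_of_pos hnum]
    rw [h1]
    exact_mod_cast (Rat.num_div_den r).symm

lemma wt_hasSum_sq (z : ℝ) (hz : 1 ≤ z) : HasSum (fun i => wt 1 z i ^ 2) z := by
  by_cases h : Irrational z
  · exact (wtIrr z hz h).2.2.1
  · obtain ⟨p, q, hq, hqp, hcop, rfl⟩ := rat_form z hz h
    obtain ⟨m, ω, γ, ε₀, -, -, -, -, h0, -, -, hsq, -⟩ := nearRat p q hq hqp hcop 1 (Or.inl rfl)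
    have h1 : HasSum (fun i => wt 1 ((p : ℝ) / q) i ^ 2)
        (∑ i ∈ Finset.range m, wt 1 ((p : ℝ) / q) i ^ 2) := by
      apply hasSum_sum_of_ne_finset_zero
      intro i hi
      rw [h0 i (by simpa using hi)]
      norm_num
    rwa [hsq] at h1

/-- volume bound -/
theorem vol_bound {U : Type*} [DecidableEq U] (b : ℝ) (β : U → ℝ) (hb : 0 < b)
    (hβ : ∀ u, 0 ≤ β u) (hsum : Summable β) (hvol : ∑' u, β u ^ 2 < b ^ 2) (z l : ℝ) (hz : 1 ≤ z)
    (hl : 0 < l) (hN : Nef (vec b β l z)) : √(z / (b ^ 2 - ∑' u, β u ^ 2)) ≤ l := by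
  have hsq := lf_sq_summable β hβ hsum
  have h1 : ∀ S : Finset (U ⊕ ℕ), ∑ i ∈ S, (vec b β l z).2 i ^ 2 ≤ (vec b β l z).1 ^ 2 :=
    vol_ineq _ (by simp only [vec]; positivity) (nef_entry_nonneg _ hN) hN
  have hs : HasSum (fun i => (vec b β l z).2 i ^ 2) (l ^ 2 * ∑' u, β u ^ 2 + z) := by
    apply HasSum.sum
    · have := hsq.hasSum.mul_left (l ^ 2)
      refine this.congr_fun ?_
      intro u
      simp only [Function.comp, vec, Sum.elim_inl]; ring
    · exact wt_hasSum_sq z hz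
  have h2 : l ^ 2 * ∑' u, β u ^ 2 + z ≤ (l * b) ^ 2 := by
    have := hs
    exact hasSum_le_of_sum_le this (fun S => h1 S)
  have hV : 0 < b ^ 2 - ∑' u, β u ^ 2 := by linarith
  rw [Real.sqrt_le_left hl.le, div_le_iff₀ hV]
  nlinarith

/-- existence of the local structure -/
theorem exists_loc {U : Type*} [DecidableEq U] (b : ℝ) (β : U → ℝ) (hb : 0 < b)
    (hβ : ∀ u, 0 ≤ β u) (hsum : Summable β) (hN : Nef (b, β)) (p q : ℕ) (hq : 0 < q) (hqp : q ≤ p)
    (hcop : p.Coprime q) (s : ℤ) (hs : s = 1 ∨ (s = -1 ∧ 1 < p))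
    (hvol : b ^ 2 - ∑' u, β u ^ 2 = (p : ℝ) / q) (hN₀ : Nef (vec b β 1 ((p : ℝ) / q)))
    (hκ : 0 < 3 * b - ∑' u, β u - (1 + (p : ℝ) / q - 1 / q)) :
    ∃ (m : ℕ) (ω : ℕ → ℤ) (γ : ℤ) (ε₀ : ℝ) (n : ℕ) (S : Finset (U ⊕ ℕ)) (F : ℤ × (U ⊕ ℕ → ℤ))
      (w : List ((U ⊕ ℕ) × (U ⊕ ℕ) × (U ⊕ ℕ))) (i₁ : U ⊕ ℕ),
      Loc b β p q s m ω γ ε₀ n S F w i₁ := by
  obtain ⟨m, ω, γ, ε₀, hm, hε₀, hγ0, hγq, w0, wpos, wlast, wsq, wsum, wω, ωsq, ωlast, near, cl⟩ :=
    nearRat p q hq hqp hcop s hs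
  have hqr : (0 : ℝ) < q := by exact_mod_cast hq
  have hpq : (1 : ℝ) ≤ (p : ℝ) / q := by
    rw [le_div_iff₀ hqr, one_mul]; exact_mod_cast hqp
  set v₀ := vec b β 1 ((p : ℝ) / q) with hv₀
  have hent : ∀ i, 0 ≤ v₀.2 i := nef_entry_nonneg _ hN₀
  have hv1 : v₀.1 = b := by simp [hv₀, vec]
  have hwsum : HasSum (wt 1 ((p : ℝ) / q)) (∑ i ∈ Finset.range m, wt 1 ((p : ℝ) / q) i) := by
    apply hasSum_sum_of_ne_finset_zero
    intro i hi
    exact w0 i (by simpa using hi)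
  have hwsq := wt_hasSum_sq ((p : ℝ) / q) hpq
  have hs1 : HasSum v₀.2 (∑' u, β u + ∑ i ∈ Finset.range m, wt 1 ((p : ℝ) / q) i) := by
    apply HasSum.sum
    · refine hsum.hasSum.congr_fun ?_
      intro u
      simp [Function.comp, hv₀, vec]
    · exact hwsum
  have hs2 : HasSum (fun i => v₀.2 i ^ 2) (∑' u, β u ^ 2 + (p : ℝ) / q) := by
    apply HasSum.sum
    · refine (lf_sq_summable β hβ hsum).hasSum.congr_fun ?_
      intro u
      simp [Function.comp, hv₀, vec]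
    · exact hwsq
  obtain ⟨S', F, hF0, hFF, hKF, hvF⟩ := rational_of_nef v₀ (by rw [hv1]; exact hb) hent hs1.summable
    (by rw [hs2.tsum_eq, hv1]; linarith) (by rw [hs1.tsum_eq, hv1, wsum]; linarith) hN₀
  set g : ℝ := (3 * v₀.1 - ∑' i, v₀.2 i) / 2 with hg
  have hg0 : 0 < g := by
    rw [hg, hs1.tsum_eq, hv1, wsum]; linarith
  have hF1 : v₀.1 = g * (F.1 : ℝ) := by rw [hvF]; simp [toR]
  have hF2 : ∀ i, v₀.2 i = g * (F.2 i : ℝ) := by intro i; rw [hvF]; simp [toR]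
  -- the number `n`
  set N : ℤ := F.2 (Sum.inr (m - 1)) with hN'
  have hgN : g * (N : ℝ) = 1 / q := by
    rw [← hF2]
    simp only [hv₀, vec, Sum.elim_inr]
    exact wlast
  have hNpos : 0 < N := by
    have h1 : 0 < g * (N : ℝ) := by rw [hgN]; positivity
    have h2 : (0 : ℝ) < N := by
      by_contra hcon
      push Not at hcon
      nlinarith
    exact_mod_cast h2
  obtain ⟨n, hn⟩ : ∃ n : ℕ, N = n := ⟨N.toNat, by omega⟩
  have hn0 : 0 < n := by omega
  have hnr : (0 : ℝ) < n := by exact_mod_cast hn0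
  have hgn : g = 1 / ((q : ℝ) * n) := by
    rw [hn] at hgN
    push_cast at hgN
    field_simp at hgN ⊢
    linarith
  have hF1' : (F.1 : ℝ) = q * n * b := by
    have := hF1
    rw [hv1, hgn] at this
    rw [this]; field_simp
  have hF2' : ∀ i, (F.2 i : ℝ) = q * n * v₀.2 i := by
    intro i
    rw [hF2 i, hgn]; field_simp
  have hFU : ∀ u, (F.2 (Sum.inl u) : ℝ) = q * n * β u := by
    intro u
    rw [hF2']
    simp [hv₀, vec]
  have hFN : ∀ i, (F.2 (Sum.inr i) : ℝ) = q * n * wt 1 ((p : ℝ) / q) i := by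
    intro i
    rw [hF2']
    simp [hv₀, vec]
  -- the support
  set S : Finset (U ⊕ ℕ) := S'.filter (fun i => F.2 i ≠ 0) with hSdef
  have hS : ∀ i, i ∈ S ↔ F.2 i ≠ 0 := by
    intro i
    rw [hSdef, Finset.mem_filter]
    constructor
    · exact fun h => h.2
    · intro h
      refine ⟨?_, h⟩
      by_contra hc
      exact h (hF0 i hc)
  have hBS : Bf S F F = 0 := by
    rw [← hFF]
    simp only [Bf]
    congr 1
    apply Finset.sum_filter_of_ne
    intro i _ h h0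
    exact h (by rw [h0]; ring)
  have hKS : Kd S F = 2 := by
    rw [← hKF]
    simp only [Kd]
    congr 1
    apply Finset.sum_filter_of_ne
    intro i _ h h0
    exact h h0
  have hNF : Nef (toR F) := by
    have : toR F = ((q : ℝ) * n) • v₀ := by
      ext i
      · simp only [toR, Prod.smul_fst, smul_eq_mul, hF1', hv1]
      · simp only [toR, Prod.smul_snd, Pi.smul_apply, smul_eq_mul, hF2']
    rw [this]
    exact nef_smul _ (by positivity) _ hN₀
  obtain ⟨w, hw, i₁, hi₁, hact⟩ := exists_word S F (fun i hi => by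
    rw [hS, not_not] at hi; exact hi) hBS hKS hNF
  refine ⟨m, ω, γ, ε₀, n, S, F, w, i₁, ⟨hb, hβ, hN, hN₀, hq, hqp, hcop, hs, hm, hε₀, hγ0, hγq, w0, wpos,
    wlast, wsq, wsum, wω, ωsq, ωlast, near, cl, hn0, hF1', hFU, hFN, hS, hBS, hKS, ?_, hw, hi₁, hact⟩⟩
  -- the volume
  have hmem : ∀ i, (Sum.inr i : U ⊕ ℕ) ∈ S ↔ i < m := by
    intro i
    rw [hS]
    constructor
    · intro h
      by_contra hi
      apply h
      have := hFN i
      rw [w0 i (by omega), mul_zero] at this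
      exact_mod_cast this
    · intro hi h
      have h1 := hFN i
      rw [h] at h1
      have h2 := wpos i hi
      have : 0 < (q : ℝ) * n * wt 1 ((p : ℝ) / q) i := by positivity
      rw [← h1] at this
      simp at this
  have hB1 : (Bf S F F : ℤ) = 0 := hBS
  have hB2 : Bf S (toR F) (toR F) = 0 := by rw [Bf_toR, hB1]; simp
  have hsplit : ∀ f : U ⊕ ℕ → ℝ,
      ∑ i ∈ S, f i = ∑ i ∈ S.filter (fun i => i.isLeft), f i + ∑ i ∈ Finset.range m, f (Sum.inr i) := by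
    intro f
    rw [← Finset.sum_filter_add_sum_filter_not S (fun i => i.isLeft)]
    congr 1
    have : S.filter (fun i => ¬ (i.isLeft = true)) = (Finset.range m).image Sum.inr := by
      ext i
      simp only [Finset.mem_filter, Finset.mem_image, Finset.mem_range]
      rcases i with u | i
      · simp
      · simp [hmem i]
    rw [this, Finset.sum_image (by intro a _ b _ h; exact Sum.inr_injective h)]
  simp only [Bf, toR, hF1', hF2'] at hB2
  have e1 : ∑ i ∈ S, (q : ℝ) * n * v₀.2 i * (q * n * v₀.2 i) = (q * n) ^ 2 * ∑ i ∈ S, v₀.2 i ^ 2 := by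
    rw [Finset.mul_sum]; exact Finset.sum_congr rfl (fun i _ => by ring)
  rw [e1] at hB2
  have e2 : b ^ 2 = ∑ i ∈ S, v₀.2 i ^ 2 := by
    have : ((q : ℝ) * n) ^ 2 * (b ^ 2 - ∑ i ∈ S, v₀.2 i ^ 2) = 0 := by linarith
    rcases mul_eq_zero.mp this with h | h
    · exact absurd h (by positivity)
    · linarith
  rw [hsplit] at e2
  have e3 : ∑ i ∈ Finset.range m, v₀.2 (Sum.inr i) ^ 2 = (p : ℝ) / q := by
    rw [← wsq]; rfl
  rw [e3] at e2
  simp only [Bf, Bv]
  rw [hsplit]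
  have e4 : ∑ i ∈ S.filter (fun i => i.isLeft), (Sum.elim β 0 : U ⊕ ℕ → ℝ) i * (Sum.elim β 0 : U ⊕ ℕ → ℝ) i
      = ∑ i ∈ S.filter (fun i => i.isLeft), v₀.2 i ^ 2 := by
    apply Finset.sum_congr rfl
    intro i hi
    rcases i with u | i
    · simp [hv₀, vec]; ring
    · simp at hi
  rw [e4]
  simp only [Sum.elim_inr, Pi.zero_apply, mul_zero, Finset.sum_const_zero, add_zero]
  rw [← sq, e2]; ring

end Pool.Agent.Helper416_Stair
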