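import Pool.Agent.Helper416_Stair.Defs

/-!
# Upper bound to the right of an integral accumulation value
-/

noncomputable section

open scoped BigOperators Pointwise

namespace Pool.Agent.Helper416_Stair



/-
JOB M6 (helper416, MP_f690a7_gt).  Exact upper bound to the right of an integral accumulation value.

Here `(b; β)` are the weights of a target (index type `U`), normalised so that `(b; β, 1,...,1)` (`p` ones, indexed by
`Sum.inr i`, `i < p`) is `Nef` and `2 (b; β) = Q` is integral with `Q·Q = 4p`, `Kd Q = 2p + 2`.  Put `F = (Q; 2,...,2)`, so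
`F·F = 0`, `Kd F = 2`, `F` nef.  Claim: `ellCap 1 z k ≤ (1 + (z-p)/(2p)) capW b β k` for all `z ≥ p`.

Plain proof.  Let `C` be an integral class on `U` with `C.1 ≥ 0`, `I(C) ≥ 2k` (`I = idx`), `X = Q·C = 2 (b;β)·C` (an integer,
`≥ 0` by nefness).
Duality: if `I(C') ≥ 0` for an integral class `C'` on `U ⊕ ℕ` and `F·C' ≥ -1` then `C'.1 ≥ 0`.  (Otherwise `C'.1 ≤ -3` because
`I(C') = C'.1² + 3 C'.1 - ∑(m²+m)`; the class `C'' = (-3 - C'.1; -1 - m_i)` on a finite set `S ⊇ supp F` has the same index and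
`C''.1 ≥ 0`, so `0 ≤ F·C'' = -Kd F - F·C' = -2 - F·C'`.)
Claim R: `I(C) ≤ (X₁+1)(Y₁+1) - 1`, where `Y₁ = X / (2p)` (integer division), `X₁ = X - p Y₁`.  Induction on `X`.
  `X ≥ 4p`: `C' = C - Q` has `I(C') = I(C) - 2X + 2p - 2`, `Q·C' = X - 4p ≥ 0`; if `I(C') < 0` fine; else `C'.1 ≥ 0` by duality
  and the induction hypothesis gives the claim since the right side changes by the same amount.
  `0 ≤ X < 2p`: nefness gives `ellCap 1 p (I(C)/2) ≤ X/2` (see below), i.e. `#{(x,y) : x + p y ≤ X/2} ≥ I(C)/2 + 1`, and only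
  `y = 0` occurs: `I(C) ≤ 2⌊X/2⌋ ≤ X`.
  `2p ≤ X < 4p`: now `y ∈ {0,1}`: `I(C) ≤ 4⌊X/2⌋ - 2p + 2`; this is enough unless `X` is even and `I(C) ≥ 2X - 2p + 2`.  In
  that case take `n_i ∈ {1,2}` (`i < p`) with `∑ n_i = X/2`; then `I(C; n) = I(C) - (2X - 2p) ≥ 2`, and `E = (C; n) - F` has
  `F·E = 0`, `I(E) = I(C;n) - 2 ≥ 0`, so `E.1 ≥ 0` by duality, so `(b;β)·(C - Q) ≥ 0` (nefness applied to the `U`-part of `E`,
  whose index is `≥ I(E)`), i.e. `X ≥ 4p`, a contradiction.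
Nefness in the form used: for `n : Fin p → ℕ` (or `ℕ → ℕ`) with `∑ (n_i² + n_i) ≤ I(C)` we have `∑_{i<p} n_i ≤ (b;β)·C = X/2`.
So for `0 ≤ X < 4p` you can avoid `ellCap`: choose the `n_i` equal to 0/1 (first `⌊X/2⌋+1` of them, if `⌊X/2⌋ + 1 ≤ p`), or 1/2,
to get the stated bounds directly.
Half rectangle: let `z ≥ p`, `L = (1 + (z-p)/(2p)) X/2`.  The lattice points of `[0,X₁]×[0,Y₁]` are symmetric about the centre and
the centre satisfies `X₁/2 + z Y₁/2 ≤ L` (because `X₁ + p Y₁ = X` and `Y₁ ≤ X/(2p)`), so at least half of the `(X₁+1)(Y₁+1)`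
points satisfy `x + z y ≤ L`; hence `latCount 1 z L ≥ ⌈(X₁+1)(Y₁+1)/2⌉ ≥ I(C)/2 + 1 ≥ k+1` and `ellCap 1 z k ≤ L`.  Take the
infimum over `C` (the defining set of `capW` is nonempty).
-/

section M6
variable {U : Type*}

theorem m6_nef (b : ℝ) (β : U → ℝ) (p : ℕ)
    (hN : Nef ((b, Sum.elim β (fun i : ℕ => if i < p then (1 : ℝ) else 0)) : ℝ × (U ⊕ ℕ → ℝ)))
    (Q : ℤ × (U → ℤ)) (hQ1 : (Q.1 : ℝ) = 2 * b) (hQ2 : ∀ u, (Q.2 u : ℝ) = 2 * β u)
    (S : Finset U) (C : ℤ × (U → ℤ)) (n : ℕ → ℤ) (h0 : 0 ≤ C.1)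
    (h1 : 0 ≤ idx S C - ∑ i ∈ Finset.range p, (n i ^ 2 + n i)) :
    0 ≤ Bf S Q C - 2 * ∑ i ∈ Finset.range p, n i := by
  have h := hN (S.disjSum (Finset.range p)) (C.1, Sum.elim C.2 n) h0 (by
    have e : idx (S.disjSum (Finset.range p)) ((C.1, Sum.elim C.2 n) : ℤ × (U ⊕ ℕ → ℤ))
        = idx S C - ∑ i ∈ Finset.range p, (n i ^ 2 + n i) := by
      simp only [idx, Bf, Kd, Finset.sum_disjSum, Sum.elim_inl, Sum.elim_inr,
        Finset.sum_add_distrib]
      have : ∑ i ∈ Finset.range p, n i * n i = ∑ i ∈ Finset.range p, n i ^ 2 :=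
        Finset.sum_congr rfl fun i _ => by ring
      rw [this]
      ring
    rw [e]
    exact h1)
  have e2 : Bf (S.disjSum (Finset.range p)) ((b, Sum.elim β (fun i : ℕ => if i < p then (1 : ℝ) else 0)) :
      ℝ × (U ⊕ ℕ → ℝ)) (toR (C.1, Sum.elim C.2 n))
      = ((Bf S Q C - 2 * ∑ i ∈ Finset.range p, n i : ℤ) : ℝ) / 2 := by
    simp only [Bf, toR, Finset.sum_disjSum, Sum.elim_inl, Sum.elim_inr]
    push_cast
    rw [hQ1]
    have a1 : ∑ x ∈ S, (Q.2 x : ℝ) * (C.2 x : ℝ) = 2 * ∑ x ∈ S, β x * (C.2 x : ℝ) := by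
      rw [Finset.mul_sum]
      exact Finset.sum_congr rfl fun i _ => by rw [hQ2]; ring
    have a2 : ∑ x ∈ Finset.range p, (if x < p then (1 : ℝ) else 0) * (n x : ℝ)
        = ∑ x ∈ Finset.range p, (n x : ℝ) := by
      refine Finset.sum_congr rfl fun i hi => ?_
      rw [if_pos (Finset.mem_range.1 hi), one_mul]
    rw [a1, a2]
    ring
  rw [e2] at h
  have h3 : (0 : ℝ) ≤ ((Bf S Q C - 2 * ∑ i ∈ Finset.range p, n i : ℤ) : ℝ) := by linarith
  exact_mod_cast h3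

theorem m6_dual (b : ℝ) (β : U → ℝ) (p : ℕ)
    (hN : Nef ((b, Sum.elim β (fun i : ℕ => if i < p then (1 : ℝ) else 0)) : ℝ × (U ⊕ ℕ → ℝ)))
    (Q : ℤ × (U → ℤ)) (hQ1 : (Q.1 : ℝ) = 2 * b) (hQ2 : ∀ u, (Q.2 u : ℝ) = 2 * β u)
    (S : Finset U) (hK : Kd S Q = 2 * p + 2) (C : ℤ × (U → ℤ)) (n : ℕ → ℤ)
    (h1 : 0 ≤ idx S C - ∑ i ∈ Finset.range p, (n i ^ 2 + n i))
    (h2 : -1 ≤ Bf S Q C - 2 * ∑ i ∈ Finset.range p, n i) : 0 ≤ C.1 := by
  by_contra hneg
  push Not at hneg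
  have hm : ∀ m : ℤ, 0 ≤ m ^ 2 + m := by
    intro m
    rcases le_or_gt 0 m with h | h
    · positivity
    · nlinarith
  have hs1 : 0 ≤ ∑ i ∈ Finset.range p, (n i ^ 2 + n i) := Finset.sum_nonneg fun i _ => hm _
  have hs2 : 0 ≤ ∑ i ∈ S, (C.2 i ^ 2 + C.2 i) := Finset.sum_nonneg fun i _ => hm _
  have hidx : idx S C = C.1 ^ 2 + 3 * C.1 - ∑ i ∈ S, (C.2 i ^ 2 + C.2 i) := by
    simp only [idx, Bf, Kd, Finset.sum_add_distrib]
    have : ∑ i ∈ S, C.2 i * C.2 i = ∑ i ∈ S, C.2 i ^ 2 := Finset.sum_congr rfl fun i _ => by ring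
    rw [this]
    ring
  have h3 : C.1 ≤ -3 := by
    by_contra hc
    push Not at hc
    have : C.1 = -1 ∨ C.1 = -2 := by omega
    rcases this with h | h <;> rw [hidx, h] at h1 <;> linarith
  have hidx2 : idx S ((-3 - C.1, fun u => -1 - C.2 u) : ℤ × (U → ℤ)) = idx S C := by
    simp only [idx, Bf, Kd]
    have : ∑ i ∈ S, (-1 - C.2 i) * (-1 - C.2 i) + ∑ i ∈ S, (-1 - C.2 i)
        = ∑ i ∈ S, C.2 i * C.2 i + ∑ i ∈ S, C.2 i := by
      rw [← Finset.sum_add_distrib, ← Finset.sum_add_distrib]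
      exact Finset.sum_congr rfl fun i _ => by ring
    linear_combination -this
  have hn2 : ∑ i ∈ Finset.range p, ((-1 - n i) ^ 2 + (-1 - n i))
      = ∑ i ∈ Finset.range p, (n i ^ 2 + n i) := Finset.sum_congr rfl fun i _ => by ring
  have h4 := m6_nef b β p hN Q hQ1 hQ2 S (-3 - C.1, fun u => -1 - C.2 u) (fun i => -1 - n i)
    (by show 0 ≤ -3 - C.1; linarith) (by rw [hidx2, hn2]; exact h1)
  have h5 : Bf S Q ((-3 - C.1, fun u => -1 - C.2 u) : ℤ × (U → ℤ)) = - Kd S Q - Bf S Q C := by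
    simp only [Bf, Kd]
    have : ∑ i ∈ S, Q.2 i * (-1 - C.2 i) = - ∑ i ∈ S, Q.2 i - ∑ i ∈ S, Q.2 i * C.2 i := by
      rw [← Finset.sum_neg_distrib, ← Finset.sum_sub_distrib]
      exact Finset.sum_congr rfl fun i _ => by ring
    rw [this]
    ring
  have h6 : ∑ i ∈ Finset.range p, (-1 - n i) = - (p : ℤ) - ∑ i ∈ Finset.range p, n i := by
    rw [Finset.sum_sub_distrib]
    simp
  rw [h5, h6, hK] at h4
  linarith

theorem m6_sum (p M : ℕ) (h : M ≤ p) (a b : ℤ) :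
    ∑ i ∈ Finset.range p, (if i < M then a else b) = M * a + (p - M) * b := by
  obtain ⟨r, rfl⟩ := Nat.exists_eq_add_of_le h
  rw [Finset.sum_range_add]
  have e1 : ∑ i ∈ Finset.range M, (if i < M then a else b) = M * a := by
    rw [Finset.sum_congr rfl (fun i hi => if_pos (Finset.mem_range.1 hi))]
    simp
  have e2 : ∑ i ∈ Finset.range r, (if M + i < M then a else b) = r * b := by
    rw [Finset.sum_congr rfl (fun i _ => if_neg (by omega : ¬ (M + i < M)))]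
    simp
  rw [e1, e2]
  push_cast
  ring

theorem m6_ite_sum (p M : ℕ) (a b : ℤ) :
    ∑ i ∈ Finset.range p, ((if i < M then a else b) ^ 2 + (if i < M then a else b))
      = ∑ i ∈ Finset.range p, (if i < M then (a ^ 2 + a) else (b ^ 2 + b)) := by
  refine Finset.sum_congr rfl fun i _ => ?_
  split_ifs <;> rfl

theorem m6_idx_sub (Q : ℤ × (U → ℤ)) (S : Finset U) (C : ℤ × (U → ℤ)) :
    idx S (C - Q) = idx S C - 2 * Bf S Q C + Bf S Q Q - Kd S Q := by
  simp only [idx, Bf, Kd, Prod.fst_sub, Prod.snd_sub, Pi.sub_apply]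
  have : ∑ i ∈ S, (C.2 i - Q.2 i) * (C.2 i - Q.2 i)
      = ∑ i ∈ S, C.2 i * C.2 i - 2 * ∑ i ∈ S, Q.2 i * C.2 i + ∑ i ∈ S, Q.2 i * Q.2 i := by
    rw [Finset.mul_sum, ← Finset.sum_sub_distrib, ← Finset.sum_add_distrib]
    exact Finset.sum_congr rfl fun i _ => by ring
  rw [this, Finset.sum_sub_distrib]
  ring

theorem m6_Bf_sub (Q : ℤ × (U → ℤ)) (S : Finset U) (C : ℤ × (U → ℤ)) :
    Bf S Q (C - Q) = Bf S Q C - Bf S Q Q := by
  simp only [Bf, Prod.fst_sub, Prod.snd_sub, Pi.sub_apply, mul_sub, Finset.sum_sub_distrib]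
  ring

/-- Claim R -/
theorem m6_claim (b : ℝ) (β : U → ℝ) (p : ℕ) (hp : 0 < p)
    (hN : Nef ((b, Sum.elim β (fun i : ℕ => if i < p then (1 : ℝ) else 0)) : ℝ × (U ⊕ ℕ → ℝ)))
    (Q : ℤ × (U → ℤ)) (hQ1 : (Q.1 : ℝ) = 2 * b) (hQ2 : ∀ u, (Q.2 u : ℝ) = 2 * β u)
    (S : Finset U) (hnull : Bf S Q Q = 4 * p) (hK : Kd S Q = 2 * p + 2) (q : ℕ) :
    ∀ (C : ℤ × (U → ℤ)) (k : ℤ), 0 ≤ C.1 → 0 ≤ idx S C → 2 * k ≤ idx S C →
      Bf S Q C < 4 * p * (q + 1) → ∀ Y : ℤ, 2 * p * Y ≤ Bf S Q C → Bf S Q C < 2 * p * (Y + 1) →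
      0 ≤ Y ∧ 0 ≤ Bf S Q C - p * Y ∧ 2 * k + 1 ≤ (Bf S Q C - p * Y + 1) * (Y + 1) := by
  have hpz : (0 : ℤ) < p := by exact_mod_cast hp
  -- the nonnegativity part
  have hX0 : ∀ C : ℤ × (U → ℤ), 0 ≤ C.1 → 0 ≤ idx S C → 0 ≤ Bf S Q C := by
    intro C h0 h1
    have := m6_nef b β p hN Q hQ1 hQ2 S C (fun _ => 0) h0 (by simpa using h1)
    simpa using this
  have hY0 : ∀ X Y : ℤ, 0 ≤ X → 2 * p * Y ≤ X → X < 2 * p * (Y + 1) → 0 ≤ Y ∧ 0 ≤ X - p * Y := by
    intro X Y h0 h1 h2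
    have hY : 0 ≤ Y := by
      by_contra hc
      push Not at hc
      have : Y + 1 ≤ 0 := by omega
      nlinarith
    refine ⟨hY, ?_⟩
    nlinarith
  induction q with
  | zero =>
    intro C k h0 h1 h2 h3 Y h4 h5
    have hX := hX0 C h0 h1
    obtain ⟨hYn, hXn⟩ := hY0 _ Y hX h4 h5
    refine ⟨hYn, hXn, ?_⟩
    have h3' : Bf S Q C < 4 * p := by simpa using h3
    have hY2 : Y = 0 ∨ Y = 1 := by
      have : Y < 2 := by
        by_contra hc
        push Not at hc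
        nlinarith
      omega
    set X := Bf S Q C with hXdef
    rcases hY2 with rfl | rfl
    · -- X < 2p
      have h5' : X < 2 * p := by linarith
      by_contra hcon
      push Not at hcon
      have hcon' : X + 1 < 2 * k + 1 := by linarith
      obtain ⟨N, hN'⟩ : ∃ N : ℕ, (N : ℤ) = X / 2 + 1 := ⟨(X / 2 + 1).toNat, by omega⟩
      have hNp : N ≤ p := by omega
      have hnef := m6_nef b β p hN Q hQ1 hQ2 S C (fun i => if i < N then 1 else 0) h0 (by
        rw [m6_ite_sum, m6_sum p N hNp]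
        have : (2 : ℤ) * N ≤ idx S C := by omega
        linarith)
      rw [m6_sum p N hNp, ← hXdef] at hnef
      omega
    · -- 2p ≤ X < 4p
      by_contra hcon
      push Not at hcon
      have h4' : 2 * p ≤ X := by linarith
      have hcon' : 2 * X - 2 * p + 2 < 2 * k + 1 := by linarith
      obtain ⟨M, hM⟩ : ∃ M : ℕ, (M : ℤ) = (X + 1) / 2 - p := ⟨((X + 1) / 2 - p).toNat, by omega⟩
      have hMp : M ≤ p := by omega
      have hd := m6_dual b β p hN Q hQ1 hQ2 S hK (C - Q) (fun i => if i < M then 0 else -1) (by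
        rw [m6_ite_sum, m6_sum p M hMp, m6_idx_sub, hnull, hK, ← hXdef]
        simp
        omega) (by
        rw [m6_sum p M hMp, m6_Bf_sub, hnull, ← hXdef]
        omega)
      have hi : 0 ≤ idx S (C - Q) := by
        rw [m6_idx_sub, hnull, hK, ← hXdef]
        omega
      have := hX0 (C - Q) hd hi
      rw [m6_Bf_sub, hnull, ← hXdef] at this
      omega
  | succ q ih =>
    intro C k h0 h1 h2 h3 Y h4 h5
    have hX := hX0 C h0 h1
    obtain ⟨hYn, hXn⟩ := hY0 _ Y hX h4 h5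
    refine ⟨hYn, hXn, ?_⟩
    by_cases hlt : Bf S Q C < 4 * p * (q + 1)
    · exact (ih C k h0 h1 h2 hlt Y h4 h5).2.2
    · push Not at hlt
      have hX4 : 4 * (p : ℤ) ≤ Bf S Q C := by nlinarith
      have hBs : Bf S Q (C - Q) = Bf S Q C - 4 * p := by rw [m6_Bf_sub, hnull]
      have his : idx S (C - Q) = idx S C - 2 * Bf S Q C + 2 * p - 2 := by
        rw [m6_idx_sub, hnull, hK]; ring
      obtain ⟨hYn', hXn'⟩ := hY0 (Bf S Q (C - Q)) (Y - 2) (by rw [hBs]; linarith)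
        (by rw [hBs]; linarith) (by rw [hBs]; linarith)
      by_cases hneg : idx S (C - Q) < 0
      · have : 0 ≤ (Bf S Q (C - Q) - p * (Y - 2)) * (Y - 2) := mul_nonneg hXn' hYn'
        rw [hBs] at this hXn'
        nlinarith
      · push Not at hneg
        have hd := m6_dual b β p hN Q hQ1 hQ2 S hK (C - Q) (fun _ => 0) (by simpa using hneg) (by
          rw [hBs]; simp; linarith)
        have := (ih (C - Q) (k - Bf S Q C + p - 1) hd hneg (by rw [his]; linarith)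
          (by rw [hBs]; push_cast at h3; linarith) (Y - 2) (by rw [hBs]; linarith)
          (by rw [hBs]; linarith)).2.2
        rw [hBs] at this
        nlinarith

end M6

theorem m6_finite (z L : ℝ) (hz : 0 < z) :
    {p : ℕ × ℕ | (p.1 : ℝ) * 1 + (p.2 : ℝ) * z ≤ L}.Finite := by
  refine Set.Finite.subset
    ((Finset.range (⌊L⌋₊ + 1) ×ˢ Finset.range (⌊L / z⌋₊ + 1) : Finset (ℕ × ℕ)) : Set (ℕ × ℕ)).toFinite ?_
  rintro ⟨x, y⟩ hxy
  have h : (x : ℝ) * 1 + (y : ℝ) * z ≤ L := hxy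
  have hx : (0 : ℝ) ≤ x := Nat.cast_nonneg x
  have hy : (0 : ℝ) ≤ y := Nat.cast_nonneg y
  have h1 : (x : ℝ) ≤ L := by nlinarith [mul_nonneg hy hz.le]
  have h2 : (y : ℝ) ≤ L / z := by
    rw [le_div_iff₀ hz]
    linarith
  simp only [Finset.coe_product, Set.mem_prod, Finset.mem_coe, Finset.mem_range]
  exact ⟨Nat.lt_succ_of_le (Nat.le_floor h1), Nat.lt_succ_of_le (Nat.le_floor h2)⟩

theorem m6_half (a c k : ℕ) (z L : ℝ) (hz : 0 < z) (hL : (a : ℝ) + z * c ≤ 2 * L)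
    (hk : 2 * k + 1 ≤ (a + 1) * (c + 1)) : k + 1 ≤ latCount 1 z L := by
  classical
  set P : ℕ × ℕ → Prop := fun p => (p.1 : ℝ) * 1 + (p.2 : ℝ) * z ≤ L with hP
  set R : Finset (ℕ × ℕ) := Finset.range (a + 1) ×ˢ Finset.range (c + 1) with hR
  have hcard : (R.filter P).card + (R.filter (fun p => ¬ P p)).card = (a + 1) * (c + 1) := by
    rw [Finset.card_filter_add_card_filter_not, hR, Finset.card_product, Finset.card_range,
      Finset.card_range]
  have hle : (R.filter (fun p => ¬ P p)).card ≤ (R.filter P).card := by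
    apply Finset.card_le_card_of_injOn (fun p => (a - p.1, c - p.2))
    · rintro ⟨x, y⟩ hxy
      rw [Finset.mem_coe, Finset.mem_filter] at hxy
      obtain ⟨hxy, hn⟩ := hxy
      rw [hR, Finset.mem_product, Finset.mem_range, Finset.mem_range] at hxy
      have hx : x ≤ a := by have := hxy.1; simp only at this; omega
      have hy : y ≤ c := by have := hxy.2; simp only at this; omega
      rw [Finset.mem_coe, Finset.mem_filter]
      refine ⟨?_, ?_⟩
      · rw [hR, Finset.mem_product, Finset.mem_range, Finset.mem_range]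
        constructor <;> simp only <;> omega
      · rw [hP] at hn ⊢
        simp only at hn ⊢
        rw [Nat.cast_sub hx, Nat.cast_sub hy]
        push Not at hn
        nlinarith
    · rintro ⟨x, y⟩ hxy ⟨x', y'⟩ hxy' heq
      rw [Finset.mem_coe, Finset.mem_filter, hR, Finset.mem_product, Finset.mem_range,
        Finset.mem_range] at hxy hxy'
      simp only [Prod.mk.injEq] at heq hxy hxy' ⊢
      omega
  have hA : k + 1 ≤ (R.filter P).card := by omega
  refine hA.trans ?_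
  rw [latCount, ← Set.ncard_coe_finset]
  apply Set.ncard_le_ncard _ (m6_finite z L hz)
  intro p hp
  rw [Finset.mem_coe, Finset.mem_filter] at hp
  exact hp.2

/-- TARGET -/
theorem specialUpper {U : Type*} [DecidableEq U] (b : ℝ) (β : U → ℝ) (p : ℕ) (hp : 0 < p)
    (hβ : ∀ u, 0 ≤ β u)
    (hN : Nef ((b, Sum.elim β (fun i : ℕ => if i < p then (1 : ℝ) else 0)) : ℝ × (U ⊕ ℕ → ℝ)))
    (Q : ℤ × (U → ℤ)) (hQ1 : (Q.1 : ℝ) = 2 * b) (hQ2 : ∀ u, (Q.2 u : ℝ) = 2 * β u)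
    (SQ : Finset U) (hSQ : ∀ u ∉ SQ, Q.2 u = 0)
    (hnull : Bf SQ Q Q = 4 * p) (hK : Kd SQ Q = 2 * p + 2) (z : ℝ) (hz : (p : ℝ) ≤ z) (k : ℕ) :
    ellCap 1 z k ≤ (1 + (z - p) / (2 * p)) * capW b β k := by
  have hpr : (0 : ℝ) < p := by exact_mod_cast hp
  have hc : 0 < 1 + (z - p) / (2 * p) := by
    have : 0 ≤ (z - p) / (2 * p) := div_nonneg (by linarith) (by linarith)
    linarith
  have hpz : (0 : ℤ) < p := by exact_mod_cast hp
  set A : Set ℝ := {L : ℝ | ∃ (S : Finset U) (C : ℤ × (U → ℤ)), 0 ≤ C.1 ∧ 2 * (k : ℤ) ≤ idx S C ∧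
    L = Bf S (b, β) (toR C)} with hA
  have hne : A.Nonempty := by
    refine ⟨_, ∅, ((k : ℤ), fun _ => 0), by simp, ?_, rfl⟩
    simp only [idx, Bf, Kd, Finset.sum_empty]
    have : (0 : ℤ) ≤ k := Int.natCast_nonneg k
    nlinarith
  have key : ∀ L ∈ A, ellCap 1 z k ≤ (1 + (z - p) / (2 * p)) * L := by
    rintro L ⟨S₀, C₀, h0, h1, rfl⟩
    -- pass to a large set
    set S : Finset U := S₀ ∪ SQ with hS
    set C : ℤ × (U → ℤ) := (C₀.1, fun u => if u ∈ S₀ then C₀.2 u else 0) with hC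
    have hsum : ∀ (R : Type) [CommRing R] (f : U → R), (∀ u ∉ S₀, f u = 0) →
        ∑ u ∈ S, f u = ∑ u ∈ S₀, f u := by
      intro R _ f hf
      symm
      apply Finset.sum_subset Finset.subset_union_left
      intro u _ hu
      exact hf u hu
    have hidx : idx S C = idx S₀ C₀ := by
      simp only [idx, Bf, Kd, hC]
      rw [hsum ℤ _ (fun u hu => by simp [hu]), hsum ℤ _ (fun u hu => by simp [hu])]
      have e1 : ∑ u ∈ S₀, (if u ∈ S₀ then C₀.2 u else 0) * (if u ∈ S₀ then C₀.2 u else 0)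
          = ∑ u ∈ S₀, C₀.2 u * C₀.2 u := Finset.sum_congr rfl fun u hu => by simp [hu]
      have e2 : ∑ u ∈ S₀, (if u ∈ S₀ then C₀.2 u else 0) = ∑ u ∈ S₀, C₀.2 u :=
        Finset.sum_congr rfl fun u hu => by simp [hu]
      rw [e1, e2]
    have hsumQ : ∀ f : U → ℤ, (∀ u ∉ SQ, f u = 0) → ∑ u ∈ S, f u = ∑ u ∈ SQ, f u := by
      intro f hf
      symm
      apply Finset.sum_subset Finset.subset_union_right
      intro u _ hu
      exact hf u hu
    have hnull' : Bf S Q Q = 4 * p := by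
      rw [← hnull]
      simp only [Bf]
      rw [hsumQ _ (fun u hu => by simp [hSQ u hu])]
    have hK' : Kd S Q = 2 * p + 2 := by
      rw [← hK]
      simp only [Kd]
      rw [hsumQ _ (fun u hu => hSQ u hu)]
    have hBf : Bf S₀ (b, β) (toR C₀) = ((Bf S Q C : ℤ) : ℝ) / 2 := by
      have e0 : Bf S Q C = Bf S₀ Q C₀ := by
        simp only [Bf, hC]
        rw [hsum ℤ _ (fun u hu => by simp [hu])]
        have e1 : ∑ u ∈ S₀, Q.2 u * (if u ∈ S₀ then C₀.2 u else 0)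
          = ∑ u ∈ S₀, Q.2 u * C₀.2 u := Finset.sum_congr rfl fun u hu => by simp [hu]
        rw [e1]
      rw [e0]
      simp only [Bf, toR]
      push_cast
      rw [hQ1]
      have a1 : ∑ x ∈ S₀, (Q.2 x : ℝ) * (C₀.2 x : ℝ) = 2 * ∑ x ∈ S₀, β x * (C₀.2 x : ℝ) := by
        rw [Finset.mul_sum]
        exact Finset.sum_congr rfl fun i _ => by rw [hQ2]; ring
      rw [a1]
      ring
    have h1' : 0 ≤ idx S C := by
      rw [hidx]
      have : (0 : ℤ) ≤ k := Int.natCast_nonneg k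
      linarith
    have hX : 0 ≤ Bf S Q C := by
      have := m6_nef b β p hN Q hQ1 hQ2 S C (fun _ => 0) h0 (by simpa using h1')
      simpa using this
    set X := Bf S Q C with hXdef
    have h2p : (0 : ℤ) < 2 * p := by linarith
    have hY1 : 2 * (p : ℤ) * (X / (2 * p)) ≤ X := Int.mul_ediv_self_le h2p.ne'
    have hY2 : X < 2 * (p : ℤ) * (X / (2 * p) + 1) := by
      have h := Int.lt_mul_ediv_self_add (x := X) h2p
      rw [mul_add, mul_one]
      exact h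
    set Y := X / (2 * p) with hYdef
    have hq : X < 4 * p * ((X.toNat : ℤ) + 1) := by
      rw [Int.toNat_of_nonneg hX]
      nlinarith
    obtain ⟨hYn, hXn, hcl⟩ := m6_claim b β p hp hN Q hQ1 hQ2 S hnull' hK' X.toNat C k h0 h1'
      (by rw [hidx]; exact h1) hq Y hY1 hY2
    obtain ⟨a, ha⟩ := Int.eq_ofNat_of_zero_le hXn
    obtain ⟨c, hc'⟩ := Int.eq_ofNat_of_zero_le hYn
    rw [← hXdef] at ha hcl
    have haR : (a : ℝ) = (X : ℝ) - p * (c : ℝ) := by
      have : (a : ℤ) = X - p * c := by rw [← hc', ← ha]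
      exact_mod_cast this
    have hk' : 2 * k + 1 ≤ (a + 1) * (c + 1) := by
      rw [ha, hc'] at hcl
      exact_mod_cast hcl
    have hcX : 2 * (p : ℝ) * c ≤ X := by
      rw [hc'] at hY1
      exact_mod_cast hY1
    have hXR : (0 : ℝ) ≤ X := by exact_mod_cast hX
    rw [hBf]
    set L : ℝ := (1 + (z - p) / (2 * p)) * ((X : ℝ) / 2) with hL
    have hL2 : (a : ℝ) + z * c ≤ 2 * L := by
      rw [haR, hL]
      have e : 2 * ((1 + (z - p) / (2 * p)) * ((X : ℝ) / 2)) = X + (z - p) * (X / (2 * p)) := by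
        field_simp
      rw [e]
      have h7 : (c : ℝ) ≤ X / (2 * p) := by
        rw [le_div_iff₀ (by linarith)]
        linarith
      nlinarith
    have hlat := m6_half a c k z L (by linarith) hL2 hk'
    apply csInf_le ⟨0, fun L hL => hL.1⟩
    refine ⟨?_, hlat⟩
    rw [hL]
    positivity
  have h2 : ellCap 1 z k / (1 + (z - p) / (2 * p)) ≤ sInf A := by
    apply le_csInf hne
    intro L hL
    rw [div_le_iff₀ hc, mul_comm]
    exact key L hL
  rw [div_le_iff₀ hc, mul_comm] at h2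
  exact h2


end Pool.Agent.Helper416_Stair
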