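import Pool.Agent.Helper416_Stair.LocLem
import Pool.Agent.Helper416_Stair.Glue
import Pool.Agent.Helper416_Stair.M6

/-!
# Upper bound in a special case
-/

noncomputable section

open scoped BigOperators Pointwise

namespace Pool.Agent.Helper416_Stair





section Word

variable {ι : Type*} [DecidableEq ι] {R : Type*} [CommRing R]





























end Word









section Given

variable {U : Type*} [DecidableEq U] {b : ℝ} {β : U → ℝ} {p q : ℕ} {s : ℤ} {m : ℕ}
    {ω : ℕ → ℤ} {γ : ℤ} {ε₀ : ℝ} {n : ℕ} {S : Finset (U ⊕ ℕ)} {F : ℤ × (U ⊕ ℕ → ℤ)}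
    {w : List ((U ⊕ ℕ) × (U ⊕ ℕ) × (U ⊕ ℕ))} {i₁ : U ⊕ ℕ}







end Given


/-
JOB M5-SPEC (helper416, MP_f690a7_gt).  Upper bound in the case `n = 2`, `q = 1`, `s = 1`.

Plain proof.  Here `z₀ = p`, `F = 2 vec b β 1 p` (entries of `L.F1`, `L.FU`, `L.FN` with `q = 1`, `n = 2`).
(0) `wt 1 p i = 1` for `i < p`, `0` for `i ≥ p`: `stE 1 p i = (1, p - i)` for `i ≤ p`, and `(1, 0)` afterwards (`stepE (1, 0) = (1, 0)`).
    So `vec b β 1 (p / 1) = (b, Sum.elim β (fun i => if i < p then 1 else 0))`, which is nef by `L.hN₀`.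
(1) Apply `specialUpper` (given) with `Q = (F.1, fun u => F.2 (inl u))`, `SQ = {u | inl u ∈ S}` (as a Finset, e.g.
    `S.preimage Sum.inl _`).  `Q.1 = 2 b`, `Q.2 u = 2 β u`, `Q.2 u = 0` off `SQ` by `L.hS`.  `Bf SQ Q Q = 4 (b² - ∑ β²) = 4 p` by
    `L.hvol` (cast to ℝ), `Kd SQ Q = Kd S F + ∑_{inr i ∈ S} F.2 (inr i) = 2 + 2 p`.
(2) `bridge` (given, first part) turns `ellCap 1 z k ≤ (1 + (z - p)/(2p)) capW b β k` for all `k` into the claim (`z = p + ε`).
-/





lemma stE_int (p : ℕ) (i : ℕ) (hi : i ≤ p) : stE 1 (p : ℝ) i = (1, (p : ℝ) - i) := by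
  induction i with
  | zero => simp [stE]
  | succ i ih =>
    have h1 := ih (by omega)
    unfold stE at h1 ⊢
    rw [Function.iterate_succ_apply', h1]
    have h2 : (1 : ℝ) ≤ (p : ℝ) - i := by
      have : ((i + 1 : ℕ) : ℝ) ≤ p := by exact_mod_cast hi
      push_cast at this; linarith
    simp only [stepE, if_pos h2]
    push_cast
    ring_nf

lemma stE_int' (p : ℕ) (i : ℕ) (hi : p ≤ i) : stE 1 (p : ℝ) i = (1, 0) := by
  induction i, hi using Nat.le_induction with
  | base => rw [stE_int p p le_rfl]; simp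
  | succ i hi ih =>
    unfold stE at ih ⊢
    rw [Function.iterate_succ_apply', ih]
    simp [stepE]

lemma wt_int (p : ℕ) (i : ℕ) : wt 1 (p : ℝ) i = if i < p then 1 else 0 := by
  split_ifs with h
  · rw [wt, stE_int p i h.le]
    have : ((i + 1 : ℕ) : ℝ) ≤ p := by exact_mod_cast h
    push_cast at this
    exact min_eq_left (by linarith)
  · rw [wt, stE_int' p i (by omega)]
    simp

/-- TARGET -/
theorem loc_special {U : Type*} [DecidableEq U] {b : ℝ} {β : U → ℝ} {p : ℕ} {m : ℕ}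
    {ω : ℕ → ℤ} {γ : ℤ} {ε₀ : ℝ} {S : Finset (U ⊕ ℕ)} {F : ℤ × (U ⊕ ℕ → ℤ)}
    {w : List ((U ⊕ ℕ) × (U ⊕ ℕ) × (U ⊕ ℕ))} {i₁ : U ⊕ ℕ}
    (L : Loc b β p 1 1 m ω γ ε₀ 2 S F w i₁) (ε : ℝ) (hε : 0 < ε) :
    Nef (vec b β (1 + ε / (2 * p)) (p + ε)) := by
  have hp : 0 < p := lt_of_lt_of_le L.hq L.hqp
  have hpR : (0 : ℝ) < p := by exact_mod_cast hp
  have hp1 : (p : ℝ) / ((1 : ℕ) : ℝ) = p := by simp
  have hnef : Nef (b, Sum.elim β (fun i : ℕ => if i < p then (1 : ℝ) else 0)) := by
    have h := L.hN₀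
    rw [hp1] at h
    have h2 : vec b β 1 (p : ℝ) = (b, Sum.elim β (fun i : ℕ => if i < p then (1 : ℝ) else 0)) := by
      unfold vec
      refine Prod.ext (by simp) ?_
      funext j
      cases j with
      | inl u => simp
      | inr i => simp [wt_int]
    rwa [h2] at h
  have hsum : ∀ {R : Type} [AddCommMonoid R] (f : U ⊕ ℕ → R),
      ∑ i ∈ S, f i = ∑ u ∈ S.toLeft, f (Sum.inl u) + ∑ i ∈ S.toRight, f (Sum.inr i) := by
    intro R _ f
    conv_lhs => rw [← Finset.toLeft_disjSum_toRight (u := S)]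
    rw [Finset.sum_disjSum]
  have hF1 : (F.1 : ℝ) = 2 * b := by
    have := L.F1; push_cast at this; linarith
  have hFU : ∀ u, (F.2 (Sum.inl u) : ℝ) = 2 * β u := by
    intro u; have := L.FU u; push_cast at this; linarith
  have hFN : ∀ i, F.2 (Sum.inr i) = if i < p then 2 else 0 := by
    intro i
    have := L.FN i
    rw [hp1, wt_int] at this
    split_ifs with h
    · rw [if_pos h] at this
      have h3 : (F.2 (Sum.inr i) : ℝ) = ((2 : ℤ) : ℝ) := by rw [this]; push_cast; ring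
      exact_mod_cast h3
    · rw [if_neg h] at this
      have h3 : (F.2 (Sum.inr i) : ℝ) = ((0 : ℤ) : ℝ) := by rw [this]; push_cast; ring
      exact_mod_cast h3
  have hright : S.toRight = Finset.range p := by
    ext i
    rw [Finset.mem_toRight, L.hS, hFN, Finset.mem_range]
    split_ifs with h <;> simp [h]
  have hl : (0 : ℝ) < 1 + ε / (2 * p) := by positivity
  refine (bridge b β L.hb L.hβ L.hN (p + ε) (by positivity) (1 + ε / (2 * p)) hl).1.mp ?_
  intro k
  have h := specialUpper b β p hp L.hβ hnef (F.1, fun u => F.2 (Sum.inl u)) hF1 hFU S.toLeft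
    (by
      intro u hu
      rw [Finset.mem_toLeft, L.hS, not_not] at hu
      exact hu)
    (by
      have h1 := L.hvol
      rw [hp1] at h1
      unfold Bf Bv at h1
      rw [hsum] at h1
      simp only [Sum.elim_inl, Sum.elim_inr, Pi.zero_apply, mul_zero, Finset.sum_const_zero,
        add_zero] at h1
      have h2 : ((Bf S.toLeft ((F.1, fun u => F.2 (Sum.inl u)) : ℤ × (U → ℤ))
          (F.1, fun u => F.2 (Sum.inl u)) : ℤ) : ℝ) = ((4 * p : ℤ) : ℝ) := by
        unfold Bf
        push_cast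
        simp_rw [hF1, hFU]
        have h3 : ∑ x ∈ S.toLeft, 2 * β x * (2 * β x) = 4 * ∑ x ∈ S.toLeft, β x * β x := by
          rw [Finset.mul_sum]
          exact Finset.sum_congr rfl fun x _ => by ring
        rw [h3]
        linear_combination 4 * h1
      exact_mod_cast h2)
    (by
      have h1 := L.KF
      unfold Kd at h1 ⊢
      rw [hsum, hright] at h1
      have h2 : ∑ i ∈ Finset.range p, F.2 (Sum.inr i) = 2 * p := by
        rw [Finset.sum_congr rfl fun i hi => by rw [hFN i, if_pos (Finset.mem_range.mp hi)]]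
        simp [mul_comm]
      rw [h2] at h1
      simp only
      linarith)
    (p + ε) (by linarith) k
  rwa [add_sub_cancel_left] at h


end Pool.Agent.Helper416_Stair
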