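import Pool.Agent.Helper416_Stair.A1

/-!
# Lattice contradiction
-/

noncomputable section

open scoped BigOperators Pointwise

namespace Pool.Agent.Helper416_Stair



variable {ι : Type*} [DecidableEq ι] {R : Type*} [CommRing R]

















/-
JOB STRICT (helper416, MP_f690a7_gt).  A lattice contradiction (strictness lemma).

Coordinates in which the isotropic class is `F = (1; e_{i₁})`; classes orthogonal to `F` have `X.1 = X.2 i₁`, and for two such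
(`X, X'`) `Bf S X X' = -∑_{j ∈ S, j ≠ i₁} X_j X'_j`.  `Y` is normalised by `Y·F = Y.1 - Y.2 i₁ = 1`, `y_j = Y.2 j ∈ [0,1]`.

Plain proof.  Put `c_j = Cc.2 j` for `j ∈ S' = S \ {i₁}`, `a = Cc.1 = Cc.2 i₁`.  `t = ∑_{S'} c_j²`, `Kd S Cc = 2a - ∑_{S'} c_j = 2 - t`, and
`Bf S Y Cc = a (Y.1 - Y.2 i₁) - ∑ y_j c_j = a - ∑ y_j c_j = 1`.  Hence `∑_{S'} [y_j c_j + (c_j² - c_j)/2] = 0`.  Every term is
`≥ 0` for an integer `c_j` and `y_j ∈ [0,1]` (`c ≥ 0`: clear; `c < 0`: `y c ≥ c`, and `c + (c² - c)/2 = (c² + c)/2 ≥ 0`), so every term is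
`0`; this forces `c_j ∈ {-1, 0, 1}`, `y_j = 0` if `c_j = 1` and `y_j = 1` if `c_j = -1`.  Then `2a = 2 - ∑ c_j² + ∑ c_j`,
i.e. `a = 1 - #{j : c_j = -1}`.  For `j` with `c_j ≠ 0` let `E_j = (0; -e_j)` if `c_j = 1` and `E_j = F - (0; -e_j) = (1; e_{i₁} + e_j)` if
`c_j = -1`.  Then `F - Cc = ∑_{c_j ≠ 0} E_j` (as vectors on `S`), so
`∑_j Bf S E_j M = Bf S F M - Bf S Cc M = (M.1 - M.2 i₁) - 1 = 1`, so some `E = E_j` has `Bf S M E ≥ 1` (integers).  `E` is orthogonal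
to `F`, `Bf S Y E = y_j` or `1 - y_j`, which is `0`.  So `hrel` gives `Bf S D E = -Bf S M E ≤ -1`.  But `Bf S D E = ± D.2 j` and
`Bf S D D = -∑_{S'} D_j² > -1`, so `|D.2 j| < 1`.  Contradiction.
-/


theorem Bf_split {R : Type*} [CommRing R] (S : Finset ι) (i₁ : ι) (hi₁ : i₁ ∈ S)
    (v w : R × (ι → R)) :
    Bf S v w = v.1 * w.1 - v.2 i₁ * w.2 i₁ - ∑ j ∈ S.erase i₁, v.2 j * w.2 j := by
  unfold Bf
  rw [← Finset.add_sum_erase S _ hi₁]; ring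

theorem Kd_split {R : Type*} [CommRing R] (S : Finset ι) (i₁ : ι) (hi₁ : i₁ ∈ S)
    (v : R × (ι → R)) :
    Kd S v = 3 * v.1 - v.2 i₁ - ∑ j ∈ S.erase i₁, v.2 j := by
  unfold Kd
  rw [← Finset.add_sum_erase S _ hi₁]; ring

/-- TARGET -/
theorem strict_lattice (S : Finset ι) (i₁ : ι) (hi₁ : i₁ ∈ S) (Y D : ℝ × (ι → ℝ))
    (Cc M : ℤ × (ι → ℤ)) (t : ℤ) (hY : Y.1 - Y.2 i₁ = 1)
    (hy : ∀ j ∈ S, j ≠ i₁ → 0 ≤ Y.2 j ∧ Y.2 j ≤ 1)
    (hC1 : Cc.1 = Cc.2 i₁) (hC2 : Bf S Cc Cc = -t) (hC3 : Kd S Cc = 2 - t)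
    (hC4 : Bf S Y (toR Cc) = 1) (hM1 : M.1 - M.2 i₁ = 2) (hM2 : Bf S Cc M = 1)
    (hD1 : D.1 = D.2 i₁) (hD2 : -1 < Bf S D D)
    (hrel : ∀ X : ℤ × (ι → ℤ), X.1 = X.2 i₁ → (∀ l ∉ S, X.2 l = 0) →
      2 * Bf S Y (toR X) = Bf S (toR M) (toR X) + Bf S D (toR X)) : False := by
  rw [Bf_split S i₁ hi₁] at hC2 hC4 hM2 hD2
  rw [Kd_split S i₁ hi₁] at hC3
  rw [hC1] at hC2 hC3 hM2
  simp only [toR] at hC4
  rw [hC1] at hC4
  rw [hD1] at hD2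
  -- sums
  have s2 : ∑ j ∈ S.erase i₁, Cc.2 j * Cc.2 j = t := by linarith
  have s1 : ∑ j ∈ S.erase i₁, Cc.2 j = 2 * Cc.2 i₁ - 2 + t := by linarith
  have sM : ∑ j ∈ S.erase i₁, Cc.2 j * M.2 j = 2 * Cc.2 i₁ - 1 := by
    have : Cc.2 i₁ * M.1 - Cc.2 i₁ * M.2 i₁ = Cc.2 i₁ * 2 := by rw [← mul_sub, hM1]
    linarith
  have sY : ∑ j ∈ S.erase i₁, Y.2 j * (Cc.2 j : ℝ) = (Cc.2 i₁ : ℝ) - 1 := by
    have : Y.1 * (Cc.2 i₁ : ℝ) - Y.2 i₁ * (Cc.2 i₁ : ℝ) = (Cc.2 i₁ : ℝ) := by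
      rw [← sub_mul, hY, one_mul]
    linarith
  have s2' : ∑ j ∈ S.erase i₁, (Cc.2 j : ℝ) * (Cc.2 j : ℝ) = (t : ℝ) := by exact_mod_cast s2
  have s1' : ∑ j ∈ S.erase i₁, (Cc.2 j : ℝ) = 2 * (Cc.2 i₁ : ℝ) - 2 + (t : ℝ) := by
    exact_mod_cast s1
  -- the nonnegative terms
  have hsum0 : ∑ j ∈ S.erase i₁, (Y.2 j * (Cc.2 j : ℝ) +
      ((Cc.2 j : ℝ) * (Cc.2 j : ℝ) - (Cc.2 j : ℝ)) / 2) = 0 := by
    rw [Finset.sum_add_distrib, ← Finset.sum_div, Finset.sum_sub_distrib, sY, s2', s1']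
    ring
  have hnn : ∀ j ∈ S.erase i₁, 0 ≤ Y.2 j * (Cc.2 j : ℝ) +
      ((Cc.2 j : ℝ) * (Cc.2 j : ℝ) - (Cc.2 j : ℝ)) / 2 := by
    intro j hj
    obtain ⟨hj1, hj2⟩ := Finset.mem_erase.1 hj
    obtain ⟨y0, y1⟩ := hy j hj2 hj1
    rcases le_or_gt 0 (Cc.2 j) with h | h
    · have hc : (0 : ℝ) ≤ (Cc.2 j : ℝ) := by exact_mod_cast h
      have h2 : (0 : ℝ) ≤ (Cc.2 j : ℝ) * (Cc.2 j : ℝ) - (Cc.2 j : ℝ) := by
        have : (0 : ℤ) ≤ Cc.2 j * Cc.2 j - Cc.2 j := by nlinarith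
        exact_mod_cast this
      have h3 : 0 ≤ Y.2 j * (Cc.2 j : ℝ) := mul_nonneg y0 hc
      linarith
    · have hc : (Cc.2 j : ℝ) < 0 := by exact_mod_cast h
      have h2 : (0 : ℝ) ≤ (Cc.2 j : ℝ) * (Cc.2 j : ℝ) + (Cc.2 j : ℝ) := by
        have : (0 : ℤ) ≤ Cc.2 j * Cc.2 j + Cc.2 j := by nlinarith
        exact_mod_cast this
      nlinarith
  have hzero := (Finset.sum_eq_zero_iff_of_nonneg hnn).1 hsum0
  have hcases : ∀ j ∈ S.erase i₁, Cc.2 j = 0 ∨ (Cc.2 j = 1 ∧ Y.2 j = 0) ∨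
      (Cc.2 j = -1 ∧ Y.2 j = 1) := by
    intro j hj
    have hz := hzero j hj
    obtain ⟨hj1, hj2⟩ := Finset.mem_erase.1 hj
    obtain ⟨y0, y1⟩ := hy j hj2 hj1
    rcases le_or_gt 2 (Cc.2 j) with h | h
    · exfalso
      have hc : (2 : ℝ) ≤ (Cc.2 j : ℝ) := by exact_mod_cast h
      have h3 : 0 ≤ Y.2 j * (Cc.2 j : ℝ) := mul_nonneg y0 (by linarith)
      nlinarith
    · rcases le_or_gt (Cc.2 j) (-2) with h' | h'
      · exfalso
        have hc : (Cc.2 j : ℝ) ≤ -2 := by exact_mod_cast h'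
        nlinarith
      · have h4 : Cc.2 j = 0 ∨ Cc.2 j = 1 ∨ Cc.2 j = -1 := by omega
        rcases h4 with h4 | h4 | h4
        · exact Or.inl h4
        · refine Or.inr (Or.inl ⟨h4, ?_⟩)
          rw [h4] at hz; push_cast at hz; linarith
        · refine Or.inr (Or.inr ⟨h4, ?_⟩)
          rw [h4] at hz; push_cast at hz; linarith
  -- a term at least one
  have hT : ∑ j ∈ S.erase i₁, (Cc.2 j * M.2 j + (Cc.2 j * Cc.2 j - Cc.2 j)) = 1 := by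
    rw [Finset.sum_add_distrib, Finset.sum_sub_distrib, sM, s2, s1]; ring
  obtain ⟨j, hj, hTj⟩ : ∃ j ∈ S.erase i₁, 0 < Cc.2 j * M.2 j + (Cc.2 j * Cc.2 j - Cc.2 j) := by
    by_contra hcon
    push Not at hcon
    have := Finset.sum_nonpos hcon
    omega
  obtain ⟨hj1, hj2⟩ := Finset.mem_erase.1 hj
  -- the square of `D j` is less than one
  have hDj : D.2 j * D.2 j < 1 := by
    have : D.2 j * D.2 j ≤ ∑ j ∈ S.erase i₁, D.2 j * D.2 j :=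
      Finset.single_le_sum (f := fun j => D.2 j * D.2 j) (fun _ _ => mul_self_nonneg _) hj
    linarith
  have hji : i₁ ≠ j := fun h => hj1 h.symm
  rcases hcases j hj with h | ⟨h, hyj⟩ | ⟨h, hyj⟩
  · rw [h] at hTj; simp at hTj
  · -- E = (0; -e_j)
    have hr := hrel (0, fun l => if l = j then -1 else 0) (by simp [hji])
      (by
        intro l hl
        have : l ≠ j := fun e => hl (e ▸ hj2)
        simp [this])
    have hMj : 0 < M.2 j := by rw [h] at hTj; linarith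
    simp only [Bf, toR] at hr
    simp [Finset.sum_ite_eq', hj2] at hr
    rw [hyj] at hr
    have hMj' : (1 : ℝ) ≤ (M.2 j : ℝ) := by exact_mod_cast hMj
    nlinarith
  · have hr := hrel (1, fun l => if l = j then 1 else if l = i₁ then 1 else 0) (by simp)
      (by
        intro l hl
        have h1 : l ≠ j := fun e => hl (e ▸ hj2)
        have h2 : l ≠ i₁ := fun e => hl (e ▸ hi₁)
        simp [h1, h2])
    have hMj : M.2 j < 2 := by rw [h] at hTj; linarith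
    rw [Bf_split S i₁ hi₁, Bf_split S i₁ hi₁, Bf_split S i₁ hi₁] at hr
    have hsum : ∀ f : ι → ℝ, ∑ l ∈ S.erase i₁, f l * (((if l = j then 1 else if l = i₁ then 1
        else 0 : ℤ)) : ℝ) = f j := by
      intro f
      rw [Finset.sum_eq_single j]
      · simp
      · intro b hb hbj
        have := (Finset.mem_erase.1 hb).1
        simp [hbj, this]
      · intro hcon; exact absurd hj hcon
    simp only [toR] at hr
    rw [hsum, hsum, hsum] at hr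
    simp [hji] at hr
    have hM1' : (M.1 : ℝ) - (M.2 i₁ : ℝ) = 2 := by exact_mod_cast hM1
    have hMj' : (M.2 j : ℝ) ≤ 1 := by exact_mod_cast (by omega : M.2 j ≤ 1)
    nlinarith


end Pool.Agent.Helper416_Stair
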