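import Pool.Agent.Helper416_Stair.LocLem
import Pool.Agent.Helper416_Stair.Glue
import Pool.Agent.Helper416_Stair.Strict

/-!
# Strictness
-/

noncomputable section

open scoped BigOperators Pointwise

namespace Pool.Agent.Helper416_Stair





section Word

variable {ι : Type*} [DecidableEq ι] {R : Type*} [CommRing R]





























end Word









section Given

variable {U : Type*} [DecidableEq U] {b : ℝ} {β : U → ℝ} {p q : ℕ} {s : ℤ} {m : ℕ}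
    {ω : ℕ → ℤ} {γ : ℤ} {ε₀ : ℝ} {n : ℕ} {S : Finset (U ⊕ ℕ)} {F : ℤ × (U ⊕ ℕ → ℤ)}
    {w : List ((U ⊕ ℕ) × (U ⊕ ℕ) × (U ⊕ ℕ))} {i₁ : U ⊕ ℕ}







end Given


/-
JOB M5-STRICT (helper416, MP_f690a7_gt).  Strictness in the case `n = 2`.

Plain proof.  Put `z₀ = p/q`, `κ₀ = s q/(2 p)`, and suppose the conclusion fails, i.e. all entries `j ∈ S`, `j ≠ i₁` of
`κ₀ Y_B + Y_O` are in `[0, f']`, `f' = 2 p κ₀ + q (1 - s) = q`.  Apply `strict_lattice` (given below) with the set `S`, `i₁` and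
  `Y = act w Y₀`, `Y₀ = (1/q) • (κ₀ • Bv b β + Ov U m ω)`,
  `Cc = act w C₀`, `C₀ = (0; c_i on inr i, i < m; 0 elsewhere)` with the `c` of `L.cl`, `t = ∑_{i<m} c_i²`,
  `M = act w M₀`, `M₀ = (0; -1 at inr (m-1), 0 elsewhere)`,
  `D = act w D₀`, `D₀ = (0; -(s/p) w_i + (2/q) ω_i + (1 if i = m-1 else 0) on inr i, i < m; 0 elsewhere)`, `w_i = wt 1 z₀ i`.
Everything is computed before applying `w` (`Bf_act`, `Kd_act`, `act_toR`), using `Bf_std` and `L.actF`:
`X.1 - X.2 i₁ = Bf S X (act w F) = Bf S X₀ F` for `X = act w X₀`.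
* `hY`: by `loc_pair`, `Y.1 - Y.2 i₁ = f'/q = 1`.  `hy`: the assumption divided by `q`.
* `Bf S C₀ F = -2 q ∑ c_i w_i = 0`, `Bf S C₀ C₀ = -t`, `Kd S C₀ = -∑ c_i = 2 - t`, `Bf S Y₀ C₀ = -(1/q) ∑ ω_i c_i = 1`.
* `Bf S M₀ F = F.2 (inr (m-1)) = q n (1/q) = 2`, `Bf S C₀ M₀ = c_{m-1} = 1`.
* `Bf S D₀ F = -∑ D^s_i F_i` with `D^s_i = (s/p) w_i - (2/q) ω_i - δ_{i,m-1}`: `∑ D^s_i w_i = s/q - (s-1)/q - 1/q = 0`.
* `Bf S D₀ D₀ = -∑ (D^s_i)²`, `∑ (D^s_i)² = 1/(pq) + 4γ/q + 1 - 2 s (s-1)/(pq) - 2 s/(pq) - 4γ/q = 1 - 1/(pq) < 1` (`s² = 1`).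
* `hrel`: `2 Y₀ - M₀ - D₀ = (s/p) • vec b β 1 z₀ = (s/(2 p q)) • toR F`, and `Bf S (toR F) ...`: for `X` with `X.1 = X.2 i₁`,
  `Bf S (act w (toR F)) (toR X) = X.1 - X.2 i₁ = 0`.
-/



/-- the class `(0; 0; x)` with `x` cut at `m` -/
def M5Vn (U : Type*) {R : Type*} [CommRing R] (m : ℕ) (x : ℕ → R) : R × (U ⊕ ℕ → R) :=
  (0, Sum.elim 0 (fun i => if i < m then x i else 0))

lemma M5_sum {U : Type*} [DecidableEq U] {R : Type*} [CommRing R] (S : Finset (U ⊕ ℕ)) (m : ℕ)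
    (hS : ∀ i, Sum.inr i ∈ S ↔ i < m) (x : ℕ → R) (g : U ⊕ ℕ → R) :
    ∑ j ∈ S, (M5Vn U m x).2 j * g j = ∑ i ∈ Finset.range m, x i * g (Sum.inr i) := by
  have h1 : (Finset.range m).image (Sum.inr : ℕ → U ⊕ ℕ) ⊆ S := by
    intro j hj
    obtain ⟨i, hi, rfl⟩ := Finset.mem_image.mp hj
    exact (hS i).mpr (Finset.mem_range.mp hi)
  rw [← Finset.sum_subset h1, Finset.sum_image (fun _ _ _ _ h => Sum.inr_injective h)]
  · refine Finset.sum_congr rfl (fun i hi => ?_)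
    simp [M5Vn, Finset.mem_range.mp hi]
  · intro j hj hj'
    rcases j with u | i
    · simp [M5Vn]
    · have : ¬ i < m := fun h => hj' (Finset.mem_image.mpr ⟨i, Finset.mem_range.mpr h, rfl⟩)
      simp [M5Vn, this]

lemma M5_Bf {U : Type*} [DecidableEq U] {R : Type*} [CommRing R] (S : Finset (U ⊕ ℕ)) (m : ℕ)
    (hS : ∀ i, Sum.inr i ∈ S ↔ i < m) (x : ℕ → R) (V : R × (U ⊕ ℕ → R)) :
    Bf S (M5Vn U m x) V = - ∑ i ∈ Finset.range m, x i * V.2 (Sum.inr i) := by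
  unfold Bf
  rw [M5_sum S m hS x V.2]
  simp [M5Vn]

lemma M5_Kd {U : Type*} [DecidableEq U] {R : Type*} [CommRing R] (S : Finset (U ⊕ ℕ)) (m : ℕ)
    (hS : ∀ i, Sum.inr i ∈ S ↔ i < m) (x : ℕ → R) :
    Kd S (M5Vn U m x) = - ∑ i ∈ Finset.range m, x i := by
  unfold Kd
  have h := M5_sum S m hS x (fun _ => 1)
  simp only [mul_one] at h
  rw [h]
  simp [M5Vn]

lemma M5_toR {U : Type*} (m : ℕ) (x : ℕ → ℤ) :
    toR (M5Vn U m x) = M5Vn U m (fun i => (x i : ℝ)) := by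
  unfold toR M5Vn
  refine Prod.ext (by simp) ?_
  funext j
  rcases j with u | i
  · simp
  · by_cases h : i < m <;> simp [h]

lemma M5_Ov {U : Type*} (m : ℕ) (ω : ℕ → ℤ) : Ov U m ω = M5Vn U m (fun i => (ω i : ℝ)) := rfl

lemma M5_snd {U : Type*} {R : Type*} [CommRing R] (m : ℕ) (x : ℕ → R) {i : ℕ} (hi : i < m) :
    (M5Vn U m x).2 (Sum.inr i) = x i := by
  simp [M5Vn, hi]

/-- TARGET -/
theorem loc_strict {U : Type*} [DecidableEq U] {b : ℝ} {β : U → ℝ} {p q : ℕ} {s : ℤ} {m : ℕ}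
    {ω : ℕ → ℤ} {γ : ℤ} {ε₀ : ℝ} {S : Finset (U ⊕ ℕ)} {F : ℤ × (U ⊕ ℕ → ℤ)}
    {w : List ((U ⊕ ℕ) × (U ⊕ ℕ) × (U ⊕ ℕ))} {i₁ : U ⊕ ℕ}
    (L : Loc b β p q s m ω γ ε₀ 2 S F w i₁) (hsq : s = -1 ∨ 1 < q) :
    ¬ (∀ j ∈ S, j ≠ i₁ →
        0 ≤ ((s : ℝ) * q / (2 * p)) * (act w (Bv b β)).2 j + (act w (Ov U m ω)).2 j ∧
        ((s : ℝ) * q / (2 * p)) * (act w (Bv b β)).2 j + (act w (Ov U m ω)).2 j ≤ q) := by
  intro h
  obtain ⟨hSm, hSU⟩ := loc_mem L
  obtain ⟨hp1, hp2⟩ := loc_pair L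
  obtain ⟨c, hc1, hc2, hc3, hc4⟩ := L.cl hsq
  have hq0 : (0 : ℝ) < q := by exact_mod_cast L.hq
  have hp0 : (0 : ℝ) < p := by exact_mod_cast lt_of_lt_of_le L.hq L.hqp
  have hqn : (q : ℝ) ≠ 0 := hq0.ne'
  have hpn : (p : ℝ) ≠ 0 := hp0.ne'
  have hm1 : m - 1 < m := Nat.sub_lt L.hm one_pos
  have hm1' : m - 1 ∈ Finset.range m := Finset.mem_range.mpr hm1
  have hs2 : (s : ℝ) * s = 1 := by
    rcases L.hs with h1 | ⟨h1, _⟩ <;> rw [h1] <;> norm_num
  set W : ℕ → ℝ := fun i => wt 1 ((p : ℝ) / q) i with hW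
  set κ : ℝ := (s : ℝ) * q / (2 * p) with hκ
  -- the classes before the moves
  set Y₀ : ℝ × (U ⊕ ℕ → ℝ) := (1 / (q : ℝ)) • (κ • Bv b β + Ov U m ω) with hY₀
  set C₀ : ℤ × (U ⊕ ℕ → ℤ) := M5Vn U m c with hC₀
  set M₀ : ℤ × (U ⊕ ℕ → ℤ) := M5Vn U m (fun i => if i = m - 1 then -1 else 0) with hM₀
  set dd : ℕ → ℝ := fun i => -((s : ℝ) / p) * W i + (2 / q) * ω i + (if i = m - 1 then 1 else 0)
    with hdd
  set D₀ : ℝ × (U ⊕ ℕ → ℝ) := M5Vn U m dd with hD₀
  set stdR : ℝ × (U ⊕ ℕ → ℝ) := ((1, fun i => if i = i₁ then 1 else 0) : ℝ × (U ⊕ ℕ → ℝ)) with hstd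
  have hactFR : act w (toR F) = stdR := by
    rw [act_toR, L.actF]
    unfold toR
    refine Prod.ext (by simp [hstd]) ?_
    funext j
    by_cases hj : j = i₁ <;> simp [hstd, hj]
  have hYact : act w Y₀ = (1 / (q : ℝ)) • (κ • act w (Bv b β) + act w (Ov U m ω)) := by
    rw [hY₀, act_smul, act_add, act_smul]
  have hFW : ∀ i, (F.2 (Sum.inr i) : ℝ) = 2 * q * W i := by
    intro i
    have := L.FN i
    push_cast at this
    rw [this, hW]; ring
  -- sums
  have sW2 : ∑ i ∈ Finset.range m, W i * W i = (p : ℝ) / q := by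
    rw [← L.wsq]
    exact Finset.sum_congr rfl (fun i _ => by rw [hW]; ring)
  have sWω : ∑ i ∈ Finset.range m, W i * ω i = ((s : ℝ) - 1) / 2 := L.wω
  have sω2 : ∑ i ∈ Finset.range m, (ω i : ℝ) * ω i = q * γ := by
    have h1 := L.ωsq
    have h2 : ((∑ i ∈ Finset.range m, ω i ^ 2 : ℤ) : ℝ) = ((q * γ : ℤ) : ℝ) := by rw [h1]
    push_cast at h2
    rw [← h2]
    exact Finset.sum_congr rfl (fun i _ => by ring)
  have hωl : (ω (m - 1) : ℝ) = -γ := by rw [L.ωlast]; push_cast; ring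
  have hWl : W (m - 1) = 1 / q := L.wlast
  have sind : ∀ g : ℕ → ℝ, ∑ i ∈ Finset.range m, (if i = m - 1 then (1 : ℝ) else 0) * g i =
      g (m - 1) := by
    intro g
    rw [Finset.sum_eq_single_of_mem (m - 1) hm1' (fun i _ hi => by simp [hi])]
    simp
  have sddW : ∑ i ∈ Finset.range m, dd i * W i = 0 := by
    have e : ∀ i, dd i * W i = -((s : ℝ) / p) * (W i * W i) + (2 / q) * (W i * ω i) +
        (if i = m - 1 then (1 : ℝ) else 0) * W i := by
      intro i; rw [hdd]; ring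
    rw [Finset.sum_congr rfl (fun i _ => e i), Finset.sum_add_distrib, Finset.sum_add_distrib,
      ← Finset.mul_sum, ← Finset.mul_sum, sW2, sWω, sind W, hWl]
    field_simp
    ring
  have sdd2 : ∑ i ∈ Finset.range m, dd i * dd i = 1 - 1 / (p * q) := by
    have e : ∀ i, dd i * dd i = ((s : ℝ) * s / (p * p)) * (W i * W i) +
        (4 / (q * q)) * ((ω i : ℝ) * ω i) - (4 * s / (p * q)) * (W i * ω i) +
        (if i = m - 1 then (1 : ℝ) else 0) * (1 - (2 * s / p) * W i + (4 / q) * ω i) := by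
      intro i; rw [hdd]
      by_cases hi : i = m - 1
      · simp only [hi, if_true]; ring
      · simp only [hi, if_false]; ring
    rw [Finset.sum_congr rfl (fun i _ => e i), Finset.sum_add_distrib, Finset.sum_sub_distrib,
      Finset.sum_add_distrib, ← Finset.mul_sum, ← Finset.mul_sum, ← Finset.mul_sum, sW2, sω2, sWω,
      sind (fun i => 1 - (2 * s / p) * W i + (4 / q) * ω i), hWl, hωl, hs2]
    have hs3 : (s : ℝ) ^ 2 = 1 := by rw [pow_two]; exact hs2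
    field_simp
    ring_nf
    rw [hs3]
    ring
  refine strict_lattice S i₁ L.hi₁ (act w Y₀) (act w D₀) (act w C₀) (act w M₀)
    (∑ i ∈ Finset.range m, c i ^ 2) ?_ ?_ ?_ ?_ ?_ ?_ ?_ ?_ ?_ ?_ ?_
  · -- hY
    rw [hYact]
    simp only [Prod.fst_add, Prod.snd_add, Prod.smul_fst, Prod.smul_snd, Pi.add_apply,
      Pi.smul_apply, smul_eq_mul]
    have e : 1 / (q : ℝ) * (κ * (act w (Bv b β)).1 + (act w (Ov U m ω)).1) -
        1 / (q : ℝ) * (κ * (act w (Bv b β)).2 i₁ + (act w (Ov U m ω)).2 i₁) =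
        1 / (q : ℝ) * (κ * ((act w (Bv b β)).1 - (act w (Bv b β)).2 i₁) +
          ((act w (Ov U m ω)).1 - (act w (Ov U m ω)).2 i₁)) := by ring
    rw [e, hp1, hp2, hκ]
    push_cast
    field_simp
    ring
  · -- hy
    intro j hj hji
    obtain ⟨h1, h2⟩ := h j hj hji
    rw [hYact]
    simp only [Prod.snd_add, Prod.smul_snd, Pi.add_apply, Pi.smul_apply, smul_eq_mul]
    constructor
    · positivity
    · rw [one_div, inv_mul_le_iff₀ hq0, mul_one]
      exact h2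
  · -- hC1
    have h1 := Bf_std S i₁ L.hi₁ (act w C₀)
    rw [← L.actF, Bf_act S w L.word, hC₀, M5_Bf S m hSm] at h1
    have h2 : ∑ i ∈ Finset.range m, c i * F.2 (Sum.inr i) = 0 := by
      have : ((∑ i ∈ Finset.range m, c i * F.2 (Sum.inr i) : ℤ) : ℝ) = 0 := by
        push_cast
        have e : ∀ i, (c i : ℝ) * (F.2 (Sum.inr i) : ℝ) = (2 * q) * ((c i : ℝ) * W i) := by
          intro i; rw [hFW]; ring
        rw [Finset.sum_congr rfl (fun i _ => e i), ← Finset.mul_sum, hc1, mul_zero]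
      exact_mod_cast this
    rw [h2] at h1
    rw [hC₀]
    linarith
  · -- hC2
    rw [Bf_act S w L.word, hC₀, M5_Bf S m hSm]
    congr 1
    refine Finset.sum_congr rfl (fun i hi => ?_)
    rw [M5_snd m c (Finset.mem_range.mp hi)]
    ring
  · -- hC3
    rw [Kd_act S w L.word, hC₀, M5_Kd S m hSm, hc3]
    ring
  · -- hC4
    rw [← act_toR, Bf_act S w L.word, hY₀, Bf_smul_left, Bf_add_left, Bf_smul_left, hC₀, M5_toR,
      Bf_comm S (Bv b β), M5_Bf S m hSm, Bf_comm S (Ov U m ω), M5_Bf S m hSm]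
    have e1 : ∑ i ∈ Finset.range m, (c i : ℝ) * (Bv b β : ℝ × (U ⊕ ℕ → ℝ)).2 (Sum.inr i) = 0 := by
      refine Finset.sum_eq_zero (fun i _ => ?_)
      simp [Bv]
    have e2 : ∑ i ∈ Finset.range m, (c i : ℝ) * (Ov U m ω).2 (Sum.inr i) = -q := by
      have : ((∑ i ∈ Finset.range m, c i * ω i : ℤ) : ℝ) = ((-q : ℤ) : ℝ) := by rw [hc2]
      push_cast at this
      rw [← this]
      refine Finset.sum_congr rfl (fun i hi => ?_)
      rw [M5_Ov, M5_snd m _ (Finset.mem_range.mp hi)]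
    rw [e1, e2]
    field_simp
    ring
  · -- hM1
    have h1 := Bf_std S i₁ L.hi₁ (act w M₀)
    rw [← h1, ← L.actF, Bf_act S w L.word, hM₀, M5_Bf S m hSm,
      Finset.sum_eq_single_of_mem (m - 1) hm1' (fun i _ hi => by simp [hi])]
    simp only [if_true]
    have : ((F.2 (Sum.inr (m - 1)) : ℤ) : ℝ) = 2 := by
      rw [hFW, hWl]; field_simp
    have h2 : F.2 (Sum.inr (m - 1)) = 2 := by exact_mod_cast this
    rw [h2]
    ring
  · -- hM2
    rw [Bf_act S w L.word, hC₀, M5_Bf S m hSm,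
      Finset.sum_eq_single_of_mem (m - 1) hm1' (fun i hi hi' => by
        rw [hM₀, M5_snd m _ (Finset.mem_range.mp hi)]; simp [hi']), hM₀, M5_snd m _ hm1]
    simp [hc4]
  · -- hD1
    have h1 := Bf_std S i₁ L.hi₁ (act w D₀)
    rw [← hstd, ← hactFR, Bf_act S w L.word, hD₀, M5_Bf S m hSm] at h1
    have h2 : ∑ i ∈ Finset.range m, dd i * (toR F).2 (Sum.inr i) = 0 := by
      have e : ∀ i, dd i * (toR F).2 (Sum.inr i) = (2 * q) * (dd i * W i) := by
        intro i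
        change dd i * (F.2 (Sum.inr i) : ℝ) = _
        rw [hFW]; ring
      rw [Finset.sum_congr rfl (fun i _ => e i), ← Finset.mul_sum, sddW, mul_zero]
    rw [h2] at h1
    rw [hD₀]
    linarith
  · -- hD2
    rw [Bf_act S w L.word, hD₀, M5_Bf S m hSm]
    have e : ∑ i ∈ Finset.range m, dd i * (M5Vn U m dd).2 (Sum.inr i) =
        ∑ i ∈ Finset.range m, dd i * dd i := by
      refine Finset.sum_congr rfl (fun i hi => ?_)
      rw [M5_snd m _ (Finset.mem_range.mp hi)]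
    rw [e, sdd2]
    have : 0 < 1 / ((p : ℝ) * q) := by positivity
    linarith
  · -- hrel
    intro X hX _
    have hrel0 : (2 : ℝ) • Y₀ = toR M₀ + D₀ + ((s : ℝ) / (2 * p * q)) • toR F := by
      have hw0 : ∀ i, m ≤ i → F.2 (Sum.inr i) = 0 := by
        intro i hi
        have := hFW i
        rw [hW] at this
        simp only [L.w0 i hi, mul_zero] at this
        exact_mod_cast this
      refine Prod.ext ?_ ?_
      · simp only [hY₀, hM₀, hD₀, M5_toR, Prod.fst_add, Prod.smul_fst, smul_eq_mul]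
        have hF1 := L.F1
        change 2 * (1 / (q : ℝ) * (κ * b + 0)) = 0 + 0 + (s : ℝ) / (2 * p * q) * (F.1 : ℝ)
        rw [hF1, hκ]
        push_cast
        field_simp
        ring
      · funext j
        rcases j with u | i
        · simp only [hY₀, hM₀, hD₀, M5_toR, Prod.snd_add, Prod.smul_snd, Pi.add_apply,
            Pi.smul_apply, smul_eq_mul]
          have hFU := L.FU u
          change 2 * (1 / (q : ℝ) * (κ * β u + 0)) = 0 + 0 + (s : ℝ) / (2 * p * q) *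
            (F.2 (Sum.inl u) : ℝ)
          rw [hFU, hκ]
          push_cast
          field_simp
          ring
        · simp only [hY₀, hM₀, hD₀, M5_toR, Prod.snd_add, Prod.smul_snd, Pi.add_apply,
            Pi.smul_apply, smul_eq_mul]
          by_cases hi : i < m
          · rw [M5_Ov, M5_snd m _ hi, M5_snd m _ hi, M5_snd m _ hi]
            change 2 * (1 / (q : ℝ) * (κ * 0 + ω i)) = _ + _ + (s : ℝ) / (2 * p * q) *
              (F.2 (Sum.inr i) : ℝ)
            rw [hFW i, hdd]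
            by_cases hi' : i = m - 1
            · simp only [hi', if_true]
              push_cast
              field_simp
              ring
            · simp only [hi', if_false]
              push_cast
              field_simp
              ring
          · have h0 := hw0 i (not_lt.mp hi)
            have e1 : ∀ x : ℕ → ℝ, (M5Vn U m x).2 (Sum.inr i) = 0 := by
              intro x; simp [M5Vn, hi]
            rw [M5_Ov, e1, e1, e1]
            change 2 * (1 / (q : ℝ) * (κ * 0 + 0)) = 0 + 0 + (s : ℝ) / (2 * p * q) *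
              (F.2 (Sum.inr i) : ℝ)
            rw [h0]
            simp
    have hrel1 : (2 : ℝ) • act w Y₀ = toR (act w M₀) + act w D₀ +
        ((s : ℝ) / (2 * p * q)) • stdR := by
      rw [← act_smul, hrel0, act_add, act_add, act_smul, act_toR, hactFR]
    have h1 : 2 * Bf S (act w Y₀) (toR X) = Bf S ((2 : ℝ) • act w Y₀) (toR X) := by
      rw [Bf_smul_left]
    rw [h1, hrel1, Bf_add_left, Bf_add_left, Bf_smul_left, Bf_comm S stdR, hstd,
      Bf_std S i₁ L.hi₁]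
    have : (toR X).1 - (toR X).2 i₁ = 0 := by
      change (X.1 : ℝ) - (X.2 i₁ : ℝ) = 0
      rw [hX]; ring
    rw [this]
    ring


end Pool.Agent.Helper416_Stair
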