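import Pool.Agent.Helper416_Stair.LocLem
import Pool.Agent.Helper416_Stair.Glue
import Pool.Agent.Helper416_Stair.A3

/-!
# Upper bound near a rational number
-/

noncomputable section

open scoped BigOperators Pointwise

namespace Pool.Agent.Helper416_Stair





section Word

variable {ι : Type*} [DecidableEq ι] {R : Type*} [CommRing R]





























end Word









section Given

variable {U : Type*} [DecidableEq U] {b : ℝ} {β : U → ℝ} {p q : ℕ} {s : ℤ} {m : ℕ}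
    {ω : ℕ → ℤ} {γ : ℤ} {ε₀ : ℝ} {n : ℕ} {S : Finset (U ⊕ ℕ)} {F : ℤ × (U ⊕ ℕ → ℤ)}
    {w : List ((U ⊕ ℕ) × (U ⊕ ℕ) × (U ⊕ ℕ))} {i₁ : U ⊕ ℕ}







end Given


/-
JOB M5-UP (helper416, MP_f690a7_gt).  Upper bound: nefness near a rational point.

Notation: `z₀ = p/q`, `z = z₀ + s ε`, `v = vec b β (1 + κ ε) z`, `Y_B = act w (Bv b β)`, `Y_O = act w (Ov U m ω)`,
`f' = n p κ + q n (1 - s)/2`, so by `loc_expand`, `loc_pair` the moved vector `v' = act w v` has `v'.1 - v'.2 i₁ = ε f' =: f`.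
Plain proof.  Apply `nef_of_thin` (given below) to `v'`, `i₁`, `f = ε f'`; `Nef v' ↔ Nef v` by `nef_act`.
* `f ≥ 0` as `f' ≥ ρ q > 0`.
* entries `j ∈ S`, `j ≠ i₁`: `ε (κ Y_B j + Y_O j) ∈ [0, f]` by hypothesis.  Entries off `S`: `0` (`inl u`) or `wt 1 z i`, `i ≥ m`, which is in
  `[0, q ε]` (`L.near`), and `q ε ≤ f` as `ρ ≥ 1`.
* finiteness of `{i | η ≤ v'.2 i}`: `S` is finite, off `S` only `inr i` with `i ≥ m`, `η ≤ wt 1 z i`; the sums of the squares of the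
  weights are `≤ z` (ellE3), so at most `z/η²` of them.
* squares: for a finite set `T` let `T' = T ∪ S`; `Bf T' v' v' = Bf T' v v` (`Bf_act`, `GoodWord T' w`), and
  `Bf T' v v ≥ l² b² - l² ∑_{inl u ∈ S} β_u² - z = l² z₀ - z ≥ 0`, `l = 1 + κ ε`, by `L.hvol`, `loc_mem`, `ellE3`, and the hypothesis
  `√(z/z₀) ≤ l`.
* `2 f ≤ v'.1 - ∑_{T} max (v'.2 i - f/2) 0` for `i₁ ∉ T`: the terms of `S` contribute `O(ε)` (uniformly for `|κ| ≤ K`); a tail entry
  `a ≤ q ε` satisfies `max (a - f/2) 0 ≤ a max (1 - f/(2 q ε)) 0 ≤ a max (1 - ρ/2) 0`, and the tail entries have sum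
  `≤ 1/q + q ε` (`L.near`, `γ ≥ 0`); `v'.1 = 1/(q n) + O(ε)`; and `max (1 - ρ/2) 0 / q < 1/(q n)`; so it holds for small `ε`.
-/



section UP

variable {U : Type*} [DecidableEq U]

/-- the tail part of the vector -/
def UPW (U : Type*) (z : ℝ) : U ⊕ ℕ → ℝ := Sum.elim (fun _ => 0) (wt 1 z)

lemma UP_wt_nonneg (z : ℝ) (hz : 0 < z) (i : ℕ) : 0 ≤ wt 1 z i := by
  obtain ⟨h1, h2, -, -⟩ := ellE3 1 z one_pos hz i
  exact le_min h1 h2

lemma UP_sq_range (z : ℝ) (hz : 0 < z) (M : ℕ) :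
    ∑ i ∈ Finset.range M, wt 1 z i ^ 2 ≤ z := by
  obtain ⟨h1, h2, -, h4⟩ := ellE3 1 z one_pos hz M
  rw [h4, one_mul]
  have := mul_nonneg h1 h2
  linarith

lemma UP_sq_summable (z : ℝ) (hz : 0 < z) : Summable (fun i => wt 1 z i ^ 2) :=
  summable_of_sum_range_le (fun _ => sq_nonneg _) (UP_sq_range z hz)

lemma UP_sq_finset (z : ℝ) (hz : 0 < z) (T : Finset ℕ) : ∑ i ∈ T, wt 1 z i ^ 2 ≤ z := by
  refine le_trans ?_ (UP_sq_range z hz (T.sup id + 1))
  refine Finset.sum_le_sum_of_subset_of_nonneg (fun i hi => ?_) fun _ _ _ => sq_nonneg _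
  rw [Finset.mem_range]
  have : i ≤ T.sup id := Finset.le_sup (f := id) hi
  omega

lemma UP_sumW (z : ℝ) (T : Finset (U ⊕ ℕ)) (g : ℝ → ℝ) (hg : g 0 = 0) :
    ∑ i ∈ T, g (UPW U z i) = ∑ i ∈ T.toRight, g (wt 1 z i) := by
  conv_lhs => rw [← Finset.toLeft_disjSum_toRight (u := T)]
  rw [Finset.sum_disjSum]
  have : ∑ x ∈ T.toLeft, g (UPW U z (Sum.inl x)) = 0 :=
    Finset.sum_eq_zero fun x _ => by simp [UPW, hg]
  rw [this, zero_add]
  rfl

lemma UP_sqW (z : ℝ) (hz : 0 < z) (T : Finset (U ⊕ ℕ)) : ∑ i ∈ T, UPW U z i ^ 2 ≤ z := by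
  rw [UP_sumW z T (fun x => x ^ 2) (by simp)]
  exact UP_sq_finset z hz _

lemma UP_fin (z : ℝ) (hz : 0 < z) (η : ℝ) (hη : 0 < η) : {i : U ⊕ ℕ | η ≤ UPW U z i}.Finite := by
  have h1 : {i : ℕ | η ≤ wt 1 z i}.Finite := by
    have h2 := (UP_sq_summable z hz).tendsto_cofinite_zero.eventually
      (gt_mem_nhds (show (0 : ℝ) < η ^ 2 by positivity))
    rw [Filter.eventually_cofinite] at h2
    refine h2.subset fun i hi => ?_
    simp only [Set.mem_ofPred_eq, not_lt] at hi ⊢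
    exact pow_le_pow_left₀ hη.le hi 2
  refine (h1.image Sum.inr).subset ?_
  rintro (u | i) hi
  · simp only [UPW, Set.mem_ofPred_eq, Sum.elim_inl] at hi
    exact absurd hi (not_le.mpr hη)
  · exact ⟨i, hi, rfl⟩

end UP

/-- TARGET -/
theorem loc_upper {U : Type*} [DecidableEq U] {b : ℝ} {β : U → ℝ} {p q : ℕ} {s : ℤ} {m : ℕ}
    {ω : ℕ → ℤ} {γ : ℤ} {ε₀ : ℝ} {n : ℕ} {S : Finset (U ⊕ ℕ)} {F : ℤ × (U ⊕ ℕ → ℤ)}
    {w : List ((U ⊕ ℕ) × (U ⊕ ℕ) × (U ⊕ ℕ))} {i₁ : U ⊕ ℕ}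
    (L : Loc b β p q s m ω γ ε₀ n S F w i₁) (ρ K : ℝ) (hρ1 : 1 ≤ ρ) (hρ2 : 1 - ρ / 2 < 1 / n) :
    ∃ δ > 0, ∀ ε, 0 < ε → ε < δ → ∀ κ : ℝ, |κ| ≤ K →
      (∀ j ∈ S, j ≠ i₁ → 0 ≤ κ * (act w (Bv b β)).2 j + (act w (Ov U m ω)).2 j ∧
        κ * (act w (Bv b β)).2 j + (act w (Ov U m ω)).2 j ≤ n * p * κ + q * n * (1 - (s : ℝ)) / 2) →
      ρ * q ≤ n * p * κ + q * n * (1 - (s : ℝ)) / 2 →
      √(((p : ℝ) / q + s * ε) / ((p : ℝ) / q)) ≤ 1 + κ * ε →
      Nef (vec b β (1 + κ * ε) ((p : ℝ) / q + s * ε)) := by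
  obtain ⟨hmemN, hmemU⟩ := loc_mem L
  have hq0 : (0 : ℝ) < q := by exact_mod_cast L.hq
  have hn0 : (0 : ℝ) < n := by exact_mod_cast L.hn
  have hqp : (q : ℝ) ≤ p := by exact_mod_cast L.hqp
  have hp0 : (0 : ℝ) < p := by linarith
  set z₀ : ℝ := (p : ℝ) / q with hz₀
  have hz₀1 : 1 ≤ z₀ := by rw [hz₀, le_div_iff₀ hq0]; linarith
  have hs1 : (-1 : ℝ) ≤ s ∧ (s : ℝ) ≤ 1 := by
    rcases L.hs with h | ⟨h, -⟩ <;> rw [h] <;> norm_num
  set μ : ℝ := max (1 - ρ / 2) 0 with hμ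
  have hμ0 : 0 ≤ μ := le_max_right _ _
  have hμn : μ < 1 / n := max_lt hρ2 (by positivity)
  set YB := act w (Bv b β) with hYB
  set YO := act w (Ov U m ω) with hYO
  set D : ℝ := (2 + (S.card : ℝ)) * (n * p * |K| + q * n) + μ * q + (|K| * |YB.1| + |YO.1|) + 1
    with hD
  have hD0 : 0 < D := by positivity
  have hgap : 0 < (1 / n - μ) / q := div_pos (by linarith) hq0
  refine ⟨min (min ε₀ (1 / 2)) ((1 / n - μ) / q / D),
    lt_min (lt_min L.hε₀ (by norm_num)) (div_pos hgap hD0), ?_⟩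
  intro ε hε0 hεδ κ hκ hA hB hC
  have hε1 : ε < ε₀ := hεδ.trans_le ((min_le_left _ _).trans (min_le_left _ _))
  have hε2 : ε < 1 / 2 := hεδ.trans_le ((min_le_left _ _).trans (min_le_right _ _))
  have hε3 : ε * D < (1 / n - μ) / q := by
    have := hεδ.trans_le (min_le_right _ _)
    rwa [lt_div_iff₀ hD0] at this
  have hκK : |κ| ≤ |K| := hκ.trans (le_abs_self K)
  set z : ℝ := z₀ + s * ε with hz
  have hz0 : 0 < z := by
    have : -1 * ε ≤ s * ε := mul_le_mul_of_nonneg_right hs1.1 hε0.le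
    rw [hz]; linarith
  set l : ℝ := 1 + κ * ε with hl
  set v : ℝ × (U ⊕ ℕ → ℝ) := vec b β l z with hv
  obtain ⟨e1, e2, e3, e4⟩ := loc_expand L κ ε hε0 hε1
  obtain ⟨p1, p2⟩ := loc_pair L
  obtain ⟨-, -, nr3, nr4⟩ := L.near ε hε0 hε1
  set f' : ℝ := n * p * κ + q * n * (1 - (s : ℝ)) / 2 with hf'
  have hf'0 : 0 < f' := lt_of_lt_of_le (by positivity) hB
  have hf'q : q ≤ f' := le_trans (le_mul_of_one_le_left hq0.le hρ1) hB
  have hf'K : f' ≤ n * p * |K| + q * n := by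
    have h1 : n * p * κ ≤ n * p * |K| :=
      mul_le_mul_of_nonneg_left ((le_abs_self κ).trans hκK) (by positivity)
    have h2 : q * n * (1 - (s : ℝ)) / 2 ≤ q * n := by
      have : (q : ℝ) * n * (1 - (s : ℝ)) ≤ q * n * 2 :=
        mul_le_mul_of_nonneg_left (by linarith) (by positivity)
      linarith
    rw [hf']; linarith
  set f : ℝ := ε * f' with hf
  have hf0 : 0 < f := mul_pos hε0 hf'0
  rw [← nef_act S w L.word]
  set v' := act w v with hv'
  have hv'1 : v'.1 = 1 / (q * n) + ε * (κ * YB.1 + YO.1) := e1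
  have hv'S : ∀ j ∈ S, v'.2 j =
      (if j = i₁ then 1 / ((q : ℝ) * n) else 0) + ε * (κ * YB.2 j + YO.2 j) := e2
  have hv'U : ∀ u, Sum.inl u ∉ S → v'.2 (Sum.inl u) = 0 := e3
  have hv'N : ∀ i, m ≤ i → v'.2 (Sum.inr i) = wt 1 z i := e4
  have hwn : ∀ i, 0 ≤ wt 1 z i := UP_wt_nonneg z hz0
  -- entries off S
  have hoff : ∀ i, i ∉ S → v'.2 i = UPW U z i ∧ 0 ≤ UPW U z i ∧ UPW U z i ≤ q * ε := by
    rintro (u | i) hi
    · refine ⟨?_, le_refl _, by simp only [UPW, Sum.elim_inl]; positivity⟩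
      rw [hv'U u hi]; rfl
    · have him : m ≤ i := by
        by_contra hcon
        exact hi ((hmemN i).2 (not_le.mp hcon))
      refine ⟨?_, (nr3 i him).1, (nr3 i him).2⟩
      rw [hv'N i him]; rfl
  have hqε : q * ε ≤ f := by
    rw [hf, mul_comm]; exact mul_le_mul_of_nonneg_left hf'q hε0.le
  refine nef_of_thin v' i₁ f hf0.le ?_ ?_ ?_ ?_ ?_
  · rw [hv'S i₁ L.hi₁, hv'1, if_pos rfl, hf, hf']
    have : κ * (YB.1 - YB.2 i₁) + (YO.1 - YO.2 i₁) =
        κ * (n * p) + q * n * (1 - (s : ℝ)) / 2 := by rw [p1, p2]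
    have h3 : ε * (κ * YB.2 i₁ + YO.2 i₁) = ε * (κ * YB.1 + YO.1) -
        ε * (κ * (YB.1 - YB.2 i₁) + (YO.1 - YO.2 i₁)) := by ring
    rw [h3, this]
    ring
  · intro i hi
    by_cases hiS : i ∈ S
    · rw [hv'S i hiS, if_neg hi, zero_add]
      obtain ⟨a1, a2⟩ := hA i hiS hi
      exact ⟨mul_nonneg hε0.le a1, mul_le_mul_of_nonneg_left a2 hε0.le⟩
    · obtain ⟨h1, h2, h3⟩ := hoff i hiS
      rw [h1]
      exact ⟨h2, h3.trans hqε⟩
  · intro η hη
    refine ((S.finite_toSet).union (UP_fin (U := U) z hz0 η hη)).subset ?_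
    rintro i ⟨-, hi⟩
    by_cases hiS : i ∈ S
    · exact Or.inl hiS
    · right
      rw [(hoff i hiS).1] at hi
      exact hi
  · intro T
    set T' : Finset (U ⊕ ℕ) := T ∪ S with hT'
    have hTT : T ⊆ T' := Finset.subset_union_left
    have hST : S ⊆ T' := Finset.subset_union_right
    have hgw : GoodWord T' w := fun t ht => by
      obtain ⟨g1, g2, g3, g4⟩ := L.word t ht
      exact ⟨hST g1, hST g2, hST g3, g4⟩
    have hB1 : Bf T' v' v' = Bf T' v v := Bf_act T' w hgw v v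
    have hz_l : z ≤ l ^ 2 * z₀ := by
      have h1 := (Real.sqrt_le_left (le_trans (Real.sqrt_nonneg _) hC)).1 hC
      rwa [div_le_iff₀ (by linarith)] at h1
    have hB2 : 0 ≤ Bf T' v v := by
      have h1 : ∀ i, v.2 i * v.2 i = l ^ 2 * ((Bv b β).2 i * (Bv b β).2 i) + UPW U z i ^ 2 := by
        rintro (u | i)
        · simp only [hv, vec, Bv, UPW, Sum.elim_inl]; ring
        · simp only [hv, vec, Bv, UPW, Sum.elim_inr, Pi.zero_apply]; ring
      have h2 : ∑ i ∈ T', v.2 i * v.2 i =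
          l ^ 2 * ∑ i ∈ S, (Bv b β).2 i * (Bv b β).2 i + ∑ i ∈ T', UPW U z i ^ 2 := by
        simp_rw [h1]
        rw [Finset.sum_add_distrib, ← Finset.mul_sum]
        congr 2
        refine (Finset.sum_subset hST ?_).symm
        rintro (u | i) - hi
        · simp [Bv, hmemU u hi]
        · simp [Bv]
      have h3 : v.1 = l * b := rfl
      have h4 : b * b - ∑ i ∈ S, (Bv b β).2 i * (Bv b β).2 i = z₀ := L.hvol
      unfold Bf
      rw [h2, h3]
      have h5 := UP_sqW (U := U) z hz0 T'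
      have h6 : l * b * (l * b) - (l ^ 2 * ∑ i ∈ S, (Bv b β).2 i * (Bv b β).2 i +
          ∑ i ∈ T', UPW U z i ^ 2) = l ^ 2 * (b * b - ∑ i ∈ S, (Bv b β).2 i * (Bv b β).2 i) -
          ∑ i ∈ T', UPW U z i ^ 2 := by ring
      rw [h6, h4]
      linarith
    rw [← hB1] at hB2
    unfold Bf at hB2
    have h7 : ∑ i ∈ T, v'.2 i ^ 2 ≤ ∑ i ∈ T', v'.2 i * v'.2 i := by
      calc ∑ i ∈ T, v'.2 i ^ 2 ≤ ∑ i ∈ T', v'.2 i ^ 2 :=
            Finset.sum_le_sum_of_subset_of_nonneg hTT fun _ _ _ => sq_nonneg _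
        _ = ∑ i ∈ T', v'.2 i * v'.2 i := Finset.sum_congr rfl fun i _ => by ring
    calc ∑ i ∈ T, v'.2 i ^ 2 ≤ ∑ i ∈ T', v'.2 i * v'.2 i := h7
      _ ≤ v'.1 * v'.1 := by linarith
      _ = v'.1 ^ 2 := by ring
  · intro T hT
    rw [← Finset.sum_filter_add_sum_filter_not T (· ∈ S)]
    -- terms in S
    have hS1 : ∑ i ∈ T.filter (· ∈ S), max (v'.2 i - f / 2) 0 ≤ S.card * f := by
      have h1 : ∀ i ∈ T.filter (· ∈ S), max (v'.2 i - f / 2) 0 ≤ f := by
        intro i hi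
        rw [Finset.mem_filter] at hi
        have hne : i ≠ i₁ := by rintro rfl; exact hT hi.1
        obtain ⟨-, a2⟩ := hA i hi.2 hne
        have h2 : v'.2 i ≤ f := by
          rw [hv'S i hi.2, if_neg hne, zero_add]
          exact mul_le_mul_of_nonneg_left a2 hε0.le
        exact max_le (by linarith) hf0.le
      refine (Finset.sum_le_card_nsmul _ _ _ h1).trans ?_
      rw [nsmul_eq_mul]
      refine mul_le_mul_of_nonneg_right ?_ hf0.le
      have h3 : (T.filter (· ∈ S)).card ≤ S.card :=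
        Finset.card_le_card fun i hi => (Finset.mem_filter.1 hi).2
      exact_mod_cast h3
    -- terms off S
    set T2 : Finset (U ⊕ ℕ) := T.filter (fun i => ¬ i ∈ S) with hT2
    have hS2 : ∑ i ∈ T2, max (v'.2 i - f / 2) 0 ≤ μ * (1 / q + q * ε) := by
      have h1 : ∀ i ∈ T2, max (v'.2 i - f / 2) 0 ≤ μ * UPW U z i := by
        intro i hi
        obtain ⟨a1, a2, a3⟩ := hoff i (Finset.mem_filter.1 hi).2
        rw [a1]
        refine max_le ?_ (mul_nonneg hμ0 a2)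
        have h2 : ρ * UPW U z i ≤ f := by
          calc ρ * UPW U z i ≤ ρ * (q * ε) := mul_le_mul_of_nonneg_left a3 (by linarith)
            _ = ε * (ρ * q) := by ring
            _ ≤ f := mul_le_mul_of_nonneg_left hB hε0.le
        have h3 : (1 - ρ / 2) * UPW U z i ≤ μ * UPW U z i :=
          mul_le_mul_of_nonneg_right (le_max_left _ _) a2
        linarith
      refine (Finset.sum_le_sum h1).trans ?_
      rw [← Finset.mul_sum]
      refine mul_le_mul_of_nonneg_left ?_ hμ0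
      rw [UP_sumW z T2 (fun x => x) rfl]
      set M : ℕ := m + T2.toRight.sup id + 1 with hM
      have h4 : ∑ i ∈ T2.toRight, wt 1 z i ≤ ∑ i ∈ Finset.Ico m M, wt 1 z i := by
        refine Finset.sum_le_sum_of_subset_of_nonneg (fun i hi => ?_) fun i _ _ => hwn i
        rw [Finset.mem_Ico]
        have h5 : i ≤ T2.toRight.sup id := Finset.le_sup (f := id) hi
        refine ⟨?_, by omega⟩
        by_contra hcon
        have h6 := Finset.mem_toRight.1 hi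
        exact (Finset.mem_filter.1 h6).2 ((hmemN i).2 (not_le.mp hcon))
      refine h4.trans ((nr4 M (by omega)).trans ?_)
      have h7 : (0 : ℝ) ≤ γ * ε := mul_nonneg (by exact_mod_cast L.hγ0) hε0.le
      linarith
    have hfK : f ≤ ε * (n * p * |K| + q * n) := mul_le_mul_of_nonneg_left hf'K hε0.le
    have hv1 : 1 / (q * n) - ε * (|K| * |YB.1| + |YO.1|) ≤ v'.1 := by
      rw [hv'1]
      have h1 : -(|K| * |YB.1|) ≤ κ * YB.1 := by
        have h2 : |κ * YB.1| ≤ |K| * |YB.1| := by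
          rw [abs_mul]; exact mul_le_mul_of_nonneg_right hκK (abs_nonneg _)
        linarith [neg_abs_le (κ * YB.1)]
      have h3 : -(|K| * |YB.1| + |YO.1|) ≤ κ * YB.1 + YO.1 := by
        linarith [neg_abs_le YO.1]
      have h4 := mul_le_mul_of_nonneg_left h3 hε0.le
      linarith
    have hcard : (0 : ℝ) ≤ 2 + (S.card : ℝ) := by positivity
    have hfK2 : (2 + (S.card : ℝ)) * f ≤
        ε * ((2 + (S.card : ℝ)) * (n * p * |K| + q * n)) := by
      calc (2 + (S.card : ℝ)) * f ≤ (2 + (S.card : ℝ)) * (ε * (n * p * |K| + q * n)) :=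
            mul_le_mul_of_nonneg_left hfK hcard
        _ = _ := by ring
    have hgap2 : (1 / n - μ) / q = 1 / (q * n) - μ * (1 / q) := by
      field_simp
    rw [hgap2, hD] at hε3
    have hlin : ε * ((2 + (S.card : ℝ)) * (n * p * |K| + q * n)) + μ * (q * ε) +
        ε * (|K| * |YB.1| + |YO.1|) + ε ≤ 1 / (q * n) - μ * (1 / q) := by
      have : ε * ((2 + (S.card : ℝ)) * (n * p * |K| + q * n) + μ * q + (|K| * |YB.1| + |YO.1|) + 1) =
        ε * ((2 + (S.card : ℝ)) * (n * p * |K| + q * n)) + μ * (q * ε) +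
        ε * (|K| * |YB.1| + |YO.1|) + ε := by ring
      linarith
    have hμe : μ * (1 / q + q * ε) = μ * (1 / q) + μ * (q * ε) := by ring
    rw [hμe] at hS2
    linarith


end Pool.Agent.Helper416_Stair
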