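import Pool.Agent.Helper416_Stair.LocSetup
import Pool.Agent.Helper416_Stair.LocUp
import Pool.Agent.Helper416_Stair.LocStrict
import Pool.Agent.Helper416_Stair.LocSpec
import Pool.Agent.Helper416_Stair.E0

/-!
# The embedding function near a rational point with positive excess
-/

noncomputable section

open scoped BigOperators Pointwise

namespace Pool.Agent.Helper416_Stair

section

variable {U : Type*} [DecidableEq U] {b : ℝ} {β : U → ℝ} {p q : ℕ} {s : ℤ} {m : ℕ}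
    {ω : ℕ → ℤ} {γ : ℤ} {ε₀ : ℝ} {n : ℕ} {S : Finset (U ⊕ ℕ)} {F : ℤ × (U ⊕ ℕ → ℤ)}
    {w : List ((U ⊕ ℕ) × (U ⊕ ℕ) × (U ⊕ ℕ))} {i₁ : U ⊕ ℕ}

/-- the finitely many linear conditions on the slope -/
def SlopeOK (b : ℝ) (β : U → ℝ) (p q : ℕ) (s : ℤ) (m : ℕ) (ω : ℕ → ℤ) (n : ℕ) (S : Finset (U ⊕ ℕ))
    (w : List ((U ⊕ ℕ) × (U ⊕ ℕ) × (U ⊕ ℕ))) (i₁ : U ⊕ ℕ) (κ : ℝ) : Prop :=
  ∀ j ∈ S, j ≠ i₁ → 0 ≤ κ * (act w (Bv b β)).2 j + (act w (Ov U m ω)).2 j ∧
        κ * (act w (Bv b β)).2 j + (act w (Ov U m ω)).2 j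
          ≤ n * p * κ + q * n * (1 - (s : ℝ)) / 2

lemma slope_mono (L : Loc b β p q s m ω γ ε₀ n S F w i₁) {κ κ' : ℝ} (h : κ ≤ κ')
    (hP : SlopeOK b β p q s m ω n S w i₁ κ) : SlopeOK b β p q s m ω n S w i₁ κ' := by
  intro j hj hji
  obtain ⟨h1, h2⟩ := hP j hj hji
  obtain ⟨h3, h4⟩ := loc_B L j hj hji
  constructor <;> nlinarith

lemma slope_closed (b : ℝ) (β : U → ℝ) (p q : ℕ) (s : ℤ) (m : ℕ) (ω : ℕ → ℤ) (n : ℕ)
    (S : Finset (U ⊕ ℕ)) (w : List ((U ⊕ ℕ) × (U ⊕ ℕ) × (U ⊕ ℕ))) (i₁ : U ⊕ ℕ) :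
    IsClosed {κ : ℝ | SlopeOK b β p q s m ω n S w i₁ κ} := by
  have : {κ : ℝ | SlopeOK b β p q s m ω n S w i₁ κ} = ⋂ j ∈ S, ⋂ (_ : j ≠ i₁),
      ({κ : ℝ | 0 ≤ κ * (act w (Bv b β)).2 j + (act w (Ov U m ω)).2 j} ∩
       {κ : ℝ | κ * (act w (Bv b β)).2 j + (act w (Ov U m ω)).2 j
          ≤ n * p * κ + q * n * (1 - (s : ℝ)) / 2}) := by
    ext κ
    simp only [SlopeOK, Set.mem_ofPred_eq, Set.mem_iInter, Set.mem_inter_iff]
  rw [this]
  refine isClosed_biInter fun j _ => isClosed_iInter fun _ => IsClosed.inter ?_ ?_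
  · exact isClosed_le (by fun_prop) (by fun_prop)
  · exact isClosed_le (by fun_prop) (by fun_prop)

lemma nef_mono_l {b : ℝ} {β : U → ℝ} (hN : Nef (b, β)) {l l' z : ℝ} (h : l ≤ l')
    (hv : Nef (vec b β l z)) : Nef (vec b β l' z) := by
  have e : vec b β l' z = vec b β l z + (l' - l) • Bv b β := by
    ext i
    · simp only [vec, Bv, Prod.fst_add, Prod.smul_fst, smul_eq_mul]; ring
    · rcases i with u | i
      · simp only [vec, Bv, Prod.snd_add, Prod.smul_snd, Pi.add_apply, Pi.smul_apply, smul_eq_mul,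
          Sum.elim_inl]; ring
      · simp only [vec, Bv, Prod.snd_add, Prod.smul_snd, Pi.add_apply, Pi.smul_apply, smul_eq_mul,
          Sum.elim_inr, Pi.zero_apply]; ring
  rw [e]
  exact nef_add _ _ hv (nef_smul _ (by linarith) _ (nef_Bv b β hN))

/-- the bound coming from monotonicity and scaling -/
lemma nef_near (L : Loc b β p q s m ω γ ε₀ n S F w i₁) (ε : ℝ) (h0 : 0 < ε)
    (hz : 1 ≤ (p : ℝ) / q + s * ε) :
    Nef (vec b β (1 + ((1 + (s : ℝ)) * q / (2 * p)) * ε) ((p : ℝ) / q + s * ε)) := by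
  have hqr : (0 : ℝ) < q := by exact_mod_cast L.hq
  have hqp : (q : ℝ) ≤ p := by exact_mod_cast L.hqp
  have hpr : (0 : ℝ) < p := by linarith
  have hz0 : (0 : ℝ) < (p : ℝ) / q := by positivity
  have hb := (bridge b β L.hb L.hβ L.hN ((p : ℝ) / q) hz0 1 one_pos).1.mpr L.hN₀
  have hmono := ellBasic.2.2.2.2.2.1
  have hcap : ∀ k, 0 ≤ capW b β k := by
    intro k
    have h1 := hb k
    have h2 := (ellBasic.2.2.2.2.1 _ hz0 k).1
    linarith
  rcases L.hs with hs | ⟨hs, -⟩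
  · subst hs
    have hl : 0 < 1 + ((1 + ((1 : ℤ) : ℝ)) * q / (2 * p)) * ε := by positivity
    refine (bridge b β L.hb L.hβ L.hN _ (by linarith) _ hl).1.mp ?_
    intro k
    have h1 := (hmono ((p : ℝ) / q) ((p : ℝ) / q + ((1 : ℤ) : ℝ) * ε) hz0 (by push_cast; linarith) k).2
    have e : ((p : ℝ) / q + ((1 : ℤ) : ℝ) * ε) / ((p : ℝ) / q) =
        1 + ((1 + ((1 : ℤ) : ℝ)) * q / (2 * p)) * ε := by
      push_cast; field_simp; ring
    rw [e] at h1
    have h2 := hb k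
    calc _ ≤ _ := h1
      _ ≤ (1 + ((1 + ((1 : ℤ) : ℝ)) * q / (2 * p)) * ε) * (1 * capW b β k) :=
        mul_le_mul_of_nonneg_left h2 hl.le
      _ = _ := by ring
  · subst hs
    have e : 1 + ((1 + ((-1 : ℤ) : ℝ)) * q / (2 * p)) * ε = 1 := by push_cast; ring
    rw [e]
    refine (bridge b β L.hb L.hβ L.hN _ (by linarith) _ one_pos).1.mp ?_
    intro k
    have h1 := (hmono ((p : ℝ) / q + ((-1 : ℤ) : ℝ) * ε) ((p : ℝ) / q) (by linarith)
      (by push_cast; linarith) k).1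
    exact le_trans h1 (hb k)

lemma sqrt_low (x : ℝ) (hx : -1 ≤ x) : 1 + x / 2 - x ^ 2 / 2 ≤ √(1 + x) := by
  by_cases h : 0 ≤ 1 + x / 2 - x ^ 2 / 2
  · apply Real.le_sqrt_of_sq_le
    have hx2 : x ≤ 2 := by nlinarith
    nlinarith [sq_nonneg x, sq_nonneg (x * x), mul_nonneg (sq_nonneg x) (by linarith : 0 ≤ 1 + x),
      mul_nonneg (sq_nonneg x) (by linarith : 0 ≤ 2 - x),
      mul_nonneg (mul_nonneg (sq_nonneg x) (by linarith : 0 ≤ 1 + x)) (by linarith : 0 ≤ 2 - x)]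
  · push Not at h
    exact le_trans h.le (Real.sqrt_nonneg _)

/-- necessary conditions in terms of the slope, including the volume -/
lemma slope_of_nef (L : Loc b β p q s m ω γ ε₀ n S F w i₁) (ε : ℝ) (h0 : 0 < ε)
    (h1 : ε < ε₀) (h2 : ε ≤ (p : ℝ) / q) (l : ℝ)
    (hvolb : √(((p : ℝ) / q + s * ε) / ((p : ℝ) / q)) ≤ l)
    (hN : Nef (vec b β l ((p : ℝ) / q + s * ε))) :
    SlopeOK b β p q s m ω n S w i₁ ((l - 1) / ε) ∧
      (q : ℝ) ≤ n * p * ((l - 1) / ε) + q * n * (1 - (s : ℝ)) / 2 ∧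
      (s : ℝ) * q / (2 * p) - ε * (q / p) ^ 2 / 2 ≤ (l - 1) / ε := by
  have hqr : (0 : ℝ) < q := by exact_mod_cast L.hq
  have hqp : (q : ℝ) ≤ p := by exact_mod_cast L.hqp
  have hpr : (0 : ℝ) < p := by linarith
  have e : 1 + (l - 1) / ε * ε = l := by field_simp; ring
  have hN' : Nef (vec b β (1 + (l - 1) / ε * ε) ((p : ℝ) / q + s * ε)) := by rw [e]; exact hN
  obtain ⟨a1, a2⟩ := loc_lower L ((l - 1) / ε) ε h0 h1 hN'
  refine ⟨a1, a2, ?_⟩
  have hs2 : (s : ℝ) ^ 2 = 1 := by rcases L.hs with h | ⟨h, -⟩ <;> rw [h] <;> norm_num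
  have hs1 : -1 ≤ (s : ℝ) ∧ (s : ℝ) ≤ 1 := by
    rcases L.hs with h | ⟨h, -⟩ <;> rw [h] <;> norm_num
  have e2 : ((p : ℝ) / q + s * ε) / ((p : ℝ) / q) = 1 + s * ε * (q / p) := by field_simp
  rw [e2] at hvolb
  have hx : -1 ≤ s * ε * (q / p) := by
    have h3 : ε * (q / p) ≤ 1 := by
      rw [← le_div_iff₀ (by positivity)]
      refine le_trans h2 (le_of_eq ?_)
      field_simp
    have h4 : 0 ≤ ε * (q / p) := by positivity
    have : s * ε * (q / p) = s * (ε * (q / p)) := by ring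
    rw [this]
    nlinarith [hs1.1, hs1.2]
  have h5 := le_trans (sqrt_low _ hx) hvolb
  rw [le_div_iff₀ h0]
  have e3 : (s * ε * (q / p)) ^ 2 = ε ^ 2 * (q / p) ^ 2 := by
    rw [mul_pow, mul_pow, hs2]; ring
  rw [e3] at h5
  have e4 : ((s : ℝ) * q / (2 * p) - ε * (q / p) ^ 2 / 2) * ε
      = s * ε * (q / p) / 2 - ε ^ 2 * (q / p) ^ 2 / 2 := by
    field_simp
  rw [e4]; linarith

/-- assembly from a critical slope -/
lemma assemble (L : Loc b β p q s m ω γ ε₀ n S F w i₁)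
    (hvolb : ∀ ε l : ℝ, 0 < ε → 1 ≤ (p : ℝ) / q + s * ε → 0 < l →
      Nef (vec b β l ((p : ℝ) / q + s * ε)) → √(((p : ℝ) / q + s * ε) / ((p : ℝ) / q)) ≤ l)
    (hz1 : ∃ δ > 0, ∀ ε : ℝ, 0 < ε → ε < δ → 1 ≤ (p : ℝ) / q + s * ε)
    (κs ρ : ℝ) (hκ1 : SlopeOK b β p q s m ω n S w i₁ κs)
    (hκ2 : ∀ κ, (s : ℝ) * q / (2 * p) - 1 ≤ κ → SlopeOK b β p q s m ω n S w i₁ κ → κs ≤ κ)
    (hρ1 : 1 ≤ ρ) (hρ2 : 1 - ρ / 2 < 1 / n)
    (hρ3 : ρ * q ≤ n * p * κs + q * n * (1 - (s : ℝ)) / 2 ∨ ρ < n / 2) :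
    ∃ κs δ : ℝ, 0 < δ ∧ ∀ ε : ℝ, 0 < ε → ε < δ → ∀ l : ℝ, 0 < l →
      (Nef (vec b β l ((p : ℝ) / q + s * ε)) ↔
        max (√(((p : ℝ) / q + s * ε) / ((p : ℝ) / q))) (1 + κs * ε) ≤ l) := by
  have hqr : (0 : ℝ) < q := by exact_mod_cast L.hq
  have hnr : (0 : ℝ) < n := by exact_mod_cast L.hn
  have hqp : (q : ℝ) ≤ p := by exact_mod_cast L.hqp
  have hpr : (0 : ℝ) < p := by linarith
  obtain ⟨δ₁, hδ₁, hz1⟩ := hz1
  have hs1 : -1 ≤ (s : ℝ) ∧ (s : ℝ) ≤ 1 := by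
    rcases L.hs with h | ⟨h, -⟩ <;> rw [h] <;> norm_num
  have hs2 : (s : ℝ) ^ 2 = 1 := by rcases L.hs with h | ⟨h, -⟩ <;> rw [h] <;> norm_num
  set K : ℝ := |κs| + 2 with hK
  obtain ⟨δ₂, hδ₂, hup⟩ := loc_upper L ρ K hρ1 hρ2
  -- small enough
  obtain ⟨δ₃, hδ₃, hδ₃'⟩ : ∃ δ₃ > 0, ∀ ε : ℝ, 0 < ε → ε < δ₃ → ρ < n / 2 →
      ρ * q ≤ n * p * ((s : ℝ) * q / (2 * p) - ε * (q / p) ^ 2 / 2)
        + q * n * (1 - (s : ℝ)) / 2 := by
    by_cases hρ : ρ < n / 2
    · refine ⟨(n / 2 - ρ) * q / (n * p * (q / p) ^ 2 / 2), by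
        apply div_pos (mul_pos (by linarith) hqr); positivity, fun ε h0 h1 _ => ?_⟩
      rw [lt_div_iff₀ (by positivity)] at h1
      have e : n * p * ((s : ℝ) * q / (2 * p) - ε * (q / p) ^ 2 / 2) + q * n * (1 - (s : ℝ)) / 2
          = q * (n / 2) - ε * (n * p * (q / p) ^ 2 / 2) := by
        field_simp; ring
      rw [e]; linarith
    · exact ⟨1, one_pos, fun ε _ _ h => absurd h hρ⟩
  refine ⟨κs, min (min δ₁ δ₂) (min δ₃ (min ε₀ (min ((p : ℝ) / q) (1 / ((q / p) ^ 2 / 2))))), ?_, ?_⟩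
  · have := L.hε₀
    refine lt_min (lt_min hδ₁ hδ₂) (lt_min hδ₃ (lt_min this (lt_min (by positivity) (by positivity))))
  intro ε h0 h1 l hl
  simp only [lt_min_iff] at h1
  obtain ⟨⟨g1, g2⟩, g3, g4, g5, g6⟩ := h1
  rw [lt_div_iff₀ (by positivity)] at g6
  have hz := hz1 ε h0 g1
  constructor
  · intro hN
    have v1 := hvolb ε l h0 hz hl hN
    obtain ⟨a1, a2, a3⟩ := slope_of_nef L ε h0 g4 g5.le l v1 hN
    have := hκ2 _ (by linarith) a1
    rw [le_div_iff₀ h0] at this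
    exact max_le v1 (by linarith)
  · intro hmax
    set lam := max (√(((p : ℝ) / q + s * ε) / ((p : ℝ) / q))) (1 + κs * ε) with hlam
    apply nef_mono_l L.hN hmax
    have e : 1 + (lam - 1) / ε * ε = lam := by field_simp; ring
    have k1 : κs ≤ (lam - 1) / ε := by
      rw [le_div_iff₀ h0]
      have := le_max_right (√(((p : ℝ) / q + s * ε) / ((p : ℝ) / q))) (1 + κs * ε)
      linarith
    have e2 : ((p : ℝ) / q + s * ε) / ((p : ℝ) / q) = 1 + s * ε * (q / p) := by field_simp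
    have hx : -1 ≤ s * ε * (q / p) := by
      have h3 : ε * (q / p) ≤ 1 := by
        rw [← le_div_iff₀ (by positivity)]
        refine le_trans g5.le (le_of_eq ?_)
        field_simp
      have h4 : 0 ≤ ε * (q / p) := by positivity
      have : s * ε * (q / p) = s * (ε * (q / p)) := by ring
      rw [this]
      nlinarith [hs1.1, hs1.2]
    have k2 : (s : ℝ) * q / (2 * p) - ε * (q / p) ^ 2 / 2 ≤ (lam - 1) / ε := by
      have h5 : √(((p : ℝ) / q + s * ε) / ((p : ℝ) / q)) ≤ lam := le_max_left _ _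
      rw [e2] at h5
      have h6 := le_trans (sqrt_low _ hx) h5
      rw [le_div_iff₀ h0]
      have e3 : (s * ε * (q / p)) ^ 2 = ε ^ 2 * (q / p) ^ 2 := by
        rw [mul_pow, mul_pow, hs2]; ring
      rw [e3] at h6
      have e4 : ((s : ℝ) * q / (2 * p) - ε * (q / p) ^ 2 / 2) * ε
          = s * ε * (q / p) / 2 - ε ^ 2 * (q / p) ^ 2 / 2 := by
        field_simp
      rw [e4]; linarith
    have k3 : (lam - 1) / ε ≤ |κs| + 1 := by
      rw [div_le_iff₀ h0]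
      have h7 : lam ≤ 1 + (|κs| + 1) * ε := by
        rw [hlam]
        apply max_le
        · rw [e2, Real.sqrt_le_left (by positivity)]
          have hqp1 : (q : ℝ) / p ≤ 1 := by rw [div_le_one hpr]; exact hqp
          have hqp0 : 0 < (q : ℝ) / p := by positivity
          have h8 : s * ε * (q / p) ≤ ε := by
            have : s * ε * (q / p) ≤ 1 * ε * (q / p) := by
              apply mul_le_mul_of_nonneg_right _ hqp0.le
              exact mul_le_mul_of_nonneg_right hs1.2 h0.le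
            nlinarith
          have := abs_nonneg κs
          nlinarith [mul_nonneg this h0.le, sq_nonneg ((|κs| + 1) * ε)]
        · have := le_abs_self κs
          nlinarith
      linarith
    have k4 : |(lam - 1) / ε| ≤ K := by
      rw [abs_le, hK]
      refine ⟨?_, by linarith⟩
      have := neg_abs_le κs
      linarith
    rw [← e]
    apply hup ε h0 g2 _ k4 (slope_mono L k1 hκ1)
    · rcases hρ3 with h | h
      · refine le_trans h ?_
        have : (n : ℝ) * p * κs ≤ n * p * ((lam - 1) / ε) :=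
          mul_le_mul_of_nonneg_left k1 (by positivity)
        linarith
      · refine le_trans (hδ₃' ε h0 g3 h) ?_
        have : (n : ℝ) * p * ((s : ℝ) * q / (2 * p) - ε * (q / p) ^ 2 / 2)
          ≤ n * p * ((lam - 1) / ε) := mul_le_mul_of_nonneg_left k2 (by positivity)
        linarith
    · rw [e]; exact le_max_left _ _

/-- the local theorem, given the local structure -/
theorem loc_main (L : Loc b β p q s m ω γ ε₀ n S F w i₁)
    (hvolb : ∀ ε l : ℝ, 0 < ε → 1 ≤ (p : ℝ) / q + s * ε → 0 < l →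
      Nef (vec b β l ((p : ℝ) / q + s * ε)) → √(((p : ℝ) / q + s * ε) / ((p : ℝ) / q)) ≤ l) :
    ∃ κs δ : ℝ, 0 < δ ∧ ∀ ε : ℝ, 0 < ε → ε < δ → ∀ l : ℝ, 0 < l →
      (Nef (vec b β l ((p : ℝ) / q + s * ε)) ↔
        max (√(((p : ℝ) / q + s * ε) / ((p : ℝ) / q))) (1 + κs * ε) ≤ l) := by
  have hqr : (0 : ℝ) < q := by exact_mod_cast L.hq
  have hnr : (0 : ℝ) < n := by exact_mod_cast L.hn
  have hqp : (q : ℝ) ≤ p := by exact_mod_cast L.hqp
  have hpr : (0 : ℝ) < p := by linarith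
  have hs1 : -1 ≤ (s : ℝ) ∧ (s : ℝ) ≤ 1 := by
    rcases L.hs with h | ⟨h, -⟩ <;> rw [h] <;> norm_num
  have hz1 : ∃ δ > 0, ∀ ε : ℝ, 0 < ε → ε < δ → 1 ≤ (p : ℝ) / q + s * ε := by
    rcases L.hs with h | ⟨h, hp1⟩
    · refine ⟨1, one_pos, fun ε h0 _ => ?_⟩
      have : 1 ≤ (p : ℝ) / q := by rw [le_div_iff₀ hqr]; linarith
      rw [h]; push_cast; linarith
    · have hlt : q < p := by
        rcases lt_or_eq_of_le L.hqp with h' | h'
        · exact h'
        · exfalso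
          have := L.hcop
          rw [h'] at this
          simp at this
          omega
      have hlt' : (q : ℝ) < p := by exact_mod_cast hlt
      have h1 : 1 < (p : ℝ) / q := by rw [lt_div_iff₀ hqr]; linarith
      refine ⟨(p : ℝ) / q - 1, by linarith, fun ε h0 h1 => ?_⟩
      rw [h]; push_cast; linarith
  -- monotonicity slope
  have hκ₁ : SlopeOK b β p q s m ω n S w i₁ ((1 + (s : ℝ)) * q / (2 * p)) := by
    obtain ⟨δ, hδ, hδ'⟩ := hz1
    set ε := min δ ε₀ / 2 with hε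
    have hε0 : 0 < ε := by
      have := lt_min hδ L.hε₀
      positivity
    have hεδ : ε < δ := by
      have := min_le_left δ ε₀
      linarith
    have hεε : ε < ε₀ := by
      have := min_le_right δ ε₀
      linarith
    exact (loc_lower L _ ε hε0 hεε (nef_near L ε hε0 (hδ' ε hε0 hεδ))).1
  by_cases hn1 : n = 1
  · -- case `n = 1`
    subst hn1
    obtain ⟨δ, hδ, hδ'⟩ := hz1
    refine ⟨(1 + (s : ℝ)) * q / (2 * p), min δ (min ε₀ ((p : ℝ) / q)),
      lt_min hδ (lt_min L.hε₀ (by positivity)), fun ε h0 h1 l hl => ?_⟩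
    simp only [lt_min_iff] at h1
    obtain ⟨g1, g2, g3⟩ := h1
    have hz := hδ' ε h0 g1
    constructor
    · intro hN
      have v1 := hvolb ε l h0 hz hl hN
      obtain ⟨-, a2, -⟩ := slope_of_nef L ε h0 g2 g3.le l v1 hN
      refine max_le v1 ?_
      have : (1 + (s : ℝ)) * q / (2 * p) ≤ (l - 1) / ε := by
        rw [div_le_iff₀ (by positivity)]
        push_cast at a2
        nlinarith
      rw [le_div_iff₀ h0] at this
      linarith
    · intro hmax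
      exact nef_mono_l L.hN (le_trans (le_max_right _ _) hmax) (nef_near L ε h0 hz)
  by_cases hsp : n = 2 ∧ s = 1 ∧ q = 1
  · -- special case
    obtain ⟨h1, h2, h3⟩ := hsp
    subst h1; subst h2; subst h3
    obtain ⟨δ, hδ, hδ'⟩ := hz1
    refine ⟨1 / (2 * p), min δ (min ε₀ ((p : ℝ) / (1 : ℕ))),
      lt_min hδ (lt_min L.hε₀ (by positivity)), fun ε h0 h1 l hl => ?_⟩
    simp only [lt_min_iff] at h1
    obtain ⟨g1, g2, g3⟩ := h1
    have hz := hδ' ε h0 g1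
    constructor
    · intro hN
      have v1 := hvolb ε l h0 hz hl hN
      obtain ⟨-, a2, -⟩ := slope_of_nef L ε h0 g2 g3.le l v1 hN
      refine max_le v1 ?_
      have : 1 / (2 * (p : ℝ)) ≤ (l - 1) / ε := by
        rw [div_le_iff₀ (by positivity)]
        push_cast at a2
        nlinarith
      rw [le_div_iff₀ h0] at this
      linarith
    · intro hmax
      have h4 := loc_special L ε h0
      have e1 : 1 + ε / (2 * p) = 1 + 1 / (2 * (p : ℝ)) * ε := by ring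
      have e2 : (p : ℝ) + ε = (p : ℝ) / ((1 : ℕ) : ℝ) + ((1 : ℤ) : ℝ) * ε := by push_cast; ring
      rw [e1, e2] at h4
      exact nef_mono_l L.hN (le_trans (le_max_right _ _) hmax) h4
  -- general case: the critical slope
  set A : Set ℝ := {κ : ℝ | (s : ℝ) * q / (2 * p) - 1 ≤ κ ∧ SlopeOK b β p q s m ω n S w i₁ κ} with hA
  have hAc : IsClosed A := IsClosed.inter isClosed_Ici (slope_closed b β p q s m ω n S w i₁)
  have hAne : A.Nonempty := by
    refine ⟨(1 + (s : ℝ)) * q / (2 * p), ?_, hκ₁⟩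
    have e : (1 + (s : ℝ)) * q / (2 * p) = (s : ℝ) * q / (2 * p) + q / (2 * p) := by ring
    have : 0 < (q : ℝ) / (2 * p) := by positivity
    rw [e]; linarith
  have hAb : BddBelow A := ⟨(s : ℝ) * q / (2 * p) - 1, fun κ hκ => hκ.1⟩
  have hmem := hAc.csInf_mem hAne hAb
  by_cases hn2 : n = 2
  · -- strict case
    subst hn2
    have hsq : s = -1 ∨ 1 < q := by
      by_contra hcon
      push Not at hcon
      apply hsp
      refine ⟨rfl, ?_, ?_⟩
      · rcases L.hs with h | ⟨h, -⟩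
        · exact h
        · exact absurd h hcon.1
      · have := L.hq
        omega
    have hnot : ¬ SlopeOK b β p q s m ω 2 S w i₁ ((s : ℝ) * q / (2 * p)) := by
      intro h
      apply loc_strict L hsq
      intro j hj hji
      obtain ⟨h1, h2⟩ := h j hj hji
      refine ⟨h1, le_trans h2 (le_of_eq ?_)⟩
      push_cast
      field_simp
      ring
    have hlt : (s : ℝ) * q / (2 * p) < sInf A := by
      by_contra hcon
      push Not at hcon
      exact hnot (slope_mono L hcon hmem.2)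
    have hq1 : (q : ℝ) < (2 : ℕ) * p * sInf A + q * (2 : ℕ) * (1 - (s : ℝ)) / 2 := by
      have h1 : (2 : ℝ) * p * ((s : ℝ) * q / (2 * p)) < 2 * p * sInf A :=
        mul_lt_mul_of_pos_left hlt (by positivity)
      have h2 : (2 : ℝ) * p * ((s : ℝ) * q / (2 * p)) = s * q := by field_simp
      rw [h2] at h1
      push_cast
      linarith
    have hρ : 1 < ((2 : ℕ) * p * sInf A + q * (2 : ℕ) * (1 - (s : ℝ)) / 2) / q := by
      rw [lt_div_iff₀ hqr]; linarith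
    refine assemble L hvolb hz1 (sInf A)
      (((2 : ℕ) * p * sInf A + q * (2 : ℕ) * (1 - (s : ℝ)) / 2) / q) hmem.2
      (fun κ h1 h2 => csInf_le hAb ⟨h1, h2⟩) hρ.le (by push_cast at hρ ⊢; linarith) (Or.inl ?_)
    rw [div_mul_cancel₀ _ hqr.ne']
  · -- `n ≥ 3`
    have hn3 : 3 ≤ n := by
      have := L.hn
      omega
    have hn3r : (3 : ℝ) ≤ n := by exact_mod_cast hn3
    refine assemble L hvolb hz1 (sInf A) (n / 2 - 1 / 10) hmem.2
      (fun κ h1 h2 => csInf_le hAb ⟨h1, h2⟩) (by linarith) ?_ (Or.inr (by linarith))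
    rw [lt_div_iff₀ hnr]
    nlinarith

end

/-- the embedding function near a rational point with positive excess, scaled form -/
theorem m5 {U : Type*} [DecidableEq U] (b : ℝ) (β : U → ℝ) (hb : 0 < b)
    (hβ : ∀ u, 0 ≤ β u) (hsum : Summable β) (hN : Nef (b, β)) (p q : ℕ) (hq : 0 < q) (hqp : q ≤ p)
    (hcop : p.Coprime q) (s : ℤ) (hs : s = 1 ∨ (s = -1 ∧ 1 < p))
    (hvol : b ^ 2 - ∑' u, β u ^ 2 = (p : ℝ) / q) (hN₀ : Nef (vec b β 1 ((p : ℝ) / q)))
    (hκ : 0 < 3 * b - ∑' u, β u - (1 + (p : ℝ) / q - 1 / q)) :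
    ∃ κs δ : ℝ, 0 < δ ∧ ∀ ε : ℝ, 0 < ε → ε < δ → ∀ l : ℝ, 0 < l →
      (Nef (vec b β l ((p : ℝ) / q + s * ε)) ↔
        max (√(((p : ℝ) / q + s * ε) / ((p : ℝ) / q))) (1 + κs * ε) ≤ l) := by
  obtain ⟨m, ω, γ, ε₀, n, S, F, w, i₁, L⟩ :=
    exists_loc b β hb hβ hsum hN p q hq hqp hcop s hs hvol hN₀ hκ
  apply loc_main L
  intro ε l _ hz hl hN'
  have hqr : (0 : ℝ) < q := by exact_mod_cast hq
  have hpr : (0 : ℝ) < p := by exact_mod_cast lt_of_lt_of_le hq hqp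
  have hpq : (0 : ℝ) < (p : ℝ) / q := by positivity
  have := vol_bound b β hb hβ hsum (by linarith) _ l hz hl hN'
  rwa [hvol] at this

end Pool.Agent.Helper416_Stair
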