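import Mathlib

/-!
# Infinite staircases: the definitions used in the statement (helper416)

The toric domain `X_Ω` enters only through `Ω`, its ECH capacities `echCap Ω k`, its volume `2 area Ω` and its affine
perimeter `affPer Ω`; the ellipsoid `E(1, a)` enters through its ECH capacities `ellCap 1 a k`.  The ellipsoid embedding
function is `cfun (echCap Ω) a`, the infimum of the `l > 0` with `ellCap 1 a k ≤ l * echCap Ω k` for all `k`.
-/

noncomputable section

open scoped BigOperators Pointwise

namespace Pool.Agent.Helper416_Stair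

/-- number of lattice points `(m, n)`, `m, n ≥ 0`, with `m x + n y ≤ L` -/
def latCount (x y L : ℝ) : ℕ := Set.ncard {p : ℕ × ℕ | (p.1 : ℝ) * x + (p.2 : ℝ) * y ≤ L}

/-- the `k`-th ECH capacity of the ellipsoid `E(x, y)`: the `(k+1)`-st smallest number
`m x + n y`, `m, n ≥ 0`, with repetition -/
def ellCap (x y : ℝ) (k : ℕ) : ℝ := sInf {L : ℝ | 0 ≤ L ∧ k + 1 ≤ latCount x y L}

/-- the ellipsoid embedding function of a target with ECH capacities `cap`: the infimum of the
`l > 0` such that every ECH capacity of `E(1, z)` is at most `l` times that of the target -/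
def cfun (cap : ℕ → ℝ) (z : ℝ) : ℝ := sInf {l : ℝ | 0 < l ∧ ∀ k, ellCap 1 z k ≤ l * cap k}

/-- support function of `K` at the integral vector `v` -/
def suppF (K : Set (ℝ × ℝ)) (v : ℤ × ℤ) : ℝ :=
  sSup ((fun x : ℝ × ℝ => (v.1 : ℝ) * x.1 + (v.2 : ℝ) * x.2) '' K)

/-- twice the mixed area: `area (A + B) - area A - area B` -/
def mixedArea (A B : Set (ℝ × ℝ)) : ℝ :=
  (MeasureTheory.volume (A + B)).toReal - (MeasureTheory.volume A).toReal
    - (MeasureTheory.volume B).toReal

/-- a lattice point as a point of the plane -/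
def emb (z : ℤ × ℤ) : ℝ × ℝ := ((z.1 : ℝ), (z.2 : ℝ))

/-- convex hull of a finite set of lattice points -/
def latHull (P : Finset (ℤ × ℤ)) : Set (ℝ × ℝ) := convexHull ℝ (emb '' (P : Set (ℤ × ℤ)))

/-- number of lattice points of a set -/
def latPts (K : Set (ℝ × ℝ)) : ℕ := Set.ncard {z : ℤ × ℤ | emb z ∈ K}

/-- the `k`-th ECH capacity of the toric domain of `Ω` -/
def echCap (Ω : Set (ℝ × ℝ)) (k : ℕ) : ℝ :=
  sInf {L : ℝ | ∃ P : Finset (ℤ × ℤ), P.Nonempty ∧ latPts (latHull P) = k + 1 ∧
    L = mixedArea Ω (latHull P)}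

/-- lattice length of the face of `K` with outer normal `v` (for `v` primitive): the largest `t`
such that two points of the face differ by `t` times the primitive direction `(-v.2, v.1)` -/
def faceLen (K : Set (ℝ × ℝ)) (v : ℤ × ℤ) : ℝ :=
  sSup {t : ℝ | ∃ x ∈ K, (v.1 : ℝ) * x.1 + (v.2 : ℝ) * x.2 = suppF K v ∧
    (x.1 - t * v.2, x.2 + t * v.1) ∈ K}

/-- the affine perimeter: the sum of the lattice lengths of the maximal segments of rational slope
in the boundary, one for each primitive outer normal -/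
def affPer (K : Set (ℝ × ℝ)) : ℝ := ∑' v : {v : ℤ × ℤ // IsCoprime v.1 v.2}, faceLen K v.1

/-- the embedding function of `X_Ω` has infinitely many non-smooth points in a compact interval -/
def HasInfiniteStaircase (Ω : Set (ℝ × ℝ)) : Prop :=
  ∃ R : ℝ, {a : ℝ | 1 ≤ a ∧ a ≤ R ∧ ¬ ContDiffAt ℝ (⊤ : ℕ∞) (cfun (echCap Ω)) a}.Infinite

end Pool.Agent.Helper416_Stair
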